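import Mathlib

/-!
Definitions shared by the modules for the Banach-Mazur distance to the cube.
-/

set_option autoImplicit false

namespace BMCube

open Matrix

/-- `det (t I + ∑ y_i y_iᵀ)` for a family of `d` vectors of `ℝ^d`. -/
noncomputable def F {d : ℕ} (Y : Fin d → Fin d → ℝ) (t : ℝ) : ℝ :=
  (t • (1 : Matrix (Fin d) (Fin d) ℝ) + ∑ i, vecMulVec (Y i) (Y i)).det

/-- `t I + ∑_{j ≠ i} y_j y_jᵀ`. -/
noncomputable def S0 {d : ℕ} (Y : Fin d → Fin d → ℝ) (t : ℝ) (i : Fin d) :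
    Matrix (Fin d) (Fin d) ℝ :=
  t • (1 : Matrix (Fin d) (Fin d) ℝ) + ∑ j ∈ Finset.univ.erase i, vecMulVec (Y j) (Y j)

/-- The quadratic form of the inverse of `S0`. -/
noncomputable def q {d : ℕ} (Y : Fin d → Fin d → ℝ) (t : ℝ) (i : Fin d) (u : Fin d → ℝ) : ℝ :=
  u ⬝ᵥ ((S0 Y t i)⁻¹ *ᵥ u)

end BMCube
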