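import Mathlib

/-!
# MP_766f4a_gt, module JOHN: John's theorem for symmetric bodies
-/

set_option autoImplicit false

namespace BMCube

open Matrix

namespace John

variable {d : ℕ}

lemma cs (a b : Fin d → ℝ) : (a ⬝ᵥ b) ^ 2 ≤ (a ⬝ᵥ a) * (b ⬝ᵥ b) := by
  have := Finset.sum_mul_sq_le_sq_mul_sq Finset.univ a b
  simpa [dotProduct, sq] using this

/-- the linear map with columns `Y j` -/
def A (Y : Fin d → Fin d → ℝ) (y : Fin d → ℝ) : Fin d → ℝ := ∑ j, y j • Y j

lemma A_neg (Y : Fin d → Fin d → ℝ) (y : Fin d → ℝ) : A Y (-y) = -A Y y := by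
  simp [A]

lemma A_eq (Y : Fin d → Fin d → ℝ) (y : Fin d → ℝ) : A Y y = (Matrix.of Y)ᵀ *ᵥ y := by
  ext i
  simp [A, mulVec, dotProduct, Finset.sum_apply, mul_comm]

lemma step (C : Set (Fin d → ℝ)) (hcl : IsClosed C) (hconv : Convex ℝ C)
    (hsymm : ∀ x ∈ C, -x ∈ C) (Y : Fin d → Fin d → ℝ) (hY : ∀ y, y ⬝ᵥ y ≤ 1 → A Y y ∈ C)
    (x : Fin d → ℝ) (hx : A Y x ∈ C) (M : Matrix (Fin d) (Fin d) ℝ) (hM : Mᵀ = M)
    (ε : ℝ) (hε0 : 0 ≤ ε) (hε1 : ε ≤ 1)
    (hMM : M * M = (1 - ε) • (1 : Matrix (Fin d) (Fin d) ℝ) + ε • vecMulVec x x)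
    (y : Fin d → ℝ) (hy : y ⬝ᵥ y ≤ 1) : A Y (M *ᵥ y) ∈ C := by
  by_contra hcon
  obtain ⟨f, s, hf, hs⟩ := geometric_hahn_banach_closed_point hconv hcl hcon
  set w : Fin d → ℝ := fun j => f (Y j) with hw
  have hfA : ∀ z, f (A Y z) = w ⬝ᵥ z := by
    intro z
    simp [A, hw, dotProduct, mul_comm]
  have hs0 : 0 < s := by
    have h := hf _ (hY 0 (by simp))
    rw [hfA] at h
    simpa using h
  have hww : w ⬝ᵥ w ≤ s ^ 2 := by
    have hn : 0 ≤ w ⬝ᵥ w := by
      simp only [dotProduct]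
      exact Finset.sum_nonneg fun i _ => mul_self_nonneg _
    rcases hn.eq_or_lt with h0 | h0
    · rw [← h0]; positivity
    · set n := Real.sqrt (w ⬝ᵥ w) with hndef
      have hn1 : 0 < n := Real.sqrt_pos.2 h0
      have hn2 : n * n = w ⬝ᵥ w := Real.mul_self_sqrt hn
      have h1 := hf _ (hY (n⁻¹ • w) (by
        rw [smul_dotProduct, dotProduct_smul, ← hn2, smul_eq_mul, smul_eq_mul]
        field_simp
        rfl))
      rw [hfA, dotProduct_smul, ← hn2, smul_eq_mul, ← mul_assoc, inv_mul_cancel₀ hn1.ne',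
        one_mul] at h1
      nlinarith
  have hwx : (w ⬝ᵥ x) ^ 2 ≤ s ^ 2 := by
    have h1 := hf _ hx
    have h2 := hf _ (hsymm _ hx)
    rw [← A_neg, hfA, dotProduct_neg] at h2
    rw [hfA] at h1
    exact sq_le_sq' (by linarith) h1.le
  have hMw : (M *ᵥ w) ⬝ᵥ (M *ᵥ w) ≤ s ^ 2 := by
    have h1 : (M *ᵥ w) ⬝ᵥ (M *ᵥ w) = w ⬝ᵥ ((M * M) *ᵥ w) := by
      rw [← mulVec_mulVec, dotProduct_mulVec w M, ← mulVec_transpose, hM]
    rw [h1, hMM, add_mulVec, smul_mulVec, one_mulVec, smul_mulVec, vecMulVec_mulVec,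
      dotProduct_add, dotProduct_smul, dotProduct_smul]
    have h2 : w ⬝ᵥ (MulOpposite.op (x ⬝ᵥ w) • x) = (w ⬝ᵥ x) ^ 2 := by
      rw [op_smul_eq_smul, dotProduct_smul, smul_eq_mul, dotProduct_comm x w, sq]
    rw [h2, smul_eq_mul, smul_eq_mul]
    nlinarith
  have h3 : w ⬝ᵥ (M *ᵥ y) = (M *ᵥ w) ⬝ᵥ y := by
    rw [dotProduct_mulVec, ← mulVec_transpose, hM]
  rw [hfA, h3] at hs
  have h4 := cs (M *ᵥ w) y
  have h5 : 0 ≤ (M *ᵥ w) ⬝ᵥ (M *ᵥ w) := by
    simp only [dotProduct]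
    exact Finset.sum_nonneg fun i _ => mul_self_nonneg _
  have h6 : ((M *ᵥ w) ⬝ᵥ y) ^ 2 ≤ s ^ 2 := by nlinarith
  have h7 := abs_le_of_sq_le_sq h6 hs0.le
  exact absurd ((le_abs_self _).trans h7) (not_le.2 hs)

/-- the stretching matrix -/
lemma exists_M (x : Fin d → ℝ) (hx : 0 < x ⬝ᵥ x) (ε : ℝ) (hε0 : 0 ≤ ε) (hε1 : ε ≤ 1) :
    ∃ M : Matrix (Fin d) (Fin d) ℝ, Mᵀ = M ∧
      M * M = (1 - ε) • (1 : Matrix (Fin d) (Fin d) ℝ) + ε • vecMulVec x x := by
  set R := x ⬝ᵥ x with hR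
  set α := Real.sqrt (1 - ε) with hα
  have hα2 : α * α = 1 - ε := Real.mul_self_sqrt (by linarith)
  set s := Real.sqrt (1 - ε + ε * R) with hs
  have hs2 : s * s = 1 - ε + ε * R := Real.mul_self_sqrt (by
    have := mul_nonneg hε0 hx.le
    linarith)
  set β := (s - α) / R with hβ
  have hβR : β * R = s - α := by rw [hβ]; field_simp
  refine ⟨α • 1 + β • vecMulVec x x, ?_, ?_⟩
  · rw [transpose_add, transpose_smul, transpose_smul, transpose_one, transpose_vecMulVec]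
  · have h1 : vecMulVec x x * vecMulVec x x = R • vecMulVec x x := by
      rw [vecMulVec_mul_vecMulVec]
      ext i j
      simp only [vecMulVec_apply, Matrix.smul_apply, Pi.smul_apply, smul_eq_mul, ← hR]
      ring
    rw [add_mul, mul_add, mul_add, smul_mul_smul_comm, smul_mul_smul_comm, smul_mul_smul_comm,
      smul_mul_smul_comm, one_mul, one_mul, mul_one, h1, hα2, smul_smul, add_assoc, ← add_smul,
      ← add_smul]
    congr 2
    have h2 : β * R * (β * R) = s * s - 2 * s * α + α * α := by rw [hβR]; ring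
    have h3 : (α * β + (β * α + β * β * R)) * R = ε * R := by
      have : (α * β + (β * α + β * β * R)) * R = 2 * α * (β * R) + β * R * (β * R) := by ring
      rw [this, h2, hβR, hs2, hα2]
      linear_combination 2 * (-hα2)
    exact mul_right_cancel₀ hx.ne' h3

lemma det_MM (x : Fin d → ℝ) (ε : ℝ) (hε1 : ε < 1) :
    ((1 - ε) • (1 : Matrix (Fin d) (Fin d) ℝ) + ε • vecMulVec x x).det =
      (1 - ε) ^ d * (1 + ε / (1 - ε) * (x ⬝ᵥ x)) := by
  have h0 : (1 - ε) ≠ 0 := by linarith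
  have h1 : (1 - ε) • (1 : Matrix (Fin d) (Fin d) ℝ) + ε • vecMulVec x x =
      (1 - ε) • (1 + replicateCol Unit ((ε / (1 - ε)) • x) * replicateRow Unit x) := by
    rw [← vecMulVec_eq, smul_add]
    congr 1
    ext i j
    simp only [Matrix.smul_apply, vecMulVec_apply, Pi.smul_apply, smul_eq_mul]
    field_simp
  rw [h1, det_smul, det_one_add_replicateCol_mul_replicateRow, Fintype.card_fin,
    dotProduct_smul, smul_eq_mul]

lemma exists_eps (hd : 0 < d) (R : ℝ) (hR : (d : ℝ) < R) :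
    ∃ ε : ℝ, 0 < ε ∧ ε < 1 ∧ 1 < (1 - ε) ^ d * (1 + ε / (1 - ε) * R) := by
  have hd1 : (1 : ℝ) ≤ d := by exact_mod_cast hd
  have hRpos : 0 < R := by linarith
  set ε := (R - d) / (2 * d * R) with hε
  have hε0 : 0 < ε := by
    rw [hε]
    apply div_pos (by linarith)
    positivity
  have hεR : 2 * d * R * ε = R - d := by rw [hε]; field_simp
  have hε1 : ε < 1 := by
    rw [hε, div_lt_one (by positivity)]
    nlinarith
  refine ⟨ε, hε0, hε1, ?_⟩
  obtain ⟨k, rfl⟩ : ∃ k, d = k + 1 := ⟨d - 1, by omega⟩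
  have h1 : (1 - ε) ^ (k + 1) * (1 + ε / (1 - ε) * R) = (1 - ε) ^ k * (1 - ε + ε * R) := by
    have : 1 - ε ≠ 0 := by linarith
    rw [pow_succ]
    field_simp
  rw [h1]
  have h2 := one_add_mul_le_pow (show (-2 : ℝ) ≤ -ε by linarith) k
  rw [← sub_eq_add_neg] at h2
  have h3 : 0 < 1 - ε + ε * R := by nlinarith
  have h4 : (1 + (k : ℝ) * (-ε)) * (1 - ε + ε * R) ≤ (1 - ε) ^ k * (1 - ε + ε * R) :=
    mul_le_mul_of_nonneg_right h2 h3.le
  refine lt_of_lt_of_le ?_ h4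
  push_cast at hR hεR
  have h5 : (1 + (k : ℝ) * (-ε)) * (1 - ε + ε * R) =
      1 + ε * ((R - (k + 1)) - ε * (k * (R - 1))) := by ring
  rw [h5]
  have hk0 : (0 : ℝ) ≤ k := Nat.cast_nonneg k
  have h6 : ε * ((k : ℝ) * (R - 1)) ≤ (R - (k + 1)) / 2 := by
    have : ε * ((k : ℝ) * (R - 1)) ≤ ε * (((k : ℝ) + 1) * R) := by
      apply mul_le_mul_of_nonneg_left _ hε0.le
      nlinarith
    linarith
  have h7 : 0 < (R - (k + 1)) - ε * (k * (R - 1)) := by linarith
  have := mul_pos hε0 h7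
  linarith

end John

open John in
/-- MODULE JOHN: John's theorem for symmetric bodies. -/
theorem john {d : ℕ} (hd : 0 < d) (C : Set (Fin d → ℝ)) (hc : IsCompact C) (hconv : Convex ℝ C)
    (hsymm : ∀ x ∈ C, -x ∈ C) (hint : (interior C).Nonempty) :
    ∃ T : (Fin d → ℝ) ≃ₗ[ℝ] (Fin d → ℝ),
      (∀ x, x ⬝ᵥ x ≤ 1 → T x ∈ C) ∧ (∀ x, T x ∈ C → x ⬝ᵥ x ≤ d) := by
  -- a ball in `C`
  obtain ⟨ρ, hρ0, hρ⟩ : ∃ ρ : ℝ, 0 < ρ ∧ ∀ x : Fin d → ℝ, (∀ i, |x i| ≤ ρ) → x ∈ C := by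
    obtain ⟨p, hp⟩ := hint
    have hnp : -p ∈ interior C := by
      rw [mem_interior]
      refine ⟨(fun z => -z) ⁻¹' (interior C), fun z hz => ?_,
        isOpen_interior.preimage continuous_neg, ?_⟩
      · have := hsymm _ (interior_subset hz)
        rwa [neg_neg] at this
      · change -(-p) ∈ interior C
        rwa [neg_neg]
    have h0 : (0 : Fin d → ℝ) ∈ interior C := by
      have := hconv.interior hp hnp (show (0 : ℝ) ≤ 1 / 2 by norm_num)
        (show (0 : ℝ) ≤ 1 / 2 by norm_num) (by norm_num)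
      simpa using this
    rw [mem_interior_iff_mem_nhds, Metric.mem_nhds_iff] at h0
    obtain ⟨ρ, hρ, hb⟩ := h0
    refine ⟨ρ / 2, half_pos hρ, fun x hx => hb ?_⟩
    rw [mem_ball_zero_iff]
    refine lt_of_le_of_lt ((pi_norm_le_iff_of_nonneg (half_pos hρ).le).2 fun i => ?_)
      (half_lt_self hρ)
    rw [Real.norm_eq_abs]
    exact hx i
  -- the feasible set
  set K : Set (Fin d → Fin d → ℝ) := {Y | ∀ y, y ⬝ᵥ y ≤ 1 → A Y y ∈ C} with hK
  have hAcont : ∀ y : Fin d → ℝ, Continuous fun Y : Fin d → Fin d → ℝ => A Y y := by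
    intro y
    unfold A
    fun_prop
  have hKcl : IsClosed K := by
    rw [hK]
    simp only [Set.ofPred_forall]
    exact isClosed_iInter fun y => isClosed_iInter fun _ => hc.isClosed.preimage (hAcont y)
  have hKsub : K ⊆ Set.pi Set.univ (fun _ : Fin d => C) := by
    intro Y hY j _
    have h := hY (Pi.single j 1) (by simp)
    have h2 : A Y (Pi.single j 1) = Y j := by
      unfold A
      rw [Finset.sum_eq_single j]
      · simp
      · intro i _ hij
        simp [Pi.single_eq_of_ne hij]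
      · simp
    rwa [h2] at h
  have hKc : IsCompact K := (isCompact_univ_pi fun _ => hc).of_isClosed_subset hKcl hKsub
  have hball : ∀ y : Fin d → ℝ, y ⬝ᵥ y ≤ 1 → ∀ i, |y i| ≤ 1 := by
    intro y hy i
    have h1 : y i * y i ≤ y ⬝ᵥ y :=
      Finset.single_le_sum (f := fun i => y i * y i) (fun i _ => mul_self_nonneg _)
        (Finset.mem_univ i)
    exact abs_le_one_iff_mul_self_le_one.2 (h1.trans hy)
  set Y0 : Fin d → Fin d → ℝ := fun j => ρ • Pi.single j 1 with hY0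
  have hY0K : Y0 ∈ K := by
    intro y hy
    apply hρ
    intro i
    have h1 : A Y0 y i = ρ * y i := by
      simp only [A, hY0, Finset.sum_apply, Pi.smul_apply, smul_eq_mul]
      rw [Finset.sum_eq_single i]
      · simp [mul_comm]
      · intro j _ hji
        rw [Pi.single_eq_of_ne hji.symm]
        ring
      · simp
    rw [h1, abs_mul, abs_of_pos hρ0]
    have := hball y hy i
    nlinarith
  have hdet0 : 0 < (Matrix.of Y0).det ^ 2 := by
    have h1 : Matrix.of Y0 = ρ • (1 : Matrix (Fin d) (Fin d) ℝ) := by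
      ext i j
      simp only [hY0, Matrix.of_apply, Pi.smul_apply, Matrix.smul_apply, Matrix.one_apply,
        Pi.single_apply, smul_eq_mul]
      congr 1
      simp [eq_comm]
    rw [h1, det_smul, det_one]
    positivity
  have hcont : Continuous fun Y : Fin d → Fin d → ℝ => (Matrix.of Y).det ^ 2 := by
    refine Continuous.pow (Continuous.matrix_det ?_) 2
    exact continuous_id
  obtain ⟨Y, hYK, hYmax⟩ := hKc.exists_isMaxOn ⟨Y0, hY0K⟩ hcont.continuousOn
  have hD : 0 < (Matrix.of Y).det ^ 2 := lt_of_lt_of_le hdet0 (hYmax hY0K)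
  have hDne : (Matrix.of Y).det ≠ 0 := fun h => by rw [h] at hD; norm_num at hD
  have hunit : IsUnit ((Matrix.of Y)ᵀ).det := by
    rw [det_transpose]; exact hDne.isUnit
  let inv := Matrix.invertibleOfIsUnitDet _ hunit
  refine ⟨(Matrix.of Y)ᵀ.toLinearEquiv' inv, ?_, ?_⟩
  · intro x hx
    have : (Matrix.of Y)ᵀ.toLinearEquiv' inv x = A Y x := by
      rw [A_eq]; rfl
    rw [this]
    exact hYK x hx
  · intro x hx
    have hxA : (Matrix.of Y)ᵀ.toLinearEquiv' inv x = A Y x := by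
      rw [A_eq]; rfl
    rw [hxA] at hx
    by_contra hcon
    push Not at hcon
    obtain ⟨ε, hε0, hε1, hε⟩ := exists_eps hd (x ⬝ᵥ x) hcon
    have hd0 : (0 : ℝ) ≤ d := Nat.cast_nonneg d
    obtain ⟨M, hM, hMM⟩ := exists_M x (by linarith) ε hε0.le hε1.le
    set Y' : Fin d → Fin d → ℝ := Mᵀ * Matrix.of Y with hY'
    have hAY' : ∀ y, A Y' y = A Y (M *ᵥ y) := by
      intro y
      rw [A_eq, A_eq, mulVec_mulVec]
      congr 1
      change (Mᵀ * Matrix.of Y)ᵀ = _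
      rw [transpose_mul, transpose_transpose]
    have hY'K : Y' ∈ K := by
      intro y hy
      rw [hAY']
      exact step C hc.isClosed hconv hsymm Y hYK x hx M hM ε hε0.le hε1.le hMM y hy
    have h1 : (Matrix.of Y').det ^ 2 ≤ (Matrix.of Y).det ^ 2 := hYmax hY'K
    have h2 : (Matrix.of Y').det = M.det * (Matrix.of Y).det := by
      change (Mᵀ * Matrix.of Y).det = _
      rw [det_mul, det_transpose]
    have h3 : M.det ^ 2 = (1 - ε) ^ d * (1 + ε / (1 - ε) * (x ⬝ᵥ x)) := by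
      rw [sq, ← det_mul, hMM, det_MM x ε hε1]
    rw [h2, mul_pow, h3] at h1
    have h4 := (mul_lt_mul_iff_left₀ hD).2 hε
    linarith

end BMCube
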