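import Pool.Agent.Lib.MP_766f4a_gt.LStage

/-!
Module CHAIN: all stages.
-/

set_option autoImplicit false

namespace BMLow

open Matrix Finset MeasureTheory ProbabilityTheory

section Chain

variable {d : ℕ} {V : Type*} [Fintype V] [DecidableEq V]

theorem chain (z : V → Fin d → ℝ) {lam Φs W : ℝ} (hlam : 0 < lam) (hΦs : 0 < Φs)
    (Q : ℕ → ℝ) {sf s0 : ℕ} (hsf : sf ≤ s0) (hm : (Fintype.card V : ℝ) ≤ 2 ^ sf * (lam * Φs))
    {l lmax b : ℕ} {c : Fin d → ℕ} (hQ : ∀ s, sf < s → s ≤ s0 → 1 ≤ Q s)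
    (hG3 : ∀ s, sf < s → s ≤ s0 → ∀ (k : Fin d → Option V → ℤ) (S : Finset V),
      IsState s c k → S.card ≤ lmax → Phi lam (fam z s c k S) ≤ 6 * Φs →
      (exc z lam (Q s) (fam z s c k S)).card ≤ l)
    (hb : (5 * d * 2 ^ s0 : ℝ) < (8 / 5 : ℝ) ^ b) (hW : 1 + Real.log (5 * d * 2 ^ s0) ≤ W)
    (hd : 0 < d) (hl : (s0 - sf) * (l * b) ≤ lmax)
    (hgrow : ∑ s ∈ Finset.Ioc sf s0, 16 * (Q s / 2 ^ s) * W ≤ Real.log 2)
    {k : Fin d → Option V → ℤ} (hst : IsState s0 c k)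
    (hΦ : Phi lam (fam z s0 c k ∅) ≤ 2 * Φs) :
    ∃ (k' : Fin d → Option V → ℤ) (S' : Finset V), IsState sf c k' ∧ S'.card ≤ lmax ∧
      Phi lam (fam z sf c k' S') ≤ 6 * Φs := by
  have hd1 : (1 : ℝ) ≤ d := by exact_mod_cast hd
  have hW0 : 0 ≤ W := by
    have h1 : (1 : ℝ) ≤ 2 ^ s0 := one_le_pow₀ (by norm_num)
    have h2 : (1 : ℝ) ≤ 5 * d * 2 ^ s0 := by nlinarith
    have := Real.log_nonneg h2
    linarith
  have hterm : ∀ s ∈ Finset.Ioc sf s0, 0 ≤ 16 * (Q s / 2 ^ s) * W := by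
    intro s hs
    rw [Finset.mem_Ioc] at hs
    have h1 := hQ s hs.1 hs.2
    have h2 : 0 ≤ Q s := by linarith
    positivity
  have hpart : ∀ s, sf ≤ s → ∑ i ∈ Finset.Ioc s s0, 16 * (Q i / 2 ^ i) * W ≤ Real.log 2 := by
    intro s hs
    refine le_trans (sum_le_sum_of_subset_of_nonneg ?_ fun i hi _ => hterm i hi) hgrow
    exact Finset.Ioc_subset_Ioc_left hs
  have key : ∀ r, r ≤ s0 - sf → ∃ (k' : Fin d → Option V → ℤ) (S' : Finset V),
      IsState (s0 - r) c k' ∧ S'.card ≤ r * (l * b) ∧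
      Phi lam (fam z (s0 - r) c k' S') + Φs ≤
        3 * Φs * Real.exp (∑ s ∈ Finset.Ioc (s0 - r) s0, 16 * (Q s / 2 ^ s) * W) := by
    intro r
    induction r with
    | zero =>
      intro _
      refine ⟨k, ∅, hst, by simp, ?_⟩
      rw [Nat.sub_zero, Finset.Ioc_self, Finset.sum_empty, Real.exp_zero, mul_one]
      linarith
    | succ r ih =>
      intro hr
      obtain ⟨k', S', h1, h2, h3⟩ := ih (by omega)
      obtain ⟨s, hs⟩ : ∃ s, s = s0 - r := ⟨_, rfl⟩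
      rw [← hs] at h1 h3
      have hs1 : sf < s := by omega
      have hs2 : s ≤ s0 := by omega
      have hs3 : s0 - (r + 1) = s - 1 := by omega
      have hpow : (2 : ℝ) ^ sf ≤ 2 ^ s := pow_le_pow_right₀ (by norm_num) hs1.le
      have hpow2 : (2 : ℝ) ^ s ≤ 2 ^ s0 := pow_le_pow_right₀ (by norm_num) hs2
      have hsum : ∑ i ∈ Finset.Ioc (s - 1) s0, 16 * (Q i / 2 ^ i) * W =
          16 * (Q s / 2 ^ s) * W + ∑ i ∈ Finset.Ioc s s0, 16 * (Q i / 2 ^ i) * W := by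
        have hsing : Finset.Ioc (s - 1) s = {s} := by
          ext i
          rw [Finset.mem_Ioc, Finset.mem_singleton]
          omega
        rw [← Finset.sum_Ioc_consecutive (fun i => 16 * (Q i / 2 ^ i) * W)
          (by omega : s - 1 ≤ s) hs2, hsing, Finset.sum_singleton]
      have hle : (Phi lam (fam z s c k' S') + Φs) * Real.exp (16 * (Q s / 2 ^ s) * W) ≤
          3 * Φs * Real.exp (∑ i ∈ Finset.Ioc (s - 1) s0, 16 * (Q i / 2 ^ i) * W) := by
        rw [hsum, add_comm (16 * (Q s / 2 ^ s) * W), Real.exp_add, ← mul_assoc]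
        exact mul_le_mul_of_nonneg_right h3 (Real.exp_pos _).le
      have hexp : Real.exp (∑ i ∈ Finset.Ioc (s - 1) s0, 16 * (Q i / 2 ^ i) * W) ≤ 2 := by
        have h4 := Real.exp_le_exp.2 (hpart (s - 1) (by omega))
        rwa [Real.exp_log (by norm_num)] at h4
      obtain ⟨k'', S'', h5, h6, h7⟩ := stage z hlam (hQ s hs1 hs2) hΦs (s := s) (by omega)
        (hm.trans (by gcongr)) (l := l) (lmax := lmax) (b := b) (c := c) (Φmax := 6 * Φs)
        (W := W) (hG3 s hs1 hs2) (lt_of_le_of_lt (by gcongr) hb)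
        (le_trans (by gcongr) hW) h1 (by
          refine le_trans ?_ hl
          have h8 : (r + 1) * (l * b) ≤ (s0 - sf) * (l * b) := Nat.mul_le_mul_right _ hr
          have h9 : (r + 1) * (l * b) = r * (l * b) + l * b := by ring
          omega)
        (hle.trans (by nlinarith))
      refine ⟨k'', S'', by rw [hs3]; exact h5, ?_, ?_⟩
      · have h9 : (r + 1) * (l * b) = r * (l * b) + l * b := by ring
        omega
      · rw [hs3]
        exact h7.trans hle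
  obtain ⟨k', S', h1, h2, h3⟩ := key (s0 - sf) le_rfl
  have hs : s0 - (s0 - sf) = sf := by omega
  rw [hs] at h1 h3
  refine ⟨k', S', h1, h2.trans hl, ?_⟩
  have hexp : Real.exp (∑ i ∈ Finset.Ioc sf s0, 16 * (Q i / 2 ^ i) * W) ≤ 2 := by
    have h4 := Real.exp_le_exp.2 (hpart sf le_rfl)
    rwa [Real.exp_log (by norm_num)] at h4
  nlinarith

end Chain

end BMLow
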