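import Pool.Agent.Lib.MP_766f4a_gt.LDefs

/-!
Module COUNT: the number of integer vectors of bounded `ℓ¹` norm.
-/

set_option autoImplicit false

namespace BMLow

open Finset

/-- one step of a word -/
def countStep (α : Type*) [DecidableEq α] (p : Option (α × Bool) × (α → ℤ)) : α → ℤ :=
  match p.1 with
  | none => p.2
  | some (a, true) => Function.update p.2 a (p.2 a + 1)
  | some (a, false) => Function.update p.2 a (p.2 a - 1)

theorem count_abs_update {α : Type*} [Fintype α] [DecidableEq α] (k : α → ℤ) (a : α) (v : ℤ) :
    ∑ x, |Function.update k a v x| = ∑ x, |k x| - |k a| + |v| := by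
  rw [← Finset.add_sum_erase _ _ (mem_univ a), ← Finset.add_sum_erase _ (fun x => |k x|)
    (mem_univ a), Function.update_self]
  have : ∑ x ∈ univ.erase a, |Function.update k a v x| = ∑ x ∈ univ.erase a, |k x| :=
    sum_congr rfl fun x hx => by rw [Function.update_of_ne (ne_of_mem_erase hx)]
  rw [this]
  ring

theorem count_int (α : Type*) [Fintype α] [DecidableEq α] (T : ℕ) :
    {k : α → ℤ | ∑ a, |k a| ≤ T}.Finite ∧
      {k : α → ℤ | ∑ a, |k a| ≤ T}.ncard ≤ (2 * Fintype.card α + 1) ^ T := by
  induction T with
  | zero =>
    have h : {k : α → ℤ | ∑ a, |k a| ≤ ((0 : ℕ) : ℤ)} = {0} := by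
      ext k
      simp only [Set.mem_ofPred_eq, Set.mem_singleton_iff, Nat.cast_zero]
      constructor
      · intro h
        have h0 : ∑ a, |k a| = 0 := le_antisymm h (sum_nonneg fun a _ => abs_nonneg _)
        rw [sum_eq_zero_iff_of_nonneg fun a _ => abs_nonneg _] at h0
        funext a
        exact abs_eq_zero.1 (h0 a (mem_univ a))
      · rintro rfl
        simp
    rw [h]
    exact ⟨Set.finite_singleton _, by simp⟩
  | succ T ih =>
    obtain ⟨hfin, hcard⟩ := ih
    have hsub : {k : α → ℤ | ∑ a, |k a| ≤ ((T + 1 : ℕ) : ℤ)} ⊆
        countStep α '' ((Set.univ : Set (Option (α × Bool))) ×ˢ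
          {k : α → ℤ | ∑ a, |k a| ≤ (T : ℤ)}) := by
      intro k hk
      have hk' : ∑ a, |k a| ≤ (T : ℤ) + 1 := by
        have : ∑ a, |k a| ≤ ((T + 1 : ℕ) : ℤ) := hk
        push_cast at this
        exact this
      by_cases hT : ∑ a, |k a| ≤ (T : ℤ)
      · exact ⟨(none, k), ⟨Set.mem_univ _, hT⟩, rfl⟩
      · have hex : ∃ a, k a ≠ 0 := by
          by_contra hcon
          push Not at hcon
          apply hT
          rw [sum_eq_zero fun a _ => by rw [hcon a, abs_zero]]
          exact Int.natCast_nonneg T
        obtain ⟨a, ha⟩ := hex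
        rcases lt_or_gt_of_ne ha with hneg | hpos
        · refine ⟨(some (a, false), Function.update k a (k a + 1)), ⟨Set.mem_univ _, ?_⟩, ?_⟩
          · change ∑ x, |Function.update k a (k a + 1) x| ≤ (T : ℤ)
            rw [count_abs_update, abs_of_neg hneg, abs_of_nonpos (by omega)]
            omega
          · change Function.update (Function.update k a (k a + 1)) a
              (Function.update k a (k a + 1) a - 1) = k
            rw [Function.update_self, add_sub_cancel_right, Function.update_idem,
              Function.update_eq_self]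
        · refine ⟨(some (a, true), Function.update k a (k a - 1)), ⟨Set.mem_univ _, ?_⟩, ?_⟩
          · change ∑ x, |Function.update k a (k a - 1) x| ≤ (T : ℤ)
            rw [count_abs_update, abs_of_pos hpos, abs_of_nonneg (by omega)]
            omega
          · change Function.update (Function.update k a (k a - 1)) a
              (Function.update k a (k a - 1) a + 1) = k
            rw [Function.update_self, sub_add_cancel, Function.update_idem,
              Function.update_eq_self]
    have hfin2 : ((Set.univ : Set (Option (α × Bool))) ×ˢ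
        {k : α → ℤ | ∑ a, |k a| ≤ (T : ℤ)}).Finite := Set.finite_univ.prod hfin
    refine ⟨(hfin2.image _).subset hsub, ?_⟩
    refine (Set.ncard_le_ncard hsub (hfin2.image _)).trans ?_
    refine (Set.ncard_image_le hfin2).trans ?_
    rw [Set.ncard_prod, Set.ncard_univ, Nat.card_eq_fintype_card, Fintype.card_option,
      Fintype.card_prod, Fintype.card_bool, pow_succ, mul_comm ((2 * Fintype.card α + 1) ^ T)]
    refine Nat.mul_le_mul ?_ hcard
    omega

end BMLow
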