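import Mathlib

/-!
Definitions for the lower bound for the Banach-Mazur distance to the cube.
-/

set_option autoImplicit false

namespace BMLow

open Matrix Finset MeasureTheory ProbabilityTheory

/-- `lam 1 + ∑ g_i g_iᵀ`. -/
noncomputable def Mat {d : ℕ} {ι : Type*} [Fintype ι] (lam : ℝ) (g : ι → Fin d → ℝ) :
    Matrix (Fin d) (Fin d) ℝ :=
  lam • (1 : Matrix (Fin d) (Fin d) ℝ) + ∑ i, vecMulVec (g i) (g i)

/-- The potential `tr M⁻¹`. -/
noncomputable def Phi {d : ℕ} {ι : Type*} [Fintype ι] (lam : ℝ) (g : ι → Fin d → ℝ) : ℝ :=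
  ((Mat lam g)⁻¹).trace

/-- The quadratic form of `M⁻¹`. -/
noncomputable def quad {d : ℕ} {ι : Type*} [Fintype ι] (lam : ℝ) (g : ι → Fin d → ℝ)
    (x : Fin d → ℝ) : ℝ :=
  x ⬝ᵥ ((Mat lam g)⁻¹ *ᵥ x)

/-- Linear combinations of the vertices. -/
noncomputable def comb {d : ℕ} {ι V : Type*} [Fintype V] (z : V → Fin d → ℝ) (A : ι → V → ℝ) :
    ι → Fin d → ℝ :=
  fun i => ∑ j, A i j • z j

/-- The coefficients of a state: scaled integer columns and the added vertices. -/
noncomputable def coef {d : ℕ} {V : Type*} [DecidableEq V] (s : ℕ) (c : Fin d → ℕ)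
    (k : Fin d → Option V → ℤ) (S : Finset V) : (Fin d ⊕ V) → V → ℝ
  | Sum.inl i => fun j => (k i (some j) : ℝ) / (2 : ℝ) ^ (s + c i)
  | Sum.inr v => fun j => if v ∈ S ∧ v = j then 1 else 0

/-- The family of vectors of a state. -/
noncomputable def fam {d : ℕ} {V : Type*} [Fintype V] [DecidableEq V] (z : V → Fin d → ℝ) (s : ℕ)
    (c : Fin d → ℕ) (k : Fin d → Option V → ℤ) (S : Finset V) : (Fin d ⊕ V) → Fin d → ℝ :=
  comb z (coef s c k S)

/-- States at scale `s`: the entries `k i none` belong to the dummy vertex `0`. -/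
structure IsState {d : ℕ} {V : Type*} [Fintype V] (s : ℕ) (c : Fin d → ℕ)
    (k : Fin d → Option V → ℤ) : Prop where
  row : ∀ i, ∑ j, |k i j| = 4 ^ c i * 2 ^ s
  tot : ∑ i, 4 ^ c i ≤ 5 * d

/-- The odd entries. -/
def oddSet {d : ℕ} {V : Type*} [Fintype V] [DecidableEq V] (k : Fin d → Option V → ℤ) :
    Finset (Fin d × Option V) :=
  Finset.univ.filter fun p => Odd (k p.1 p.2)

open Classical in
/-- The exceptional vertices of a family. -/
noncomputable def exc {d : ℕ} {V ι : Type*} [Fintype V] [Fintype ι] (z : V → Fin d → ℝ)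
    (lam Q : ℝ) (g : ι → Fin d → ℝ) : Finset V :=
  Finset.univ.filter fun j => Q < quad lam g (z j)

open Classical in
/-- The exceptional odd entries. -/
noncomputable def excOdd {d : ℕ} {V ι : Type*} [Fintype V] [DecidableEq V] [Fintype ι]
    (z : V → Fin d → ℝ) (lam Q : ℝ) (g : ι → Fin d → ℝ) (k : Fin d → Option V → ℤ) :
    Finset (Fin d × Option V) :=
  (oddSet k).filter fun p => ∃ j, p.2 = some j ∧ j ∈ exc z lam Q g

/-- The law of independent standard Gaussian vectors. -/
noncomputable def gauss (V : Type*) [Fintype V] (d : ℕ) : Measure (V → Fin d → ℝ) :=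
  Measure.pi fun _ => Measure.pi fun _ => gaussianReal 0 1

end BMLow
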