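import Pool.Agent.Lib.MP_766f4a_gt.LLa3

/-!
Module INIT: the initial state.
-/

set_option autoImplicit false

namespace BMLow

open Matrix Finset BMTwo.Barrier La1 La3

namespace Init

lemma exists_scale {φ r : ℝ} (hφ : 0 < φ) (hr : 0 ≤ r) :
    ∃ c : ℕ, r ≤ φ * 4 ^ c ∧ φ * 4 ^ c ≤ φ + 4 * r := by
  have hex : ∃ c : ℕ, r ≤ φ * 4 ^ c := by
    obtain ⟨n, hn⟩ := pow_unbounded_of_one_lt (r / φ) (by norm_num : (1 : ℝ) < 4)
    refine ⟨n, ?_⟩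
    rw [div_lt_iff₀ hφ] at hn
    linarith
  classical
  refine ⟨Nat.find hex, Nat.find_spec hex, ?_⟩
  rcases h : Nat.find hex with _ | n
  · simp only [pow_zero]
    linarith
  · have h1 := Nat.find_min hex (m := n) (by omega)
    push Not at h1
    rw [pow_succ]
    linarith

lemma exists_int {a T : ℝ} (hT : 0 ≤ T) :
    ∃ k : ℤ, |(k : ℝ)| ≤ |a| * T ∧ |(k : ℝ) - a * T| ≤ 1 := by
  rcases le_total 0 a with ha | ha
  · refine ⟨⌊a * T⌋, ?_, ?_⟩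
    · have h0 : 0 ≤ a * T := mul_nonneg ha hT
      have h1 : (0 : ℝ) ≤ (⌊a * T⌋ : ℝ) := by
        exact_mod_cast Int.floor_nonneg.2 h0
      rw [abs_of_nonneg h1, abs_of_nonneg ha]
      exact Int.floor_le _
    · rw [abs_le]
      have h1 := Int.floor_le (a * T)
      have h2 := Int.lt_floor_add_one (a * T)
      constructor <;> linarith
  · refine ⟨⌈a * T⌉, ?_, ?_⟩
    · have h0 : a * T ≤ 0 := mul_nonpos_of_nonpos_of_nonneg ha hT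
      have h1 : ((⌈a * T⌉ : ℤ) : ℝ) ≤ 0 := by
        have : ⌈a * T⌉ ≤ 0 := Int.ceil_le.2 (by simpa using h0)
        exact_mod_cast this
      rw [abs_of_nonpos h1, abs_of_nonpos ha]
      have h2 := Int.le_ceil (a * T)
      linarith
    · rw [abs_le]
      have h1 := Int.le_ceil (a * T)
      have h2 := Int.ceil_lt_add_one (a * T)
      constructor <;> linarith

lemma cauchy {n : ℕ} (x y : Fin n → ℝ) : (x ⬝ᵥ y) ^ 2 ≤ (x ⬝ᵥ x) * (y ⬝ᵥ y) := by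
  have h := Finset.sum_mul_sq_le_sq_mul_sq Finset.univ x y
  simp only [dotProduct]
  simpa [sq] using h

lemma sum_dot {n m : ℕ} (b : Fin m → ℝ) (z : Fin m → Fin n → ℝ) (p : Fin n → ℝ) :
    (∑ j, b j • z j) ⬝ᵥ p = ∑ j, b j * (z j ⬝ᵥ p) := by
  rw [sum_dotProduct]
  exact Finset.sum_congr rfl fun j _ => by rw [smul_dotProduct, smul_eq_mul]

/-- the error of rounding -/
lemma rounding {d m : ℕ} (z : Fin m → Fin d → ℝ) (hG0 : ∑ j, z j ⬝ᵥ z j ≤ 4 * m * d)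
    (b : Fin d → Fin m → ℝ) {ε : ℝ} (hb : ∀ i j, b i j ^ 2 ≤ ε) (hε : 0 ≤ ε)
    (p : Fin d → ℝ) :
    ∑ i, ((∑ j, b i j • z j) ⬝ᵥ p) ^ 2 ≤ 4 * (m : ℝ) ^ 2 * d ^ 2 * ε * (p ⬝ᵥ p) := by
  have hp : 0 ≤ p ⬝ᵥ p := dot_self_nonneg p
  have h1 : ∀ i, ((∑ j, b i j • z j) ⬝ᵥ p) ^ 2 ≤ (m * ε) * (4 * m * d * (p ⬝ᵥ p)) := by
    intro i
    rw [sum_dot]
    have h2 := Finset.sum_mul_sq_le_sq_mul_sq Finset.univ (b i) (fun j => z j ⬝ᵥ p)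
    refine h2.trans ?_
    have h3 : ∑ j, b i j ^ 2 ≤ m * ε := by
      calc ∑ j, b i j ^ 2 ≤ ∑ _j : Fin m, ε := Finset.sum_le_sum fun j _ => hb i j
        _ = m * ε := by rw [Finset.sum_const, Finset.card_univ, Fintype.card_fin, nsmul_eq_mul]
    have h4 : ∑ j, (z j ⬝ᵥ p) ^ 2 ≤ 4 * m * d * (p ⬝ᵥ p) := by
      calc ∑ j, (z j ⬝ᵥ p) ^ 2 ≤ ∑ j, (z j ⬝ᵥ z j) * (p ⬝ᵥ p) :=
            Finset.sum_le_sum fun j _ => cauchy _ _
        _ = (∑ j, z j ⬝ᵥ z j) * (p ⬝ᵥ p) := by rw [Finset.sum_mul]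
        _ ≤ 4 * m * d * (p ⬝ᵥ p) := mul_le_mul_of_nonneg_right hG0 hp
    exact mul_le_mul h3 h4 (Finset.sum_nonneg fun j _ => sq_nonneg _) (by positivity)
  calc ∑ i, ((∑ j, b i j • z j) ⬝ᵥ p) ^ 2 ≤
      ∑ _i : Fin d, (m * ε) * (4 * m * d * (p ⬝ᵥ p)) := Finset.sum_le_sum fun i _ => h1 i
    _ = 4 * (m : ℝ) ^ 2 * d ^ 2 * ε * (p ⬝ᵥ p) := by
      rw [Finset.sum_const, Finset.card_univ, Fintype.card_fin, nsmul_eq_mul]
      ring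

/-- expansion in dual bases -/
lemma expand {d : ℕ} (g f : Fin d → Fin d → ℝ)
    (hdual : ∀ i j, f i ⬝ᵥ g j = if i = j then 1 else 0) (x p : Fin d → ℝ) :
    x ⬝ᵥ p = ∑ i, (f i ⬝ᵥ x) * (g i ⬝ᵥ p) := by
  obtain ⟨F, hF⟩ : ∃ F : Matrix (Fin d) (Fin d) ℝ, F = Matrix.of f := ⟨_, rfl⟩
  obtain ⟨K, hK⟩ : ∃ K : Matrix (Fin d) (Fin d) ℝ, K = (Matrix.of g)ᵀ := ⟨_, rfl⟩
  have h1 : F * K = 1 := by
    ext i j
    rw [Matrix.mul_apply, Matrix.one_apply, ← hdual i j, hF, hK]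
    rfl
  have h2 : K * F = 1 := mul_eq_one_comm.1 h1
  have h3 : K *ᵥ (F *ᵥ x) = x := by rw [mulVec_mulVec, h2, one_mulVec]
  calc x ⬝ᵥ p = p ⬝ᵥ (K *ᵥ (F *ᵥ x)) := by rw [h3, dotProduct_comm]
    _ = (p ᵥ* K) ⬝ᵥ (F *ᵥ x) := by rw [dotProduct_mulVec]
    _ = ∑ i, (f i ⬝ᵥ x) * (g i ⬝ᵥ p) := by
      rw [dotProduct]
      refine Finset.sum_congr rfl fun i _ => ?_
      have e1 : (p ᵥ* K) i = g i ⬝ᵥ p := by
        rw [← mulVec_transpose, hK, transpose_transpose]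
        rfl
      have e2 : (F *ᵥ x) i = f i ⬝ᵥ x := by
        rw [hF]
        rfl
      rw [e1, e2, mul_comm]

end Init

open Init

theorem init {d m : ℕ} (hd : 0 < d) (z : Fin m → Fin d → ℝ)
    (hG0 : ∑ j, z j ⬝ᵥ z j ≤ 4 * m * d) (g f : Fin d → Fin d → ℝ)
    (hdual : ∀ i j, f i ⬝ᵥ g j = if i = j then 1 else 0) (a : Fin d → Fin m → ℝ)
    (ha : ∀ i, ∑ j, |a i j| ≤ 1) (hg : ∀ i, g i = ∑ j, a i j • z j) {φ lam : ℝ} (hφ : 0 < φ)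
    (hlam : 0 < lam) (hf : ∑ i, Real.sqrt (f i ⬝ᵥ f i) ≤ d * φ) (s0 : ℕ)
    (hs0 : 4 * (m : ℝ) ^ 2 * d ^ 2 ≤ lam * 4 ^ s0) :
    ∃ (c : Fin d → ℕ) (k : Fin d → Option (Fin m) → ℤ), IsState s0 c k ∧
      Phi lam (fam z s0 c k ∅) ≤ 2 * (d * φ ^ 2) := by
  classical
  -- the scales
  have hc : ∀ i, ∃ c : ℕ, Real.sqrt (f i ⬝ᵥ f i) ≤ φ * 4 ^ c ∧
      φ * 4 ^ c ≤ φ + 4 * Real.sqrt (f i ⬝ᵥ f i) := fun i =>
    exists_scale hφ (Real.sqrt_nonneg _)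
  choose c hc1 hc2 using hc
  have htot : ∑ i, 4 ^ c i ≤ 5 * d := by
    have h1 : φ * ∑ i, (4 : ℝ) ^ c i ≤ φ * (5 * d) := by
      rw [Finset.mul_sum]
      calc ∑ i, φ * (4 : ℝ) ^ c i ≤ ∑ i, (φ + 4 * Real.sqrt (f i ⬝ᵥ f i)) :=
            Finset.sum_le_sum fun i _ => hc2 i
        _ = d * φ + 4 * ∑ i, Real.sqrt (f i ⬝ᵥ f i) := by
            rw [Finset.sum_add_distrib, Finset.sum_const, Finset.card_univ, Fintype.card_fin,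
              nsmul_eq_mul, Finset.mul_sum]
        _ ≤ d * φ + 4 * (d * φ) := by linarith
        _ = φ * (5 * d) := by ring
    have h2 := le_of_mul_le_mul_left h1 hφ
    exact_mod_cast h2
  -- the integers
  obtain ⟨T, hT⟩ : ∃ T : Fin d → ℝ, ∀ i, T i = 4 ^ c i * 2 ^ s0 := ⟨_, fun _ => rfl⟩
  have hT0 : ∀ i, 0 ≤ T i := fun i => by rw [hT]; positivity
  choose k0 hk1 hk2 using fun (i : Fin d) (j : Fin m) => exists_int (a := a i j) (hT0 i)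
  have hrow : ∀ i, ∑ j, |k0 i j| ≤ 4 ^ c i * 2 ^ s0 := by
    intro i
    have h1 : (∑ j, |(k0 i j : ℝ)|) ≤ 4 ^ c i * 2 ^ s0 := by
      calc ∑ j, |(k0 i j : ℝ)| ≤ ∑ j, |a i j| * T i := Finset.sum_le_sum fun j _ => hk1 i j
        _ = (∑ j, |a i j|) * T i := by rw [Finset.sum_mul]
        _ ≤ 1 * T i := mul_le_mul_of_nonneg_right (ha i) (hT0 i)
        _ = 4 ^ c i * 2 ^ s0 := by rw [one_mul, hT]
    have h2 : ((∑ j, |k0 i j| : ℤ) : ℝ) ≤ ((4 ^ c i * 2 ^ s0 : ℤ) : ℝ) := by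
      push_cast
      exact h1
    exact_mod_cast h2
  obtain ⟨k, hkn, hks⟩ : ∃ k : Fin d → Option (Fin m) → ℤ,
      (∀ i, k i none = 4 ^ c i * 2 ^ s0 - ∑ j, |k0 i j|) ∧ ∀ i j, k i (some j) = k0 i j :=
    ⟨fun i o => Option.rec (4 ^ c i * 2 ^ s0 - ∑ j, |k0 i j|) (fun j => k0 i j) o,
      fun _ => rfl, fun _ _ => rfl⟩
  refine ⟨c, k, ⟨?_, htot⟩, ?_⟩
  · intro i
    rw [Fintype.sum_option, hkn]
    simp only [hks]
    rw [abs_of_nonneg (by linarith [hrow i])]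
    ring
  -- the family
  obtain ⟨G, hG⟩ : ∃ G, G = fam z s0 c k ∅ := ⟨_, rfl⟩
  rw [← hG]
  have hinr : ∀ v, G (Sum.inr v) = 0 := by
    intro v
    rw [hG]
    simp [fam, comb, coef]
  obtain ⟨b, hbdef⟩ : ∃ b : Fin d → Fin m → ℝ, ∀ i j,
      b i j = (k0 i j : ℝ) / 2 ^ (s0 + c i) - 2 ^ c i * a i j := ⟨_, fun _ _ => rfl⟩
  have hinl : ∀ i, G (Sum.inl i) = (2 : ℝ) ^ c i • g i + ∑ j, b i j • z j := by
    intro i
    rw [hG, hg i, Finset.smul_sum, ← Finset.sum_add_distrib]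
    simp only [fam, comb, coef, hks]
    refine Finset.sum_congr rfl fun j _ => ?_
    rw [smul_smul, ← add_smul, hbdef]
    congr 1
    ring
  have hb : ∀ i j, b i j ^ 2 ≤ 1 / 4 ^ s0 := by
    intro i j
    have h1 : b i j = ((k0 i j : ℝ) - a i j * T i) / 2 ^ (s0 + c i) := by
      rw [hbdef, hT, sub_div]
      congr 1
      rw [pow_add, show (4 : ℝ) = 2 * 2 by norm_num, mul_pow]
      field_simp
    have h2 : |(k0 i j : ℝ) - a i j * T i| ^ 2 ≤ 1 := by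
      have := hk2 i j
      have h0 := abs_nonneg ((k0 i j : ℝ) - a i j * T i)
      nlinarith
    rw [sq_abs] at h2
    rw [h1, div_pow, div_le_div_iff₀ (by positivity) (by positivity), one_mul]
    have h3 : (4 : ℝ) ^ s0 ≤ (2 ^ (s0 + c i)) ^ 2 := by
      rw [← pow_mul, show (4 : ℝ) = 2 ^ 2 by norm_num, ← pow_mul]
      exact pow_le_pow_right₀ (by norm_num) (by nlinarith)
    calc ((k0 i j : ℝ) - a i j * T i) ^ 2 * 4 ^ s0 ≤ 1 * 4 ^ s0 :=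
          mul_le_mul_of_nonneg_right h2 (by positivity)
      _ = 4 ^ s0 := one_mul _
      _ ≤ _ := h3
  -- the main estimate
  have hmain : ∀ x : Fin d → ℝ, x ⬝ᵥ ((Mat lam G)⁻¹ *ᵥ x) ≤
      2 * ∑ i, ((f i ⬝ᵥ x) / 2 ^ c i) ^ 2 := by
    intro x
    obtain ⟨p, hp⟩ : ∃ p, p = (Mat lam G)⁻¹ *ᵥ x := ⟨_, rfl⟩
    have h1 : Mat lam G *ᵥ p = x := by
      rw [hp, mulVec_mulVec, mul_inv_pd (Mat_posDef hlam G), one_mulVec]
    have h2 := quad_gram lam G p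
    rw [h1, Fintype.sum_sum_type] at h2
    have h3 : ∑ v, (G (Sum.inr v) ⬝ᵥ p) ^ 2 = 0 := by
      refine Finset.sum_eq_zero fun v _ => ?_
      rw [hinr, zero_dotProduct]
      norm_num
    rw [h3, add_zero] at h2
    have h4 := rounding z hG0 b hb (by positivity) p
    have hpp : 0 ≤ p ⬝ᵥ p := dot_self_nonneg p
    have h5 : 4 * (m : ℝ) ^ 2 * d ^ 2 * (1 / 4 ^ s0) * (p ⬝ᵥ p) ≤ lam * (p ⬝ᵥ p) := by
      apply mul_le_mul_of_nonneg_right _ hpp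
      rw [mul_one_div, div_le_iff₀ (by positivity)]
      exact hs0
    have h6 : ∑ i, (2 ^ c i * (g i ⬝ᵥ p)) ^ 2 ≤ 2 * (p ⬝ᵥ x) := by
      have h7 : ∀ i, (2 ^ c i * (g i ⬝ᵥ p)) ^ 2 ≤ 2 * (G (Sum.inl i) ⬝ᵥ p) ^ 2 +
          2 * ((∑ j, b i j • z j) ⬝ᵥ p) ^ 2 := by
        intro i
        have e : G (Sum.inl i) ⬝ᵥ p = 2 ^ c i * (g i ⬝ᵥ p) + (∑ j, b i j • z j) ⬝ᵥ p := by
          rw [hinl, add_dotProduct, smul_dotProduct, smul_eq_mul]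
        rw [e]
        nlinarith [sq_nonneg (2 ^ c i * (g i ⬝ᵥ p) + 2 * ((∑ j, b i j • z j) ⬝ᵥ p))]
      calc ∑ i, (2 ^ c i * (g i ⬝ᵥ p)) ^ 2 ≤ ∑ i, (2 * (G (Sum.inl i) ⬝ᵥ p) ^ 2 +
          2 * ((∑ j, b i j • z j) ⬝ᵥ p) ^ 2) := Finset.sum_le_sum fun i _ => h7 i
        _ = 2 * ∑ i, (G (Sum.inl i) ⬝ᵥ p) ^ 2 + 2 * ∑ i, ((∑ j, b i j • z j) ⬝ᵥ p) ^ 2 := by
          rw [Finset.sum_add_distrib, Finset.mul_sum, Finset.mul_sum]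
        _ ≤ 2 * (p ⬝ᵥ x) := by linarith
    obtain ⟨A, hA⟩ : ∃ A, A = ∑ i, ((f i ⬝ᵥ x) / 2 ^ c i) ^ 2 := ⟨_, rfl⟩
    obtain ⟨t, ht⟩ : ∃ t, t = x ⬝ᵥ p := ⟨_, rfl⟩
    have hA0 : 0 ≤ A := by rw [hA]; exact Finset.sum_nonneg fun i _ => sq_nonneg _
    have h8 : t = ∑ i, ((f i ⬝ᵥ x) / 2 ^ c i) * (2 ^ c i * (g i ⬝ᵥ p)) := by
      rw [ht, expand g f hdual x p]
      refine Finset.sum_congr rfl fun i _ => ?_
      field_simp
    have h9 := Finset.sum_mul_sq_le_sq_mul_sq Finset.univ (fun i => (f i ⬝ᵥ x) / 2 ^ c i)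
      (fun i => 2 ^ c i * (g i ⬝ᵥ p))
    rw [← h8, ← hA] at h9
    rw [dotProduct_comm p x, ← ht] at h6
    rw [← hp, ← ht, ← hA]
    by_contra h10
    push Not at h10
    have h11 : A * ∑ i, (2 ^ c i * (g i ⬝ᵥ p)) ^ 2 ≤ A * (2 * t) :=
      mul_le_mul_of_nonneg_left h6 hA0
    nlinarith
  -- the trace
  calc Phi lam G = ∑ l, (Pi.single l (1 : ℝ) : Fin d → ℝ) ⬝ᵥ
        ((Mat lam G)⁻¹ *ᵥ (Pi.single l (1 : ℝ) : Fin d → ℝ)) := by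
        rw [Phi, Matrix.trace]
        refine Finset.sum_congr rfl fun l _ => ?_
        rw [single_one_dotProduct, mulVec_single_one, Matrix.diag_apply, Matrix.col_apply]
    _ ≤ ∑ l, 2 * ∑ i, ((f i ⬝ᵥ (Pi.single l (1 : ℝ) : Fin d → ℝ)) / 2 ^ c i) ^ 2 :=
        Finset.sum_le_sum fun l _ => hmain _
    _ = 2 * ∑ i, (f i ⬝ᵥ f i) / 4 ^ c i := by
        rw [← Finset.mul_sum, Finset.sum_comm]
        congr 1
        refine Finset.sum_congr rfl fun i _ => ?_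
        simp only [dotProduct_single_one]
        rw [dotProduct, Finset.sum_div]
        refine Finset.sum_congr rfl fun l _ => ?_
        rw [div_pow, ← pow_mul, show (4 : ℝ) = 2 ^ 2 by norm_num, ← pow_mul, mul_comm (c i) 2]
        ring
    _ ≤ 2 * ∑ i, φ * Real.sqrt (f i ⬝ᵥ f i) := by
        apply mul_le_mul_of_nonneg_left _ (by norm_num)
        refine Finset.sum_le_sum fun i _ => ?_
        rw [div_le_iff₀ (by positivity)]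
        have h1 : f i ⬝ᵥ f i = Real.sqrt (f i ⬝ᵥ f i) * Real.sqrt (f i ⬝ᵥ f i) :=
          (Real.mul_self_sqrt (dot_self_nonneg _)).symm
        have h2 := Real.sqrt_nonneg (f i ⬝ᵥ f i)
        have h3 := hc1 i
        calc f i ⬝ᵥ f i = Real.sqrt (f i ⬝ᵥ f i) * Real.sqrt (f i ⬝ᵥ f i) := h1
          _ ≤ Real.sqrt (f i ⬝ᵥ f i) * (φ * 4 ^ c i) := mul_le_mul_of_nonneg_left h3 h2
          _ = φ * Real.sqrt (f i ⬝ᵥ f i) * 4 ^ c i := by ring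
    _ = 2 * (φ * ∑ i, Real.sqrt (f i ⬝ᵥ f i)) := by rw [← Finset.mul_sum]
    _ ≤ 2 * (φ * (d * φ)) := by
        apply mul_le_mul_of_nonneg_left _ (by norm_num)
        exact mul_le_mul_of_nonneg_left hf hφ.le
    _ = 2 * (d * φ ^ 2) := by ring

end BMLow
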