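import Pool.Agent.Lib.MP_766f4a_gt.LGood
import Pool.Agent.Lib.MP_766f4a_gt.LChain
import Pool.Agent.Lib.MP_766f4a_gt.LInit

set_option autoImplicit false

namespace BMLow

open Matrix Finset MeasureTheory ProbabilityTheory

theorem deter {d m : ℕ} (hd : 0 < d) (hm0 : 0 < m) (z : Fin m → Fin d → ℝ) {lam φ W : ℝ}
    (hlam : 0 < lam) (hφ : 0 < φ) (Q : ℕ → ℝ) {sf s0 l lmax b : ℕ} (hsf : sf ≤ s0)
    (hgood : Good z lam (d * φ ^ 2) Q sf s0 l lmax)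
    (hm : (m : ℝ) ≤ 2 ^ sf * (lam * (d * φ ^ 2)))
    (hQ : ∀ s, sf < s → s ≤ s0 → 1 ≤ Q s)
    (hb : (5 * d * 2 ^ s0 : ℝ) < (8 / 5 : ℝ) ^ b) (hW : 1 + Real.log (5 * d * 2 ^ s0) ≤ W)
    (hl : (s0 - sf) * (l * b) ≤ lmax)
    (hgrow : ∑ s ∈ Finset.Ioc sf s0, 16 * (Q s / 2 ^ s) * W ≤ Real.log 2)
    (hs0 : 4 * (m : ℝ) ^ 2 * d ^ 2 ≤ lam * 4 ^ s0) :
    ¬ ∃ (g f : Fin d → Fin d → ℝ) (a : Fin d → Fin m → ℝ),
      (∀ i j, f i ⬝ᵥ g j = if i = j then 1 else 0) ∧ (∀ i, ∑ j, |a i j| ≤ 1) ∧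
      (∀ i, g i = ∑ j, a i j • z j) ∧ ∀ j, ∑ i, |f i ⬝ᵥ z j| ≤ (1 / 64) * (d * φ) := by
  rintro ⟨g, f, a, hdual, ha, hg, hpol⟩
  have hmR : (0 : ℝ) < m := by exact_mod_cast hm0
  have hΦs : (0 : ℝ) < d * φ ^ 2 := by positivity
  have hf : ∑ i, Real.sqrt (f i ⬝ᵥ f i) ≤ d * φ := by
    have h1 : (1 / 64 : ℝ) * m * ∑ i, Real.sqrt (f i ⬝ᵥ f i) ≤ m * ((1 / 64) * (d * φ)) := by
      calc (1 / 64 : ℝ) * m * ∑ i, Real.sqrt (f i ⬝ᵥ f i)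
          = ∑ i, (1 / 64 : ℝ) * m * Real.sqrt (f i ⬝ᵥ f i) := by rw [Finset.mul_sum]
        _ ≤ ∑ i, ∑ j, |z j ⬝ᵥ f i| := Finset.sum_le_sum fun i _ => hgood.g2 (f i)
        _ = ∑ j, ∑ i, |f i ⬝ᵥ z j| := by
            rw [Finset.sum_comm]
            simp only [dotProduct_comm]
        _ ≤ ∑ _j : Fin m, (1 / 64 : ℝ) * (d * φ) := Finset.sum_le_sum fun j _ => hpol j
        _ = m * ((1 / 64) * (d * φ)) := by
            rw [Finset.sum_const, Finset.card_univ, Fintype.card_fin, nsmul_eq_mul]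
    have h2 : (1 / 64 : ℝ) * m * ∑ i, Real.sqrt (f i ⬝ᵥ f i) ≤ (1 / 64 : ℝ) * m * (d * φ) := by
      linarith
    exact le_of_mul_le_mul_left h2 (by positivity)
  obtain ⟨c, k, hst, hΦ⟩ := init hd z hgood.g0 g f hdual a ha hg hφ hlam hf s0 hs0
  obtain ⟨k', S', hst', hS', hΦ'⟩ := chain z hlam hΦs Q hsf
    (by rw [Fintype.card_fin]; exact hm) hQ
    (fun s h1 h2 k S h3 h4 h5 => hgood.g3 s h1 h2 c k S h3 h4 h5) hb hW hd hl hgrow hst hΦ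
  exact absurd hΦ' (not_le.2 (hgood.g4 c k' S' hst' hS'))

end BMLow
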