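import Pool.Agent.Lib.MP_766f4a_gt.LLa1

/-!
Module LA3: sums of dual vectors.
-/

set_option autoImplicit false

namespace BMLow

open Matrix Finset BMTwo.Barrier La1

variable {d : ℕ}

namespace La3

lemma quad_gram {ι : Type*} [Fintype ι] (lam : ℝ) (g : ι → Fin d → ℝ) (p : Fin d → ℝ) :
    p ⬝ᵥ (Mat lam g *ᵥ p) = lam * (p ⬝ᵥ p) + ∑ i, (g i ⬝ᵥ p) ^ 2 := by
  rw [Mat, add_mulVec, dotProduct_add, quad_sum, smul_mulVec, one_mulVec, dotProduct_smul,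
    smul_eq_mul]

lemma inv_symm {ι : Type*} [Fintype ι] {lam : ℝ} (hlam : 0 < lam) (g : ι → Fin d → ℝ) :
    ((Mat lam g)⁻¹)ᵀ = (Mat lam g)⁻¹ :=
  (posDef_iff'.1 (Mat_posDef hlam g).inv).1

end La3

open La3

theorem sum_sq_dual_le {ι : Type*} [Fintype ι] {lam : ℝ} (hlam : 0 < lam) (g : ι → Fin d → ℝ)
    (x : Fin d → ℝ) : ∑ i, (x ⬝ᵥ ((Mat lam g)⁻¹ *ᵥ g i)) ^ 2 ≤ quad lam g x := by
  obtain ⟨p, hp⟩ : ∃ p, p = (Mat lam g)⁻¹ *ᵥ x := ⟨_, rfl⟩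
  have h1 : Mat lam g *ᵥ p = x := by
    rw [hp, mulVec_mulVec, mul_inv_pd (Mat_posDef hlam g), one_mulVec]
  have h2 := quad_gram lam g p
  rw [h1] at h2
  have h3 : ∀ i, x ⬝ᵥ ((Mat lam g)⁻¹ *ᵥ g i) = g i ⬝ᵥ p := by
    intro i
    rw [dot_symm (inv_symm hlam g), ← hp, dotProduct_comm]
  rw [quad, ← hp]
  simp only [h3]
  have h4 : 0 ≤ lam * (p ⬝ᵥ p) := mul_nonneg hlam.le (dot_self_nonneg _)
  rw [dotProduct_comm] at h2
  linarith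

theorem sum_dual_sq_le {ι : Type*} [Fintype ι] {lam : ℝ} (hlam : 0 < lam) (g : ι → Fin d → ℝ) :
    ∑ i, ((Mat lam g)⁻¹ *ᵥ g i) ⬝ᵥ ((Mat lam g)⁻¹ *ᵥ g i) ≤ Phi lam g := by
  have h1 : ∀ i, ((Mat lam g)⁻¹ *ᵥ g i) ⬝ᵥ ((Mat lam g)⁻¹ *ᵥ g i) =
      ∑ k, ((Pi.single k (1 : ℝ) : Fin d → ℝ) ⬝ᵥ ((Mat lam g)⁻¹ *ᵥ g i)) ^ 2 := by
    intro i
    simp only [single_one_dotProduct]
    exact Finset.sum_congr rfl fun k _ => (sq _).symm
  simp only [h1]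
  rw [Finset.sum_comm]
  calc ∑ k, ∑ i, ((Pi.single k (1 : ℝ) : Fin d → ℝ) ⬝ᵥ ((Mat lam g)⁻¹ *ᵥ g i)) ^ 2 ≤
      ∑ k, quad lam g (Pi.single k (1 : ℝ) : Fin d → ℝ) :=
        Finset.sum_le_sum fun k _ => sum_sq_dual_le hlam g _
    _ = Phi lam g := by
        rw [Phi, Matrix.trace]
        refine Finset.sum_congr rfl fun k _ => ?_
        rw [quad, single_one_dotProduct, mulVec_single_one, Matrix.diag_apply, Matrix.col_apply]

/-- The trace identity. -/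
theorem sum_one_sub {ι : Type*} [Fintype ι] {lam : ℝ} (hlam : 0 < lam) (g : ι → Fin d → ℝ) :
    ∑ i, (1 - quad lam g (g i)) = Fintype.card ι - d + lam * Phi lam g := by
  have h1 : ∀ i, quad lam g (g i) = ((Mat lam g)⁻¹ * vecMulVec (g i) (g i)).trace := by
    intro i
    rw [mul_vecMulVec, trace_vecMulVec, quad, dotProduct_comm]
  have h2 : ∑ i, ((Mat lam g)⁻¹ * vecMulVec (g i) (g i)).trace = d - lam * Phi lam g := by
    rw [← trace_sum, ← Finset.mul_sum]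
    have h3 : ∑ i, vecMulVec (g i) (g i) =
        Mat lam g - lam • (1 : Matrix (Fin d) (Fin d) ℝ) := by
      rw [Mat]
      abel
    rw [h3, mul_sub, inv_mul_pd (Mat_posDef hlam g), trace_sub, trace_one, Fintype.card_fin,
      Matrix.mul_smul, trace_smul, mul_one, smul_eq_mul, Phi]
  rw [Finset.sum_sub_distrib, Finset.sum_const, Finset.card_univ]
  simp only [h1, h2]
  rw [nsmul_eq_mul, mul_one]
  ring

/-- Leaving out a set of vectors containing `g`. -/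
theorem one_sub_quad_ge {M₁ M : Matrix (Fin d) (Fin d) ℝ} (hM₁ : M₁.PosDef) (g : Fin d → ℝ)
    (h : (M - vecMulVec g g - M₁).PosSemidef) :
    1 / (1 + g ⬝ᵥ (M₁⁻¹ *ᵥ g)) ≤ 1 - g ⬝ᵥ (M⁻¹ *ᵥ g) := by
  obtain ⟨q, hq⟩ : ∃ q, q = g ⬝ᵥ (M₁⁻¹ *ᵥ g) := ⟨_, rfl⟩
  have hq0 : 0 ≤ q := by
    rw [hq]
    exact (posSemidef_iff'.1 hM₁.inv.posSemidef).2 _
  have hgg : (vecMulVec g g).PosSemidef := by
    have := sum_vec_psd (Finset.univ : Finset (Fin 1)) (fun _ => g)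
    simpa using this
  have h2 : (M₁ + vecMulVec g g).PosDef := hM₁.add_posSemidef hgg
  have h3 : (M - (M₁ + vecMulVec g g)).PosSemidef := by
    have : M - (M₁ + vecMulVec g g) = M - vecMulVec g g - M₁ := by abel
    rw [this]
    exact h
  have h4 := inv_quad_anti h2 h3 g
  have h5 := La2.inv_add (mul_inv_pd hM₁) (posDef_iff'.1 hM₁.inv).1 g
    (by rw [← hq]; linarith)
  have h6 : g ⬝ᵥ ((M₁ + vecMulVec g g)⁻¹ *ᵥ g) = q - (1 + q)⁻¹ * q ^ 2 := by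
    rw [h5, sub_mulVec, dotProduct_sub, smul_mulVec, dotProduct_smul, dot_vecMulVec, smul_eq_mul,
      dotProduct_comm (M₁⁻¹ *ᵥ g) g, ← hq]
  rw [h6] at h4
  rw [← hq]
  have h7 : q - (1 + q)⁻¹ * q ^ 2 = 1 - 1 / (1 + q) := by
    have : (1 + q) ≠ 0 := by linarith
    field_simp
    ring
  rw [h7] at h4
  linarith

end BMLow
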