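import Pool.Agent.Lib.MP_766f4a_gt.LLa1
import Pool.Agent.Lib.MP_766f4a_gt.LLa3

/-!
Module DETF: the deterministic part of (G4).
-/

set_option autoImplicit false

namespace BMLow

open Matrix Finset

namespace Detf

variable {d : ℕ}

lemma posSemidef_vec (y : Fin d → ℝ) : (vecMulVec y y).PosSemidef := by
  simpa using posSemidef_vecMulVec_self_star y

lemma posSemidef_sum {ι : Type*} (S : Finset ι) (g : ι → Fin d → ℝ) :
    (∑ i ∈ S, vecMulVec (g i) (g i)).PosSemidef := by
  classical
  induction S using Finset.induction_on with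
  | empty => simpa using PosSemidef.zero
  | insert a S ha ih => rw [Finset.sum_insert ha]; exact (posSemidef_vec (g a)).add ih

/-- Removing the vectors of `S`. -/
lemma Mat_ite {V : Type*} [Fintype V] [DecidableEq V] (lam : ℝ) (g : V → Fin d → ℝ)
    (S : Finset V) :
    Mat lam g = Mat lam (fun r' => if r' ∈ S then 0 else g r') +
      ∑ i ∈ S, vecMulVec (g i) (g i) := by
  unfold Mat
  rw [add_assoc]
  congr 1
  have e : ∀ i : V, vecMulVec (if i ∈ S then (0 : Fin d → ℝ) else g i)
      (if i ∈ S then (0 : Fin d → ℝ) else g i) =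
      if i ∈ S then 0 else vecMulVec (g i) (g i) := by
    intro i
    by_cases h : i ∈ S
    · simp only [if_pos h]; ext a b; simp [vecMulVec_apply]
    · simp only [if_neg h]
  rw [Finset.sum_congr rfl fun i _ => e i]
  have e2 : ∑ i ∈ S, vecMulVec (g i) (g i) =
      ∑ i : V, if i ∈ S then vecMulVec (g i) (g i) else 0 := by
    rw [Finset.sum_ite_mem]; simp
  rw [e2, ← Finset.sum_add_distrib]
  refine Finset.sum_congr rfl fun i _ => ?_
  by_cases h : i ∈ S
  · simp only [if_pos h, zero_add]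
  · simp only [if_neg h, add_zero]

lemma quad_nonneg {M : Matrix (Fin d) (Fin d) ℝ} (hM : M.PosDef) (x : Fin d → ℝ) :
    0 ≤ x ⬝ᵥ (M⁻¹ *ᵥ x) := by
  have h := hM.inv.posSemidef.dotProduct_mulVec_nonneg x
  simpa using h

/-- The key estimate: one index in a block. -/
lemma term_ge {V : Type*} [Fintype V] [DecidableEq V] {lam : ℝ} (hlam : 0 < lam)
    (g : V → Fin d → ℝ) (S : Finset V) {r : V} (hr : r ∈ S) :
    1 / (1 + g r ⬝ᵥ ((Mat lam (fun r' => if r' ∈ S then 0 else g r'))⁻¹ *ᵥ g r)) ≤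
      1 - quad lam g (g r) := by
  unfold quad
  refine one_sub_quad_ge (Mat_posDef hlam _) (g r) ?_
  rw [Mat_ite lam g S, ← Finset.add_sum_erase S _ hr]
  have : Mat lam (fun r' => if r' ∈ S then (0 : Fin d → ℝ) else g r') +
      (vecMulVec (g r) (g r) + ∑ i ∈ S.erase r, vecMulVec (g i) (g i)) -
      vecMulVec (g r) (g r) - Mat lam (fun r' => if r' ∈ S then (0 : Fin d → ℝ) else g r') =
      ∑ i ∈ S.erase r, vecMulVec (g i) (g i) := by abel
  rw [this]
  exact posSemidef_sum _ g

lemma term_nonneg {V : Type*} [Fintype V] [DecidableEq V] {lam : ℝ} (hlam : 0 < lam)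
    (g : V → Fin d → ℝ) (r : V) : 0 ≤ 1 - quad lam g (g r) := by
  have h := term_ge hlam g {r} (Finset.mem_singleton_self r)
  refine le_trans ?_ h
  have := quad_nonneg (Mat_posDef hlam
    (fun r' => if r' ∈ ({r} : Finset V) then (0 : Fin d → ℝ) else g r')) (g r)
  positivity

end Detf

open Detf

theorem det_final {d : ℕ} (hd : 0 < d) {V : Type*} [Fintype V] [DecidableEq V] (σ : V → ℝ)
    (hσ : ∀ r, 0 ≤ σ r) {T : ℕ} (hT : (Finset.univ.filter fun r => σ r ≠ 0).card ≤ d + T)
    (hV : d + T ≤ Fintype.card V) (hsum : ∑ r, σ r ≤ 6 * d) {kk : ℕ} (hk : 1 ≤ kk)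
    (hk2 : 4 * kk ≤ d) {lam Φ : ℝ} (hlam : 0 < lam) (hΦ : 0 ≤ Φ)
    (hpar : T + lam * Φ < (d / 4) / (1 + 48 * (Φ + kk / lam))) :
    ∃ (p : ℕ) (B : Fin p → Finset V), p ≤ d ∧ (∀ i, (B i).card = kk) ∧
      ∀ z : V → Fin d → ℝ, Phi lam (fun r => Real.sqrt (σ r) • z r) ≤ Φ →
        ∃ i, 4 * kk * (Φ + kk / lam) ≤ ∑ r ∈ B i,
          z r ⬝ᵥ ((Mat lam (fun r' => if r' ∈ B i then 0 else Real.sqrt (σ r') • z r'))⁻¹ *ᵥ
            z r) := by
  classical
  obtain ⟨R, hR1, hR2⟩ := Finset.exists_superset_card_eq hT hV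
  have hR0 : ∀ r, r ∉ R → σ r = 0 := by
    intro r hr
    by_contra h
    exact hr (hR1 (Finset.mem_filter.2 ⟨Finset.mem_univ _, h⟩))
  -- the good indices
  set G := R.filter (fun r => σ r ≤ 12) with hG
  have hbad : 2 * (R.filter (fun r => ¬ σ r ≤ 12)).card ≤ d := by
    have h1 : ((R.filter (fun r => ¬ σ r ≤ 12)).card : ℝ) * 12 ≤
        ∑ r ∈ R.filter (fun r => ¬ σ r ≤ 12), σ r := by
      rw [← nsmul_eq_mul]
      refine Finset.card_nsmul_le_sum _ _ _ fun r hr => ?_
      exact (not_le.1 (Finset.mem_filter.1 hr).2).le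
    have h2 : ∑ r ∈ R.filter (fun r => ¬ σ r ≤ 12), σ r ≤ ∑ r, σ r :=
      Finset.sum_le_sum_of_subset_of_nonneg (Finset.subset_univ _) fun r _ _ => hσ r
    have h3 : (2 * (R.filter (fun r => ¬ σ r ≤ 12)).card : ℝ) ≤ d := by linarith
    exact_mod_cast h3
  have hGc : d / 2 ≤ G.card := by
    have h1 : G.card + (R.filter (fun r => ¬ σ r ≤ 12)).card = R.card := by
      rw [hG, Finset.card_filter_add_card_filter_not]
    omega
  -- the blocks
  set p := d / 2 / kk with hp
  have hpk : p * kk ≤ d / 2 := Nat.div_mul_le_self _ _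
  have hpd : p ≤ d := (Nat.div_le_self _ _).trans (Nat.div_le_self _ _)
  have hpk4 : d ≤ 4 * (p * kk) := by
    have h1 : d / 2 < (p + 1) * kk := by
      have := Nat.lt_mul_of_div_lt (show d / 2 / kk < p + 1 by omega) (by omega : 0 < kk)
      linarith [this]
    have h2 : (p + 1) * kk = p * kk + kk := by ring
    omega
  have hcard : Fintype.card (Fin p × Fin kk) ≤ Fintype.card G := by
    rw [Fintype.card_prod, Fintype.card_fin, Fintype.card_fin, Fintype.card_coe]
    omega
  obtain ⟨e⟩ := Function.Embedding.nonempty_of_card_le hcard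
  have heG : ∀ x, ((e x : G) : V) ∈ G := fun x => (e x).2
  have heinj : ∀ x y, ((e x : G) : V) = e y → x = y := fun x y h => e.injective (Subtype.ext h)
  refine ⟨p, fun i => Finset.univ.map
    ⟨fun j : Fin kk => ((e (i, j) : G) : V), fun a b h => by
      have := heinj _ _ h
      exact (Prod.ext_iff.1 this).2⟩, hpd, fun i => by simp, ?_⟩
  set B : Fin p → Finset V := fun i => Finset.univ.map
    ⟨fun j : Fin kk => ((e (i, j) : G) : V), fun a b h => by
      have := heinj _ _ h
      exact (Prod.ext_iff.1 this).2⟩ with hB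
  intro z hz
  by_contra hcon
  push Not at hcon
  set g : V → Fin d → ℝ := fun r => Real.sqrt (σ r) • z r with hg
  set x : Fin p → V → ℝ := fun i r =>
    z r ⬝ᵥ ((Mat lam (fun r' => if r' ∈ B i then 0 else g r'))⁻¹ *ᵥ z r) with hx
  have hx0 : ∀ i r, 0 ≤ x i r := fun i r => quad_nonneg (Mat_posDef hlam _) _
  set R' : ℝ := Φ + kk / lam with hR'
  have hkk0 : (0 : ℝ) < kk := by exact_mod_cast hk
  have hR'0 : 0 < R' := by positivity
  -- the trace identity
  have htr := sum_one_sub hlam g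
  have hsplit : ∑ r, (1 - quad lam g (g r)) =
      ∑ r ∈ R, (1 - quad lam g (g r)) + ((Fintype.card V : ℝ) - R.card) := by
    rw [← Finset.sum_add_sum_compl R]
    congr 1
    rw [Finset.sum_congr rfl (g := fun _ => (1 : ℝ))]
    · rw [Finset.sum_const, Finset.card_compl, nsmul_eq_mul, mul_one,
        Nat.cast_sub (Finset.card_le_univ _)]
    · intro r hr
      have h0 : g r = 0 := by
        rw [hg]; simp only
        rw [hR0 r (Finset.mem_compl.1 hr), Real.sqrt_zero, zero_smul]
      rw [h0]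
      unfold quad
      simp
  have htot : ∑ r ∈ R, (1 - quad lam g (g r)) ≤ T + lam * Φ := by
    have h1 : ∑ r ∈ R, (1 - quad lam g (g r)) = R.card - d + lam * Phi lam g := by
      rw [htr] at hsplit; linarith
    rw [h1, hR2]
    push_cast
    have := mul_le_mul_of_nonneg_left hz hlam.le
    linarith
  -- each block
  have hterm : ∀ i, ∀ r ∈ B i, 1 ^ 2 / (1 + 12 * x i r) ≤ 1 - quad lam g (g r) := by
    intro i r hr
    have h1 := term_ge hlam g (B i) hr
    refine le_trans ?_ h1
    have hrG : r ∈ G := by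
      obtain ⟨j, -, rfl⟩ := Finset.mem_map.1 hr
      exact heG _
    have hr12 : σ r ≤ 12 := (Finset.mem_filter.1 hrG).2
    have e1 : g r ⬝ᵥ ((Mat lam (fun r' => if r' ∈ B i then 0 else g r'))⁻¹ *ᵥ g r) =
        σ r * x i r := by
      rw [hx]
      simp only
      conv_lhs => rw [hg]
      simp only [smul_dotProduct, mulVec_smul, dotProduct_smul, smul_eq_mul]
      rw [← mul_assoc, Real.mul_self_sqrt (hσ r)]
    rw [e1, one_pow]
    have h2 : 0 ≤ σ r * x i r := mul_nonneg (hσ r) (hx0 i r)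
    refine one_div_le_one_div_of_le (by linarith) ?_
    have := mul_le_mul_of_nonneg_right hr12 (hx0 i r)
    linarith
  have hBcard : ∀ i, ((B i).card : ℝ) = kk := fun i => by rw [hB]; simp
  have hblock : ∀ i, kk / (1 + 48 * R') ≤ ∑ r ∈ B i, (1 - quad lam g (g r)) := by
    intro i
    have h1 : (∑ r ∈ B i, (1 : ℝ)) ^ 2 / ∑ r ∈ B i, (1 + 12 * x i r) ≤
        ∑ r ∈ B i, 1 ^ 2 / (1 + 12 * x i r) :=
      Finset.sq_sum_div_le_sum_sq_div (B i) (fun _ => (1 : ℝ)) fun r _ => by
        have := hx0 i r; positivity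
    have h2 := Finset.sum_le_sum (hterm i)
    refine le_trans ?_ (h1.trans h2)
    have h3 : ∑ r ∈ B i, (1 + 12 * x i r) ≤ kk * (1 + 48 * R') := by
      rw [Finset.sum_add_distrib, ← Finset.mul_sum, Finset.sum_const, nsmul_eq_mul, mul_one,
        hBcard i]
      have := (hcon i).le
      have h4 : ∑ r ∈ B i, x i r ≤ 4 * kk * R' := this
      nlinarith
    have h5 : 0 < ∑ r ∈ B i, (1 + 12 * x i r) := by
      have : (B i).Nonempty := by
        rw [← Finset.card_pos]
        have := hBcard i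
        have h6 : (B i).card = kk := by exact_mod_cast this
        omega
      exact Finset.sum_pos (fun r _ => by have := hx0 i r; positivity) this
    rw [Finset.sum_const, nsmul_eq_mul, mul_one, hBcard i]
    rw [div_le_div_iff₀ (by positivity) h5]
    have h6 := mul_le_mul_of_nonneg_left h3 hkk0.le
    nlinarith
  have hall : (p : ℝ) * (kk / (1 + 48 * R')) ≤ ∑ r ∈ R, (1 - quad lam g (g r)) := by
    have h1 : (p : ℝ) * (kk / (1 + 48 * R')) ≤
        ∑ i : Fin p, ∑ r ∈ B i, (1 - quad lam g (g r)) := by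
      have := Finset.card_nsmul_le_sum (Finset.univ : Finset (Fin p))
        (fun i => ∑ r ∈ B i, (1 - quad lam g (g r))) (kk / (1 + 48 * R'))
        fun i _ => hblock i
      rw [Finset.card_univ, Fintype.card_fin, nsmul_eq_mul] at this
      exact this
    refine h1.trans ?_
    rw [← Finset.sum_biUnion]
    · refine Finset.sum_le_sum_of_subset_of_nonneg ?_ fun r _ _ => term_nonneg hlam g r
      intro r hr
      obtain ⟨i, -, hi⟩ := Finset.mem_biUnion.1 hr
      obtain ⟨j, -, rfl⟩ := Finset.mem_map.1 hi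
      exact (Finset.mem_filter.1 (heG _)).1
    · intro i _ j _ hij
      refine Finset.disjoint_left.2 fun r hr hr' => hij ?_
      obtain ⟨a, -, rfl⟩ := Finset.mem_map.1 hr
      obtain ⟨b, -, hb⟩ := Finset.mem_map.1 hr'
      exact (Prod.ext_iff.1 (heinj _ _ hb)).1.symm
  have hfin : (d / 4 : ℝ) / (1 + 48 * R') ≤ p * (kk / (1 + 48 * R')) := by
    rw [← mul_div_assoc]
    refine div_le_div_of_nonneg_right ?_ (by positivity)
    have : (d : ℝ) ≤ 4 * (p * kk) := by exact_mod_cast hpk4
    linarith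
  linarith

end BMLow
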