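import Pool.Agent.Lib.MP_766f4a_gt.LDefs

set_option autoImplicit false

namespace BMLow

open Matrix Finset MeasureTheory ProbabilityTheory

theorem g0_lintegral_sq :
    ∫⁻ x, ENNReal.ofReal (x ^ 2) ∂(gaussianReal 0 1) = 1 := by
  have hint : Integrable (fun x : ℝ => x ^ 2) (gaussianReal 0 1) := by
    have h := (memLp_id_gaussianReal (μ := 0) (v := 1) 2)
    exact h.integrable_sq
  rw [← ofReal_integral_eq_lintegral_ofReal hint (Filter.Eventually.of_forall fun x => sq_nonneg x)]
  have hv : Var[id; gaussianReal 0 1] = 1 := by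
    rw [variance_id_gaussianReal]; simp
  have hm : ∫ x, id x ∂(gaussianReal 0 1) = 0 := by
    simp [integral_id_gaussianReal]
  have h2 : ∫ x, x ^ 2 ∂(gaussianReal 0 1) = 1 := by
    rw [← hv, variance_eq_sub (memLp_id_gaussianReal (μ := 0) (v := 1) 2), hm]
    simp
  rw [h2]; simp

theorem prob_g0 (m d : ℕ) (hm : 0 < m) (hd : 0 < d) :
    gauss (Fin m) d {z | ¬ ∑ j, z j ⬝ᵥ z j ≤ 4 * m * d} ≤ 1 / 4 := by
  have hmeas : Measurable fun z : Fin m → Fin d → ℝ =>
      ENNReal.ofReal (∑ j, z j ⬝ᵥ z j) := by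
    refine ENNReal.measurable_ofReal.comp ?_
    refine Finset.measurable_sum _ fun j _ => ?_
    simp only [dotProduct]
    refine Finset.measurable_sum _ fun i _ => ?_
    fun_prop
  have hE : ∫⁻ z, ENNReal.ofReal (∑ j, z j ⬝ᵥ z j) ∂(gauss (Fin m) d) = m * d := by
    have h1 : ∀ z : Fin m → Fin d → ℝ, ENNReal.ofReal (∑ j, z j ⬝ᵥ z j) =
        ∑ j, ∑ i, ENNReal.ofReal ((z j i) ^ 2) := by
      intro z
      rw [ENNReal.ofReal_sum_of_nonneg (fun j _ => by
        simp only [dotProduct]; exact Finset.sum_nonneg fun i _ => mul_self_nonneg _)]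
      refine Finset.sum_congr rfl fun j _ => ?_
      simp only [dotProduct]
      rw [ENNReal.ofReal_sum_of_nonneg (fun i _ => mul_self_nonneg _)]
      refine Finset.sum_congr rfl fun i _ => ?_
      rw [sq]
    simp_rw [h1]
    rw [lintegral_finsetSum _ (fun j _ => by fun_prop)]
    have h2 : ∀ j : Fin m, ∫⁻ z, ∑ i, ENNReal.ofReal ((z j i) ^ 2) ∂(gauss (Fin m) d) = d := by
      intro j
      rw [lintegral_finsetSum _ (fun i _ => by fun_prop)]
      have h3 : ∀ i : Fin d, ∫⁻ z, ENNReal.ofReal ((z j i) ^ 2) ∂(gauss (Fin m) d) = 1 := by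
        intro i
        have e1 := (measurePreserving_eval
          (fun _ : Fin m => Measure.pi fun _ : Fin d => gaussianReal 0 1) j)
        have e2 := (measurePreserving_eval (fun _ : Fin d => gaussianReal 0 1) i)
        have e3 := e2.comp e1
        have e4 := e3.lintegral_comp (f := fun x : ℝ => ENNReal.ofReal (x ^ 2)) (by fun_prop)
        simp only [Function.comp_def, Function.eval] at e4
        unfold gauss
        rw [e4]
        exact g0_lintegral_sq
      simp [h3]
    simp [h2]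
  have hmd : (0 : ℝ) < 4 * m * d := by positivity
  have hsub : {z : Fin m → Fin d → ℝ | ¬ ∑ j, z j ⬝ᵥ z j ≤ 4 * m * d} ⊆
      {z | ENNReal.ofReal (4 * m * d) ≤ ENNReal.ofReal (∑ j, z j ⬝ᵥ z j)} := by
    intro z hz
    simp only [Set.mem_ofPred_eq, not_le] at hz ⊢
    exact ENNReal.ofReal_le_ofReal hz.le
  refine (measure_mono hsub).trans ?_
  have hne : ENNReal.ofReal (4 * m * d) ≠ 0 := by
    simp only [ne_eq, ENNReal.ofReal_eq_zero, not_le]; exact hmd
  refine (meas_ge_le_lintegral_div hmeas.aemeasurable hne ENNReal.ofReal_ne_top).trans ?_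
  rw [hE]
  have h4 : ENNReal.ofReal (4 * m * d) = 4 * (m * d) := by
    rw [ENNReal.ofReal_mul (by positivity), ENNReal.ofReal_mul (by positivity)]
    simp [mul_assoc]
  rw [h4]
  have hmd0 : (m * d : ENNReal) ≠ 0 := by
    simp only [ne_eq, mul_eq_zero, Nat.cast_eq_zero, not_or]; omega
  have hmdt : (m * d : ENNReal) ≠ ⊤ := by
    exact ENNReal.mul_ne_top (ENNReal.natCast_ne_top _) (ENNReal.natCast_ne_top _)
  rw [ENNReal.div_le_iff_le_mul (Or.inl (by simp [hmd0])) (Or.inl (ENNReal.mul_ne_top (by simp) hmdt))]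
  rw [← mul_assoc, one_div, ENNReal.inv_mul_cancel (by simp) (by simp), one_mul]

end BMLow
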