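import Pool.Agent.Lib.MP_766f4a_gt.LDefs

/-!
Module G2: a random polytope contains a large ball (grid argument).
-/

set_option autoImplicit false

namespace BMLow

open Matrix Finset MeasureTheory ProbabilityTheory

/-- The law of a linear form of a standard Gaussian vector. -/
theorem g2_law {d : ℕ} (u : Fin d → ℝ) (hu : u ⬝ᵥ u = 1) :
    (Measure.pi fun _ : Fin d => gaussianReal 0 1).map (fun z => z ⬝ᵥ u) = gaussianReal 0 1 := by
  have hm : Measurable (fun z : Fin d → ℝ => z ⬝ᵥ u) := by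
    unfold dotProduct
    fun_prop
  have : IsProbabilityMeasure
      ((Measure.pi fun _ : Fin d => gaussianReal 0 1).map (fun z => z ⬝ᵥ u)) :=
    Measure.isProbabilityMeasure_map hm.aemeasurable
  apply Measure.ext_of_charFun
  ext t
  rw [charFun_apply_real, integral_map hm.aemeasurable (by fun_prop), charFun_gaussianReal]
  have h1 : ∀ z : Fin d → ℝ, Complex.exp (t * ((z ⬝ᵥ u : ℝ) : ℂ) * Complex.I)
      = ∏ i, Complex.exp ((t * u i : ℝ) * (z i : ℂ) * Complex.I) := by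
    intro z
    rw [← Complex.exp_sum]
    congr 1
    unfold dotProduct
    push_cast
    rw [Finset.mul_sum, Finset.sum_mul]
    refine Finset.sum_congr rfl fun i _ => ?_
    ring
  simp_rw [h1]
  rw [integral_fintype_prod_eq_prod (𝕜 := ℂ)
    (fun i (x : ℝ) => Complex.exp ((t * u i : ℝ) * (x : ℂ) * Complex.I))]
  have h2 : ∀ i, ∫ x : ℝ, Complex.exp ((t * u i : ℝ) * (x : ℂ) * Complex.I) ∂(gaussianReal 0 1)
      = Complex.exp (-((t * u i : ℝ) : ℂ) ^ 2 / 2) := by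
    intro i
    rw [← charFun_apply_real, charFun_gaussianReal]
    congr 1
    push_cast
    ring
  simp_rw [h2]
  rw [← Complex.exp_sum]
  congr 1
  have h3 : ∑ i, u i * u i = 1 := hu
  have h4 : (∑ i, ((u i : ℂ)) * (u i : ℂ)) = 1 := by
    rw [← Complex.ofReal_one, ← h3]
    push_cast
    rfl
  have h5 : ∑ i, (-((t * u i : ℝ) : ℂ) ^ 2 / 2) = -(t : ℂ) ^ 2 / 2 * ∑ i, ((u i : ℂ)) * (u i : ℂ) := by
    rw [Finset.mul_sum]
    refine Finset.sum_congr rfl fun i _ => ?_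
    push_cast
    ring
  rw [h5, h4]
  push_cast
  ring

/-- The one-dimensional Laplace transform of `|g|` at `16`. -/
theorem g2_laplace : ∫ t : ℝ, Real.exp (1 - 16 * |t|) ∂(gaussianReal 0 1) ≤ 1 / 7 := by
  rw [integral_gaussianReal_eq_integral_smul (by norm_num)]
  have hpi := Real.pi_gt_three
  have hval : ∫ t : ℝ, Real.exp (1 - 16 * |t|) = Real.exp 1 / 8 := by
    have h := integral_comp_abs (f := fun t : ℝ => Real.exp (1 - 16 * t))
    rw [h]
    have h5 : ∀ t : ℝ, Real.exp (1 - 16 * t) = Real.exp 1 * Real.exp (-16 * t) := by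
      intro t
      rw [← Real.exp_add]
      congr 1
      ring
    simp_rw [h5]
    rw [integral_const_mul, integral_exp_mul_Ioi (by norm_num)]
    rw [mul_zero, Real.exp_zero]
    ring
  have hI : Integrable (fun t : ℝ => Real.exp (1 - 16 * |t|)) := by
    by_contra hcon
    have h0 := integral_undef hcon
    rw [hval] at h0
    have := Real.exp_pos 1
    linarith
  have hle : ∫ x : ℝ, gaussianPDFReal 0 1 x • Real.exp (1 - 16 * |x|)
      ≤ ∫ x : ℝ, (Real.sqrt (2 * Real.pi))⁻¹ * Real.exp (1 - 16 * |x|) := by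
    apply integral_mono_of_nonneg
    · exact Filter.Eventually.of_forall fun x =>
        mul_nonneg (gaussianPDFReal_nonneg _ _ _) (Real.exp_pos _).le
    · exact hI.const_mul _
    · refine Filter.Eventually.of_forall fun x => ?_
      simp only [smul_eq_mul]
      refine mul_le_mul_of_nonneg_right ?_ (Real.exp_pos _).le
      unfold gaussianPDFReal
      have h6 : Real.exp (-(x - 0) ^ 2 / (2 * ((1 : NNReal) : ℝ))) ≤ 1 := by
        rw [Real.exp_le_one_iff]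
        have : 0 ≤ (x - 0) ^ 2 := sq_nonneg _
        simp only [NNReal.coe_one, mul_one]
        linarith [div_nonneg this (by norm_num : (0 : ℝ) ≤ 2), neg_div (2 : ℝ) ((x - 0) ^ 2)]
      have h7 : 0 ≤ (Real.sqrt (2 * Real.pi * ((1 : NNReal) : ℝ)))⁻¹ := by positivity
      calc (Real.sqrt (2 * Real.pi * ((1 : NNReal) : ℝ)))⁻¹
            * Real.exp (-(x - 0) ^ 2 / (2 * ((1 : NNReal) : ℝ)))
          ≤ (Real.sqrt (2 * Real.pi * ((1 : NNReal) : ℝ)))⁻¹ * 1 :=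
            mul_le_mul_of_nonneg_left h6 h7
        _ = (Real.sqrt (2 * Real.pi))⁻¹ := by simp
  refine hle.trans ?_
  rw [integral_const_mul, hval]
  have hs : (12 / 5 : ℝ) ≤ Real.sqrt (2 * Real.pi) := by
    apply Real.le_sqrt_of_sq_le
    nlinarith
  have he : Real.exp 1 < 2.7182818286 := Real.exp_one_lt_d9
  have hsi : (Real.sqrt (2 * Real.pi))⁻¹ ≤ 5 / 12 := by
    rw [inv_le_comm₀ (by positivity) (by norm_num)]
    linarith
  calc (Real.sqrt (2 * Real.pi))⁻¹ * (Real.exp 1 / 8) ≤ 5 / 12 * (2.7182818286 / 8) := by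
        gcongr
    _ ≤ 1 / 7 := by norm_num

theorem g2_point (m : ℕ) {d : ℕ} (u : Fin d → ℝ) (hu : u ⬝ᵥ u = 1) :
    gauss (Fin m) d {z | ∑ j, |z j ⬝ᵥ u| ≤ m / 16} ≤ ENNReal.ofReal ((1 / 7) ^ m) := by
  have hm : Measurable (fun z : Fin d → ℝ => z ⬝ᵥ u) := by
    unfold dotProduct
    fun_prop
  have hmf : Measurable (fun z : Fin d → ℝ => Real.exp (1 - 16 * |z ⬝ᵥ u|)) := by
    fun_prop
  have h1 : ∫ z : Fin m → Fin d → ℝ, ∏ j, Real.exp (1 - 16 * |z j ⬝ᵥ u|) ∂(gauss (Fin m) d)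
      = (∫ z : Fin d → ℝ, Real.exp (1 - 16 * |z ⬝ᵥ u|)
        ∂(Measure.pi fun _ : Fin d => gaussianReal 0 1)) ^ m := by
    have := integral_fintype_prod_eq_pow (ι := Fin m)
      (μ := (Measure.pi fun _ : Fin d => gaussianReal 0 1))
      (fun z : Fin d → ℝ => Real.exp (1 - 16 * |z ⬝ᵥ u|))
    rw [Fintype.card_fin] at this
    exact this
  have h2 : ∫ z : Fin d → ℝ, Real.exp (1 - 16 * |z ⬝ᵥ u|)
        ∂(Measure.pi fun _ : Fin d => gaussianReal 0 1) ≤ 1 / 7 := by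
    have h3 := integral_map (μ := (Measure.pi fun _ : Fin d => gaussianReal 0 1))
      (φ := fun z : Fin d → ℝ => z ⬝ᵥ u) hm.aemeasurable
      (f := fun t : ℝ => Real.exp (1 - 16 * |t|)) (by fun_prop)
    rw [g2_law u hu] at h3
    rw [← h3]
    exact g2_laplace
  have h4 : 0 ≤ ∫ z : Fin d → ℝ, Real.exp (1 - 16 * |z ⬝ᵥ u|)
        ∂(Measure.pi fun _ : Fin d => gaussianReal 0 1) :=
    integral_nonneg fun z => (Real.exp_pos _).le
  have : IsProbabilityMeasure (gauss (Fin m) d) := by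
    unfold gauss
    infer_instance
  have hint : Integrable (fun z : Fin m → Fin d → ℝ => ∏ j, Real.exp (1 - 16 * |z j ⬝ᵥ u|))
      (gauss (Fin m) d) := by
    refine Integrable.of_bound ?_ (Real.exp 1 ^ m) (Filter.Eventually.of_forall fun z => ?_)
    · refine Measurable.aestronglyMeasurable ?_
      exact Finset.measurable_prod _ fun j _ => hmf.comp (measurable_pi_apply j)
    · rw [Real.norm_of_nonneg (Finset.prod_nonneg fun j _ => (Real.exp_pos _).le)]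
      calc ∏ j, Real.exp (1 - 16 * |z j ⬝ᵥ u|) ≤ ∏ _j : Fin m, Real.exp 1 := by
            refine Finset.prod_le_prod (fun j _ => (Real.exp_pos _).le) fun j _ => ?_
            apply Real.exp_le_exp.2
            have := abs_nonneg (z j ⬝ᵥ u)
            linarith
        _ = Real.exp 1 ^ m := by rw [Finset.prod_const, Finset.card_univ, Fintype.card_fin]
  have h5 := mul_meas_ge_le_integral_of_nonneg (μ := gauss (Fin m) d)
    (Filter.Eventually.of_forall fun z => Finset.prod_nonneg fun j _ => (Real.exp_pos _).le)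
    hint 1
  rw [one_mul, h1] at h5
  have h6 : (∫ z : Fin d → ℝ, Real.exp (1 - 16 * |z ⬝ᵥ u|)
        ∂(Measure.pi fun _ : Fin d => gaussianReal 0 1)) ^ m ≤ (1 / 7) ^ m :=
    pow_le_pow_left₀ h4 h2 m
  have h7 : {z : Fin m → Fin d → ℝ | ∑ j, |z j ⬝ᵥ u| ≤ m / 16}
      ⊆ {z | 1 ≤ ∏ j, Real.exp (1 - 16 * |z j ⬝ᵥ u|)} := by
    intro z hz
    have hz' : ∑ j, |z j ⬝ᵥ u| ≤ m / 16 := hz
    show 1 ≤ ∏ j, Real.exp (1 - 16 * |z j ⬝ᵥ u|)
    rw [← Real.exp_sum, Real.one_le_exp_iff, Finset.sum_sub_distrib, ← Finset.mul_sum,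
      Finset.sum_const, Finset.card_univ, Fintype.card_fin, nsmul_eq_mul, mul_one]
    linarith
  calc gauss (Fin m) d {z | ∑ j, |z j ⬝ᵥ u| ≤ m / 16}
      ≤ gauss (Fin m) d {z | 1 ≤ ∏ j, Real.exp (1 - 16 * |z j ⬝ᵥ u|)} := measure_mono h7
    _ = ENNReal.ofReal ((gauss (Fin m) d).real {z | 1 ≤ ∏ j, Real.exp (1 - 16 * |z j ⬝ᵥ u|)}) := by
        rw [ofReal_measureReal]
    _ ≤ ENNReal.ofReal ((1 / 7) ^ m) := ENNReal.ofReal_le_ofReal (h5.trans h6)

/-- The grid. -/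
noncomputable def g2Grid (d : ℕ) : Finset (Fin d → ℤ) :=
  Fintype.piFinset fun _ => Finset.Icc (-(128 * d : ℤ)) (128 * d)

theorem g2Grid_card (d : ℕ) : (g2Grid d).card = (256 * d + 1) ^ d := by
  unfold g2Grid
  rw [Fintype.card_piFinset, Finset.prod_const, Finset.card_univ, Fintype.card_fin, Int.card_Icc]
  congr 1
  omega

/-- A grid point as a real vector. -/
noncomputable def g2Pt (d : ℕ) (k : Fin d → ℤ) : Fin d → ℝ := fun i => (k i : ℝ) / (64 * d)

/-- The normalised vector. -/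
theorem g2_normalise {d : ℕ} (y : Fin d → ℝ) (hy : 0 < y ⬝ᵥ y) :
    ((Real.sqrt (y ⬝ᵥ y))⁻¹ • y) ⬝ᵥ ((Real.sqrt (y ⬝ᵥ y))⁻¹ • y) = 1 := by
  have hs := Real.sq_sqrt hy.le
  have hs0 := Real.sqrt_pos.2 hy
  rw [smul_dotProduct, dotProduct_smul, smul_eq_mul, smul_eq_mul]
  field_simp
  linarith

theorem g2_det {m d : ℕ} (hm : 0 < m) (hd : 0 < d) (z : Fin m → Fin d → ℝ)
    (hz : ∑ j, z j ⬝ᵥ z j ≤ 4 * m * d) (x : Fin d → ℝ)
    (hx : ∑ j, |z j ⬝ᵥ x| < (1 / 64 : ℝ) * m * Real.sqrt (x ⬝ᵥ x)) :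
    ∃ k ∈ g2Grid d, 1 / 4 ≤ g2Pt d k ⬝ᵥ g2Pt d k ∧
      ∑ j, |z j ⬝ᵥ g2Pt d k| ≤ m / 32 := by
  have hd0 : (0 : ℝ) < d := by exact_mod_cast hd
  have hm0 : (0 : ℝ) < m := by exact_mod_cast hm
  set r := Real.sqrt (x ⬝ᵥ x) with hr
  have hr0 : 0 < r := by
    rcases (Real.sqrt_nonneg (x ⬝ᵥ x)).lt_or_eq with h | h
    · exact h
    · exfalso
      rw [hr, ← h, mul_zero] at hx
      exact absurd hx (not_lt.2 (Finset.sum_nonneg fun j _ => abs_nonneg _))
  have hxx : 0 < x ⬝ᵥ x := Real.sqrt_pos.1 hr0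
  set u : Fin d → ℝ := r⁻¹ • x with hu
  have hu1 : u ⬝ᵥ u = 1 := g2_normalise x hxx
  have huz : ∑ j, |z j ⬝ᵥ u| ≤ m / 64 := by
    have h1 : ∀ j, |z j ⬝ᵥ u| = r⁻¹ * |z j ⬝ᵥ x| := by
      intro j
      rw [hu, dotProduct_smul, smul_eq_mul, abs_mul, abs_of_pos (inv_pos.2 hr0)]
    simp_rw [h1]
    rw [← Finset.mul_sum, inv_mul_le_iff₀ hr0]
    linarith
  have hui : ∀ i, |u i| ≤ 1 := by
    intro i
    have h1 : u i * u i ≤ 1 := by
      rw [← hu1]
      exact Finset.single_le_sum (f := fun i => u i * u i) (fun i _ => mul_self_nonneg _)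
        (Finset.mem_univ i)
    exact abs_le_one_iff_mul_self_le_one.2 h1
  set k : Fin d → ℤ := fun i => round (64 * d * u i) with hk
  have hkr : ∀ i, |(64 * d * u i) - (k i : ℝ)| ≤ 1 / 2 := fun i => abs_sub_round _
  have he : ∀ i, |g2Pt d k i - u i| ≤ 1 / (128 * d) := by
    intro i
    have h1 : g2Pt d k i - u i = -((64 * d * u i) - (k i : ℝ)) / (64 * d) := by
      unfold g2Pt
      field_simp
      ring
    rw [h1, abs_div, abs_neg, abs_of_pos (by positivity : (0 : ℝ) < 64 * d),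
      div_le_div_iff₀ (by positivity) (by positivity)]
    have := hkr i
    nlinarith
  refine ⟨k, ?_, ?_, ?_⟩
  · unfold g2Grid
    rw [Fintype.mem_piFinset]
    intro i
    rw [Finset.mem_Icc]
    have h1 := hkr i
    have h2 := abs_le.1 (hui i)
    have h3 := abs_le.1 h1
    have hd1 : (1 : ℝ) ≤ d := by exact_mod_cast hd
    constructor
    · have : (-(128 * d : ℤ) : ℝ) ≤ (k i : ℝ) := by
        push_cast
        nlinarith
      exact_mod_cast this
    · have : (k i : ℝ) ≤ ((128 * d : ℤ) : ℝ) := by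
        push_cast
        nlinarith
      exact_mod_cast this
  · have h1 : ∀ i, u i * u i - 1 / (64 * d) ≤ g2Pt d k i * g2Pt d k i := by
      intro i
      have h2 := abs_le.1 (hui i)
      have h3 : |2 * u i * (g2Pt d k i - u i)| ≤ 1 / (64 * d) := by
        rw [abs_mul, abs_mul, abs_two]
        calc 2 * |u i| * |g2Pt d k i - u i| ≤ 2 * 1 * (1 / (128 * d)) := by
              gcongr
              · exact hui i
              · exact he i
          _ = 1 / (64 * d) := by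
              field_simp
              norm_num
      have h4 := (abs_le.1 h3).1
      nlinarith [sq_nonneg (g2Pt d k i - u i)]
    have h5 : ∑ i, (u i * u i - 1 / (64 * d)) ≤ g2Pt d k ⬝ᵥ g2Pt d k :=
      Finset.sum_le_sum fun i _ => h1 i
    rw [Finset.sum_sub_distrib, Finset.sum_const, Finset.card_univ, Fintype.card_fin,
      nsmul_eq_mul] at h5
    have h6 : ∑ i, u i * u i = 1 := hu1
    have h7 : (d : ℝ) * (1 / (64 * d)) = 1 / 64 := by
      field_simp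
    rw [h6, h7] at h5
    linarith
  · have h1 : ∀ j, |z j ⬝ᵥ g2Pt d k| ≤ |z j ⬝ᵥ u| + ∑ i, (1 / (128 * d)) * |z j i| := by
      intro j
      have h2 : z j ⬝ᵥ g2Pt d k = z j ⬝ᵥ u + ∑ i, z j i * (g2Pt d k i - u i) := by
        unfold dotProduct
        rw [← Finset.sum_add_distrib]
        refine Finset.sum_congr rfl fun i _ => ?_
        ring
      rw [h2]
      refine (abs_add_le _ _).trans ?_
      gcongr
      refine (Finset.abs_sum_le_sum_abs _ _).trans ?_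
      refine Finset.sum_le_sum fun i _ => ?_
      rw [abs_mul, mul_comm]
      gcongr
      exact he i
    have h3 : ∑ j : Fin m, ∑ i, (z j i * z j i / 4 + 1) = (∑ j, z j ⬝ᵥ z j) / 4 + m * d := by
      simp only [dotProduct, Finset.sum_add_distrib, Finset.sum_const, Finset.card_univ,
        Fintype.card_fin, nsmul_eq_mul, mul_one, Finset.sum_div]
    calc ∑ j, |z j ⬝ᵥ g2Pt d k|
        ≤ ∑ j, (|z j ⬝ᵥ u| + ∑ i, (1 / (128 * d)) * |z j i|) :=
          Finset.sum_le_sum fun j _ => h1 j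
      _ = ∑ j, |z j ⬝ᵥ u| + (1 / (128 * d)) * ∑ j, ∑ i, |z j i| := by
          rw [Finset.sum_add_distrib, Finset.mul_sum]
          congr 1
          refine Finset.sum_congr rfl fun j _ => ?_
          rw [Finset.mul_sum]
      _ ≤ m / 64 + (1 / (128 * d)) * ∑ j : Fin m, ∑ i, (z j i * z j i / 4 + 1) := by
          gcongr with j _ i _
          nlinarith [sq_nonneg (|z j i| / 2 - 1), abs_mul_abs_self (z j i)]
      _ = m / 64 + (1 / (128 * d)) * ((∑ j, z j ⬝ᵥ z j) / 4 + m * d) := by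
          rw [h3]
      _ ≤ m / 64 + (1 / (128 * d)) * ((4 * m * d) / 4 + m * d) := by
          gcongr
      _ = m / 32 := by
          field_simp
          ring

theorem prob_g2 (m d : ℕ) (hm : 0 < m) (hd : 0 < d) (h : 8 * (256 * d + 1) ^ d ≤ 7 ^ m) :
    gauss (Fin m) d {z | ∑ j, z j ⬝ᵥ z j ≤ 4 * m * d ∧
      ¬ ∀ x : Fin d → ℝ, (1 / 64 : ℝ) * m * Real.sqrt (x ⬝ᵥ x) ≤ ∑ j, |z j ⬝ᵥ x|} ≤ 1 / 8 := by
  classical
  have hm0 : (0 : ℝ) < m := by exact_mod_cast hm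
  set F := (g2Grid d).filter fun k => 1 / 4 ≤ g2Pt d k ⬝ᵥ g2Pt d k with hF
  have hsub : {z : Fin m → Fin d → ℝ | ∑ j, z j ⬝ᵥ z j ≤ 4 * m * d ∧
      ¬ ∀ x : Fin d → ℝ, (1 / 64 : ℝ) * m * Real.sqrt (x ⬝ᵥ x) ≤ ∑ j, |z j ⬝ᵥ x|} ⊆
      ⋃ k ∈ F, {z : Fin m → Fin d → ℝ |
        ∑ j, |z j ⬝ᵥ ((Real.sqrt (g2Pt d k ⬝ᵥ g2Pt d k))⁻¹ • g2Pt d k)| ≤ m / 16} := by
    rintro z ⟨hz, hx⟩
    push Not at hx
    obtain ⟨x, hx⟩ := hx
    obtain ⟨k, hk, hk1, hk2⟩ := g2_det hm hd z hz x hx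
    rw [Set.mem_iUnion₂]
    refine ⟨k, Finset.mem_filter.2 ⟨hk, hk1⟩, ?_⟩
    show ∑ j, |z j ⬝ᵥ ((Real.sqrt (g2Pt d k ⬝ᵥ g2Pt d k))⁻¹ • g2Pt d k)| ≤ m / 16
    have hs : (1 / 2 : ℝ) ≤ Real.sqrt (g2Pt d k ⬝ᵥ g2Pt d k) := by
      apply Real.le_sqrt_of_sq_le
      linarith
    have hs0 : 0 < Real.sqrt (g2Pt d k ⬝ᵥ g2Pt d k) := by linarith
    have h1 : ∀ j, |z j ⬝ᵥ ((Real.sqrt (g2Pt d k ⬝ᵥ g2Pt d k))⁻¹ • g2Pt d k)|
        = (Real.sqrt (g2Pt d k ⬝ᵥ g2Pt d k))⁻¹ * |z j ⬝ᵥ g2Pt d k| := by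
      intro j
      rw [dotProduct_smul, smul_eq_mul, abs_mul, abs_of_pos (inv_pos.2 hs0)]
    simp_rw [h1]
    rw [← Finset.mul_sum, inv_mul_le_iff₀ hs0]
    nlinarith
  refine (measure_mono hsub).trans ((measure_biUnion_finset_le F _).trans ?_)
  have hterm : ∀ k ∈ F, gauss (Fin m) d {z : Fin m → Fin d → ℝ |
        ∑ j, |z j ⬝ᵥ ((Real.sqrt (g2Pt d k ⬝ᵥ g2Pt d k))⁻¹ • g2Pt d k)| ≤ m / 16}
        ≤ ENNReal.ofReal ((1 / 7) ^ m) := by
    intro k hk
    have hk1 := (Finset.mem_filter.1 hk).2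
    exact g2_point m _ (g2_normalise _ (by linarith))
  refine (Finset.sum_le_sum hterm).trans ?_
  rw [Finset.sum_const, nsmul_eq_mul]
  have hcard : F.card ≤ (256 * d + 1) ^ d := by
    rw [← g2Grid_card]
    exact Finset.card_filter_le _ _
  have hreal : ((F.card : ℕ) : ℝ) * (1 / 7) ^ m ≤ 1 / 8 := by
    have h1 : ((F.card : ℕ) : ℝ) ≤ ((256 * d + 1) ^ d : ℕ) := by exact_mod_cast hcard
    have h2 : (8 : ℝ) * ((256 * d + 1) ^ d : ℕ) ≤ 7 ^ m := by exact_mod_cast h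
    rw [one_div, inv_pow, ← div_eq_mul_inv, div_le_iff₀ (by positivity)]
    linarith
  calc ((F.card : ℕ) : ENNReal) * ENNReal.ofReal ((1 / 7) ^ m)
      = ENNReal.ofReal (((F.card : ℕ) : ℝ) * (1 / 7) ^ m) := by
        rw [ENNReal.ofReal_mul (by positivity), ENNReal.ofReal_natCast]
    _ ≤ ENNReal.ofReal (1 / 8) := ENNReal.ofReal_le_ofReal hreal
    _ = 1 / 8 := by
        rw [ENNReal.ofReal_div_of_pos (by norm_num)]
        norm_num

end BMLow
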