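import Pool.Agent.Lib.MP_766f4a_gt.TDefs

/-!
Module BARRIER: the one-sided barrier argument of Batson, Spielman and Srivastava.
-/

set_option autoImplicit false
set_option linter.unusedSectionVars false

namespace BMTwo

open Matrix Finset

namespace Barrier

variable {κ : Type*} [Fintype κ] [DecidableEq κ]

lemma posDef_iff' {M : Matrix κ κ ℝ} :
    M.PosDef ↔ Mᵀ = M ∧ ∀ x : κ → ℝ, x ≠ 0 → 0 < x ⬝ᵥ (M *ᵥ x) := by
  rw [posDef_iff_dotProduct_mulVec]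
  simp only [Matrix.IsHermitian, conjTranspose_eq_transpose_of_trivial, star_trivial]

lemma posSemidef_iff' {M : Matrix κ κ ℝ} :
    M.PosSemidef ↔ Mᵀ = M ∧ ∀ x : κ → ℝ, 0 ≤ x ⬝ᵥ (M *ᵥ x) := by
  rw [posSemidef_iff_dotProduct_mulVec]
  simp only [Matrix.IsHermitian, conjTranspose_eq_transpose_of_trivial, star_trivial]

lemma dot_symm {M : Matrix κ κ ℝ} (hM : Mᵀ = M) (x y : κ → ℝ) :
    x ⬝ᵥ (M *ᵥ y) = (M *ᵥ x) ⬝ᵥ y := by
  rw [dotProduct_mulVec, ← mulVec_transpose, hM]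

lemma vecMulVec_mulVec' (u x : κ → ℝ) : vecMulVec u u *ᵥ x = (u ⬝ᵥ x) • u := by
  ext i
  simp only [mulVec, dotProduct, vecMulVec_apply, Pi.smul_apply, smul_eq_mul]
  rw [Finset.sum_mul]
  exact Finset.sum_congr rfl fun j _ => by ring

lemma dot_vecMulVec (u x : κ → ℝ) : x ⬝ᵥ (vecMulVec u u *ᵥ x) = (u ⬝ᵥ x) ^ 2 := by
  rw [vecMulVec_mulVec', dotProduct_smul, smul_eq_mul, dotProduct_comm x u]
  ring

lemma dot_self_nonneg (x : κ → ℝ) : 0 ≤ x ⬝ᵥ x := by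
  simp only [dotProduct]
  exact Finset.sum_nonneg fun i _ => mul_self_nonneg _

/-- Sherman-Morrison, positivity. -/
lemma posDef_sub {M R : Matrix κ κ ℝ} (hM : M.PosDef) (hMR : M * R = 1) (u : κ → ℝ)
    (hs : u ⬝ᵥ (R *ᵥ u) < 1) : (M - vecMulVec u u).PosDef := by
  obtain ⟨hMt, hMp⟩ := posDef_iff'.1 hM
  rw [posDef_iff']
  refine ⟨?_, ?_⟩
  · rw [transpose_sub, hMt]
    congr 1
    ext i j
    simp [vecMulVec_apply, mul_comm]
  · intro x hx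
    rw [sub_mulVec, dotProduct_sub, dot_vecMulVec]
    obtain ⟨p, hp⟩ : ∃ p, p = R *ᵥ u := ⟨_, rfl⟩
    have hMp' : M *ᵥ p = u := by rw [hp, mulVec_mulVec, hMR, one_mulVec]
    have h0 : 0 ≤ (x - (u ⬝ᵥ x) • p) ⬝ᵥ (M *ᵥ (x - (u ⬝ᵥ x) • p)) := by
      by_cases h : x - (u ⬝ᵥ x) • p = 0
      · rw [h]; simp
      · exact (hMp _ h).le
    have h1 : (x - (u ⬝ᵥ x) • p) ⬝ᵥ (M *ᵥ (x - (u ⬝ᵥ x) • p)) =
        x ⬝ᵥ (M *ᵥ x) - 2 * (u ⬝ᵥ x) ^ 2 + (u ⬝ᵥ x) ^ 2 * (u ⬝ᵥ (R *ᵥ u)) := by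
      rw [mulVec_sub, mulVec_smul, hMp', sub_dotProduct, dotProduct_sub, dotProduct_sub,
        smul_dotProduct, smul_dotProduct, dotProduct_smul, dotProduct_smul]
      have h2 : p ⬝ᵥ (M *ᵥ x) = u ⬝ᵥ x := by rw [dot_symm hMt, hMp']
      have h3 : p ⬝ᵥ u = u ⬝ᵥ (R *ᵥ u) := by rw [hp, dotProduct_comm]
      rw [h2, h3, dotProduct_comm x u]
      simp only [smul_eq_mul]
      ring
    rw [h1] at h0
    by_cases hux : u ⬝ᵥ x = 0
    · rw [hux]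
      have := hMp x hx
      simpa using this
    · have h4 : 0 < (u ⬝ᵥ x) ^ 2 := by positivity
      nlinarith

/-- Sherman-Morrison, the inverse. -/
lemma inv_sub {M R : Matrix κ κ ℝ} (hMR : M * R = 1) (hRt : Rᵀ = R) (u : κ → ℝ)
    (hs : u ⬝ᵥ (R *ᵥ u) ≠ 1) :
    (M - vecMulVec u u)⁻¹ =
      R + (1 - u ⬝ᵥ (R *ᵥ u))⁻¹ • vecMulVec (R *ᵥ u) (R *ᵥ u) := by
  apply inv_eq_right_inv
  have hs' : 1 - u ⬝ᵥ (R *ᵥ u) ≠ 0 := sub_ne_zero.2 (Ne.symm hs)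
  have e1 : M * vecMulVec (R *ᵥ u) (R *ᵥ u) = vecMulVec u (R *ᵥ u) := by
    rw [mul_vecMulVec, mulVec_mulVec, hMR, one_mulVec]
  have e2 : vecMulVec u u * R = vecMulVec u (R *ᵥ u) := by
    rw [vecMulVec_mul, ← mulVec_transpose, hRt]
  have e3 : vecMulVec u u * vecMulVec (R *ᵥ u) (R *ᵥ u) =
      (u ⬝ᵥ (R *ᵥ u)) • vecMulVec u (R *ᵥ u) := by
    ext i j
    rw [Matrix.mul_apply, Matrix.smul_apply]
    simp only [vecMulVec_apply, smul_eq_mul]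
    calc ∑ k, u i * u k * ((R *ᵥ u) k * (R *ᵥ u) j) =
        ∑ k, (u k * (R *ᵥ u) k) * (u i * (R *ᵥ u) j) :=
          Finset.sum_congr rfl fun k _ => by ring
      _ = (u ⬝ᵥ (R *ᵥ u)) * (u i * (R *ᵥ u) j) := by
          rw [← Finset.sum_mul]; rfl
  rw [sub_mul, mul_add, mul_add, Matrix.mul_smul, Matrix.mul_smul, hMR, e1, e2, e3]
  ext i j
  simp only [Matrix.sub_apply, Matrix.add_apply, Matrix.smul_apply, smul_eq_mul]
  field_simp
  ring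

variable {ι : Type*} [Fintype ι] [DecidableEq ι]

/-- The trace against the frame operator. -/
noncomputable def tr (u : ι → κ → ℝ) (Y : Matrix κ κ ℝ) : ℝ := ∑ i, u i ⬝ᵥ (Y *ᵥ u i)

/-- The quadratic form of the frame operator. -/
lemma quad_frame (u : ι → κ → ℝ) (s : Finset ι) (y : κ → ℝ) :
    y ⬝ᵥ ((∑ i ∈ s, vecMulVec (u i) (u i)) *ᵥ y) = ∑ i ∈ s, (u i ⬝ᵥ y) ^ 2 := by
  rw [Matrix.sum_mulVec, dotProduct_sum]
  exact Finset.sum_congr rfl fun i _ => dot_vecMulVec _ _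

/-- One step of the barrier argument. -/
lemma step (u : ι → κ → ℝ) (a δ : ℝ) (hδ : 0 < δ)
    (hD : a = δ * ((Fintype.card ι : ℝ) / 4))
    (hA : ∀ y : κ → ℝ, ∑ i, (u i ⬝ᵥ y) ^ 2 ≤ a * (y ⬝ᵥ y)) (hu : ∃ i, u i ≠ 0)
    (τ : Finset ι) (hτ : 2 * (τ.card + 1) ≤ Fintype.card ι) (M₀ : Matrix κ κ ℝ)
    (hM₀ : M₀.PosDef) (htr : tr u M₀⁻¹ ≤ (Fintype.card ι : ℝ) / 4) :
    ∃ i, i ∉ τ ∧ (M₀ + δ • 1 - vecMulVec (u i) (u i)).PosDef ∧
      tr u (M₀ + δ • 1 - vecMulVec (u i) (u i))⁻¹ ≤ (Fintype.card ι : ℝ) / 4 := by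
  obtain ⟨D, hDdef⟩ : ∃ D : ℝ, D = (Fintype.card ι : ℝ) := ⟨_, rfl⟩
  rw [← hDdef] at hD htr ⊢
  have hM : (M₀ + δ • (1 : Matrix κ κ ℝ)).PosDef :=
    hM₀.add (PosDef.one.smul hδ)
  obtain ⟨M, hMdef⟩ : ∃ M, M = M₀ + δ • (1 : Matrix κ κ ℝ) := ⟨_, rfl⟩
  rw [← hMdef] at hM ⊢
  obtain ⟨R₀, hR₀def⟩ : ∃ R₀, R₀ = M₀⁻¹ := ⟨_, rfl⟩
  obtain ⟨R, hRdef⟩ : ∃ R, R = M⁻¹ := ⟨_, rfl⟩
  have hR₀ : R₀.PosDef := hR₀def ▸ hM₀.inv
  have hR : R.PosDef := hRdef ▸ hM.inv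
  obtain ⟨hR₀t, hR₀p⟩ := posDef_iff'.1 hR₀
  obtain ⟨hRt, hRp⟩ := posDef_iff'.1 hR
  have hR₀p' : ∀ x : κ → ℝ, 0 ≤ x ⬝ᵥ (R₀ *ᵥ x) := (posSemidef_iff'.1 hR₀.posSemidef).2
  have hRp' : ∀ x : κ → ℝ, 0 ≤ x ⬝ᵥ (R *ᵥ x) := (posSemidef_iff'.1 hR.posSemidef).2
  have hMR : M * R = 1 := by rw [hRdef]; exact mul_nonsing_inv _ ((isUnit_iff_isUnit_det _).1 hM.isUnit)
  have hRM : R * M = 1 := by rw [hRdef]; exact nonsing_inv_mul _ ((isUnit_iff_isUnit_det _).1 hM.isUnit)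
  have hMR₀ : M₀ * R₀ = 1 := by
    rw [hR₀def]; exact mul_nonsing_inv _ ((isUnit_iff_isUnit_det _).1 hM₀.isUnit)
  have hRM₀ : R₀ * M₀ = 1 := by
    rw [hR₀def]; exact nonsing_inv_mul _ ((isUnit_iff_isUnit_det _).1 hM₀.isUnit)
  -- resolvent identities
  have e1 : R₀ - R = δ • (R₀ * R) := by
    have : R₀ * (M - M₀) * R = R₀ - R := by
      rw [mul_sub, sub_mul, Matrix.mul_assoc R₀ M, hMR, mul_one, hRM₀, one_mul]
    rw [← this, hMdef, add_sub_cancel_left]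
    rw [Matrix.mul_smul, mul_one, Matrix.smul_mul]
  have e2 : R₀ - R = δ • (R * R₀) := by
    have : R * (M - M₀) * R₀ = R₀ - R := by
      rw [mul_sub, sub_mul, hRM, one_mul, Matrix.mul_assoc R M₀, hMR₀, mul_one]
    rw [← this, hMdef, add_sub_cancel_left]
    rw [Matrix.mul_smul, mul_one, Matrix.smul_mul]
  have e3 : R₀ = R + δ • (R * R) + δ ^ 2 • (R * R₀ * R) := by
    have h1 : R₀ = R + δ • (R₀ * R) := by rw [← e1]; abel
    have h2 : R₀ * R = R * R + δ • (R * R₀ * R) := by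
      have h3 : R₀ = R + δ • (R * R₀) := by rw [← e2]; abel
      conv_lhs => rw [h3]
      rw [add_mul, Matrix.smul_mul]
    conv_lhs => rw [h1, h2]
    rw [smul_add, smul_smul, sq δ, add_assoc]
  -- the quantity q
  obtain ⟨q, hq⟩ : ∃ q, q = ∑ i, (R *ᵥ u i) ⬝ᵥ (R *ᵥ u i) := ⟨_, rfl⟩
  have hRinj : ∀ x : κ → ℝ, R *ᵥ x = 0 → x = 0 := by
    intro x hx
    have : M *ᵥ (R *ᵥ x) = x := by rw [mulVec_mulVec, hMR, one_mulVec]
    rw [← this, hx, mulVec_zero]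
  have hq0 : 0 < q := by
    rw [hq]
    obtain ⟨i₀, hi₀⟩ := hu
    apply Finset.sum_pos' (fun i _ => dot_self_nonneg _)
    refine ⟨i₀, Finset.mem_univ _, ?_⟩
    refine lt_of_le_of_ne (dot_self_nonneg _) fun h => ?_
    exact hi₀ (hRinj _ (dotProduct_self_eq_zero.1 h.symm))
  have htrR : tr u R + δ * q ≤ tr u R₀ := by
    have h1 : ∀ i, u i ⬝ᵥ (R₀ *ᵥ u i) = u i ⬝ᵥ (R *ᵥ u i) +
        δ * ((R *ᵥ u i) ⬝ᵥ (R *ᵥ u i)) + δ ^ 2 * ((R *ᵥ u i) ⬝ᵥ (R₀ *ᵥ (R *ᵥ u i))) := by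
      intro i
      conv_lhs => rw [e3]
      rw [add_mulVec, add_mulVec, dotProduct_add, dotProduct_add, smul_mulVec, smul_mulVec,
        dotProduct_smul, dotProduct_smul, smul_eq_mul, smul_eq_mul, ← mulVec_mulVec,
        Matrix.mul_assoc, ← mulVec_mulVec, dot_symm hRt (u i) (R *ᵥ u i),
        dot_symm hRt (u i) ((R₀ * R) *ᵥ u i), ← mulVec_mulVec]
    simp only [tr]
    rw [hq, Finset.mul_sum, ← Finset.sum_add_distrib]
    apply Finset.sum_le_sum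
    intro i _
    rw [h1 i]
    have := hR₀p' (R *ᵥ u i)
    have : 0 ≤ δ ^ 2 * ((R *ᵥ u i) ⬝ᵥ (R₀ *ᵥ (R *ᵥ u i))) := by positivity
    linarith
  have htrR0 : 0 ≤ tr u R := Finset.sum_nonneg fun i _ => hRp' _
  rw [← hR₀def] at htr
  have htrR1 : tr u R ≤ D / 4 := by nlinarith [mul_pos hδ hq0]
  -- averaging
  obtain ⟨w, hw⟩ : ∃ w : ι → ℝ, ∀ i, w i = ∑ j, (u j ⬝ᵥ (R *ᵥ u i)) ^ 2 := ⟨_, fun _ => rfl⟩
  have hw0 : ∀ i, 0 ≤ w i := fun i => by rw [hw]; positivity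
  have hwsum : ∑ i, w i ≤ a * q := by
    rw [hq, Finset.mul_sum]
    apply Finset.sum_le_sum
    intro i _
    rw [hw]
    exact hA _
  have hex : ∃ i, i ∉ τ ∧ w i + δ * q * (u i ⬝ᵥ (R *ᵥ u i)) < δ * q := by
    by_contra hcon
    push Not at hcon
    have h1 : (τᶜ.card : ℝ) * (δ * q) ≤ ∑ i ∈ τᶜ, (w i + δ * q * (u i ⬝ᵥ (R *ᵥ u i))) := by
      rw [← nsmul_eq_mul]
      apply Finset.card_nsmul_le_sum
      intro i hi
      exact hcon i (by simpa using hi)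
    have h2 : ∑ i ∈ τᶜ, (w i + δ * q * (u i ⬝ᵥ (R *ᵥ u i))) ≤
        ∑ i, (w i + δ * q * (u i ⬝ᵥ (R *ᵥ u i))) := by
      apply Finset.sum_le_sum_of_subset_of_nonneg (Finset.subset_univ _)
      intro i _ _
      have := hRp' (u i)
      have := hw0 i
      positivity
    have h3 : ∑ i, (w i + δ * q * (u i ⬝ᵥ (R *ᵥ u i))) ≤ a * q + δ * q * (D / 4) := by
      rw [Finset.sum_add_distrib, ← Finset.mul_sum]
      have : δ * q * ∑ i, u i ⬝ᵥ (R *ᵥ u i) ≤ δ * q * (D / 4) := by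
        apply mul_le_mul_of_nonneg_left htrR1
        positivity
      linarith
    have h4 : D / 2 < (τᶜ.card : ℝ) := by
      rw [Finset.card_compl, hDdef, Nat.cast_sub (Finset.card_le_univ τ)]
      have : (2 * ((τ.card : ℝ) + 1)) ≤ (Fintype.card ι : ℝ) := by exact_mod_cast hτ
      linarith
    have h5 : 0 < δ * q := mul_pos hδ hq0
    rw [hD] at h3
    nlinarith [mul_lt_mul_of_pos_right h4 h5]
  obtain ⟨i, hiτ, hi⟩ := hex
  have hδq : 0 < δ * q := mul_pos hδ hq0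
  obtain ⟨s, hs⟩ : ∃ s, s = u i ⬝ᵥ (R *ᵥ u i) := ⟨_, rfl⟩
  rw [← hs] at hi
  have hs1 : s < 1 := by
    by_contra h
    have h' : 1 ≤ s := not_lt.1 h
    nlinarith [hw0 i, mul_le_mul_of_nonneg_left h' hδq.le]
  refine ⟨i, hiτ, posDef_sub hM hMR (u i) (hs ▸ hs1), ?_⟩
  rw [inv_sub hMR hRt (u i) (hs ▸ hs1.ne), ← hs]
  have h1 : tr u (R + (1 - s)⁻¹ • vecMulVec (R *ᵥ u i) (R *ᵥ u i)) =
      tr u R + (1 - s)⁻¹ * w i := by
    simp only [tr]
    rw [hw, Finset.mul_sum, ← Finset.sum_add_distrib]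
    refine Finset.sum_congr rfl fun j _ => ?_
    rw [add_mulVec, dotProduct_add, smul_mulVec, dotProduct_smul, dot_vecMulVec, smul_eq_mul,
      dotProduct_comm (R *ᵥ u i) (u j)]
  rw [h1]
  have h2 : (1 - s)⁻¹ * w i ≤ δ * q := by
    rw [inv_mul_le_iff₀ (by linarith)]
    linarith
  linarith

end Barrier

open Barrier

/-- One-sided barrier argument of Batson, Spielman and Srivastava. -/
theorem barrier {ι κ : Type*} [Fintype ι] [DecidableEq ι] [Fintype κ] [DecidableEq κ]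
    (u : ι → κ → ℝ) (a t : ℝ) (ha : 0 < a) (ht : 0 < t)
    (hA : (a • (1 : Matrix κ κ ℝ) - ∑ i, vecMulVec (u i) (u i)).PosSemidef)
    (htr : ∑ i, u i ⬝ᵥ u i ≤ t) (n : ℕ) (hn : 2 * n ≤ Fintype.card ι) :
    ∃ τ : Finset ι, τ.card = n ∧
      (((4 * t + 4 * a * n) / Fintype.card ι) • (1 : Matrix κ κ ℝ) -
        ∑ i ∈ τ, vecMulVec (u i) (u i)).PosSemidef := by
  have hA' : ∀ y : κ → ℝ, ∑ i, (u i ⬝ᵥ y) ^ 2 ≤ a * (y ⬝ᵥ y) := by
    intro y
    have := (posSemidef_iff'.1 hA).2 y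
    rw [sub_mulVec, dotProduct_sub, quad_frame, smul_mulVec, one_mulVec, dotProduct_smul,
      smul_eq_mul] at this
    linarith
  by_cases hu : ∃ i, u i ≠ 0
  · obtain ⟨i₀, hi₀⟩ := hu
    have hcard : 0 < Fintype.card ι := Fintype.card_pos_iff.2 ⟨i₀⟩
    have hD : (0 : ℝ) < Fintype.card ι := by exact_mod_cast hcard
    have key : ∀ k : ℕ, k ≤ n → ∃ τ : Finset ι, τ.card = k ∧
        (((4 * t + 4 * a * k) / Fintype.card ι) • (1 : Matrix κ κ ℝ) -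
          ∑ i ∈ τ, vecMulVec (u i) (u i)).PosDef ∧
        tr u (((4 * t + 4 * a * k) / Fintype.card ι) • (1 : Matrix κ κ ℝ) -
          ∑ i ∈ τ, vecMulVec (u i) (u i))⁻¹ ≤ (Fintype.card ι : ℝ) / 4 := by
      intro k
      induction k with
      | zero =>
        intro _
        refine ⟨∅, rfl, ?_, ?_⟩
        · simp only [Finset.sum_empty, sub_zero]
          apply PosDef.one.smul
          push_cast
          positivity
        · simp only [Finset.sum_empty, sub_zero, Nat.cast_zero, mul_zero, add_zero]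
          have h1 : ((4 * t / (Fintype.card ι : ℝ)) • (1 : Matrix κ κ ℝ))⁻¹ =
              ((Fintype.card ι : ℝ) / (4 * t)) • (1 : Matrix κ κ ℝ) := by
            apply inv_eq_right_inv
            rw [Matrix.smul_mul, Matrix.mul_smul, one_mul, smul_smul]
            have : 4 * t / (Fintype.card ι : ℝ) * ((Fintype.card ι : ℝ) / (4 * t)) = 1 := by
              field_simp
            rw [this, one_smul]
          rw [h1]
          simp only [tr]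
          have h2 : ∀ i, u i ⬝ᵥ ((((Fintype.card ι : ℝ) / (4 * t)) • (1 : Matrix κ κ ℝ)) *ᵥ u i) =
              ((Fintype.card ι : ℝ) / (4 * t)) * (u i ⬝ᵥ u i) := by
            intro i
            rw [smul_mulVec, one_mulVec, dotProduct_smul, smul_eq_mul]
          simp only [h2]
          rw [← Finset.mul_sum]
          calc (Fintype.card ι : ℝ) / (4 * t) * ∑ i, u i ⬝ᵥ u i ≤
              (Fintype.card ι : ℝ) / (4 * t) * t := by gcongr
            _ = (Fintype.card ι : ℝ) / 4 := by field_simp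
      | succ k ih =>
        intro hk
        obtain ⟨τ, hτ, h1, h2⟩ := ih (by omega)
        obtain ⟨i, hi, h3, h4⟩ := step u a (4 * a / Fintype.card ι) (by positivity)
          (by field_simp) hA' ⟨i₀, hi₀⟩ τ (by omega) _ h1 h2
        have e : ((4 * t + 4 * a * (k + 1 : ℕ)) / (Fintype.card ι : ℝ)) • (1 : Matrix κ κ ℝ) -
            ∑ j ∈ insert i τ, vecMulVec (u j) (u j) =
            ((4 * t + 4 * a * k) / (Fintype.card ι : ℝ)) • (1 : Matrix κ κ ℝ) -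
            ∑ j ∈ τ, vecMulVec (u j) (u j) + (4 * a / (Fintype.card ι : ℝ)) • 1 -
              vecMulVec (u i) (u i) := by
          rw [Finset.sum_insert hi]
          have : ((4 * t + 4 * a * (k + 1 : ℕ)) / (Fintype.card ι : ℝ)) =
              (4 * t + 4 * a * k) / (Fintype.card ι : ℝ) + 4 * a / (Fintype.card ι : ℝ) := by
            push_cast
            field_simp
            ring
          rw [this, add_smul]
          abel
        refine ⟨insert i τ, ?_, ?_, ?_⟩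
        · rw [Finset.card_insert_of_notMem hi, hτ]
        · rw [e]; exact h3
        · rw [e]; exact h4
    obtain ⟨τ, h1, h2, _⟩ := key n le_rfl
    exact ⟨τ, h1, h2.posSemidef⟩
  · push Not at hu
    obtain ⟨τ, _, hτ⟩ := Finset.exists_subset_card_eq
      (show n ≤ (Finset.univ : Finset ι).card by rw [Finset.card_univ]; omega)
    refine ⟨τ, hτ, ?_⟩
    have : ∑ i ∈ τ, vecMulVec (u i) (u i) = 0 := by
      apply Finset.sum_eq_zero
      intro i _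
      rw [hu i]
      ext j k
      simp [vecMulVec_apply]
    rw [this, sub_zero]
    exact PosSemidef.one.smul (by positivity)

end BMTwo
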