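import Pool.Agent.Lib.MP_766f4a_gt.LDefs
import Pool.Agent.Lib.MP_766f4a_gt.TBarrier

/-!
Module LA2: the two-sign lemma.
-/

set_option autoImplicit false

namespace BMLow

open Matrix Finset BMTwo.Barrier

namespace La2

variable {d : ℕ}

/-- Sherman-Morrison for `M + y yᵀ`. -/
lemma inv_add {M R : Matrix (Fin d) (Fin d) ℝ} (hMR : M * R = 1) (hRt : Rᵀ = R)
    (y : Fin d → ℝ) (hs : 1 + y ⬝ᵥ (R *ᵥ y) ≠ 0) :
    (M + vecMulVec y y)⁻¹ =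
      R - (1 + y ⬝ᵥ (R *ᵥ y))⁻¹ • vecMulVec (R *ᵥ y) (R *ᵥ y) := by
  apply inv_eq_right_inv
  have e1 : M * vecMulVec (R *ᵥ y) (R *ᵥ y) = vecMulVec y (R *ᵥ y) := by
    rw [mul_vecMulVec, mulVec_mulVec, hMR, one_mulVec]
  have e2 : vecMulVec y y * R = vecMulVec y (R *ᵥ y) := by
    rw [vecMulVec_mul, ← mulVec_transpose, hRt]
  have e3 : vecMulVec y y * vecMulVec (R *ᵥ y) (R *ᵥ y) =
      (y ⬝ᵥ (R *ᵥ y)) • vecMulVec y (R *ᵥ y) := by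
    ext i j
    rw [Matrix.mul_apply, Matrix.smul_apply]
    simp only [vecMulVec_apply, smul_eq_mul]
    calc ∑ k, y i * y k * ((R *ᵥ y) k * (R *ᵥ y) j) =
        ∑ k, (y k * (R *ᵥ y) k) * (y i * (R *ᵥ y) j) :=
          Finset.sum_congr rfl fun k _ => by ring
      _ = (y ⬝ᵥ (R *ᵥ y)) * (y i * (R *ᵥ y) j) := by
          rw [← Finset.sum_mul]; rfl
  rw [add_mul, mul_sub, mul_sub, Matrix.mul_smul, Matrix.mul_smul, hMR, e1, e2, e3]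
  ext i j
  simp only [Matrix.sub_apply, Matrix.add_apply, Matrix.smul_apply, smul_eq_mul]
  field_simp
  ring

lemma trace_vecMulVec' (y : Fin d → ℝ) : (vecMulVec y y).trace = y ⬝ᵥ y := by
  simp [Matrix.trace, dotProduct, vecMulVec_apply]

lemma trace_inv_add {M R : Matrix (Fin d) (Fin d) ℝ} (hMR : M * R = 1) (hRt : Rᵀ = R)
    (y : Fin d → ℝ) (hs : 1 + y ⬝ᵥ (R *ᵥ y) ≠ 0) :
    (M + vecMulVec y y)⁻¹.trace =
      R.trace - (R *ᵥ y) ⬝ᵥ (R *ᵥ y) / (1 + y ⬝ᵥ (R *ᵥ y)) := by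
  rw [inv_add hMR hRt y hs, trace_sub, trace_smul, trace_vecMulVec', smul_eq_mul]
  ring

/-- Joint convexity of `|x|²/y`. -/
lemma sq_div_add (p q : Fin d → ℝ) {y₁ y₂ : ℝ} (h₁ : 0 < y₁) (h₂ : 0 < y₂) :
    (p + q) ⬝ᵥ (p + q) / (y₁ + y₂) ≤ p ⬝ᵥ p / y₁ + q ⬝ᵥ q / y₂ := by
  have key : 0 ≤ (y₂ • p - y₁ • q) ⬝ᵥ (y₂ • p - y₁ • q) := dot_self_nonneg _
  have e : (y₂ • p - y₁ • q) ⬝ᵥ (y₂ • p - y₁ • q) =
      y₂ ^ 2 * (p ⬝ᵥ p) - 2 * (y₁ * y₂) * (p ⬝ᵥ q) + y₁ ^ 2 * (q ⬝ᵥ q) := by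
    rw [sub_dotProduct, dotProduct_sub, dotProduct_sub]
    simp only [smul_dotProduct, dotProduct_smul, smul_eq_mul]
    rw [dotProduct_comm q p]
    ring
  rw [e] at key
  have e2 : (p + q) ⬝ᵥ (p + q) = p ⬝ᵥ p + 2 * (p ⬝ᵥ q) + q ⬝ᵥ q := by
    rw [add_dotProduct, dotProduct_add, dotProduct_add, dotProduct_comm q p]
    ring
  rw [e2, div_add_div _ _ h₁.ne' h₂.ne', div_le_div_iff₀ (by positivity) (by positivity)]
  nlinarith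

end La2

open La2

variable {d : ℕ}

/-- The two-sign lemma. -/
theorem two_sign {lam : ℝ} (hlam : 0 < lam) {M₀ : Matrix (Fin d) (Fin d) ℝ}
    (hM₀ : (M₀ - lam • (1 : Matrix (Fin d) (Fin d) ℝ)).PosSemidef) (g w f : Fin d → ℝ)
    (hf : f = (M₀ + vecMulVec g g)⁻¹ *ᵥ g) :
    (M₀ + vecMulVec (g + w) (g + w))⁻¹.trace + (M₀ + vecMulVec (g - w) (g - w))⁻¹.trace ≤
      2 * ((M₀ + vecMulVec g g)⁻¹.trace +
        (f ⬝ᵥ f) * (w ⬝ᵥ ((M₀ + vecMulVec g g)⁻¹ *ᵥ w)) + (1 / lam) * (w ⬝ᵥ f) ^ 2) := by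
  have hPD : M₀.PosDef := by
    have : M₀ = lam • (1 : Matrix (Fin d) (Fin d) ℝ) +
        (M₀ - lam • (1 : Matrix (Fin d) (Fin d) ℝ)) := by abel
    rw [this]
    exact (PosDef.one.smul hlam).add_posSemidef hM₀
  obtain ⟨hMt, hMp⟩ := posDef_iff'.1 hPD
  obtain ⟨R, hR⟩ : ∃ R, R = M₀⁻¹ := ⟨_, rfl⟩
  have hRPD : R.PosDef := hR ▸ hPD.inv
  obtain ⟨hRt, hRp⟩ := posDef_iff'.1 hRPD
  have hRnn : ∀ x : Fin d → ℝ, 0 ≤ x ⬝ᵥ (R *ᵥ x) := (posSemidef_iff'.1 hRPD.posSemidef).2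
  have hMR : M₀ * R = 1 := by
    rw [hR]; exact mul_nonsing_inv _ ((isUnit_iff_isUnit_det _).1 hPD.isUnit)
  obtain ⟨x, hx⟩ : ∃ x, x = R *ᵥ g := ⟨_, rfl⟩
  obtain ⟨v, hv⟩ : ∃ v, v = R *ᵥ w := ⟨_, rfl⟩
  obtain ⟨b, hb⟩ : ∃ b, b = 1 + g ⬝ᵥ x := ⟨_, rfl⟩
  obtain ⟨cc, hc⟩ : ∃ cc, cc = w ⬝ᵥ x := ⟨_, rfl⟩
  obtain ⟨e, he⟩ : ∃ e, e = w ⬝ᵥ v := ⟨_, rfl⟩
  obtain ⟨a, ha⟩ : ∃ a, a = x ⬝ᵥ x := ⟨_, rfl⟩
  have hb1 : 1 ≤ b := by rw [hb, hx]; linarith [hRnn g]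
  have hb0 : 0 < b := by linarith
  have he0 : 0 ≤ e := by rw [he, hv]; exact hRnn w
  have ha0 : 0 ≤ a := by rw [ha]; exact dot_self_nonneg _
  have hgv : g ⬝ᵥ v = cc := by rw [hc, hv, hx, dot_symm hRt, dotProduct_comm]
  -- the traces
  have hadd : (g + w) ⬝ᵥ (R *ᵥ (g + w)) = b - 1 + 2 * cc + e := by
    rw [mulVec_add, ← hx, ← hv, dotProduct_add, add_dotProduct, add_dotProduct, hgv, ← hc, ← he, hb]
    ring
  have hsub : (g - w) ⬝ᵥ (R *ᵥ (g - w)) = b - 1 - 2 * cc + e := by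
    rw [mulVec_sub, ← hx, ← hv, dotProduct_sub, sub_dotProduct, sub_dotProduct, hgv, ← hc, ← he, hb]
    ring
  have hp1 : 0 < 1 + (g + w) ⬝ᵥ (R *ᵥ (g + w)) := by linarith [hRnn (g + w)]
  have hp2 : 0 < 1 + (g - w) ⬝ᵥ (R *ᵥ (g - w)) := by linarith [hRnn (g - w)]
  have hp0 : 0 < 1 + g ⬝ᵥ (R *ᵥ g) := by linarith [hRnn g]
  have h1 := sq_div_add (R *ᵥ (g + w)) (R *ᵥ (g - w)) hp1 hp2
  have h2 : R *ᵥ (g + w) + R *ᵥ (g - w) = (2 : ℝ) • x := by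
    rw [← mulVec_add, hx, ← mulVec_smul]
    congr 1
    ext i
    simp
    ring
  rw [h2, smul_dotProduct, dotProduct_smul, smul_eq_mul, smul_eq_mul, ← ha] at h1
  have h3 : 1 + (g + w) ⬝ᵥ (R *ᵥ (g + w)) + (1 + (g - w) ⬝ᵥ (R *ᵥ (g - w))) = 2 * (b + e) := by
    rw [hadd, hsub]; ring
  rw [h3] at h1
  rw [trace_inv_add hMR hRt _ hp1.ne', trace_inv_add hMR hRt _ hp2.ne',
    trace_inv_add hMR hRt _ hp0.ne', ← hx, ← hb, ← ha]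
  -- the vector f
  have hMinv : (M₀ + vecMulVec g g)⁻¹ = R - b⁻¹ • vecMulVec x x := by
    rw [inv_add hMR hRt g hp0.ne', ← hx, ← hb]
  have hff : f = b⁻¹ • x := by
    rw [hf, hMinv, sub_mulVec, ← hx, smul_mulVec, vecMulVec_mulVec', smul_smul]
    have : x ⬝ᵥ g = b - 1 := by rw [dotProduct_comm, hb]; ring
    rw [this]
    ext i
    simp only [Pi.sub_apply, Pi.smul_apply, smul_eq_mul]
    field_simp
    ring
  have hwf : w ⬝ᵥ f = cc / b := by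
    rw [hff, dotProduct_smul, smul_eq_mul, ← hc]; ring
  have hfdot : f ⬝ᵥ f = a / b ^ 2 := by
    rw [hff, smul_dotProduct, dotProduct_smul, smul_eq_mul, smul_eq_mul, ← ha]
    field_simp
  have hwM : w ⬝ᵥ ((M₀ + vecMulVec g g)⁻¹ *ᵥ w) = e - cc ^ 2 / b := by
    rw [hMinv, sub_mulVec, ← hv, smul_mulVec, dotProduct_sub, dotProduct_smul, dot_vecMulVec,
      smul_eq_mul, dotProduct_comm x w, ← hc, ← he]
    ring
  rw [hwf, hfdot, hwM]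
  -- the bound a ≤ b / lam
  have hab : a / b ≤ 1 / lam := by
    have hMx : M₀ *ᵥ x = g := by rw [hx, mulVec_mulVec, hMR, one_mulVec]
    have h5 := (posSemidef_iff'.1 hM₀).2 x
    rw [sub_mulVec, dotProduct_sub, hMx, smul_mulVec, one_mulVec, dotProduct_smul, smul_eq_mul,
      ← ha, dotProduct_comm x g] at h5
    rw [div_le_div_iff₀ hb0 hlam]
    rw [hb]
    linarith
  have hbe : 0 < b + e := by linarith
  have h6 : a / b - a / (b + e) ≤ a * e / b ^ 2 := by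
    rw [div_sub_div _ _ hb0.ne' hbe.ne', div_le_div_iff₀ (by positivity) (by positivity)]
    have : 0 ≤ a * e * (b * e) := by positivity
    nlinarith
  have h7 : a * e / b ^ 2 = a / b ^ 2 * (e - cc ^ 2 / b) + a / b * (cc / b) ^ 2 := by
    field_simp
    ring
  have h8 : a / b * (cc / b) ^ 2 ≤ 1 / lam * (cc / b) ^ 2 := by
    apply mul_le_mul_of_nonneg_right hab (sq_nonneg _)
  have h9 : 2 * (2 * a) / (2 * (b + e)) = 2 * (a / (b + e)) := by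
    field_simp
  rw [h9] at h1
  linarith

end BMLow
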