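import Pool.Agent.Lib.MP_766f4a_gt.LDefs
import Pool.Agent.Lib.MP_766f4a_gt.TBarrier
import Pool.Agent.Lib.MP_766f4a_gt.LLa2

/-!
Module LA1: rank one updates.
-/

set_option autoImplicit false

namespace BMLow

open Matrix Finset BMTwo.Barrier

namespace La1

variable {d : ℕ}

lemma quad_sum {ι : Type*} (T : Finset ι) (g : ι → Fin d → ℝ) (y : Fin d → ℝ) :
    y ⬝ᵥ ((∑ i ∈ T, vecMulVec (g i) (g i)) *ᵥ y) = ∑ i ∈ T, (g i ⬝ᵥ y) ^ 2 := by
  rw [Matrix.sum_mulVec, dotProduct_sum]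
  exact Finset.sum_congr rfl fun i _ => dot_vecMulVec _ _

lemma sum_vec_psd {ι : Type*} (T : Finset ι) (g : ι → Fin d → ℝ) :
    (∑ i ∈ T, vecMulVec (g i) (g i)).PosSemidef := by
  rw [posSemidef_iff']
  refine ⟨?_, ?_⟩
  · rw [transpose_sum]
    refine Finset.sum_congr rfl fun i _ => ?_
    ext a b
    simp [vecMulVec_apply, mul_comm]
  · intro x
    rw [quad_sum]
    exact Finset.sum_nonneg fun i _ => sq_nonneg _

lemma mul_inv_pd {M : Matrix (Fin d) (Fin d) ℝ} (hM : M.PosDef) : M * M⁻¹ = 1 :=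
  mul_nonsing_inv _ ((isUnit_iff_isUnit_det _).1 hM.isUnit)

lemma inv_mul_pd {M : Matrix (Fin d) (Fin d) ℝ} (hM : M.PosDef) : M⁻¹ * M = 1 :=
  nonsing_inv_mul _ ((isUnit_iff_isUnit_det _).1 hM.isUnit)

lemma pd_of_lam {lam : ℝ} (hlam : 0 < lam) {M : Matrix (Fin d) (Fin d) ℝ}
    (hM : (M - lam • (1 : Matrix (Fin d) (Fin d) ℝ)).PosSemidef) : M.PosDef := by
  have : M = lam • (1 : Matrix (Fin d) (Fin d) ℝ) +
      (M - lam • (1 : Matrix (Fin d) (Fin d) ℝ)) := by abel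
  rw [this]
  exact (PosDef.one.smul hlam).add_posSemidef hM

end La1

open La1

variable {d : ℕ}

theorem Mat_sub_posSemidef {ι : Type*} [Fintype ι] (lam : ℝ) (g : ι → Fin d → ℝ) :
    (Mat lam g - lam • (1 : Matrix (Fin d) (Fin d) ℝ)).PosSemidef := by
  have : Mat lam g - lam • (1 : Matrix (Fin d) (Fin d) ℝ) = ∑ i, vecMulVec (g i) (g i) := by
    rw [Mat]
    abel
  rw [this]
  exact sum_vec_psd _ _

theorem Mat_posDef {ι : Type*} [Fintype ι] {lam : ℝ} (hlam : 0 < lam) (g : ι → Fin d → ℝ) :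
    (Mat lam g).PosDef :=
  pd_of_lam hlam (Mat_sub_posSemidef lam g)

theorem inv_quad_anti {M M' : Matrix (Fin d) (Fin d) ℝ} (hM : M.PosDef)
    (h : (M' - M).PosSemidef) (x : Fin d → ℝ) : x ⬝ᵥ (M'⁻¹ *ᵥ x) ≤ x ⬝ᵥ (M⁻¹ *ᵥ x) := by
  have hM' : M'.PosDef := by
    have : M' = M + (M' - M) := by abel
    rw [this]
    exact hM.add_posSemidef h
  obtain ⟨hMt, hMp⟩ := posSemidef_iff'.1 hM.posSemidef
  obtain ⟨y, hy⟩ : ∃ y, y = M'⁻¹ *ᵥ x := ⟨_, rfl⟩
  obtain ⟨p, hp⟩ : ∃ p, p = M⁻¹ *ᵥ x := ⟨_, rfl⟩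
  have h1 : M' *ᵥ y = x := by rw [hy, mulVec_mulVec, mul_inv_pd hM', one_mulVec]
  have h2 : M *ᵥ p = x := by rw [hp, mulVec_mulVec, mul_inv_pd hM, one_mulVec]
  rw [← hy, ← hp]
  have h3 := hMp (p - y)
  have h4 := (posSemidef_iff'.1 h).2 y
  rw [sub_mulVec, dotProduct_sub, h1] at h4
  rw [mulVec_sub, h2, dotProduct_sub, sub_dotProduct, sub_dotProduct, dot_symm hMt p y, h2] at h3
  have h5 : p ⬝ᵥ x = x ⬝ᵥ p := dotProduct_comm _ _
  have h6 : y ⬝ᵥ x = x ⬝ᵥ y := dotProduct_comm _ _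
  linarith

theorem inv_trace_anti {M M' : Matrix (Fin d) (Fin d) ℝ} (hM : M.PosDef)
    (h : (M' - M).PosSemidef) : M'⁻¹.trace ≤ M⁻¹.trace := by
  have hM' : M'.PosDef := by
    have : M' = M + (M' - M) := by abel
    rw [this]
    exact hM.add_posSemidef h
  have h1 : (M⁻¹ - M'⁻¹).PosSemidef := by
    rw [posSemidef_iff']
    refine ⟨?_, ?_⟩
    · rw [transpose_sub, (posDef_iff'.1 hM.inv).1, (posDef_iff'.1 hM'.inv).1]
    · intro x
      rw [sub_mulVec, dotProduct_sub]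
      have := inv_quad_anti hM h x
      linarith
  have h2 := h1.trace_nonneg
  rw [trace_sub] at h2
  linarith

/-- If `M - x xᵀ ≥ 0` then `⟨M⁻¹x, x⟩ ≤ 1`. -/
theorem quad_le_one {M : Matrix (Fin d) (Fin d) ℝ} (hM : M.PosDef) (x : Fin d → ℝ)
    (h : (M - vecMulVec x x).PosSemidef) : x ⬝ᵥ (M⁻¹ *ᵥ x) ≤ 1 := by
  obtain ⟨p, hp⟩ : ∃ p, p = M⁻¹ *ᵥ x := ⟨_, rfl⟩
  have h2 : M *ᵥ p = x := by rw [hp, mulVec_mulVec, mul_inv_pd hM, one_mulVec]
  have h3 := (posSemidef_iff'.1 h).2 p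
  rw [sub_mulVec, dotProduct_sub, h2, dot_vecMulVec, dotProduct_comm p x] at h3
  rw [← hp]
  by_contra h4
  push Not at h4
  nlinarith

/-- Removing a family of vectors increases the trace of the inverse by at most `1/lam` each. -/
theorem trace_inv_le_add {ι : Type*} (T : Finset ι) (y : ι → Fin d → ℝ) {lam : ℝ}
    (hlam : 0 < lam) {M : Matrix (Fin d) (Fin d) ℝ}
    (hM : (M - lam • (1 : Matrix (Fin d) (Fin d) ℝ)).PosSemidef) :
    M⁻¹.trace ≤ (M + ∑ i ∈ T, vecMulVec (y i) (y i))⁻¹.trace + T.card / lam := by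
  classical
  induction T using Finset.induction_on with
  | empty => simp
  | insert a T ha ih =>
    obtain ⟨N, hN⟩ : ∃ N, N = M + ∑ i ∈ T, vecMulVec (y i) (y i) := ⟨_, rfl⟩
    have h1 : M + ∑ i ∈ insert a T, vecMulVec (y i) (y i) = N + vecMulVec (y a) (y a) := by
      rw [Finset.sum_insert ha, hN]
      abel
    rw [h1, Finset.card_insert_of_notMem ha]
    rw [← hN] at ih
    have h2 : (N - lam • (1 : Matrix (Fin d) (Fin d) ℝ)).PosSemidef := by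
      have : N - lam • (1 : Matrix (Fin d) (Fin d) ℝ) =
          (M - lam • (1 : Matrix (Fin d) (Fin d) ℝ)) + ∑ i ∈ T, vecMulVec (y i) (y i) := by
        rw [hN]
        abel
      rw [this]
      exact hM.add (sum_vec_psd _ _)
    have h3 : N.PosDef := pd_of_lam hlam h2
    obtain ⟨p, hp⟩ : ∃ p, p = N⁻¹ *ᵥ y a := ⟨_, rfl⟩
    have h4 : N *ᵥ p = y a := by rw [hp, mulVec_mulVec, mul_inv_pd h3, one_mulVec]
    have h5 := (posSemidef_iff'.1 h2).2 p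
    rw [sub_mulVec, dotProduct_sub, h4, smul_mulVec, one_mulVec, dotProduct_smul,
      smul_eq_mul, dotProduct_comm p (y a)] at h5
    have h6 : 0 ≤ y a ⬝ᵥ p := by
      rw [hp]
      exact (posSemidef_iff'.1 h3.inv.posSemidef).2 _
    have h7 := La2.trace_inv_add (mul_inv_pd h3) (posDef_iff'.1 h3.inv).1 (y a)
      (by rw [← hp]; linarith)
    rw [← hp] at h7
    rw [h7]
    have h8 : p ⬝ᵥ p / (1 + y a ⬝ᵥ p) ≤ 1 / lam := by
      rw [div_le_div_iff₀ (by linarith) hlam]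
      nlinarith
    push_cast
    have h9 : ((T.card : ℝ) + 1) / lam = T.card / lam + 1 / lam := by ring
    rw [h9]
    linarith

end BMLow
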