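import Pool.Agent.Lib.MP_766f4a_gt.LLa1

/-!
Projection of the coefficients: making the family independent of some of the vertices.
-/

set_option autoImplicit false

namespace BMLow

open Matrix Finset

theorem PROJ_mat {d : ℕ} {ι : Type*} [Fintype ι] (lam : ℝ) (g : ι → Fin d → ℝ) (a b : Fin d) :
    Mat lam g a b = lam * (1 : Matrix (Fin d) (Fin d) ℝ) a b + ∑ i, g i a * g i b := by
  rw [Mat, Matrix.add_apply, Matrix.smul_apply, Matrix.sum_apply, smul_eq_mul]
  rfl

/-- one projection -/
theorem PROJ_step {d : ℕ} {ι V : Type*} [Fintype ι] [Fintype V] (A : ι → V → ℝ) (j : V) :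
    ∃ A' : ι → V → ℝ, (∀ i, A' i j = 0) ∧ (∀ k, (∀ i, A i k = 0) → ∀ i, A' i k = 0) ∧
      ∀ (z : V → Fin d → ℝ) (lam : ℝ), 0 < lam →
        (Mat lam (comb z A) - Mat lam (comb z A')).PosSemidef ∧
        Phi lam (comb z A') ≤ Phi lam (comb z A) + 1 / lam := by
  classical
  set N : ℝ := ∑ l, A l j ^ 2 with hN
  rcases (Finset.sum_nonneg fun l _ => sq_nonneg (A l j) : 0 ≤ N).eq_or_lt with h0 | hpos
  · -- the column is zero
    have hz : ∀ i, A i j = 0 := by
      intro i
      have h1 := (Finset.sum_eq_zero_iff_of_nonneg
        (fun l _ => sq_nonneg (A l j))).1 h0.symm i (Finset.mem_univ i)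
      exact pow_eq_zero_iff (two_ne_zero) |>.1 h1
    refine ⟨A, hz, fun k hk => hk, fun z lam hlam => ⟨?_, ?_⟩⟩
    · rw [sub_self]
      exact Matrix.PosSemidef.zero
    · have : 0 < 1 / lam := by positivity
      linarith
  · refine ⟨fun i k => A i k - A i j * (∑ l, A l j * A l k) / N, ?_, ?_, ?_⟩
    · intro i
      have h1 : ∑ l, A l j * A l j = N := Finset.sum_congr rfl fun l _ => (sq (A l j)).symm
      change A i j - A i j * (∑ l, A l j * A l j) / N = 0
      rw [h1, mul_div_assoc, div_self hpos.ne', mul_one, sub_self]
    · intro k hk i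
      simp [hk]
    · intro z lam hlam
      set A' : ι → V → ℝ := fun i k => A i k - A i j * (∑ l, A l j * A l k) / N with hA'
      -- the projected family
      set w : Fin d → ℝ := ∑ l, A l j • comb z A l with hw
      set y : Fin d → ℝ := (Real.sqrt N)⁻¹ • w with hy
      have hcomb : ∀ i, comb z A' i = comb z A i - (A i j / N) • w := by
        intro i
        have h1 : w = ∑ k, (∑ l, A l j * A l k) • z k := by
          rw [hw]
          simp only [comb, Finset.smul_sum, smul_smul]
          rw [Finset.sum_comm]
          refine Finset.sum_congr rfl fun k _ => ?_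
          rw [Finset.sum_smul]
        rw [h1, Finset.smul_sum]
        simp only [comb, hA', sub_smul, Finset.sum_sub_distrib, smul_smul]
        congr 1
        refine Finset.sum_congr rfl fun k _ => ?_
        congr 1
        ring
      have hMat : Mat lam (comb z A) = Mat lam (comb z A') + vecMulVec y y := by
        ext a b
        rw [Matrix.add_apply, PROJ_mat, PROJ_mat, add_assoc]
        congr 1
        have hwa : ∀ a, w a = ∑ l, A l j * comb z A l a := by
          intro a
          rw [hw, Finset.sum_apply]
          rfl
        have h2 : ∀ i, comb z A' i a * comb z A' i b = comb z A i a * comb z A i b -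
            (A i j * comb z A i a) * (w b / N) - (A i j * comb z A i b) * (w a / N) +
            A i j ^ 2 * (w a * w b / N ^ 2) := by
          intro i
          rw [hcomb]
          simp only [Pi.sub_apply, Pi.smul_apply, smul_eq_mul]
          ring
        have h3 : vecMulVec y y a b = w a * w b / N := by
          rw [vecMulVec_apply, hy]
          simp only [Pi.smul_apply, smul_eq_mul]
          have h4 : Real.sqrt N * Real.sqrt N = N := Real.mul_self_sqrt hpos.le
          calc (Real.sqrt N)⁻¹ * w a * ((Real.sqrt N)⁻¹ * w b) =
              w a * w b * (Real.sqrt N * Real.sqrt N)⁻¹ := by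
                rw [mul_inv]
                ring
            _ = w a * w b / N := by rw [h4]; rfl
        rw [h3, Finset.sum_congr rfl fun i _ => h2 i, Finset.sum_add_distrib,
          Finset.sum_sub_distrib, Finset.sum_sub_distrib, ← Finset.sum_mul, ← Finset.sum_mul,
          ← Finset.sum_mul, ← hwa, ← hwa, ← hN]
        have := hpos.ne'
        field_simp
        ring
      constructor
      · rw [hMat, add_sub_cancel_left]
        have := Matrix.posSemidef_vecMulVec_self_star y
        simpa using this
      · have h := trace_inv_le_add (Finset.univ : Finset Unit) (fun _ => y) hlam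
          (Mat_sub_posSemidef lam (comb z A'))
        rw [Finset.univ_unique, Finset.sum_singleton, Finset.card_singleton, ← hMat,
          Nat.cast_one] at h
        exact h

theorem proj {d : ℕ} {ι V : Type*} [Fintype ι] [DecidableEq ι] [Fintype V] [DecidableEq V]
    (A : ι → V → ℝ) (J : Finset V) :
    ∃ A' : ι → V → ℝ, (∀ i, ∀ j ∈ J, A' i j = 0) ∧
      ∀ (z : V → Fin d → ℝ) (lam : ℝ), 0 < lam →
        (Mat lam (comb z A) - Mat lam (comb z A')).PosSemidef ∧
        Phi lam (comb z A') ≤ Phi lam (comb z A) + J.card / lam := by
  induction J using Finset.induction_on with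
  | empty =>
    refine ⟨A, fun i j hj => absurd hj (Finset.notMem_empty j), fun z lam hlam => ⟨?_, ?_⟩⟩
    · rw [sub_self]
      exact Matrix.PosSemidef.zero
    · simp
  | insert j J hj ih =>
    obtain ⟨A₁, h1, h2⟩ := ih
    obtain ⟨A₂, h3, h4, h5⟩ := PROJ_step (d := d) A₁ j
    refine ⟨A₂, fun i k hk => ?_, fun z lam hlam => ⟨?_, ?_⟩⟩
    · rcases Finset.mem_insert.1 hk with rfl | hk
      · exact h3 i
      · exact h4 k (fun i => h1 i k hk) i
    · have e : Mat lam (comb z A) - Mat lam (comb z A₂) =
          (Mat lam (comb z A) - Mat lam (comb z A₁)) +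
          (Mat lam (comb z A₁) - Mat lam (comb z A₂)) := by abel
      rw [e]
      exact (h2 z lam hlam).1.add (h5 z lam hlam).1
    · have e1 := (h2 z lam hlam).2
      have e2 := (h5 z lam hlam).2
      rw [Finset.card_insert_of_notMem hj]
      push_cast
      rw [add_div]
      linarith

end BMLow
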