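import Pool.Agent.Lib.MP_766f4a_gt.LLdb
import Pool.Agent.Lib.MP_766f4a_gt.LProj
import Pool.Agent.Lib.MP_766f4a_gt.LLa1

/-!
Module LDG3: the large deviation bound for (G3).
-/

set_option autoImplicit false

namespace BMLow

open Matrix Finset MeasureTheory ProbabilityTheory

namespace Ldg3

open BMTwo.Barrier La1

variable {d : ℕ}

lemma measurable_inv_entry {Ω : Type*} [MeasurableSpace Ω]
    (M : Ω → Matrix (Fin d) (Fin d) ℝ) (hM : ∀ i i', Measurable fun z => M z i i')
    (i i' : Fin d) : Measurable fun z => (M z)⁻¹ i i' := by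
  have hdet : ∀ F : Ω → Matrix (Fin d) (Fin d) ℝ, (∀ a b, Measurable fun z => F z a b) →
      Measurable fun z => (F z).det := by
    intro F hF
    simp only [Matrix.det_apply]
    refine Finset.measurable_sum _ fun s _ => ?_
    refine Measurable.const_smul ?_ _
    exact Finset.measurable_prod _ fun a _ => hF _ _
  have e : ∀ z, (M z)⁻¹ i i' = ((M z).det)⁻¹ * ((M z).updateRow i' (Pi.single i 1)).det := by
    intro z
    rw [Matrix.inv_def, Matrix.smul_apply, Ring.inverse_eq_inv', smul_eq_mul, adjugate_apply]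
  simp only [e]
  refine (hdet _ hM).inv.mul (hdet _ fun a b => ?_)
  by_cases h : a = i'
  · subst h
    simp only [Matrix.updateRow_self]
    exact measurable_const
  · simp only [Matrix.updateRow_ne h]
    exact hM a b

lemma measurable_Mat {V ι : Type*} [Fintype ι] (lam : ℝ)
    (g : (V → Fin d → ℝ) → ι → Fin d → ℝ) (hg : ∀ i a, Measurable fun z => g z i a)
    (a b : Fin d) : Measurable fun z => Mat lam (g z) a b := by
  unfold Mat
  simp only [Matrix.add_apply, Matrix.sum_apply, vecMulVec_apply]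
  exact measurable_const.add (Finset.measurable_sum _ fun i _ => (hg i a).mul (hg i b))

lemma inv_smul_one {lam : ℝ} (hlam : 0 < lam) :
    (lam • (1 : Matrix (Fin d) (Fin d) ℝ))⁻¹ = (1 / lam) • (1 : Matrix (Fin d) (Fin d) ℝ) := by
  apply inv_eq_right_inv
  rw [Matrix.smul_mul, Matrix.mul_smul, mul_one, smul_smul, mul_one_div_cancel hlam.ne', one_smul]

lemma inv_le {ι : Type*} [Fintype ι] {lam : ℝ} (hlam : 0 < lam) (g : ι → Fin d → ℝ) :
    ((1 / lam) • (1 : Matrix (Fin d) (Fin d) ℝ) - (Mat lam g)⁻¹).PosSemidef := by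
  rw [posSemidef_iff']
  refine ⟨?_, ?_⟩
  · rw [transpose_sub, transpose_smul, transpose_one,
      (posDef_iff'.1 (Mat_posDef hlam g).inv).1]
  · intro x
    rw [sub_mulVec, dotProduct_sub, ← inv_smul_one hlam]
    have := inv_quad_anti (PosDef.one.smul hlam) (Mat_sub_posSemidef lam g) x
    linarith

end Ldg3

open Ldg3

theorem ld_g3 {d : ℕ} {ι V : Type*} [Fintype ι] [DecidableEq ι] [Fintype V] [DecidableEq V]
    (A : ι → V → ℝ) (J : Finset V) {lam Φ Q : ℝ} (hlam : 0 < lam)
    (hQ : 4 * (Φ + J.card / lam) ≤ Q) :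
    gauss V d {z | Phi lam (comb z A) ≤ Φ ∧ ∀ j ∈ J, Q < quad lam (comb z A) (z j)} ≤
      ENNReal.ofReal (Real.exp (-(J.card * lam * Q / 8))) := by
  obtain ⟨A', hA0, hA⟩ := proj (d := d) A J
  have hmain := ld_block (d := d) J (fun z => (Mat lam (comb z A'))⁻¹)
    (measurable_inv_entry _ (measurable_Mat lam _ fun i a => by
      simp only [comb, Finset.sum_apply, Pi.smul_apply, smul_eq_mul]
      fun_prop))
    (fun z z' h => by
      have : comb z A' = comb z' A' := by
        funext i
        unfold comb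
        refine Finset.sum_congr rfl fun j _ => ?_
        by_cases hj : j ∈ J
        · rw [hA0 i j hj, zero_smul, zero_smul]
        · rw [h j hj]
      rw [this])
    (fun z => (Mat_posDef hlam _).inv.posSemidef) hlam (fun z => inv_le hlam _)
    (Φ + J.card / lam) (J.card * Q)
  refine (measure_mono ?_).trans (hmain.trans ?_)
  · rintro z ⟨h1, h2⟩
    obtain ⟨h3, h4⟩ := hA z lam hlam
    refine ⟨h4.trans (by linarith), ?_⟩
    rw [← nsmul_eq_mul]
    refine Finset.card_nsmul_le_sum _ _ _ fun j hj => ?_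
    exact (h2 j hj).le.trans (inv_quad_anti (Mat_posDef hlam _) h3 (z j))
  · refine ENNReal.ofReal_le_ofReal (Real.exp_le_exp.2 ?_)
    have hc : (0 : ℝ) ≤ J.card * lam := by positivity
    have := mul_le_mul_of_nonneg_left hQ hc
    nlinarith

end BMLow
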