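import Pool.Agent.Lib.MP_766f4a_gt.LDefs
import Pool.Agent.Lib.MP_766f4a_gt.LCount
import Pool.Agent.Lib.MP_766f4a_gt.LLdg3

set_option autoImplicit false

namespace BMLow

open Matrix Finset MeasureTheory ProbabilityTheory

namespace G3

/-- the exponents are determined by the columns -/
theorem c_unique {d : ℕ} {V : Type*} [Fintype V] {s : ℕ} {c c' : Fin d → ℕ}
    {k : Fin d → Option V → ℤ} (h : IsState s c k) (h' : IsState s c' k) : c = c' := by
  funext i
  have h1 := (h.row i).symm.trans (h'.row i)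
  have h2 : (4 : ℤ) ^ c i = 4 ^ c' i := by
    have : (2 : ℤ) ^ s ≠ 0 := by positivity
    exact mul_right_cancel₀ this h1
  have h3 : (4 : ℕ) ^ c i = 4 ^ c' i := by exact_mod_cast h2
  exact Nat.pow_right_injective (le_refl 4 |>.trans' (by norm_num)) h3

/-- the columns of all states at scale `s` -/
theorem count_states (m d s : ℕ) : ∃ T : Finset (Fin d → Option (Fin m) → ℤ),
    (∀ (c : Fin d → ℕ) (k : Fin d → Option (Fin m) → ℤ), IsState s c k → k ∈ T) ∧
    T.card ≤ (2 * (d * (m + 1)) + 1) ^ (5 * d * 2 ^ s) := by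
  classical
  obtain ⟨hfin, hcard⟩ := count_int (Fin d × Option (Fin m)) (5 * d * 2 ^ s)
  refine ⟨hfin.toFinset.image fun k i j => k (i, j), ?_, ?_⟩
  · intro c k h
    rw [mem_image]
    refine ⟨fun p => k p.1 p.2, ?_, rfl⟩
    rw [Set.Finite.mem_toFinset]
    show ∑ a : Fin d × Option (Fin m), |k a.1 a.2| ≤ ((5 * d * 2 ^ s : ℕ) : ℤ)
    rw [Fintype.sum_prod_type]
    have h1 : ∑ i, ∑ j, |k i j| = ∑ i, (4 : ℤ) ^ c i * 2 ^ s := sum_congr rfl fun i _ => h.row i
    rw [h1, ← sum_mul]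
    have h2 : ∑ i, (4 : ℤ) ^ c i ≤ 5 * d := by
      have := h.tot
      exact_mod_cast this
    push_cast
    exact mul_le_mul_of_nonneg_right h2 (by positivity)
  · refine card_image_le.trans ?_
    rw [← Set.ncard_eq_toFinset_card _ hfin]
    refine hcard.trans (le_of_eq ?_)
    simp [Fintype.card_prod, Fintype.card_option]

theorem log_ge {m d : ℕ} (hm : 0 < m) (hd : 0 < d) :
    2 * Real.log 2 ≤ Real.log (2 * (d * (m + 1)) + 1) := by
  have h1 : (2 : ℝ) * Real.log 2 = Real.log 4 := by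
    rw [show (4 : ℝ) = 2 ^ 2 by norm_num, Real.log_pow]; norm_num
  rw [h1]
  refine Real.log_le_log (by norm_num) ?_
  have hm' : (1 : ℝ) ≤ m := by exact_mod_cast hm
  have hd' : (1 : ℝ) ≤ d := by exact_mod_cast hd
  nlinarith

end G3

open G3 in
theorem prob_g3 {m d : ℕ} (hm : 0 < m) (hd : 0 < d) {lam Φs : ℝ} (hlam : 0 < lam)
    (hΦs : 0 < Φs) {s : ℕ} (hs : 1 ≤ s) {Q : ℝ} {l lmax : ℕ} (hmd : m ≤ d * 2 ^ s)
    (hQ1 : 4 * (6 * Φs + (l + 1) / lam) ≤ Q)
    (hQ2 : 80 * d * 2 ^ s * Real.log (2 * (d * (m + 1)) + 1) ≤ l * lam * Q) :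
    gauss (Fin m) d {z | ¬ ∀ (c : Fin d → ℕ) (k : Fin d → Option (Fin m) → ℤ)
      (S : Finset (Fin m)), IsState s c k → S.card ≤ lmax → Phi lam (fam z s c k S) ≤ 6 * Φs →
        (exc z lam Q (fam z s c k S)).card ≤ l} ≤
      ENNReal.ofReal (Real.exp (-(3 * 2 ^ s : ℝ))) := by
  classical
  obtain ⟨T, hT, hTc⟩ := count_states m d s
  set E : (Fin d → Option (Fin m) → ℤ) → Finset (Fin m) → Finset (Fin m) →
      Set (Fin m → Fin d → ℝ) := fun k S J => {z | ∃ c, IsState s c k ∧
        Phi lam (fam z s c k S) ≤ 6 * Φs ∧ ∀ j ∈ J, Q < quad lam (fam z s c k S) (z j)} with hE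
  have hcover : {z | ¬ ∀ (c : Fin d → ℕ) (k : Fin d → Option (Fin m) → ℤ)
      (S : Finset (Fin m)), IsState s c k → S.card ≤ lmax → Phi lam (fam z s c k S) ≤ 6 * Φs →
        (exc z lam Q (fam z s c k S)).card ≤ l} ⊆
      ⋃ p ∈ T ×ˢ ((univ : Finset (Finset (Fin m))) ×ˢ powersetCard (l + 1) (univ : Finset (Fin m))),
        E p.1 p.2.1 p.2.2 := by
    intro z hz
    replace hz := Set.mem_ofPred.1 hz
    push Not at hz
    obtain ⟨c, k, S, hst, -, hphi, hcard⟩ := hz
    obtain ⟨J, hJ, hJc⟩ := Finset.exists_subset_card_eq (show l + 1 ≤ _ from hcard)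
    refine Set.mem_iUnion₂.2 ⟨(k, S, J), ?_, ?_⟩
    · simp only [mem_product, mem_univ, true_and, mem_powersetCard, subset_univ]
      exact ⟨hT c k hst, hJc⟩
    · refine ⟨c, hst, hphi, fun j hj => ?_⟩
      have := hJ hj
      unfold exc at this
      exact (mem_filter.1 this).2
  have hQ0 : 0 ≤ Q := by
    refine le_trans ?_ hQ1
    positivity
  have hEb : ∀ p ∈ T ×ˢ ((univ : Finset (Finset (Fin m))) ×ˢ
      powersetCard (l + 1) (univ : Finset (Fin m))), gauss (Fin m) d (E p.1 p.2.1 p.2.2) ≤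
        ENNReal.ofReal (Real.exp (-((l + 1) * lam * Q / 8))) := by
    rintro ⟨k, S, J⟩ hp
    simp only [mem_product, mem_univ, true_and, mem_powersetCard, subset_univ] at hp
    by_cases hc : ∃ c, IsState s c k
    · obtain ⟨c, hc⟩ := hc
      have hsub : E k S J ⊆ {z | Phi lam (comb z (coef s c k S)) ≤ 6 * Φs ∧
          ∀ j ∈ J, Q < quad lam (comb z (coef s c k S)) (z j)} := by
        rintro z ⟨c', hc', h1, h2⟩
        have := c_unique hc' hc
        subst this
        exact ⟨h1, h2⟩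
      refine (measure_mono hsub).trans ?_
      have h3 := ld_g3 (d := d) (coef s c k S) J (Φ := 6 * Φs) (Q := Q) hlam
        (by rw [hp.2]; push_cast; exact hQ1)
      refine h3.trans (le_of_eq ?_)
      rw [hp.2]
      push_cast
      rfl
    · have : E k S J = ∅ := by
        ext z
        refine ⟨?_, fun h => absurd h (Set.notMem_empty z)⟩
        rintro ⟨c, hc', -⟩
        exact absurd ⟨c, hc'⟩ hc
      show gauss (Fin m) d (E k S J) ≤ _
      rw [this]; simp
  refine (measure_mono hcover).trans ?_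
  refine (measure_biUnion_finset_le _ _).trans ?_
  refine (sum_le_sum hEb).trans ?_
  rw [sum_const, nsmul_eq_mul, card_product, card_product, card_univ, Fintype.card_finset,
    Fintype.card_fin, card_powersetCard, card_univ, Fintype.card_fin]
  have hN : ((T.card * (2 ^ m * m.choose (l + 1)) : ℕ) : ℝ) ≤
      Real.exp (5 * d * 2 ^ s * Real.log (2 * (d * (m + 1)) + 1) + 2 * m * Real.log 2) := by
    have h1 : (T.card : ℝ) ≤ Real.exp (5 * d * 2 ^ s * Real.log (2 * (d * (m + 1)) + 1)) := by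
      have h2 : (0 : ℝ) < 2 * (d * (m + 1)) + 1 := by positivity
      have h3 : Real.exp (5 * d * 2 ^ s * Real.log (2 * (d * (m + 1)) + 1)) =
          (2 * (d * (m + 1)) + 1) ^ (5 * d * 2 ^ s) := by
        rw [show (5 : ℝ) * d * 2 ^ s = ((5 * d * 2 ^ s : ℕ) : ℝ) by push_cast; ring,
          mul_comm, Real.exp_mul, Real.exp_log h2, Real.rpow_natCast]
      rw [h3]
      exact_mod_cast hTc
    have h4 : ((2 : ℝ) ^ m * (m.choose (l + 1) : ℕ)) ≤ Real.exp (2 * m * Real.log 2) := by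
      have h5 : Real.exp (2 * m * Real.log 2) = 2 ^ m * 2 ^ m := by
        rw [show 2 * (m : ℝ) * Real.log 2 = Real.log 2 * ((m + m : ℕ) : ℝ) by push_cast; ring,
          Real.exp_mul, Real.exp_log (by norm_num), Real.rpow_natCast, pow_add]
      rw [h5]
      refine mul_le_mul_of_nonneg_left ?_ (by positivity)
      exact_mod_cast Nat.choose_le_two_pow m (l + 1)
    rw [Real.exp_add]
    push_cast
    exact mul_le_mul h1 h4 (by positivity) (Real.exp_pos _).le
  calc ((T.card * (2 ^ m * m.choose (l + 1)) : ℕ) : ENNReal) *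
        ENNReal.ofReal (Real.exp (-((l + 1) * lam * Q / 8)))
      = ENNReal.ofReal (((T.card * (2 ^ m * m.choose (l + 1)) : ℕ) : ℝ) *
          Real.exp (-((l + 1) * lam * Q / 8))) := by
        rw [ENNReal.ofReal_mul (Nat.cast_nonneg _), ENNReal.ofReal_natCast]
    _ ≤ ENNReal.ofReal (Real.exp (-(3 * 2 ^ s : ℝ))) := by
        refine ENNReal.ofReal_le_ofReal ?_
        refine (mul_le_mul_of_nonneg_right hN (Real.exp_pos _).le).trans ?_
        rw [← Real.exp_add]
        refine Real.exp_le_exp.2 ?_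
        have h1 := log_ge hm hd
        set Lg := Real.log (2 * (d * (m + 1)) + 1) with hLg
        have hl2 : Real.log 2 < 0.6931471808 := Real.log_two_lt_d9
        have hl2' : 0.6931471803 < Real.log 2 := Real.log_two_gt_d9
        have hd' : (1 : ℝ) ≤ d := by exact_mod_cast hd
        have hmd' : (m : ℝ) ≤ d * 2 ^ s := by exact_mod_cast hmd
        have h2s : (1 : ℝ) ≤ 2 ^ s := one_le_pow₀ (by norm_num)
        have h5 : (0 : ℝ) ≤ lam * Q := mul_nonneg hlam.le hQ0
        have h6 : (2 : ℝ) ^ s ≤ d * 2 ^ s := by nlinarith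
        have h7 : (d : ℝ) * 2 ^ s * (2 * Real.log 2) ≤ d * 2 ^ s * Lg :=
          mul_le_mul_of_nonneg_left h1 (by positivity)
        have h8 : 2 * (m : ℝ) * Real.log 2 ≤ 2 * (d * 2 ^ s) * Real.log 2 := by
          have : (0 : ℝ) ≤ Real.log 2 := by linarith
          nlinarith
        nlinarith

end BMLow
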