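import Pool.Agent.Lib.MP_766f4a_gt.LDefs

set_option autoImplicit false

namespace BMLow

open Matrix Finset MeasureTheory ProbabilityTheory

theorem rot_gauss_eq_map (V : Type*) [Fintype V] (d : ℕ) :
    gauss V d = (Measure.pi fun _ : V × Fin d => gaussianReal 0 1).map
      (MeasurableEquiv.curry V (Fin d) ℝ) := by
  have h := Measure.infinitePi_map_curry (ι := V) (κ := Fin d) (X := ℝ)
    (fun _ _ => gaussianReal 0 1)
  simp only [Measure.infinitePi_eq_pi] at h
  exact h.symm

theorem rot_sum_sq {V : Type*} [Fintype V] [DecidableEq V] (O : Matrix V V ℝ)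
    (hO : Oᵀ * O = 1) (a : V → ℝ) : ∑ r, (∑ j, O j r * a j) ^ 2 = ∑ j, a j ^ 2 := by
  have hO' : O * Oᵀ = 1 := mul_eq_one_comm.1 hO
  have h1 : (Matrix.vecMul a O) ⬝ᵥ (Matrix.vecMul a O) = a ⬝ᵥ a := by
    rw [← Matrix.mulVec_transpose O a, Matrix.dotProduct_mulVec, Matrix.vecMul_transpose,
      Matrix.mulVec_mulVec, hO', Matrix.one_mulVec]
  have h2 : ∀ r, ∑ j, O j r * a j = Matrix.vecMul a O r := by
    intro r
    simp only [Matrix.vecMul, dotProduct]
    exact Finset.sum_congr rfl fun j _ => mul_comm _ _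
  calc ∑ r, (∑ j, O j r * a j) ^ 2 = (Matrix.vecMul a O) ⬝ᵥ (Matrix.vecMul a O) := by
        simp only [dotProduct, h2]
        exact Finset.sum_congr rfl fun j _ => by ring
    _ = ∑ j, a j ^ 2 := by
        rw [h1]
        simp only [dotProduct]
        exact Finset.sum_congr rfl fun j _ => by ring

/-- The rotation as a linear isometry. -/
noncomputable def rotIso {V : Type*} [Fintype V] [DecidableEq V] (d : ℕ) (O : Matrix V V ℝ)
    (hO : Oᵀ * O = 1) : EuclideanSpace ℝ (V × Fin d) →ₗᵢ[ℝ] EuclideanSpace ℝ (V × Fin d) where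
  toFun x := WithLp.toLp 2 fun p => ∑ j, O j p.1 * x (j, p.2)
  map_add' x y := by
    ext p
    simp only [PiLp.add_apply, mul_add, Finset.sum_add_distrib]
  map_smul' c x := by
    ext p
    simp only [PiLp.smul_apply, smul_eq_mul, RingHom.id_apply, Finset.mul_sum]
    exact Finset.sum_congr rfl fun j _ => by ring
  norm_map' x := by
    have h : ‖WithLp.toLp 2 fun p : V × Fin d => ∑ j, O j p.1 * x (j, p.2)‖ ^ 2 = ‖x‖ ^ 2 := by
      rw [EuclideanSpace.real_norm_sq_eq, EuclideanSpace.real_norm_sq_eq]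
      simp only
      rw [Fintype.sum_prod_type_right, Fintype.sum_prod_type_right]
      refine Finset.sum_congr rfl fun k _ => ?_
      exact rot_sum_sq O hO fun j => x (j, k)
    exact (sq_eq_sq₀ (norm_nonneg _) (norm_nonneg _)).1 h

theorem rot {V : Type*} [Fintype V] [DecidableEq V] {d : ℕ} (O : Matrix V V ℝ)
    (hO : Oᵀ * O = 1) :
    (gauss V d).map (fun z r => ∑ j, O j r • z j) = gauss V d := by
  set G := Measure.pi fun _ : V × Fin d => gaussianReal 0 1 with hG
  have h1 : G.map (WithLp.toLp 2) = stdGaussian (EuclideanSpace ℝ (V × Fin d)) :=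
    map_pi_eq_stdGaussian
  have h2 := stdGaussian_map ((rotIso d O hO).toLinearIsometryEquiv rfl)
  have hm2 : Measurable fun z : V → Fin d → ℝ => fun r => ∑ j, O j r • z j := by
    fun_prop
  have hGT : G.map (fun x p => ∑ j, O j p.1 * x (j, p.2)) = G := by
    have h3 : (G.map (WithLp.toLp 2)).map (rotIso d O hO) = G.map (WithLp.toLp 2) := by
      rw [h1]
      exact h2
    have h4 : ((G.map (WithLp.toLp 2)).map (rotIso d O hO)).map WithLp.ofLp =
        (G.map (WithLp.toLp 2)).map WithLp.ofLp := by rw [h3]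
    have hiso : Measurable (rotIso d O hO) := (rotIso d O hO).continuous.measurable
    rw [Measure.map_map (by fun_prop) hiso, Measure.map_map (by fun_prop) (by fun_prop),
      Measure.map_map (by fun_prop) (by fun_prop)] at h4
    have h5 : (WithLp.ofLp ∘ WithLp.toLp 2 : (V × Fin d → ℝ) → (V × Fin d → ℝ)) = id := rfl
    rw [h5, Measure.map_id] at h4
    exact h4
  rw [rot_gauss_eq_map, Measure.map_map hm2 (MeasurableEquiv.measurable _)]
  conv_rhs => rw [← hG, ← hGT]
  rw [Measure.map_map (MeasurableEquiv.measurable _) (by fun_prop)]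
  congr 1
  funext x
  ext r k
  simp [MeasurableEquiv.coe_curry, Function.curry]

end BMLow
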