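import Pool.Agent.Lib.MP_766f4a_gt.LDefs

/-!
The spectral decomposition of the coefficients.
-/

set_option autoImplicit false

namespace BMLow

open Matrix Finset

theorem SPEC_mat {d : ℕ} {ι : Type*} [Fintype ι] (lam : ℝ) (g : ι → Fin d → ℝ) :
    Mat lam g = lam • (1 : Matrix (Fin d) (Fin d) ℝ) + (Matrix.of g)ᵀ * Matrix.of g := by
  rw [Mat]
  congr 1
  ext a b
  rw [Matrix.sum_apply, Matrix.mul_apply]
  rfl

theorem SPEC_comb {d : ℕ} {ι V : Type*} [Fintype V] (z : V → Fin d → ℝ) (A : ι → V → ℝ) :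
    Matrix.of (comb z A) = Matrix.of A * Matrix.of z := by
  ext i a
  rw [Matrix.mul_apply]
  simp [comb, Finset.sum_apply]

theorem SPEC_rank {ι V : Type*} [Fintype ι] [DecidableEq ι] [Fintype V] (A : ι → V → ℝ) :
    (Matrix.of A).rank ≤ (Finset.univ.filter fun i => A i ≠ 0).card := by
  classical
  rw [Matrix.rank_eq_finrank_span_row]
  have h1 : Submodule.span ℝ (Set.range (Matrix.of A).row) ≤
      Submodule.span ℝ (((Finset.univ.filter fun i => A i ≠ 0).image A : Finset (V → ℝ)) :
        Set (V → ℝ)) := by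
    rw [Submodule.span_le]
    rintro _ ⟨i, rfl⟩
    by_cases hi : A i = 0
    · have : (Matrix.of A).row i = 0 := hi
      rw [this]
      exact Submodule.zero_mem _
    · apply Submodule.subset_span
      rw [Finset.mem_coe, Finset.mem_image]
      exact ⟨i, Finset.mem_filter.2 ⟨Finset.mem_univ i, hi⟩, rfl⟩
  refine (Submodule.finrank_mono h1).trans ?_
  exact (finrank_span_finset_le_card _).trans Finset.card_image_le

theorem spec {ι V : Type*} [Fintype ι] [DecidableEq ι] [Fintype V] [DecidableEq V]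
    (A : ι → V → ℝ) :
    ∃ (O : Matrix V V ℝ) (σ : V → ℝ), Oᵀ * O = 1 ∧ (∀ r, 0 ≤ σ r) ∧
      ∑ r, σ r = ∑ i, ∑ j, A i j ^ 2 ∧
      (Finset.univ.filter fun r => σ r ≠ 0).card ≤ (Finset.univ.filter fun i => A i ≠ 0).card ∧
      ∀ (d : ℕ) (z : V → Fin d → ℝ) (lam : ℝ),
        Mat lam (comb z A) = Mat lam (fun r => Real.sqrt (σ r) • ∑ j, O j r • z j) := by
  classical
  set B : Matrix V V ℝ := (Matrix.of A)ᵀ * Matrix.of A with hB
  have hps : B.PosSemidef := by
    have := Matrix.posSemidef_conjTranspose_mul_self (Matrix.of A)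
    rwa [Matrix.conjTranspose_eq_transpose_of_trivial] at this
  have hH : B.IsHermitian := hps.isHermitian
  set σ : V → ℝ := hH.eigenvalues with hσ
  set O : Matrix V V ℝ := (hH.eigenvectorUnitary : Matrix V V ℝ) with hO
  have hO1 : Oᵀ * O = 1 := by
    have h := (Matrix.mem_unitaryGroup_iff').1 hH.eigenvectorUnitary.2
    rwa [Matrix.star_eq_conjTranspose, Matrix.conjTranspose_eq_transpose_of_trivial] at h
  have hσ0 : ∀ r, 0 ≤ σ r := fun r => hps.eigenvalues_nonneg r
  have hspec : B = O * Matrix.diagonal σ * Oᵀ := by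
    have h := hH.spectral_theorem
    rw [Unitary.conjStarAlgAut_apply, Matrix.star_eq_conjTranspose,
      Matrix.conjTranspose_eq_transpose_of_trivial] at h
    exact h
  refine ⟨O, σ, hO1, hσ0, ?_, ?_, ?_⟩
  · have h1 := hH.trace_eq_sum_eigenvalues
    have h2 : B.trace = ∑ i, ∑ j, A i j ^ 2 := by
      rw [hB, Matrix.trace, Finset.sum_comm]
      refine Finset.sum_congr rfl fun j _ => ?_
      rw [Matrix.diag_apply, Matrix.mul_apply]
      refine Finset.sum_congr rfl fun i _ => ?_
      rw [Matrix.transpose_apply, Matrix.of_apply, sq]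
    rw [← h2, h1]
    rfl
  · have h1 := hH.rank_eq_card_non_zero_eigs
    have h2 : B.rank ≤ (Finset.univ.filter fun i => A i ≠ 0).card := by
      rw [hB, Matrix.rank_transpose_mul_self]
      exact SPEC_rank A
    rw [Fintype.card_subtype] at h1
    rw [← h1]
    exact h2
  · intro d z lam
    rw [SPEC_mat, SPEC_mat, SPEC_comb]
    congr 1
    have h1 : Matrix.of (fun r => Real.sqrt (σ r) • ∑ j, O j r • z j) =
        Matrix.diagonal (fun r => Real.sqrt (σ r)) * (Oᵀ * Matrix.of z) := by
      ext r a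
      rw [Matrix.diagonal_mul, Matrix.mul_apply]
      simp [Finset.sum_apply]
    rw [h1, Matrix.transpose_mul, Matrix.transpose_mul, Matrix.transpose_mul,
      Matrix.transpose_transpose, Matrix.diagonal_transpose]
    have h2 : (Matrix.of z)ᵀ * (Matrix.of A)ᵀ * (Matrix.of A * Matrix.of z) =
        (Matrix.of z)ᵀ * B * Matrix.of z := by
      rw [hB]
      simp only [Matrix.mul_assoc]
    have h3 : Matrix.diagonal (fun r => Real.sqrt (σ r)) *
        Matrix.diagonal (fun r => Real.sqrt (σ r)) = Matrix.diagonal σ := by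
      rw [Matrix.diagonal_mul_diagonal]
      congr 1
      funext r
      exact Real.mul_self_sqrt (hσ0 r)
    rw [h2, hspec, ← h3]
    simp only [Matrix.mul_assoc]

end BMLow
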