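import Pool.Agent.Lib.MP_766f4a_gt.LLdb
import Pool.Agent.Lib.MP_766f4a_gt.LDetf
import Pool.Agent.Lib.MP_766f4a_gt.LRot
import Pool.Agent.Lib.MP_766f4a_gt.LSpec
import Pool.Agent.Lib.MP_766f4a_gt.LLdg3

/-!
Module LDG4: the large deviation bound for (G4).
-/

set_option autoImplicit false

namespace BMLow

open Matrix Finset MeasureTheory ProbabilityTheory

open Ldg3 in
theorem ld_g4 {d : ℕ} (hd : 0 < d) {ι V : Type*} [Fintype ι] [DecidableEq ι] [Fintype V]
    [DecidableEq V] (A : ι → V → ℝ) {T : ℕ}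
    (hT : (Finset.univ.filter fun i => A i ≠ 0).card ≤ d + T) (hV : d + T ≤ Fintype.card V)
    (hsum : ∑ i, ∑ j, A i j ^ 2 ≤ 6 * d) {kk : ℕ} (hk : 1 ≤ kk)
    (hk2 : 4 * kk ≤ d) {lam Φ : ℝ} (hlam : 0 < lam) (hΦ : 0 ≤ Φ)
    (hpar : T + lam * Φ < (d / 4) / (1 + 48 * (Φ + kk / lam))) :
    gauss V d {z | Phi lam (comb z A) ≤ Φ} ≤
      ENNReal.ofReal (d * Real.exp (-((kk : ℝ) ^ 2 / 2))) := by
  classical
  obtain ⟨O, σ, hO, hσ, hs, hc, hM⟩ := spec A
  obtain ⟨p, B, hp, hB, hz⟩ := det_final hd σ hσ (hc.trans hT) hV (hs.trans_le hsum) hk hk2 hlam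
    hΦ hpar
  set R' : ℝ := Φ + kk / lam with hR'
  set g : (V → Fin d → ℝ) → V → Fin d → ℝ := fun w r => Real.sqrt (σ r) • w r with hg
  set G : Fin p → (V → Fin d → ℝ) → V → Fin d → ℝ :=
    fun i w r' => if r' ∈ B i then 0 else Real.sqrt (σ r') • w r' with hG
  have hgm : ∀ r a, Measurable fun w : V → Fin d → ℝ => g w r a := fun r a => by
    simp only [hg, Pi.smul_apply, smul_eq_mul]
    fun_prop
  have hGm : ∀ i r a, Measurable fun w : V → Fin d → ℝ => G i w r a := fun i r a => by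
    by_cases h : r ∈ B i
    · simp only [hG, if_pos h]
      exact measurable_const
    · simp only [hG, if_neg h, Pi.smul_apply, smul_eq_mul]
      fun_prop
  -- the transformed event
  set E : Set (V → Fin d → ℝ) := {w | Phi lam (g w) ≤ Φ} with hE
  have hEm : MeasurableSet E := by
    refine measurableSet_le ?_ measurable_const
    unfold Phi
    simp only [Matrix.trace, Matrix.diag]
    exact Finset.measurable_sum _ fun i _ => measurable_inv_entry _ (measurable_Mat lam _ hgm) i i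
  have hTm : Measurable fun (z : V → Fin d → ℝ) (r : V) => ∑ j, O j r • z j := by
    refine measurable_pi_lambda _ fun r => measurable_pi_lambda _ fun a => ?_
    simp only [Finset.sum_apply, Pi.smul_apply, smul_eq_mul]
    fun_prop
  have h1 : gauss V d {z | Phi lam (comb z A) ≤ Φ} = gauss V d E := by
    conv_rhs => rw [← rot (d := d) O hO, Measure.map_apply hTm hEm]
    congr 1
    ext z
    simp only [hE, Set.mem_preimage, Set.mem_ofPred_eq, hg, Phi]
    rw [hM d z lam]
  rw [h1]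
  -- the block events
  set F : Fin p → Set (V → Fin d → ℝ) := fun i =>
    {w | ((Mat lam (G i w))⁻¹).trace ≤ R' ∧
      4 * kk * R' ≤ ∑ r ∈ B i, w r ⬝ᵥ ((Mat lam (G i w))⁻¹ *ᵥ w r)} with hF
  have hsub : E ⊆ ⋃ i, F i := by
    intro w hw
    obtain ⟨i, hi⟩ := hz w hw
    refine Set.mem_iUnion.2 ⟨i, ?_, hi⟩
    have h2 := trace_inv_le_add (B i) (g w) hlam (Mat_sub_posSemidef lam (G i w))
    have h3 : Mat lam (G i w) + ∑ r ∈ B i, vecMulVec (g w r) (g w r) = Mat lam (g w) :=
      (Detf.Mat_ite lam (g w) (B i)).symm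
    rw [h3, hB i] at h2
    have h4 : ((Mat lam (g w))⁻¹).trace ≤ Φ := hw
    linarith
  have hkk0 : (0 : ℝ) < kk := by exact_mod_cast hk
  have hlR : (kk : ℝ) ≤ lam * R' := by
    rw [hR', mul_add, mul_div_cancel₀ _ hlam.ne']
    have := mul_nonneg hlam.le hΦ
    linarith
  have hFi : ∀ i, gauss V d (F i) ≤ ENNReal.ofReal (Real.exp (-((kk : ℝ) ^ 2 / 2))) := by
    intro i
    have hmain := ld_block (d := d) (B i) (fun w => (Mat lam (G i w))⁻¹)
      (measurable_inv_entry _ (measurable_Mat lam _ (hGm i)))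
      (fun w w' h => by
        have : G i w = G i w' := by
          funext r
          simp only [hG]
          by_cases hr : r ∈ B i
          · rw [if_pos hr, if_pos hr]
          · rw [if_neg hr, if_neg hr, h r hr]
        rw [this])
      (fun w => (Mat_posDef hlam _).inv.posSemidef) hlam (fun w => inv_le hlam _)
      R' (4 * kk * R')
    refine hmain.trans (ENNReal.ofReal_le_ofReal (Real.exp_le_exp.2 ?_))
    rw [hB i]
    have := mul_le_mul_of_nonneg_left hlR hkk0.le
    nlinarith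
  calc gauss V d E ≤ gauss V d (⋃ i, F i) := measure_mono hsub
    _ ≤ ∑' i, gauss V d (F i) := measure_iUnion_le _
    _ ≤ ∑' _ : Fin p, ENNReal.ofReal (Real.exp (-((kk : ℝ) ^ 2 / 2))) :=
        ENNReal.tsum_le_tsum hFi
    _ = p * ENNReal.ofReal (Real.exp (-((kk : ℝ) ^ 2 / 2))) := by
        rw [tsum_fintype, Finset.sum_const, Finset.card_univ, Fintype.card_fin, nsmul_eq_mul]
    _ ≤ d * ENNReal.ofReal (Real.exp (-((kk : ℝ) ^ 2 / 2))) := by
        gcongr
    _ = ENNReal.ofReal (d * Real.exp (-((kk : ℝ) ^ 2 / 2))) := by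
        rw [ENNReal.ofReal_mul (by positivity), ENNReal.ofReal_natCast]

end BMLow
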