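import Pool.Agent.Lib.MP_766f4a_gt.LG3
import Pool.Agent.Lib.MP_766f4a_gt.LLdg4

set_option autoImplicit false

namespace BMLow

open Matrix Finset MeasureTheory ProbabilityTheory

namespace G4

theorem coef_rows {m d : ℕ} (s : ℕ) (c : Fin d → ℕ) (k : Fin d → Option (Fin m) → ℤ)
    (S : Finset (Fin m)) :
    (Finset.univ.filter fun i => coef s c k S i ≠ 0).card ≤ d + S.card := by
  classical
  have hsub : (Finset.univ.filter fun i => coef s c k S i ≠ 0) ⊆
      (Finset.univ : Finset (Fin d)).disjSum S := by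
    intro i hi
    rw [mem_filter] at hi
    rcases i with i | v
    · rw [inl_mem_disjSum]; exact mem_univ i
    · rw [inr_mem_disjSum]
      by_contra hv
      apply hi.2
      funext j
      simp only [coef, Pi.zero_apply]
      rw [if_neg (fun h => hv h.1)]
  refine (card_le_card hsub).trans ?_
  rw [card_disjSum, card_univ, Fintype.card_fin]

theorem coef_sum {m d s : ℕ} {c : Fin d → ℕ} {k : Fin d → Option (Fin m) → ℤ}
    (h : IsState s c k) (S : Finset (Fin m)) :
    ∑ i, ∑ j, coef s c k S i j ^ 2 ≤ 5 * d + S.card := by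
  classical
  rw [Fintype.sum_sum_type]
  have h1 : ∀ i : Fin d, ∑ j, coef s c k S (Sum.inl i) j ^ 2 ≤ 4 ^ c i := by
    intro i
    simp only [coef]
    have hrow := h.row i
    rw [Fintype.sum_option] at hrow
    have h2 : ∑ j, |(k i (some j) : ℝ)| ≤ 4 ^ c i * 2 ^ s := by
      have h3 : ∑ j, |k i (some j)| ≤ 4 ^ c i * 2 ^ s := by
        have := abs_nonneg (k i none)
        linarith
      exact_mod_cast h3
    have h4 : ∑ j, ((k i (some j) : ℝ) / 2 ^ (s + c i)) ^ 2 =
        (∑ j, (k i (some j) : ℝ) ^ 2) / (2 ^ (s + c i)) ^ 2 := by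
      rw [sum_div]
      exact sum_congr rfl fun j _ => by rw [div_pow]
    rw [h4, div_le_iff₀ (by positivity)]
    have h5 : ∑ j, (k i (some j) : ℝ) ^ 2 ≤ (∑ j, |(k i (some j) : ℝ)|) ^ 2 := by
      have := Finset.sum_sq_le_sq_sum_of_nonneg (s := (univ : Finset (Fin m)))
        (f := fun j => |(k i (some j) : ℝ)|) (fun j _ => abs_nonneg _)
      simpa [sq_abs] using this
    refine h5.trans ?_
    have h6 : (∑ j, |(k i (some j) : ℝ)|) ^ 2 ≤ (4 ^ c i * 2 ^ s) ^ 2 :=
      pow_le_pow_left₀ (sum_nonneg fun j _ => abs_nonneg _) h2 2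
    refine h6.trans (le_of_eq ?_)
    have e : (4 : ℝ) ^ c i = (2 ^ c i) ^ 2 := by
      rw [← pow_mul, mul_comm, pow_mul]; norm_num
    rw [pow_add, e]
    ring
  have h2 : ∑ v : Fin m, ∑ j, coef s c k S (Sum.inr v) j ^ 2 = S.card := by
    simp only [coef]
    have : ∀ v : Fin m, ∑ j, (if v ∈ S ∧ v = j then (1 : ℝ) else 0) ^ 2 = if v ∈ S then 1 else 0 := by
      intro v
      rw [sum_eq_single v]
      · by_cases hv : v ∈ S <;> simp [hv]
      · intro j _ hj
        rw [if_neg (fun h => hj h.2.symm)]; simp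
      · intro h; exact absurd (mem_univ v) h
    rw [sum_congr rfl fun v _ => this v, ← sum_filter, sum_const, nsmul_eq_mul, mul_one]
    congr 2
    ext v; simp
  have h3 : ∑ i : Fin d, ∑ j, coef s c k S (Sum.inl i) j ^ 2 ≤ 5 * d := by
    refine (sum_le_sum fun i _ => h1 i).trans ?_
    have := h.tot
    exact_mod_cast this
  rw [h2]
  linarith

end G4

open G3 G4 in
theorem prob_g4 {m d : ℕ} (hm : 0 < m) (hd : 0 < d) {lam Φs : ℝ} (hlam : 0 < lam)
    (hΦs : 0 < Φs) {sf : ℕ} {lmax kk : ℕ} (hV : d + lmax ≤ m) (hl : lmax ≤ d) (hk : 1 ≤ kk)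
    (hk2 : 4 * kk ≤ d)
    (hpar : lmax + lam * (6 * Φs) < (d / 4) / (1 + 48 * (6 * Φs + kk / lam)))
    (hkk : 5 * d * 2 ^ sf * Real.log (2 * (d * (m + 1)) + 1) + m + Real.log d + 3 ≤
      (kk : ℝ) ^ 2 / 2) :
    gauss (Fin m) d {z | ¬ ∀ (c : Fin d → ℕ) (k : Fin d → Option (Fin m) → ℤ)
      (S : Finset (Fin m)), IsState sf c k → S.card ≤ lmax →
        6 * Φs < Phi lam (fam z sf c k S)} ≤ 1 / 8 := by
  classical
  obtain ⟨T, hT, hTc⟩ := count_states m d sf
  set E : (Fin d → Option (Fin m) → ℤ) → Finset (Fin m) →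
      Set (Fin m → Fin d → ℝ) := fun k S => {z | ∃ c, IsState sf c k ∧ S.card ≤ lmax ∧
        Phi lam (fam z sf c k S) ≤ 6 * Φs} with hE
  have hcover : {z | ¬ ∀ (c : Fin d → ℕ) (k : Fin d → Option (Fin m) → ℤ)
      (S : Finset (Fin m)), IsState sf c k → S.card ≤ lmax →
        6 * Φs < Phi lam (fam z sf c k S)} ⊆
      ⋃ p ∈ T ×ˢ (univ : Finset (Finset (Fin m))), E p.1 p.2 := by
    intro z hz
    replace hz := Set.mem_ofPred.1 hz
    push Not at hz
    obtain ⟨c, k, S, hst, hS, hphi⟩ := hz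
    refine Set.mem_iUnion₂.2 ⟨(k, S), ?_, ?_⟩
    · simp only [mem_product, mem_univ, and_true]
      exact hT c k hst
    · exact ⟨c, hst, hS, hphi⟩
  have hEb : ∀ p ∈ T ×ˢ (univ : Finset (Finset (Fin m))), gauss (Fin m) d (E p.1 p.2) ≤
        ENNReal.ofReal (d * Real.exp (-((kk : ℝ) ^ 2 / 2))) := by
    rintro ⟨k, S⟩ -
    by_cases hc : (∃ c, IsState sf c k) ∧ S.card ≤ lmax
    · obtain ⟨⟨c, hc⟩, hS⟩ := hc
      have hsub : E k S ⊆ {z | Phi lam (comb z (coef sf c k S)) ≤ 6 * Φs} := by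
        rintro z ⟨c', hc', -, h1⟩
        have := c_unique hc' hc
        subst this
        exact h1
      refine (measure_mono hsub).trans ?_
      refine ld_g4 hd (coef sf c k S) (T := lmax)
        ((coef_rows sf c k S).trans (by omega)) (by rw [Fintype.card_fin]; exact hV) ?_ hk hk2
        hlam (by positivity) hpar
      have h1 := coef_sum hc S
      have h2 : (S.card : ℝ) ≤ d := by exact_mod_cast hS.trans hl
      linarith
    · have : E k S = ∅ := by
        ext z
        refine ⟨?_, fun h => absurd h (Set.notMem_empty z)⟩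
        rintro ⟨c, hc', hS, -⟩
        exact absurd ⟨⟨c, hc'⟩, hS⟩ hc
      show gauss (Fin m) d (E k S) ≤ _
      rw [this]; simp
  refine (measure_mono hcover).trans ?_
  refine (measure_biUnion_finset_le _ _).trans ?_
  refine (sum_le_sum hEb).trans ?_
  rw [sum_const, nsmul_eq_mul, card_product, card_univ, Fintype.card_finset, Fintype.card_fin]
  have hd' : (0 : ℝ) < d := by exact_mod_cast hd
  have hN : ((T.card * 2 ^ m : ℕ) : ℝ) ≤
      Real.exp (5 * d * 2 ^ sf * Real.log (2 * (d * (m + 1)) + 1) + m * Real.log 2) := by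
    have h1 : (T.card : ℝ) ≤ Real.exp (5 * d * 2 ^ sf * Real.log (2 * (d * (m + 1)) + 1)) := by
      have h2 : (0 : ℝ) < 2 * (d * (m + 1)) + 1 := by positivity
      have h3 : Real.exp (5 * d * 2 ^ sf * Real.log (2 * (d * (m + 1)) + 1)) =
          (2 * (d * (m + 1)) + 1) ^ (5 * d * 2 ^ sf) := by
        rw [show (5 : ℝ) * d * 2 ^ sf = ((5 * d * 2 ^ sf : ℕ) : ℝ) by push_cast; ring,
          mul_comm, Real.exp_mul, Real.exp_log h2, Real.rpow_natCast]
      rw [h3]
      exact_mod_cast hTc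
    have h4 : Real.exp (m * Real.log 2) = 2 ^ m := by
      rw [mul_comm, Real.exp_mul, Real.exp_log (by norm_num), Real.rpow_natCast]
    rw [Real.exp_add, h4]
    push_cast
    exact mul_le_mul_of_nonneg_right h1 (by positivity)
  calc ((T.card * 2 ^ m : ℕ) : ENNReal) * ENNReal.ofReal (d * Real.exp (-((kk : ℝ) ^ 2 / 2)))
      = ENNReal.ofReal (((T.card * 2 ^ m : ℕ) : ℝ) * (d * Real.exp (-((kk : ℝ) ^ 2 / 2)))) := by
        rw [ENNReal.ofReal_mul (p := ((T.card * 2 ^ m : ℕ) : ℝ)) (Nat.cast_nonneg _),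
          ENNReal.ofReal_natCast]
    _ ≤ ENNReal.ofReal (1 / 8) := by
        refine ENNReal.ofReal_le_ofReal ?_
        refine (mul_le_mul_of_nonneg_right hN (by positivity)).trans ?_
        have h1 : (d : ℝ) = Real.exp (Real.log d) := (Real.exp_log hd').symm
        have h2 : (d : ℝ) * Real.exp (-((kk : ℝ) ^ 2 / 2)) =
            Real.exp (Real.log d - (kk : ℝ) ^ 2 / 2) := by
          rw [Real.exp_sub, Real.exp_neg, Real.exp_log hd']; field_simp
        rw [h2, ← Real.exp_add]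
        have hl2 : Real.log 2 < 0.6931471808 := Real.log_two_lt_d9
        have hm' : (0 : ℝ) ≤ m := Nat.cast_nonneg _
        have h3 : 5 * d * 2 ^ sf * Real.log (2 * (d * (m + 1)) + 1) + m * Real.log 2 +
            (Real.log d - (kk : ℝ) ^ 2 / 2) ≤ -3 := by nlinarith
        refine (Real.exp_le_exp.2 h3).trans ?_
        have h4 : Real.exp (-3) = (Real.exp 1)⁻¹ ^ 3 := by
          rw [← Real.exp_neg, ← Real.exp_nat_mul]; norm_num
        rw [h4]
        have h5 : (Real.exp 1)⁻¹ ≤ 1 / 2 := by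
          rw [one_div]
          refine inv_anti₀ (by norm_num) ?_
          have := Real.add_one_le_exp (1 : ℝ)
          linarith
        calc (Real.exp 1)⁻¹ ^ 3 ≤ (1 / 2 : ℝ) ^ 3 := pow_le_pow_left₀ (by positivity) h5 3
          _ = 1 / 8 := by norm_num
    _ = 1 / 8 := by
        rw [ENNReal.ofReal_div_of_pos (by norm_num)]
        norm_num

end BMLow
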