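import Pool.Agent.Lib.MP_766f4a_gt.LDefs

set_option autoImplicit false

namespace BMLow

open Matrix Finset MeasureTheory ProbabilityTheory

/-! ### The good event -/

/-- The good event; `b₀ = 1/64`. -/
structure Good {d m : ℕ} (z : Fin m → Fin d → ℝ) (lam Φs : ℝ) (Q : ℕ → ℝ) (sf s0 l lmax : ℕ) :
    Prop where
  g0 : ∑ j, z j ⬝ᵥ z j ≤ 4 * m * d
  g2 : ∀ x : Fin d → ℝ, (1 / 64 : ℝ) * m * Real.sqrt (x ⬝ᵥ x) ≤ ∑ j, |z j ⬝ᵥ x|
  g3 : ∀ s, sf < s → s ≤ s0 → ∀ (c : Fin d → ℕ) (k : Fin d → Option (Fin m) → ℤ)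
    (S : Finset (Fin m)), IsState s c k → S.card ≤ lmax → Phi lam (fam z s c k S) ≤ 6 * Φs →
      (exc z lam (Q s) (fam z s c k S)).card ≤ l
  g4 : ∀ (c : Fin d → ℕ) (k : Fin d → Option (Fin m) → ℤ) (S : Finset (Fin m)),
    IsState sf c k → S.card ≤ lmax → 6 * Φs < Phi lam (fam z sf c k S)

end BMLow
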