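import Pool.Agent.Lib.MP_766f4a_gt.LMgf

set_option autoImplicit false

namespace BMLow

open Matrix Finset MeasureTheory ProbabilityTheory

theorem ld_block {V : Type*} [Fintype V] [DecidableEq V] {d : ℕ} (J : Finset V)
    (N : (V → Fin d → ℝ) → Matrix (Fin d) (Fin d) ℝ)
    (hmeas : ∀ i i', Measurable fun z => N z i i')
    (hdep : ∀ z z' : V → Fin d → ℝ, (∀ j, j ∉ J → z j = z' j) → N z = N z')
    (hN : ∀ z, (N z).PosSemidef) {lam : ℝ} (hlam : 0 < lam)
    (hle : ∀ z, ((1 / lam) • (1 : Matrix (Fin d) (Fin d) ℝ) - N z).PosSemidef) (R Y : ℝ) :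
    gauss V d {z | (N z).trace ≤ R ∧ Y ≤ ∑ j ∈ J, z j ⬝ᵥ (N z *ᵥ z j)} ≤
      ENNReal.ofReal (Real.exp (J.card * (lam / 2 * R) - lam / 4 * Y)) := by
  classical
  set μ : Measure (Fin d → ℝ) := Measure.pi fun _ => gaussianReal 0 1 with hμ
  have hquad : ∀ j, Measurable fun z : V → Fin d → ℝ => z j ⬝ᵥ (N z *ᵥ z j) := by
    intro j
    simp only [dotProduct, Matrix.mulVec]
    refine Finset.measurable_sum _ fun i _ => ?_
    refine Measurable.mul (by fun_prop) (Finset.measurable_sum _ fun i' _ => ?_)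
    exact (hmeas i i').mul (by fun_prop)
  have htr : Measurable fun z : V → Fin d → ℝ => (N z).trace := by
    simp only [Matrix.trace, Matrix.diag]
    exact Finset.measurable_sum _ fun i _ => hmeas i i
  have hsumm : Measurable fun z : V → Fin d → ℝ => ∑ j ∈ J, z j ⬝ᵥ (N z *ᵥ z j) :=
    Finset.measurable_sum _ fun j _ => hquad j
  set S : Set (V → Fin d → ℝ) := {z | (N z).trace ≤ R} with hS
  have hSm : MeasurableSet S := measurableSet_le htr measurable_const
  set F : (V → Fin d → ℝ) → ENNReal := S.indicator fun z =>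
    ENNReal.ofReal (Real.exp (lam / 4 * ∑ j ∈ J, z j ⬝ᵥ (N z *ᵥ z j))) with hF
  have hFm : Measurable F := by
    refine Measurable.indicator ?_ hSm
    exact (Real.measurable_exp.comp (measurable_const.mul hsumm)).ennreal_ofReal
  -- Markov
  have hmarkov : ENNReal.ofReal (Real.exp (lam / 4 * Y)) *
      gauss V d {z | (N z).trace ≤ R ∧ Y ≤ ∑ j ∈ J, z j ⬝ᵥ (N z *ᵥ z j)} ≤
      ∫⁻ z, F z ∂(gauss V d) := by
    refine le_trans ?_ (mul_meas_ge_le_lintegral₀ hFm.aemeasurable
      (ENNReal.ofReal (Real.exp (lam / 4 * Y))))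
    refine mul_le_mul_right (measure_mono ?_) _
    rintro z ⟨h1, h2⟩
    have h3 : z ∈ S := h1
    simp only [Set.mem_ofPred_eq, hF, Set.indicator_of_mem h3]
    apply ENNReal.ofReal_le_ofReal
    apply Real.exp_le_exp.2
    gcongr
  -- Tonelli
  have hint : ∫⁻ z, F z ∂(gauss V d) ≤
      ENNReal.ofReal (Real.exp (J.card * (lam / 2 * R))) := by
    obtain ⟨p, hp⟩ : ∃ p : V → Prop, ∀ j, p j ↔ j ∈ J := ⟨fun j => j ∈ J, fun j => Iff.rfl⟩
    have hmp := measurePreserving_piEquivPiSubtypeProd (fun _ : V => μ) p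
    set e := MeasurableEquiv.piEquivPiSubtypeProd (fun _ : V => Fin d → ℝ) p
      with he
    have hFe : Measurable fun q => F (e.symm q) := hFm.comp e.symm.measurable
    have h1 : ∫⁻ z, F z ∂(gauss V d) = ∫⁻ q, F (e.symm q)
        ∂((Measure.pi fun _ : {j // p j} => μ).prod (Measure.pi fun _ : {j // ¬ p j} => μ)) := by
      rw [← hmp.map_eq, lintegral_map hFe e.measurable]
      simp only [MeasurableEquiv.symm_apply_apply]
      rfl
    rw [h1, lintegral_prod_symm _ hFe.aemeasurable]
    have hin : ∀ w : {j // ¬ p j} → Fin d → ℝ,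
        ∫⁻ u, F (e.symm (u, w)) ∂(Measure.pi fun _ : {j // p j} => μ) ≤
          ENNReal.ofReal (Real.exp (J.card * (lam / 2 * R))) := by
      intro w
      have hv1 : ∀ (u : {j // p j} → Fin d → ℝ) (j : {j // p j}),
          e.symm (u, w) j.1 = u j := by
        intro u j
        have := j.2
        simp [he, MeasurableEquiv.piEquivPiSubtypeProd, this]
      have hv2 : ∀ (u : {j // p j} → Fin d → ℝ) (j : V) (hj : ¬ p j),
          e.symm (u, w) j = w ⟨j, hj⟩ := by
        intro u j hj
        simp [he, MeasurableEquiv.piEquivPiSubtypeProd, hj]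
      set N₀ := N (e.symm (0, w)) with hN₀
      have hNu : ∀ u, N (e.symm (u, w)) = N₀ := by
        intro u
        apply hdep
        intro j hj
        rw [← hp] at hj
        rw [hv2 u j hj, hv2 0 j hj]
      have hsumJ : ∀ f : V → ℝ, ∑ j ∈ J, f j = ∑ j : {j // p j}, f j.1 :=
        fun f => Finset.sum_subtype J (fun j => (hp j).symm) f
      have hcard : Fintype.card {j // p j} = J.card := by
        rw [Fintype.card_subtype]
        congr 1
        ext j
        simp [hp]
      by_cases hR : N₀.trace ≤ R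
      · have hFu : ∀ u, F (e.symm (u, w)) = ∏ j : {j // p j},
            ENNReal.ofReal (Real.exp (lam / 4 * (u j ⬝ᵥ (N₀ *ᵥ u j)))) := by
          intro u
          have hmem : e.symm (u, w) ∈ S := by
            show (N (e.symm (u, w))).trace ≤ R
            rw [hNu]; exact hR
          simp only [hF, Set.indicator_of_mem hmem]
          rw [hNu, ← ENNReal.ofReal_prod_of_nonneg (fun i _ => (Real.exp_pos _).le),
            ← Real.exp_sum, hsumJ, Finset.mul_sum]
          congr 2
          refine Finset.sum_congr rfl fun j _ => ?_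
          rw [hv1 u j]
        simp_rw [hFu]
        rw [mgf_lintegral_pi_prod (fun _ : {j // p j} => μ)
          (fun j x => ENNReal.ofReal (Real.exp (lam / 4 * (x ⬝ᵥ (N₀ *ᵥ x)))))
          (fun j => by fun_prop)]
        have h2 := mgf N₀ (hN _) hlam (hle _)
        refine (Finset.prod_le_prod' fun j _ => h2.trans (ENNReal.ofReal_le_ofReal
          (Real.exp_le_exp.2 (show lam / 2 * N₀.trace ≤ lam / 2 * R by gcongr)))).trans ?_
        rw [Finset.prod_const, ← ENNReal.ofReal_pow (Real.exp_pos _).le, ← Real.exp_nat_mul,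
          Finset.card_univ, hcard]
      · have hFu : ∀ u, F (e.symm (u, w)) = 0 := by
          intro u
          have hmem : e.symm (u, w) ∉ S := by
            show ¬ (N (e.symm (u, w))).trace ≤ R
            rw [hNu]; exact hR
          simp only [hF, Set.indicator_of_notMem hmem]
        simp_rw [hFu]
        simp
    calc ∫⁻ w, ∫⁻ u, F (e.symm (u, w)) ∂(Measure.pi fun _ : {j // p j} => μ)
          ∂(Measure.pi fun _ : {j // ¬ p j} => μ)
        ≤ ∫⁻ w, ENNReal.ofReal (Real.exp (J.card * (lam / 2 * R)))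
          ∂(Measure.pi fun _ : {j // ¬ p j} => μ) := lintegral_mono hin
      _ = ENNReal.ofReal (Real.exp (J.card * (lam / 2 * R))) := by simp
  have hpos : (0 : ℝ) < Real.exp (lam / 4 * Y) := Real.exp_pos _
  have h5 := hmarkov.trans hint
  rw [Real.exp_sub, ENNReal.ofReal_div_of_pos hpos]
  rw [ENNReal.le_div_iff_mul_le (Or.inl (by simp [Real.exp_pos]))
    (Or.inl ENNReal.ofReal_ne_top), mul_comm]
  exact h5

end BMLow
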