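import Pool.Agent.Lib.MP_766f4a_gt.LDefs

/-!
Module POL: from the polytope to the distance.
-/

set_option autoImplicit false

namespace BMLow

open Matrix Finset

/-- The cube. -/
def cube (d : ℕ) : Set (Fin d → ℝ) := {x | ∀ i, |x i| ≤ 1}

lemma pol_clm_eq_dot {d : ℕ} (φ : (Fin d → ℝ) →ₗ[ℝ] ℝ) (x : Fin d → ℝ) :
    φ x = (fun i => φ (Pi.single i 1)) ⬝ᵥ x := by
  conv_lhs => rw [← Finset.univ_sum_single x]
  rw [map_sum]
  simp only [dotProduct]
  refine Finset.sum_congr rfl fun i _ => ?_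
  have : Pi.single i (x i) = x i • (Pi.single i (1 : ℝ) : Fin d → ℝ) := by
    rw [← Pi.single_smul, smul_eq_mul, mul_one]
  rw [this, map_smul, smul_eq_mul, mul_comm]

/-- bipolar theorem for a symmetric polytope -/
lemma pol_bipolar {m d : ℕ} (z : Fin m → Fin d → ℝ) (h : Fin d → ℝ)
    (hh : ∀ x : Fin d → ℝ, (∀ j, |z j ⬝ᵥ x| ≤ 1) → h ⬝ᵥ x ≤ 1) :
    ∃ a : Fin m → ℝ, ∑ j, |a j| ≤ 1 ∧ h = ∑ j, a j • z j := by
  set P : Set (Fin d → ℝ) := {y | ∃ a : Fin m → ℝ, ∑ j, |a j| ≤ 1 ∧ y = ∑ j, a j • z j} with hP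
  by_contra hcon
  have hnot : h ∉ P := hcon
  have hconv : Convex ℝ P := by
    rintro _ ⟨a, ha, rfl⟩ _ ⟨b, hb, rfl⟩ s t hs ht hst
    refine ⟨fun j => s * a j + t * b j, ?_, ?_⟩
    · calc ∑ j, |s * a j + t * b j| ≤ ∑ j, (s * |a j| + t * |b j|) := by
            refine sum_le_sum fun j _ => (abs_add_le _ _).trans ?_
            rw [abs_mul, abs_mul, abs_of_nonneg hs, abs_of_nonneg ht]
        _ = s * ∑ j, |a j| + t * ∑ j, |b j| := by
            rw [sum_add_distrib, mul_sum, mul_sum]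
        _ ≤ s * 1 + t * 1 := by gcongr
        _ = 1 := by linarith
    · rw [smul_sum, smul_sum, ← sum_add_distrib]
      refine sum_congr rfl fun j _ => ?_
      rw [smul_smul, smul_smul, ← add_smul]
  have hcomp : IsCompact P := by
    have h1 : IsCompact {a : Fin m → ℝ | ∑ j, |a j| ≤ 1} := by
      refine Metric.isCompact_of_isClosed_isBounded ?_ ?_
      · exact isClosed_le (by fun_prop) continuous_const
      · refine (Metric.isBounded_closedBall (x := (0 : Fin m → ℝ)) (r := 1)).subset ?_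
        intro a ha
        rw [mem_closedBall_zero_iff, pi_norm_le_iff_of_nonneg zero_le_one]
        intro j
        rw [Real.norm_eq_abs]
        exact (single_le_sum (f := fun j => |a j|) (fun _ _ => abs_nonneg _) (mem_univ j)).trans ha
    have h2 := h1.image (f := fun a : Fin m → ℝ => ∑ j, a j • z j) (by fun_prop)
    convert h2 using 1
    ext y
    constructor
    · rintro ⟨a, ha, rfl⟩
      exact ⟨a, ha, rfl⟩
    · rintro ⟨a, ha, rfl⟩
      exact ⟨a, ha, rfl⟩
  obtain ⟨φ, u, hu1, hu2⟩ := geometric_hahn_banach_closed_point hconv hcomp.isClosed hnot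
  have hu0 : 0 < u := by
    have h0 : (0 : Fin d → ℝ) ∈ P := ⟨0, by simp, by simp⟩
    have := hu1 0 h0
    rwa [map_zero] at this
  have hmem : ∀ j, ∀ ε : ℝ, |ε| ≤ 1 → ε • z j ∈ P := by
    intro j ε hε
    refine ⟨Pi.single j ε, ?_, ?_⟩
    · rw [sum_eq_single j]
      · rwa [Pi.single_eq_same]
      · intro i _ hij
        rw [Pi.single_eq_of_ne hij, abs_zero]
      · intro h
        exact absurd (mem_univ j) h
    · rw [sum_eq_single j]
      · rw [Pi.single_eq_same]
      · intro i _ hij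
        rw [Pi.single_eq_of_ne hij, zero_smul]
      · intro h
        exact absurd (mem_univ j) h
  set x : Fin d → ℝ := fun i => φ (Pi.single i 1) with hx
  have hφ : ∀ y, φ y = x ⬝ᵥ y := fun y => pol_clm_eq_dot φ.toLinearMap y
  have hz : ∀ j, |z j ⬝ᵥ (u⁻¹ • x)| ≤ 1 := by
    intro j
    have h1 := hu1 _ (hmem j 1 (by simp))
    have h2 := hu1 _ (hmem j (-1) (by simp))
    rw [map_smul, smul_eq_mul, hφ, dotProduct_comm] at h1 h2
    rw [dotProduct_smul, smul_eq_mul, abs_mul, abs_of_pos (inv_pos.2 hu0),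
      inv_mul_le_iff₀ hu0, mul_one, abs_le]
    constructor <;> linarith
  have h3 := hh _ hz
  rw [dotProduct_smul, smul_eq_mul, inv_mul_le_iff₀ hu0, mul_one, dotProduct_comm, ← hφ] at h3
  linarith

theorem polytope_body {m d : ℕ} (hd : 0 < d) (z : Fin m → Fin d → ℝ)
    (h2 : ∀ x : Fin d → ℝ, x ≠ 0 → 0 < ∑ j, |z j ⬝ᵥ x|) {D : ℝ}
    (hno : ¬ ∃ (g f : Fin d → Fin d → ℝ) (a : Fin d → Fin m → ℝ),
      (∀ i j, f i ⬝ᵥ g j = if i = j then 1 else 0) ∧ (∀ i, ∑ j, |a i j| ≤ 1) ∧
      (∀ i, g i = ∑ j, a i j • z j) ∧ ∀ j, ∑ i, |f i ⬝ᵥ z j| ≤ D) :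
    ∃ C : Set (Fin d → ℝ), IsCompact C ∧ Convex ℝ C ∧ (interior C).Nonempty ∧
      (∀ x ∈ C, -x ∈ C) ∧ ∀ (l : ℝ) (f : (Fin d → ℝ) ≃ᵃ[ℝ] (Fin d → ℝ)), 0 < l →
        f '' cube d ⊆ C → C ⊆ (fun x => l • x) '' (f '' cube d) → D ≤ l := by
  -- the linear map `x ↦ (⟨z j, x⟩)_j`
  let L : (Fin d → ℝ) →ₗ[ℝ] (Fin m → ℝ) := Matrix.mulVecLin (Matrix.of z)
  have hL : ∀ x j, L x j = z j ⬝ᵥ x := fun x j => rfl
  have hker : LinearMap.ker L = ⊥ := by
    rw [LinearMap.ker_eq_bot']
    intro x hx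
    by_contra hne
    have h := h2 x hne
    have h0 : ∑ j, |z j ⬝ᵥ x| = 0 := by
      refine sum_eq_zero fun j _ => ?_
      rw [← hL x j, hx]
      simp
    linarith
  have hLc : Continuous L := LinearMap.continuous_of_finiteDimensional L
  have hCeq : {x : Fin d → ℝ | ∀ j, |z j ⬝ᵥ x| ≤ 1} = L ⁻¹' Metric.closedBall 0 1 := by
    ext x
    rw [Set.mem_preimage, mem_closedBall_zero_iff, pi_norm_le_iff_of_nonneg zero_le_one]
    exact Iff.rfl
  refine ⟨{x | ∀ j, |z j ⬝ᵥ x| ≤ 1}, ?_, ?_, ?_, ?_, ?_⟩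
  · rw [hCeq]
    exact (LinearMap.isClosedEmbedding_of_injective hker).isCompact_preimage
      (isCompact_closedBall 0 1)
  · rw [hCeq]
    exact (convex_closedBall 0 1).linear_preimage L
  · refine ⟨0, ?_⟩
    rw [mem_interior]
    refine ⟨L ⁻¹' Metric.ball 0 1, ?_, Metric.isOpen_ball.preimage hLc, ?_⟩
    · rw [hCeq]
      exact Set.preimage_mono Metric.ball_subset_closedBall
    · rw [Set.mem_preimage, map_zero]
      exact Metric.mem_ball_self one_pos
  · intro x hx j
    rw [dotProduct_neg, abs_neg]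
    exact hx j
  · intro l f hl hf1 hf2
    by_contra hlD
    push Not at hlD
    apply hno
    -- the linear part
    set T := f.linear with hT
    have hfT : ∀ x, f x = T x + f 0 := by
      intro x
      have := f.map_vadd 0 x
      simpa using this
    have hneg : ∀ x ∈ cube d, -x ∈ cube d := by
      intro x hx i
      rw [Pi.neg_apply, abs_neg]
      exact hx i
    have hT1 : ∀ x ∈ cube d, ∀ j, |z j ⬝ᵥ T x| ≤ 1 := by
      intro x hx j
      have h1 := hf1 ⟨x, hx, rfl⟩ j
      have h2 := hf1 ⟨-x, hneg x hx, rfl⟩ j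
      rw [hfT, dotProduct_add] at h1 h2
      rw [map_neg, dotProduct_neg] at h2
      rw [abs_le] at h1 h2 ⊢
      constructor <;> linarith [h1.1, h1.2, h2.1, h2.2]
    have hT2 : ∀ x : Fin d → ℝ, (∀ j, |z j ⬝ᵥ x| ≤ 1) → ∀ i, |T.symm x i| ≤ l := by
      intro x hx i
      obtain ⟨_, ⟨a, ha, rfl⟩, h1⟩ := hf2 hx
      have hx' : ∀ j, |z j ⬝ᵥ (-x)| ≤ 1 := by
        intro j
        rw [dotProduct_neg, abs_neg]
        exact hx j
      obtain ⟨_, ⟨b, hb, rfl⟩, h3⟩ := hf2 hx'
      change l • f a = x at h1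
      change l • f b = -x at h3
      have h4 : x = T ((l / 2) • (a - b)) := by
        have h5 : (2 : ℝ) • x = l • f a - l • f b := by
          rw [h1, h3, two_smul, sub_neg_eq_add]
        have h6 : l • f a - l • f b = T (l • (a - b)) := by
          rw [hfT a, hfT b, ← smul_sub, map_smul, map_sub]
          congr 1
          abel
        have h7 : x = (1 / 2 : ℝ) • ((2 : ℝ) • x) := by
          rw [smul_smul]
          norm_num
        rw [h7, h5, h6, ← map_smul, smul_smul]
        congr 2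
        ring
      rw [h4, LinearEquiv.symm_apply_apply]
      rw [Pi.smul_apply, Pi.sub_apply, smul_eq_mul, abs_mul, abs_of_pos (by positivity)]
      have h8 : |a i - b i| ≤ 2 := by
        have h9 := abs_sub (a i) (b i)
        have h10 := ha i
        have h11 := hb i
        linarith
      nlinarith
    -- the rows of `T⁻¹`
    let h : Fin d → Fin d → ℝ := fun i k => T.symm (Pi.single k 1) i
    have hh : ∀ i x, T.symm x i = h i ⬝ᵥ x := by
      intro i x
      have := pol_clm_eq_dot ((LinearMap.proj i).comp (T.symm : (Fin d → ℝ) →ₗ[ℝ] (Fin d → ℝ))) x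
      exact this
    have hbip : ∀ i, ∃ a : Fin m → ℝ, ∑ j, |a j| ≤ 1 ∧ l⁻¹ • h i = ∑ j, a j • z j := by
      intro i
      refine pol_bipolar z _ fun x hx => ?_
      have h1 := hT2 x hx i
      rw [hh] at h1
      rw [smul_dotProduct, smul_eq_mul, inv_mul_le_iff₀ hl, mul_one]
      exact (le_abs_self _).trans h1
    choose a ha1 ha2 using hbip
    refine ⟨fun i => l⁻¹ • h i, fun i => l • T (Pi.single i 1), a, ?_, ha1, ha2, ?_⟩
    · intro i j
      rw [smul_dotProduct, dotProduct_smul, smul_smul, mul_inv_cancel₀ hl.ne', one_smul,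
        dotProduct_comm, ← hh, LinearEquiv.symm_apply_apply]
      by_cases hij : i = j
      · subst hij
        rw [Pi.single_eq_same, if_pos rfl]
      · rw [if_neg hij, Pi.single_eq_of_ne (fun h => hij h.symm)]
    · intro j
      -- choose the signs
      set x : Fin d → ℝ := fun i => SignType.sign (T (Pi.single i 1) ⬝ᵥ z j) with hx
      have hxc : x ∈ cube d := by
        intro i
        rw [hx]
        rcases lt_trichotomy (T (Pi.single i 1) ⬝ᵥ z j) 0 with h | h | h
        · simp [sign_neg h]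
        · simp [h]
        · simp [sign_pos h]
      have h1 := hT1 x hxc j
      have h3 : z j ⬝ᵥ T x = ∑ i, |T (Pi.single i 1) ⬝ᵥ z j| := by
        rw [dotProduct_comm]
        have h4 : T x = ∑ i, x i • T (Pi.single i 1) := by
          conv_lhs => rw [← Finset.univ_sum_single x]
          rw [map_sum]
          refine sum_congr rfl fun i _ => ?_
          have : Pi.single i (x i) = x i • (Pi.single i (1 : ℝ) : Fin d → ℝ) := by
            rw [← Pi.single_smul, smul_eq_mul, mul_one]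
          rw [this, map_smul]
        rw [h4, sum_dotProduct]
        refine sum_congr rfl fun i _ => ?_
        rw [smul_dotProduct, smul_eq_mul]
        exact sign_mul_self _
      rw [h3] at h1
      have h5 : ∑ i, |(l • T (Pi.single i 1)) ⬝ᵥ z j| = l * ∑ i, |T (Pi.single i 1) ⬝ᵥ z j| := by
        rw [mul_sum]
        refine sum_congr rfl fun i _ => ?_
        rw [smul_dotProduct, smul_eq_mul, abs_mul, abs_of_pos hl]
      rw [h5]
      have h6 := (abs_le.1 h1).2
      nlinarith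

end BMLow
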