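import Pool.Agent.Lib.MP_766f4a_gt.LGood
import Pool.Agent.Lib.MP_766f4a_gt.LG0
import Pool.Agent.Lib.MP_766f4a_gt.LG2
import Pool.Agent.Lib.MP_766f4a_gt.LG3
import Pool.Agent.Lib.MP_766f4a_gt.LG4

/-!
Module UNION: the good event is not empty.
-/

set_option autoImplicit false

namespace BMLow

open Matrix Finset MeasureTheory ProbabilityTheory

theorem union_exp_le (s : ℕ) : Real.exp (-(3 * 2 ^ s : ℝ)) ≤ (1 / 8 : ℝ) ^ s := by
  have h1 : (s : ℝ) ≤ 2 ^ s := by exact_mod_cast (Nat.lt_two_pow_self).le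
  have h2 : (2 : ℝ) ≤ Real.exp 1 := by
    have := Real.add_one_le_exp (1 : ℝ)
    linarith
  have h3 : Real.exp (-(3 * 2 ^ s : ℝ)) ≤ Real.exp (-(3 * s : ℝ)) :=
    Real.exp_le_exp.2 (by linarith)
  refine h3.trans ?_
  rw [Real.exp_neg, one_div, inv_pow]
  refine inv_anti₀ (by positivity) ?_
  have h4 : Real.exp (3 * s : ℝ) = (Real.exp 1 ^ 3) ^ s := by
    rw [← pow_mul, ← Real.exp_nat_mul]
    congr 1
    push_cast
    ring
  rw [h4]
  have h5 : (8 : ℝ) ≤ Real.exp 1 ^ 3 := by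
    calc (8 : ℝ) = 2 ^ 3 := by norm_num
      _ ≤ Real.exp 1 ^ 3 := by gcongr
  gcongr

theorem union_sum_le (sf s0 : ℕ) :
    ∑ s ∈ Finset.Ioc sf s0, Real.exp (-(3 * 2 ^ s : ℝ)) ≤ 1 / 4 := by
  have h1 : ∀ n : ℕ, ∑ s ∈ Finset.Ioc 0 n, (1 / 8 : ℝ) ^ s = (1 - (1 / 8) ^ n) / 7 := by
    intro n
    induction n with
    | zero => simp
    | succ n ih =>
      rw [← Finset.sum_Ioc_consecutive _ (Nat.zero_le n) (Nat.le_succ n), ih,
        Nat.Ioc_succ_singleton, Finset.sum_singleton, pow_succ]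
      ring
  calc ∑ s ∈ Finset.Ioc sf s0, Real.exp (-(3 * 2 ^ s : ℝ))
      ≤ ∑ s ∈ Finset.Ioc sf s0, (1 / 8 : ℝ) ^ s := Finset.sum_le_sum fun s _ => union_exp_le s
    _ ≤ ∑ s ∈ Finset.Ioc 0 s0, (1 / 8 : ℝ) ^ s :=
        Finset.sum_le_sum_of_subset_of_nonneg (Finset.Ioc_subset_Ioc_left (Nat.zero_le _))
          fun _ _ _ => by positivity
    _ = (1 - (1 / 8) ^ s0) / 7 := h1 s0
    _ ≤ 1 / 4 := by
        have : (0 : ℝ) ≤ (1 / 8) ^ s0 := by positivity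
        linarith

instance gauss_prob (V : Type*) [Fintype V] (d : ℕ) : IsProbabilityMeasure (gauss V d) := by
  unfold gauss
  infer_instance

theorem exists_good {m d : ℕ} (hm : 0 < m) (hd : 0 < d) {lam Φs : ℝ} (hlam : 0 < lam)
    (hΦs : 0 < Φs) (Q : ℕ → ℝ) {sf s0 l lmax kk : ℕ} (h2 : 8 * (256 * d + 1) ^ d ≤ 7 ^ m)
    (hmd : m ≤ d * 2 ^ sf)
    (hQ1 : ∀ s, sf < s → s ≤ s0 → 4 * (6 * Φs + (l + 1) / lam) ≤ Q s)
    (hQ2 : ∀ s, sf < s → s ≤ s0 →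
      80 * d * 2 ^ s * Real.log (2 * (d * (m + 1)) + 1) ≤ l * lam * Q s)
    (hV : d + lmax ≤ m) (hl : lmax ≤ d) (hk : 1 ≤ kk) (hk2 : 4 * kk ≤ d)
    (hpar : lmax + lam * (6 * Φs) < (d / 4) / (1 + 48 * (6 * Φs + kk / lam)))
    (hkk : 5 * d * 2 ^ sf * Real.log (2 * (d * (m + 1)) + 1) + m + Real.log d + 3 ≤
      (kk : ℝ) ^ 2 / 2) :
    ∃ z : Fin m → Fin d → ℝ, Good z lam Φs Q sf s0 l lmax := by
  by_contra hcon
  push Not at hcon
  have g0 := prob_g0 m d hm hd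
  have g2 := prob_g2 m d hm hd h2
  have g4 := prob_g4 hm hd hlam hΦs hV hl hk hk2 hpar hkk
  have g3 : ∀ s ∈ Finset.Ioc sf s0, gauss (Fin m) d {z | ¬ ∀ (c : Fin d → ℕ)
      (k : Fin d → Option (Fin m) → ℤ) (S : Finset (Fin m)), IsState s c k → S.card ≤ lmax →
        Phi lam (fam z s c k S) ≤ 6 * Φs → (exc z lam (Q s) (fam z s c k S)).card ≤ l} ≤
      ENNReal.ofReal (Real.exp (-(3 * 2 ^ s : ℝ))) := by
    intro s hs
    rw [Finset.mem_Ioc] at hs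
    have hpow : 2 ^ sf ≤ 2 ^ s := Nat.pow_le_pow_right (by norm_num) hs.1.le
    exact prob_g3 hm hd hlam hΦs (by omega) (hmd.trans (Nat.mul_le_mul_left d hpow))
      (hQ1 s hs.1 hs.2) (hQ2 s hs.1 hs.2)
  have g3' : gauss (Fin m) d (⋃ s ∈ Finset.Ioc sf s0, {z | ¬ ∀ (c : Fin d → ℕ)
      (k : Fin d → Option (Fin m) → ℤ) (S : Finset (Fin m)), IsState s c k → S.card ≤ lmax →
        Phi lam (fam z s c k S) ≤ 6 * Φs → (exc z lam (Q s) (fam z s c k S)).card ≤ l}) ≤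
      ENNReal.ofReal (1 / 4) := by
    refine (measure_biUnion_finset_le _ _).trans ((Finset.sum_le_sum g3).trans ?_)
    rw [← ENNReal.ofReal_sum_of_nonneg fun s _ => (Real.exp_pos _).le]
    exact ENNReal.ofReal_le_ofReal (union_sum_le sf s0)
  have hcover : (Set.univ : Set (Fin m → Fin d → ℝ)) ⊆
      {z | ¬ ∑ j, z j ⬝ᵥ z j ≤ 4 * m * d} ∪
      ({z | ∑ j, z j ⬝ᵥ z j ≤ 4 * m * d ∧
        ¬ ∀ x : Fin d → ℝ, (1 / 64 : ℝ) * m * Real.sqrt (x ⬝ᵥ x) ≤ ∑ j, |z j ⬝ᵥ x|} ∪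
      ((⋃ s ∈ Finset.Ioc sf s0, {z | ¬ ∀ (c : Fin d → ℕ)
      (k : Fin d → Option (Fin m) → ℤ) (S : Finset (Fin m)), IsState s c k → S.card ≤ lmax →
        Phi lam (fam z s c k S) ≤ 6 * Φs → (exc z lam (Q s) (fam z s c k S)).card ≤ l}) ∪
      {z | ¬ ∀ (c : Fin d → ℕ) (k : Fin d → Option (Fin m) → ℤ)
      (S : Finset (Fin m)), IsState sf c k → S.card ≤ lmax →
        6 * Φs < Phi lam (fam z sf c k S)})) := by
    intro z _
    by_contra hz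
    simp only [Set.mem_union, not_or] at hz
    obtain ⟨hz0, hz2, hz3, hz4⟩ := hz
    have e0 : ∑ j, z j ⬝ᵥ z j ≤ 4 * m * d := not_not.1 hz0
    refine hcon z ⟨e0, ?_, ?_, not_not.1 hz4⟩
    · by_contra h
      exact hz2 ⟨e0, h⟩
    · intro s hs1 hs2
      by_contra h
      exact hz3 (Set.mem_biUnion (x := s) (Finset.mem_Ioc.2 ⟨hs1, hs2⟩) h)
  have h1 : gauss (Fin m) d Set.univ ≤ 1 / 4 + (1 / 8 + (ENNReal.ofReal (1 / 4) + 1 / 8)) := by
    refine (measure_mono hcover).trans ((measure_union_le _ _).trans (add_le_add g0 ?_))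
    refine (measure_union_le _ _).trans (add_le_add g2 ?_)
    exact (measure_union_le _ _).trans (add_le_add g3' g4)
  rw [measure_univ] at h1
  have h3 : (1 / 4 : ENNReal) + (1 / 8 + (ENNReal.ofReal (1 / 4) + 1 / 8)) =
      ENNReal.ofReal (3 / 4) := by
    have e4 : (1 / 4 : ENNReal) = ENNReal.ofReal (1 / 4) := by
      rw [ENNReal.ofReal_div_of_pos (by norm_num)]
      simp
    have e8 : (1 / 8 : ENNReal) = ENNReal.ofReal (1 / 8) := by
      rw [ENNReal.ofReal_div_of_pos (by norm_num)]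
      simp
    rw [e4, e8, ← ENNReal.ofReal_add (by norm_num) (by norm_num),
      ← ENNReal.ofReal_add (by norm_num) (by norm_num),
      ← ENNReal.ofReal_add (by norm_num) (by norm_num)]
    norm_num
  rw [h3] at h1
  have h4 : ENNReal.ofReal (3 / 4) < 1 := by
    rw [← ENNReal.ofReal_one]
    exact (ENNReal.ofReal_lt_ofReal_iff (by norm_num)).2 (by norm_num)
  exact absurd h1 (not_le.2 h4)

end BMLow
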