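import Pool.Agent.Lib.MP_766f4a_gt.LParam
import Pool.Agent.Lib.MP_766f4a_gt.LUnion
import Pool.Agent.Lib.MP_766f4a_gt.LDeter
import Pool.Agent.Lib.MP_766f4a_gt.LPol

set_option autoImplicit false

namespace BMLow

open Matrix Finset MeasureTheory ProbabilityTheory

theorem lower_body : ∃ (c₀ : ℝ) (d₀ : ℕ), 0 < c₀ ∧ ∀ d : ℕ, d₀ ≤ d →
    ∃ C : Set (Fin d → ℝ), IsCompact C ∧ Convex ℝ C ∧ (interior C).Nonempty ∧
      (∀ x ∈ C, -x ∈ C) ∧ ∀ (l : ℝ) (f : (Fin d → ℝ) ≃ᵃ[ℝ] (Fin d → ℝ)), 0 < l →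
        f '' cube d ⊆ C → C ⊆ (fun x => l • x) '' (f '' cube d) →
          c₀ * ((d : ℝ) ^ (2 / 3 : ℝ) / (1 + Real.log d)) ≤ l := by
  obtain ⟨c₀, d₀, hc₀, hd₀, H⟩ := exists_params
  refine ⟨c₀ / 64, d₀, by positivity, fun d hd => ?_⟩
  obtain ⟨m, sf, s0, l, lmax, kk, b, lam, φ, W, Q, hm0, hlam, hφ, hsf, hc, h2, hmd, hm, hQ,
    hQ1, hQ2, hV, hlm, hk, hk2, hpar, hkk, hb, hW, hl, hgrow, hs0⟩ := H d hd
  have hd0 : 0 < d := by omega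
  have hdR : (0 : ℝ) < d := by exact_mod_cast hd0
  have hΦs : 0 < (d : ℝ) * φ ^ 2 := by positivity
  obtain ⟨z, hz⟩ := exists_good (m := m) (d := d) hm0 hd0 hlam hΦs Q (sf := sf) (s0 := s0)
    (l := l) (lmax := lmax) (kk := kk) h2 hmd hQ1 hQ2 hV hlm hk hk2 hpar hkk
  have hno := deter hd0 hm0 z hlam hφ Q hsf hz hm hQ hb hW hl hgrow hs0
  have hpos : ∀ x : Fin d → ℝ, x ≠ 0 → 0 < ∑ j, |z j ⬝ᵥ x| := by
    intro x hx
    refine lt_of_lt_of_le ?_ (hz.g2 x)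
    have hmR : (0 : ℝ) < m := by exact_mod_cast hm0
    have hxx : 0 < x ⬝ᵥ x := by
      have h0 : 0 ≤ x ⬝ᵥ x := by
        simp only [dotProduct]; exact Finset.sum_nonneg fun i _ => mul_self_nonneg _
      rcases h0.lt_or_eq with h | h
      · exact h
      · exact absurd (dotProduct_self_eq_zero.mp h.symm) hx
    have := Real.sqrt_pos.mpr hxx
    positivity
  obtain ⟨C, h1, h2', h3, h4, h5⟩ := polytope_body hd0 z hpos hno
  refine ⟨C, h1, h2', h3, h4, fun l' f hl' hf1 hf2 => ?_⟩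
  refine le_trans ?_ (h5 l' f hl' hf1 hf2)
  linarith

end BMLow
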