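import Pool.Agent.Lib.MP_766f4a_gt.LDefs

set_option autoImplicit false

namespace BMLow

open MeasureTheory ProbabilityTheory Matrix Finset

lemma mgf_exp_aux {t : ℝ} (h0 : 0 ≤ t) (h1 : t ≤ 1 / 2) : Real.exp (-(2 * t)) ≤ 1 - t := by
  have h2 : 1 + 2 * t ≤ Real.exp (2 * t) := by linarith [Real.add_one_le_exp (2 * t)]
  have h3 : 0 < Real.exp (2 * t) := Real.exp_pos _
  rw [Real.exp_neg, inv_le_comm₀ h3 (by linarith)]
  rw [inv_le_iff_one_le_mul₀ (by linarith)]
  nlinarith

/-- Exponential moment of the square of a standard Gaussian variable. -/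
lemma mgf_gauss_sq {a : ℝ} (h0 : 0 ≤ a) (h1 : a ≤ 1 / 4) :
    ∫⁻ y, ENNReal.ofReal (Real.exp (a * y ^ 2)) ∂(gaussianReal 0 1) ≤
      ENNReal.ofReal (Real.exp (2 * a)) := by
  rw [gaussianReal_of_var_ne_zero 0 one_ne_zero,
    lintegral_withDensity_eq_lintegral_mul₀ (by fun_prop) (by fun_prop)]
  have hb : 0 < 1 / 2 - a := by linarith
  have h2 : ∀ y : ℝ, (gaussianPDF 0 1 * fun y => ENNReal.ofReal (Real.exp (a * y ^ 2))) y =
      ENNReal.ofReal ((√(2 * Real.pi))⁻¹ * Real.exp (-(1 / 2 - a) * y ^ 2)) := by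
    intro y
    simp only [Pi.mul_apply, gaussianPDF, gaussianPDFReal]
    rw [← ENNReal.ofReal_mul (by positivity)]
    congr 1
    rw [mul_assoc, ← Real.exp_add]
    simp only [NNReal.coe_one, mul_one]
    congr 2
    ring
  simp_rw [h2]
  rw [← ofReal_integral_eq_lintegral_ofReal
    ((integrable_exp_neg_mul_sq hb).const_mul _) (by filter_upwards with y; positivity)]
  apply ENNReal.ofReal_le_ofReal
  rw [integral_const_mul, integral_gaussian]
  have h3 := mgf_exp_aux (t := 2 * a) (by linarith) (by linarith)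
  have h4 : (√(2 * Real.pi))⁻¹ * √(Real.pi / (1 / 2 - a)) = √((1 - 2 * a)⁻¹) := by
    rw [← Real.sqrt_inv, ← Real.sqrt_mul (by positivity)]
    congr 1
    have : (1 / 2 - a) ≠ 0 := hb.ne'
    have h5 : (1 - 2 * a) ≠ 0 := by intro h; apply this; linarith
    field_simp
  rw [h4]
  apply Real.sqrt_le_iff.2
  refine ⟨by positivity, ?_⟩
  rw [← Real.exp_nat_mul, inv_le_comm₀ (by linarith) (Real.exp_pos _), ← Real.exp_neg]
  refine le_trans (le_of_eq ?_) h3
  congr 1


/-- The standard Gaussian measure on `R^d`. -/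
noncomputable def mgfGam (d : ℕ) : Measure (Fin d → ℝ) := Measure.pi fun _ => gaussianReal 0 1

instance (d : ℕ) : IsProbabilityMeasure (mgfGam d) := by unfold mgfGam; infer_instance

/-- Rotation invariance of the standard Gaussian measure. -/
lemma mgf_gam_rot {d : ℕ} (b : OrthonormalBasis (Fin d) ℝ (EuclideanSpace ℝ (Fin d)))
    (f : (Fin d → ℝ) → ENNReal) (hf : Measurable f) :
    ∫⁻ x, f x ∂(mgfGam d) = ∫⁻ y, f (WithLp.ofLp (∑ i, y i • b i)) ∂(mgfGam d) := by
  have h1 := map_pi_eq_stdGaussian (ι := Fin d)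
  have h2 := stdGaussian_eq_map_pi_orthonormalBasis b
  rw [h2] at h1
  have hm : Measurable fun x : EuclideanSpace ℝ (Fin d) => f (WithLp.ofLp x) :=
    hf.comp (by fun_prop)
  have h3 : ∫⁻ x, f (WithLp.ofLp x) ∂((Measure.pi fun _ : Fin d => gaussianReal 0 1).map
      (WithLp.toLp 2)) = ∫⁻ x, f x ∂(mgfGam d) := by
    rw [lintegral_map hm (by fun_prop)]
    rfl
  rw [← h3, h1, lintegral_map hm (by fun_prop)]
  rfl

lemma mgf_lintegral_pi_prod {ι : Type*} [Fintype ι] {X : ι → Type*} [∀ i, MeasurableSpace (X i)]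
    (μ : ∀ i, Measure (X i)) [∀ i, IsProbabilityMeasure (μ i)] (f : ∀ i, X i → ENNReal)
    (hf : ∀ i, Measurable (f i)) :
    ∫⁻ x, ∏ i, f i (x i) ∂(Measure.pi μ) = ∏ i, ∫⁻ x, f i x ∂(μ i) := by
  have h := lintegral_prod_eq_prod_lintegral_of_indepFun (μ := Measure.pi μ) Finset.univ
    (fun (i : ι) (x : ∀ i, X i) => f i (x i))
    (iIndepFun_pi fun i => (hf i).aemeasurable) (fun i => (hf i).comp (measurable_pi_apply i))
  refine h.trans ?_
  refine Finset.prod_congr rfl fun i _ => ?_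
  exact (measurePreserving_eval μ i).lintegral_comp (hf i)

/-- Exponential moment of a quadratic form of a standard Gaussian vector. -/
theorem mgf_one {d : ℕ} (N : Matrix (Fin d) (Fin d) ℝ) (hN : N.PosSemidef) (lam : ℝ) (hlam : 0 < lam)
    (hle : (1 - lam • N).PosSemidef) :
    ∫⁻ x, ENNReal.ofReal (Real.exp (lam / 4 * (x ⬝ᵥ (N *ᵥ x)))) ∂(mgfGam d) ≤
      ENNReal.ofReal (Real.exp (lam / 2 * N.trace)) := by
  have hH : N.IsHermitian := hN.1
  have hval : ∀ i, lam * hH.eigenvalues i ≤ 1 := by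
    intro i
    have h1 := hle.dotProduct_mulVec_nonneg (WithLp.ofLp (hH.eigenvectorBasis i))
    have h2 : (WithLp.ofLp (hH.eigenvectorBasis i)) ⬝ᵥ (WithLp.ofLp (hH.eigenvectorBasis i)) =
        1 := by
      have h3 := hH.eigenvectorBasis.orthonormal.1 i
      have h4 : inner ℝ (hH.eigenvectorBasis i) (hH.eigenvectorBasis i) = (1 : ℝ) := by
        rw [real_inner_self_eq_norm_sq, h3]; norm_num
      rw [EuclideanSpace.inner_eq_star_dotProduct] at h4
      simpa using h4
    rw [Matrix.sub_mulVec, Matrix.smul_mulVec, Matrix.one_mulVec, dotProduct_sub,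
      dotProduct_smul, hH.mulVec_eigenvectorBasis, dotProduct_smul] at h1
    simp only [star_trivial, smul_eq_mul] at h1
    rw [h2] at h1
    linarith
  have hq : ∀ y : Fin d → ℝ, (WithLp.ofLp (∑ i, y i • hH.eigenvectorBasis i)) ⬝ᵥ
      (N *ᵥ (WithLp.ofLp (∑ i, y i • hH.eigenvectorBasis i))) =
      ∑ i, hH.eigenvalues i * y i ^ 2 := by
    intro y
    have h1 : N *ᵥ (WithLp.ofLp (∑ i, y i • hH.eigenvectorBasis i)) =
        WithLp.ofLp (∑ i, (hH.eigenvalues i * y i) • hH.eigenvectorBasis i) := by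
      rw [WithLp.ofLp_sum, WithLp.ofLp_sum, Matrix.mulVec_sum]
      refine Finset.sum_congr rfl fun i _ => ?_
      rw [WithLp.ofLp_smul, WithLp.ofLp_smul, Matrix.mulVec_smul, hH.mulVec_eigenvectorBasis,
        smul_smul, mul_comm]
    rw [h1]
    have h2 : inner ℝ (∑ i, (hH.eigenvalues i * y i) • hH.eigenvectorBasis i)
        (∑ i, y i • hH.eigenvectorBasis i) = ∑ i, hH.eigenvalues i * y i ^ 2 := by
      rw [hH.eigenvectorBasis.orthonormal.inner_sum]
      refine Finset.sum_congr rfl fun i _ => ?_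
      simp
      ring
    rw [← h2, EuclideanSpace.inner_eq_star_dotProduct]
    simp
  rw [mgf_gam_rot hH.eigenvectorBasis _ (by fun_prop)]
  simp_rw [hq]
  have hprod : ∀ y : Fin d → ℝ, ENNReal.ofReal (Real.exp (lam / 4 *
      ∑ i, hH.eigenvalues i * y i ^ 2)) =
      ∏ i, ENNReal.ofReal (Real.exp (lam / 4 * hH.eigenvalues i * y i ^ 2)) := by
    intro y
    rw [← ENNReal.ofReal_prod_of_nonneg (fun i _ => (Real.exp_pos _).le), ← Real.exp_sum]
    congr 2
    rw [Finset.mul_sum]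
    exact Finset.sum_congr rfl fun i _ => by ring
  simp_rw [hprod]
  unfold mgfGam
  rw [mgf_lintegral_pi_prod (fun _ : Fin d => gaussianReal 0 1)
    (fun i t => ENNReal.ofReal (Real.exp (lam / 4 * hH.eigenvalues i * t ^ 2)))
    (fun i => by fun_prop)]
  have hnn : ∀ i, 0 ≤ hH.eigenvalues i := hN.eigenvalues_nonneg
  refine (Finset.prod_le_prod' fun i _ => mgf_gauss_sq (a := lam / 4 * hH.eigenvalues i)
    (by have := hnn i; positivity) (by have := hval i; linarith)).trans ?_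
  rw [← ENNReal.ofReal_prod_of_nonneg (fun i _ => (Real.exp_pos _).le), ← Real.exp_sum]
  apply ENNReal.ofReal_le_ofReal
  apply Real.exp_le_exp.2
  rw [hH.trace_eq_sum_eigenvalues]
  simp only [RCLike.ofReal_real_eq_id, id_eq]
  rw [Finset.mul_sum]
  exact le_of_eq (Finset.sum_congr rfl fun i _ => by ring)

theorem mgf {d : ℕ} (N : Matrix (Fin d) (Fin d) ℝ) (hN : N.PosSemidef) {lam : ℝ}
    (hlam : 0 < lam) (hle : ((1 / lam) • (1 : Matrix (Fin d) (Fin d) ℝ) - N).PosSemidef) :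
    ∫⁻ x, ENNReal.ofReal (Real.exp (lam / 4 * (x ⬝ᵥ (N *ᵥ x))))
      ∂(Measure.pi fun _ : Fin d => gaussianReal 0 1) ≤
      ENNReal.ofReal (Real.exp (lam / 2 * N.trace)) := by
  refine mgf_one N hN lam hlam ?_
  have h := hle.smul hlam.le
  rw [smul_sub, smul_smul] at h
  rwa [mul_one_div_cancel hlam.ne', one_smul] at h

end BMLow
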