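import Mathlib

set_option autoImplicit false

namespace BMLow

open Finset

/-- The rounding parameter: a power of two between `y` and `2 y`. -/
theorem pow_two_near {y : ℝ} (hy : 1 ≤ y) : ∃ n : ℕ, y ≤ 2 ^ n ∧ (2 : ℝ) ^ n ≤ 2 * y := by
  obtain ⟨n, h1, h2⟩ := exists_nat_pow_near hy (by norm_num : (1 : ℝ) < 2)
  exact ⟨n + 1, h2.le, by rw [pow_succ]; linarith⟩

theorem nat_ceil_near {y : ℝ} (hy : 1 ≤ y) : y ≤ (⌈6 * y⌉₊ : ℝ) / 6 ∧ (⌈6 * y⌉₊ : ℝ) ≤ 7 * y := by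
  have h1 := Nat.le_ceil (6 * y)
  have h2 := Nat.ceil_lt_add_one (by positivity : 0 ≤ 6 * y)
  constructor <;> linarith

theorem sum_half_pow {sf s0 : ℕ} (h : sf ≤ s0) :
    ∑ s ∈ Finset.Ioc sf s0, (1 : ℝ) / 2 ^ s ≤ 1 / 2 ^ sf := by
  have key : ∀ n, sf ≤ n → ∑ s ∈ Finset.Ioc sf n, (1 : ℝ) / 2 ^ s = 1 / 2 ^ sf - 1 / 2 ^ n := by
    intro n hn
    induction n, hn using Nat.le_induction with
    | base => simp
    | succ n hn ih =>
      rw [Finset.sum_Ioc_succ_top (by omega), ih, pow_succ]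
      field_simp
      ring
  rw [key s0 h]
  have : (0 : ℝ) < 1 / 2 ^ s0 := by positivity
  linarith


theorem l_ge {X Y : ℝ} {kk T l : ℕ} (hT : (T : ℝ) ≤ 210 * Y ^ 2) (hT0 : 0 < T) (hl : l = kk / T)
    (hkk2 : 128 * X ^ 2 * Y ^ 2 ≤ kk) (hX : 4194304 ≤ X) (hY : 1 ≤ Y) : X ^ 2 / 4 ≤ (l : ℝ) := by
  have h1 : (kk : ℝ) < T * (l + 1) := by
    have h := Nat.lt_mul_div_succ kk hT0
    rw [← hl] at h
    exact_mod_cast h
  have h2 : (T : ℝ) * (l + 1) ≤ (210 * Y ^ 2) * (l + 1) :=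
    mul_le_mul_of_nonneg_right hT (by positivity)
  have h3 : (128 * X ^ 2) * Y ^ 2 < ((l + 1 : ℝ) * 210) * Y ^ 2 := by linarith
  have h4 : 128 * X ^ 2 < (l + 1 : ℝ) * 210 := lt_of_mul_lt_mul_right h3 (by positivity)
  have h5 : 4194304 * 4194304 ≤ X ^ 2 := by
    have := mul_le_mul hX hX (by norm_num) (by linarith : (0 : ℝ) ≤ X)
    linarith [sq X]
  linarith

/-- The bound for the logarithm of the number of letters. -/
theorem lg_le {d m : ℕ} {Y : ℝ} (hY : 1 ≤ Y) (hd : 0 < d) (hlog : Y = 1 + Real.log d)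
    (hm : (m : ℝ) ≤ 9 * (d * Y)) (hYd : Y ≤ d) : Real.log (2 * (d * (m + 1)) + 1) ≤ 4 * Y := by
  have hd1 : (1 : ℝ) ≤ d := by exact_mod_cast hd
  have he : (2.7 : ℝ) < Real.exp 1 := by
    have := Real.exp_one_gt_d9
    linarith
  have hexp : Real.exp (4 * Y) = (Real.exp 1 * d) ^ 4 := by
    rw [show 4 * Y = Y + Y + Y + Y by ring, Real.exp_add, Real.exp_add, Real.exp_add, hlog,
      Real.exp_add, Real.exp_log (by linarith)]
    ring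
  rw [Real.log_le_iff_le_exp (by positivity), hexp, mul_pow]
  have h1 : (2.7 : ℝ) ^ 4 ≤ Real.exp 1 ^ 4 := pow_le_pow_left₀ (by norm_num) he.le 4
  have h2 : (m : ℝ) ≤ 9 * (d * d) := by nlinarith
  have h3 : (d : ℝ) * (m + 1) ≤ d * (10 * (d * d)) := by
    apply mul_le_mul_of_nonneg_left _ (by linarith)
    nlinarith
  have h4 : (1 : ℝ) ≤ d ^ 3 := one_le_pow₀ hd1
  have h5 : (d : ℝ) ^ 3 ≤ d ^ 4 := pow_le_pow_right₀ hd1 (by norm_num)
  calc 2 * ((d : ℝ) * (m + 1)) + 1 ≤ 21 * d ^ 3 := by nlinarith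
    _ ≤ 2.7 ^ 4 * d ^ 4 := by nlinarith
    _ ≤ Real.exp 1 ^ 4 * d ^ 4 := mul_le_mul_of_nonneg_right h1 (by positivity)

theorem cond_grid {d L : ℕ} {Y : ℝ} (hd : 0 < d) (hlog : Y = 1 + Real.log d)
    (hL : 8 * Y ≤ (L : ℝ)) : 8 * (256 * d + 1) ^ d ≤ 7 ^ (d * L) := by
  have hd1 : (1 : ℝ) ≤ d := by exact_mod_cast hd
  have he : (2.7 : ℝ) < Real.exp 1 := by
    have := Real.exp_one_gt_d9
    linarith
  have he3 : Real.exp 1 ≤ (7 : ℝ) := by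
    have := Real.exp_one_lt_d9
    linarith
  have h1 : (8 * (256 * d + 1) : ℝ) ≤ 7 ^ L := by
    calc (8 * (256 * d + 1) : ℝ) ≤ 2.7 ^ 8 * d ^ 8 := by
          have h5 : (d : ℝ) ≤ d ^ 8 := le_self_pow₀ hd1 (by norm_num)
          norm_num
          nlinarith
      _ ≤ Real.exp 1 ^ 8 * d ^ 8 := by
          gcongr
      _ = Real.exp (8 * Y) := by
          rw [show 8 * Y = Y + Y + Y + Y + Y + Y + Y + Y by ring]
          simp only [Real.exp_add]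
          rw [hlog, Real.exp_add, Real.exp_log (by linarith)]
          ring
      _ ≤ Real.exp L := Real.exp_le_exp.mpr hL
      _ = Real.exp 1 ^ L := by rw [← Real.exp_nat_mul, mul_one]
      _ ≤ 7 ^ L := pow_le_pow_left₀ (Real.exp_pos _).le he3 L
  have h2 : 8 * (256 * d + 1) ≤ 7 ^ L := by exact_mod_cast h1
  calc 8 * (256 * d + 1) ^ d ≤ 8 ^ d * (256 * d + 1) ^ d :=
        Nat.mul_le_mul_right _ (Nat.le_self_pow (by omega) 8)
    _ = (8 * (256 * d + 1)) ^ d := (mul_pow _ _ _).symm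
    _ ≤ (7 ^ L) ^ d := Nat.pow_le_pow_left h2 d
    _ = 7 ^ (d * L) := by rw [← pow_mul, mul_comm]

theorem cond_par {X Y rho lam k D : ℝ} (hX : 0 < X) (hY : 0 < Y) (hrho1 : 1 ≤ rho)
    (hrhoX : rho * (4194304 * Y ^ 2) = X) (hlam0 : 0 < lam)
    (hlamrho : lam * rho = 256 * X ^ 2 * Y ^ 2) (hk : k ≤ 256 * X ^ 2 * Y ^ 2) (hk0 : 0 ≤ k)
    (hD : X ^ 3 = D) : k + lam * (6 * rho) < (D / 4) / (1 + 48 * (6 * rho + k / lam)) := by
  have h1 : k / lam ≤ rho := by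
    rw [div_le_iff₀ hlam0]
    linarith
  have h0 : 0 ≤ k / lam := by positivity
  have h2 : 0 < 1 + 48 * (6 * rho + k / lam) := by linarith
  rw [lt_div_iff₀ h2]
  have h3 : 1 + 48 * (6 * rho + k / lam) ≤ 337 * rho := by linarith
  have h4 : k + lam * (6 * rho) ≤ 1792 * (X ^ 2 * Y ^ 2) := by linarith
  calc (k + lam * (6 * rho)) * (1 + 48 * (6 * rho + k / lam)) ≤
        (1792 * (X ^ 2 * Y ^ 2)) * (337 * rho) :=
        mul_le_mul h4 h3 h2.le (by positivity)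
    _ = (603904 / 4194304) * (X ^ 2 * (rho * (4194304 * Y ^ 2))) := by ring
    _ = (603904 / 4194304) * X ^ 3 := by rw [hrhoX]; ring
    _ < D / 4 := by
        rw [hD]
        have : 0 < D := by rw [← hD]; positivity
        linarith

theorem cond_kk {X Y Lg S k m ld D : ℝ} (hX : 4194304 * Y ≤ X) (hY : 1 ≤ Y)
    (hS : S * (8 * Y) ≤ X) (hS0 : 0 ≤ S) (hLg : Lg ≤ 4 * Y)
    (hk : 128 * X ^ 2 * Y ^ 2 ≤ k) (hm : m ≤ 9 * (D * Y)) (hld : 1 + ld = Y)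
    (hD : X ^ 3 = D) : 5 * D * S * Lg + m + ld + 3 ≤ k ^ 2 / 2 := by
  have hX0 : 0 < X := by linarith
  have hD0 : 0 < D := by rw [← hD]; positivity
  have h1 : 5 * D * S * Lg ≤ 5 * D * S * (4 * Y) :=
    mul_le_mul_of_nonneg_left hLg (by positivity)
  have h2 : 5 * D * S * (4 * Y) ≤ 5 / 2 * (D * X) := by
    calc 5 * D * S * (4 * Y) = 5 / 2 * (D * (S * (8 * Y))) := by ring
      _ ≤ 5 / 2 * (D * X) := by gcongr
  have h3 : 9 * (D * Y) ≤ D * X := by nlinarith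
  have hX1 : 1 ≤ X := by linarith
  have hD1 : 1 ≤ D := by rw [← hD]; exact one_le_pow₀ hX1
  have h4 : ld + 3 ≤ D * X := by nlinarith
  have h5 : (128 * X ^ 2) ^ 2 ≤ k ^ 2 := by
    apply pow_le_pow_left₀ (by positivity)
    have : 1 ≤ Y ^ 2 := one_le_pow₀ hY
    nlinarith [sq_nonneg X]
  have h6 : D * X = X ^ 4 := by rw [← hD]; ring
  have h7 : 0 < X ^ 4 := by positivity
  have h8 : (128 * X ^ 2) ^ 2 = 16384 * X ^ 4 := by ring
  linarith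

/-- `5 d 2^s0 ≤ exp (9 Y)`. -/
theorem top_scale {d sf t : ℕ} {X Y : ℝ} (hX3 : X ^ 3 = d) (hX : 4194304 ≤ X) (hY : 1 ≤ Y)
    (hlog : Y = 1 + Real.log d) (hS : (2 : ℝ) ^ sf * (8 * Y) ≤ X) (ht : (t : ℝ) ≤ 7 * Y) :
    (5 * d * 2 ^ (sf + t) : ℝ) ≤ Real.exp (9 * Y) := by
  have hX0 : 0 < X := by linarith
  have hd0 : (0 : ℝ) < d := by rw [← hX3]; positivity
  have h1 : (2 : ℝ) ^ t ≤ Real.exp (7 * Y) := by
    calc (2 : ℝ) ^ t ≤ Real.exp 1 ^ t := by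
          apply pow_le_pow_left₀ (by norm_num)
          have := Real.exp_one_gt_d9
          linarith
      _ = Real.exp t := by rw [← Real.exp_nat_mul, mul_one]
      _ ≤ Real.exp (7 * Y) := Real.exp_le_exp.mpr ht
  have h2 : (2 : ℝ) ^ sf ≤ X / 8 := by
    have : (2 : ℝ) ^ sf * 8 ≤ (2 : ℝ) ^ sf * (8 * Y) := by
      have : (0 : ℝ) < 2 ^ sf := by positivity
      nlinarith
    linarith
  have h3 : (d : ℝ) * X ≤ Real.exp (2 * Y) := by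
    have he : (1 : ℝ) ≤ Real.exp 2 := Real.one_le_exp (by norm_num)
    have hX1 : 1 ≤ X := by linarith
    have h5 : X ≤ d := by rw [← hX3]; exact le_self_pow₀ hX1 (by norm_num)
    calc (d : ℝ) * X ≤ d * d := by gcongr
      _ ≤ Real.exp 2 * (d * d) := by nlinarith [mul_pos hd0 hd0]
      _ = Real.exp (2 * Y) := by
        rw [hlog, show 2 * (1 + Real.log d) = 2 + (Real.log d + Real.log d) by ring,
          Real.exp_add, Real.exp_add, Real.exp_log hd0]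
  calc (5 * d * 2 ^ (sf + t) : ℝ) = 5 * d * (2 ^ sf * 2 ^ t) := by rw [pow_add]
    _ ≤ 5 * d * (X / 8 * Real.exp (7 * Y)) := by gcongr
    _ = 5 / 8 * (d * X) * Real.exp (7 * Y) := by ring
    _ ≤ 5 / 8 * Real.exp (2 * Y) * Real.exp (7 * Y) := by gcongr
    _ = 5 / 8 * Real.exp (9 * Y) := by
        rw [mul_assoc, ← Real.exp_add]; congr 2; ring
    _ ≤ Real.exp (9 * Y) := by
        have := Real.exp_pos (9 * Y)
        linarith

theorem cond_b {E Y : ℝ} {j : ℕ} (hE : E ≤ Real.exp (9 * Y)) (hj : 9 * Y ≤ (j : ℝ))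
    (hj0 : 1 ≤ j) : E < (8 / 5 : ℝ) ^ (3 * j) := by
  calc E ≤ Real.exp (9 * Y) := hE
    _ ≤ Real.exp j := Real.exp_le_exp.mpr hj
    _ = Real.exp 1 ^ j := by rw [← Real.exp_nat_mul, mul_one]
    _ < ((8 / 5 : ℝ) ^ 3) ^ j := by
        apply pow_lt_pow_left₀ _ (Real.exp_pos _).le (by omega)
        have := Real.exp_one_lt_d9
        norm_num
        linarith
    _ = (8 / 5 : ℝ) ^ (3 * j) := by rw [pow_mul]

theorem cond_top {d m sf t : ℕ} {X Y lam : ℝ} (hX3 : X ^ 3 = d) (hX : 4194304 ≤ X)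
    (hYX : Y ≤ X) (hlog : Y = 1 + Real.log d) (hlam : 1 ≤ lam)
    (ht : 6 * Y ≤ (t : ℝ)) (hm : (m : ℝ) ≤ 9 * (d * Y)) :
    4 * (m : ℝ) ^ 2 * d ^ 2 ≤ lam * 4 ^ (sf + t) := by
  have hX0 : 0 < X := by linarith
  have hd0 : (0 : ℝ) < d := by rw [← hX3]; positivity
  have h1 : Real.exp 1 ^ 6 * (d : ℝ) ^ 6 ≤ 4 ^ t := by
    calc Real.exp 1 ^ 6 * (d : ℝ) ^ 6 = Real.exp (6 * Y) := by
          rw [show 6 * Y = Y + Y + Y + Y + Y + Y by ring]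
          simp only [Real.exp_add]
          rw [hlog, Real.exp_add, Real.exp_log hd0]
          ring
      _ ≤ Real.exp t := Real.exp_le_exp.mpr ht
      _ = Real.exp 1 ^ t := by rw [← Real.exp_nat_mul, mul_one]
      _ ≤ 4 ^ t := by
          apply pow_le_pow_left₀ (Real.exp_pos _).le
          have := Real.exp_one_lt_d9
          linarith
  have h2 : (2.7 : ℝ) ^ 6 ≤ Real.exp 1 ^ 6 := by
    apply pow_le_pow_left₀ (by norm_num)
    have := Real.exp_one_gt_d9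
    linarith
  have h3 : (m : ℝ) ^ 2 ≤ (9 * (d * X)) ^ 2 := by
    apply pow_le_pow_left₀ (by positivity)
    calc (m : ℝ) ≤ 9 * (d * Y) := hm
      _ ≤ 9 * (d * X) := by gcongr
  have hX1 : 1 ≤ X := by linarith
  have h4 : (1 : ℝ) ≤ 4 ^ sf := one_le_pow₀ (by norm_num)
  have h5 : X ^ 14 ≤ X ^ 18 := pow_le_pow_right₀ hX1 (by norm_num)
  calc 4 * (m : ℝ) ^ 2 * d ^ 2 ≤ 4 * (9 * (d * X)) ^ 2 * d ^ 2 := by gcongr
    _ = 324 * X ^ 14 := by rw [← hX3]; ring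
    _ ≤ 2.7 ^ 6 * X ^ 18 := by
        norm_num
        have : 0 < X ^ 14 := by positivity
        linarith
    _ ≤ Real.exp 1 ^ 6 * X ^ 18 := by gcongr
    _ = Real.exp 1 ^ 6 * (d : ℝ) ^ 6 := by rw [← hX3]; ring
    _ ≤ 4 ^ t := h1
    _ ≤ lam * (4 ^ sf * 4 ^ t) := by
        have h6 : (0 : ℝ) < 4 ^ t := by positivity
        have h7 : (1 : ℝ) ≤ lam * 4 ^ sf := by nlinarith
        nlinarith
    _ = lam * 4 ^ (sf + t) := by rw [pow_add]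

theorem cond_growth {X Y rho lam l Lg D E W A : ℝ} {sf t : ℕ} (hX : 4194304 * Y ≤ X) (hY : 1 ≤ Y)
    (hrho1 : 1 ≤ rho) (hlam : lam = 2 ^ 30 * X * Y ^ 4) (hl : X ^ 2 / 4 ≤ l)
    (hLg : Lg ≤ 4 * Y) (hLg0 : 0 ≤ Lg) (hD : X ^ 3 = D) (hW : W = 10 * Y)
    (hE : E ≤ 33 * rho) (hsf : 262144 * Y * rho ≤ 2 ^ sf) (ht : (t : ℝ) ≤ 7 * Y)
    (hA : A = 80 * D * Lg / (l * lam)) :
    ∑ s ∈ Finset.Ioc sf (sf + t), 16 * ((A * 2 ^ s + E) / 2 ^ s) * W ≤ Real.log 2 := by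
  have hX0 : 0 < X := by linarith
  have hl0 : 0 < l := lt_of_lt_of_le (by positivity) hl
  have hlam0 : 0 < lam := by rw [hlam]; positivity
  have hA1 : A ≤ 1280 / (2 ^ 30 * Y ^ 3) := by
    rw [hA, hlam, ← hD, div_le_div_iff₀ (by positivity) (by positivity)]
    calc 80 * X ^ 3 * Lg * (2 ^ 30 * Y ^ 3) ≤ 80 * X ^ 3 * (4 * Y) * (2 ^ 30 * Y ^ 3) := by gcongr
      _ = 1280 * (X ^ 2 / 4 * (2 ^ 30 * X * Y ^ 4)) := by ring
      _ ≤ 1280 * (l * (2 ^ 30 * X * Y ^ 4)) := by gcongr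
  have hterm : ∀ s : ℕ, 16 * ((A * 2 ^ s + E) / 2 ^ s) * W =
      16 * A * W + 16 * E * W * (1 / 2 ^ s) := by
    intro s
    field_simp
  simp only [hterm]
  rw [Finset.sum_add_distrib, Finset.sum_const, ← Finset.mul_sum, Nat.card_Ioc,
    Nat.add_sub_cancel_left, nsmul_eq_mul]
  have h1 := sum_half_pow (sf := sf) (s0 := sf + t) (by omega)
  have h2 : (t : ℝ) * (16 * A * W) ≤ 7 * Y * (16 * (1280 / (2 ^ 30 * Y ^ 3)) * W) := by
    have hA0 : 0 ≤ A := by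
      rw [hA, ← hD]; positivity
    have hW0 : 0 ≤ W := by rw [hW]; positivity
    gcongr
  have h3 : 7 * Y * (16 * (1280 / (2 ^ 30 * Y ^ 3)) * W) = 1433600 / (2 ^ 30 * Y) := by
    rw [hW]
    field_simp
    norm_num
  have h4 : 1433600 / (2 ^ 30 * Y) ≤ 1 / 100 := by
    rw [div_le_div_iff₀ (by positivity) (by positivity)]
    nlinarith
  have h5 : 16 * E * W * (∑ s ∈ Finset.Ioc sf (sf + t), (1 : ℝ) / 2 ^ s) ≤
      16 * (33 * rho) * W * (1 / (262144 * Y * rho)) := by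
    have hW0 : 0 ≤ W := by rw [hW]; positivity
    have h6 : (1 : ℝ) / 2 ^ sf ≤ 1 / (262144 * Y * rho) :=
      one_div_le_one_div_of_le (by positivity) hsf
    have h7 := h1.trans h6
    gcongr
  have h8 : 16 * (33 * rho) * W * (1 / (262144 * Y * rho)) = 5280 / 262144 := by
    rw [hW]
    field_simp
    norm_num
  have h9 : (0.69 : ℝ) < Real.log 2 := by
    have := Real.log_two_gt_d9
    linarith
  linarith

set_option maxHeartbeats 1000000 in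
/-- Everything in terms of `X = d^(1/3)` and `Y = 1 + log d`. -/
theorem params_core {d : ℕ} {X Y : ℝ} (hX3 : X ^ 3 = d) (hY : 1 ≤ Y) (hXY : 4194304 * Y ^ 2 ≤ X)
    (hlog : Y = 1 + Real.log d) :
    ∃ (m sf s0 l lmax kk b : ℕ) (lam φ W : ℝ) (Q : ℕ → ℝ),
      0 < m ∧ 0 < lam ∧ 0 < φ ∧ sf ≤ s0 ∧
      1 / 2048 * (X ^ 2 / Y) ≤ d * φ ∧
      8 * (256 * d + 1) ^ d ≤ 7 ^ m ∧ m ≤ d * 2 ^ sf ∧
      (m : ℝ) ≤ 2 ^ sf * (lam * (d * φ ^ 2)) ∧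
      (∀ s, sf < s → s ≤ s0 → 1 ≤ Q s) ∧
      (∀ s, sf < s → s ≤ s0 → 4 * (6 * (d * φ ^ 2) + (l + 1) / lam) ≤ Q s) ∧
      (∀ s, sf < s → s ≤ s0 →
        80 * d * 2 ^ s * Real.log (2 * (d * (m + 1)) + 1) ≤ l * lam * Q s) ∧
      d + lmax ≤ m ∧ lmax ≤ d ∧ 1 ≤ kk ∧ 4 * kk ≤ d ∧
      lmax + lam * (6 * (d * φ ^ 2)) < (d / 4) / (1 + 48 * (6 * (d * φ ^ 2) + kk / lam)) ∧
      5 * d * 2 ^ sf * Real.log (2 * (d * (m + 1)) + 1) + m + Real.log d + 3 ≤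
        (kk : ℝ) ^ 2 / 2 ∧
      (5 * d * 2 ^ s0 : ℝ) < (8 / 5 : ℝ) ^ b ∧ 1 + Real.log (5 * d * 2 ^ s0) ≤ W ∧
      (s0 - sf) * (l * b) ≤ lmax ∧
      ∑ s ∈ Finset.Ioc sf s0, 16 * (Q s / 2 ^ s) * W ≤ Real.log 2 ∧
      4 * (m : ℝ) ^ 2 * d ^ 2 ≤ lam * 4 ^ s0 := by
  have hY0 : 0 < Y := by linarith
  have hYX' : Y ≤ Y ^ 2 := by nlinarith
  have hYX : 4194304 * Y ≤ X := by linarith
  have hX1 : 4194304 ≤ X := by linarith
  have hX0 : 0 < X := by linarith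
  have hd0R : (0 : ℝ) < d := by rw [← hX3]; positivity
  have hd0 : 0 < d := by exact_mod_cast hd0R
  have hexpY : Real.exp Y = Real.exp 1 * d := by
    rw [hlog, Real.exp_add, Real.exp_log hd0R]
  have he : (2.7 : ℝ) < Real.exp 1 := by
    have := Real.exp_one_gt_d9
    linarith
  have he3 : Real.exp 1 < (3 : ℝ) := by
    have := Real.exp_one_lt_d9
    linarith
  -- the numbers
  obtain ⟨rho, hrho⟩ : ∃ r : ℝ, r = X / (4194304 * Y ^ 2) := ⟨_, rfl⟩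
  have hrho1 : 1 ≤ rho := by
    rw [hrho, le_div_iff₀ (by positivity)]
    linarith
  have hrhoX : rho * (4194304 * Y ^ 2) = X := by
    rw [hrho]; field_simp
  obtain ⟨φ, hφ⟩ : ∃ r : ℝ, r = 1 / (2048 * X * Y) := ⟨_, rfl⟩
  have hφ0 : 0 < φ := by rw [hφ]; positivity
  have hdφ : (d : ℝ) * φ ^ 2 = rho := by
    rw [hφ, hrho, ← hX3]; field_simp; norm_num
  obtain ⟨lam, hlam⟩ : ∃ r : ℝ, r = 2 ^ 30 * X * Y ^ 4 := ⟨_, rfl⟩
  have hlam0 : 0 < lam := by rw [hlam]; positivity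
  have hlamrho : lam * rho = 256 * X ^ 2 * Y ^ 2 := by
    rw [hlam, hrho]; field_simp; norm_num
  -- kk
  obtain ⟨kk, hkk⟩ : ∃ n : ℕ, n = ⌊256 * X ^ 2 * Y ^ 2⌋₊ := ⟨_, rfl⟩
  have hkk1 : (kk : ℝ) ≤ 256 * X ^ 2 * Y ^ 2 := by
    rw [hkk]; exact Nat.floor_le (by positivity)
  have hbig : 1 ≤ X ^ 2 * Y ^ 2 := by
    have h1 : 1 ≤ X ^ 2 := by nlinarith
    have h2 : 1 ≤ Y ^ 2 := by nlinarith
    nlinarith
  have hkk2 : 128 * X ^ 2 * Y ^ 2 ≤ (kk : ℝ) := by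
    have := Nat.sub_one_lt_floor (256 * X ^ 2 * Y ^ 2)
    rw [← hkk] at this
    linarith
  have hkkX : 1024 * X ^ 2 * Y ^ 2 ≤ X ^ 3 := by
    have : X ^ 2 * (1024 * Y ^ 2) ≤ X ^ 2 * X :=
      mul_le_mul_of_nonneg_left (by nlinarith) (by positivity)
    nlinarith
  have hkk4 : 4 * kk ≤ d := by
    have : (4 * kk : ℝ) ≤ d := by rw [← hX3]; linarith
    exact_mod_cast this
  have hkk0 : 1 ≤ kk := by
    have : (1 : ℝ) ≤ kk := by linarith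
    exact_mod_cast this
  -- L and m
  obtain ⟨L, hL⟩ : ∃ n : ℕ, n = ⌈8 * Y⌉₊ := ⟨_, rfl⟩
  have hL1 : 8 * Y ≤ (L : ℝ) := by rw [hL]; exact Nat.le_ceil _
  have hL2 : (L : ℝ) ≤ 9 * Y := by
    have := Nat.ceil_lt_add_one (by positivity : 0 ≤ 8 * Y)
    rw [← hL] at this
    linarith
  have hL8 : 8 ≤ L := by
    have : (8 : ℝ) ≤ L := by linarith
    exact_mod_cast this
  -- sf
  obtain ⟨sf, hsf1, hsf2⟩ := pow_two_near (y := 262144 * Y * rho) (by nlinarith)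
  have hsfX : (2 : ℝ) ^ sf * (8 * Y) ≤ X := by
    calc (2 : ℝ) ^ sf * (8 * Y) ≤ (2 * (262144 * Y * rho)) * (8 * Y) :=
          mul_le_mul_of_nonneg_right hsf2 (by positivity)
      _ = rho * (4194304 * Y ^ 2) := by ring
      _ = X := hrhoX
  have hsfL : (L : ℝ) ≤ 2 ^ sf := by
    have : Y * 262144 ≤ 262144 * Y * rho := by nlinarith
    linarith
  -- t and s0
  obtain ⟨t, ht⟩ : ∃ n : ℕ, n = ⌈6 * Y⌉₊ := ⟨_, rfl⟩
  have ht1 : 6 * Y ≤ (t : ℝ) := by rw [ht]; exact Nat.le_ceil _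
  have ht2 : (t : ℝ) ≤ 7 * Y := by
    have := Nat.ceil_lt_add_one (by positivity : 0 ≤ 6 * Y)
    rw [← ht] at this
    linarith
  have ht0 : 1 ≤ t := by
    have : (1 : ℝ) ≤ t := by linarith
    exact_mod_cast this
  -- b
  obtain ⟨j, hj⟩ : ∃ n : ℕ, n = ⌈9 * Y⌉₊ := ⟨_, rfl⟩
  have hj1 : 9 * Y ≤ (j : ℝ) := by rw [hj]; exact Nat.le_ceil _
  have hj2 : (j : ℝ) ≤ 10 * Y := by
    have := Nat.ceil_lt_add_one (by positivity : 0 ≤ 9 * Y)
    rw [← hj] at this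
    linarith
  have hj0 : 1 ≤ j := by
    have : (1 : ℝ) ≤ j := by linarith
    exact_mod_cast this
  -- l
  obtain ⟨l, hl⟩ : ∃ n : ℕ, n = kk / (t * (3 * j)) := ⟨_, rfl⟩
  have htb : ((t * (3 * j) : ℕ) : ℝ) ≤ 210 * Y ^ 2 := by
    push_cast
    calc (t : ℝ) * (3 * j) ≤ (7 * Y) * (3 * (10 * Y)) := by gcongr
      _ = 210 * Y ^ 2 := by ring
  have hl1 : t * (l * (3 * j)) ≤ kk := by
    have := Nat.div_mul_le_self kk (t * (3 * j))
    rw [← hl] at this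
    calc t * (l * (3 * j)) = l * (t * (3 * j)) := by ring
      _ ≤ kk := this
  have hl2 : X ^ 2 / 4 ≤ (l : ℝ) := l_ge htb (by positivity) hl hkk2 hX1 hY
  have hX2 : 16 ≤ X ^ 2 := by nlinarith
  have hl4 : (1 : ℝ) ≤ l := by linarith
  have hl0 : (0 : ℝ) < l := by linarith
  have hYd : Y ≤ d := by
    have hX1' : 1 ≤ X := by linarith
    have : X ≤ X ^ 3 := le_self_pow₀ hX1' (by norm_num)
    linarith
  have hm : ((d * L : ℕ) : ℝ) ≤ 9 * (d * Y) := by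
    push_cast
    nlinarith
  have hLg := lg_le hY hd0 hlog hm hYd
  have hLg0 : 0 ≤ Real.log (2 * (d * (((d * L : ℕ) : ℝ) + 1)) + 1) := by
    apply Real.log_nonneg
    have : (0 : ℝ) ≤ 2 * (d * (((d * L : ℕ) : ℝ) + 1)) := by positivity
    linarith
  generalize hLgdef : Real.log (2 * (d * (((d * L : ℕ) : ℝ) + 1)) + 1) = Lg at hLg hLg0
  have hlX : (l : ℝ) + 1 ≤ 2 * kk := by
    have : l ≤ kk := by rw [hl]; exact Nat.div_le_self _ _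
    have h1 : (l : ℝ) ≤ kk := by exact_mod_cast this
    have h2 : (1 : ℝ) ≤ kk := by exact_mod_cast hkk0
    linarith
  have hlr : ((l : ℝ) + 1) / lam ≤ 2 * rho := by
    rw [div_le_iff₀ hlam0]
    linarith
  have hlr0 : 0 ≤ ((l : ℝ) + 1) / lam := by positivity
  obtain ⟨A, hA⟩ : ∃ r : ℝ, r = 80 * d * Lg / (l * lam) := ⟨_, rfl⟩
  obtain ⟨E, hE⟩ : ∃ r : ℝ, r = 4 * (6 * rho + (l + 1) / lam) + 1 := ⟨_, rfl⟩
  have hE0 : 1 ≤ E := by rw [hE]; linarith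
  have hE1 : E ≤ 33 * rho := by rw [hE]; linarith
  have hA0 : 0 ≤ A := by rw [hA]; positivity
  have htop := top_scale (sf := sf) (t := t) hX3 hX1 hY hlog hsfX ht2
  refine ⟨d * L, sf, sf + t, l, kk, kk, 3 * j, lam, φ, 10 * Y, fun s => A * 2 ^ s + E,
    by positivity, hlam0, hφ0, by omega, ?_, cond_grid hd0 hlog hL1, ?_, ?_, ?_, ?_, ?_, ?_,
    by omega, hkk0, hkk4, ?_, ?_, ?_, ?_, ?_, ?_, ?_⟩
  · rw [hφ, ← hX3]
    apply le_of_eq
    field_simp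
  · have : L ≤ 2 ^ sf := by exact_mod_cast hsfL
    exact Nat.mul_le_mul_left d this
  · rw [hdφ, hlamrho]
    calc ((d * L : ℕ) : ℝ) ≤ 9 * (d * Y) := hm
      _ ≤ 16 * (X ^ 3 * Y) := by
          have h1 : (0 : ℝ) < X ^ 3 * Y := by positivity
          rw [← hX3]
          linarith only [h1]
      _ = (X / (16 * Y)) * (256 * X ^ 2 * Y ^ 2) := by field_simp; norm_num
      _ ≤ 2 ^ sf * (256 * X ^ 2 * Y ^ 2) := by
          apply mul_le_mul_of_nonneg_right _ (by positivity)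
          calc X / (16 * Y) = 262144 * Y * rho := by
                rw [← hrhoX]; field_simp; norm_num
            _ ≤ 2 ^ sf := hsf1
  · intro s _ _
    have : 0 ≤ A * 2 ^ s := by positivity
    show 1 ≤ A * 2 ^ s + E
    linarith
  · intro s _ _
    have : 0 ≤ A * 2 ^ s := by positivity
    show _ ≤ A * 2 ^ s + E
    rw [hdφ, hE]
    linarith
  · intro s _ _
    show _ ≤ l * lam * (A * 2 ^ s + E)
    rw [hLgdef]
    have h1 : l * lam * A = 80 * d * Lg := by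
      rw [hA]; field_simp
    calc 80 * d * 2 ^ s * Lg = l * lam * A * 2 ^ s := by rw [h1]; ring
      _ ≤ l * lam * A * 2 ^ s + l * lam * E := by
          have : 0 ≤ l * lam * E := by positivity
          linarith
      _ = l * lam * (A * 2 ^ s + E) := by ring
  · calc d + kk ≤ d + d := by omega
      _ = d * 2 := by ring
      _ ≤ d * L := Nat.mul_le_mul_left d (by omega)
  · rw [hdφ]
    exact cond_par hX0 hY0 hrho1 hrhoX hlam0 hlamrho hkk1 (Nat.cast_nonneg _) hX3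
  · rw [hLgdef]
    exact cond_kk hYX hY hsfX (by positivity) hLg hkk2 hm hlog.symm hX3
  · exact cond_b htop hj1 hj0
  · have h1 := Real.log_le_log (by positivity) htop
    rw [Real.log_exp] at h1
    linarith
  · rw [Nat.add_sub_cancel_left]; exact hl1
  · exact cond_growth hYX hY hrho1 hlam hl2 hLg hLg0 hX3 rfl hE1 hsf1 ht2 hA
  · apply cond_top hX3 hX1 (by linarith) hlog _ ht1 hm
    rw [hlam]
    have h1 : 1 ≤ Y ^ 4 := one_le_pow₀ hY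
    nlinarith

theorem exists_params : ∃ (c₀ : ℝ) (d₀ : ℕ), 0 < c₀ ∧ 1 ≤ d₀ ∧ ∀ d : ℕ, d₀ ≤ d →
    ∃ (m sf s0 l lmax kk b : ℕ) (lam φ W : ℝ) (Q : ℕ → ℝ),
      0 < m ∧ 0 < lam ∧ 0 < φ ∧ sf ≤ s0 ∧
      c₀ * ((d : ℝ) ^ (2 / 3 : ℝ) / (1 + Real.log d)) ≤ d * φ ∧
      8 * (256 * d + 1) ^ d ≤ 7 ^ m ∧ m ≤ d * 2 ^ sf ∧
      (m : ℝ) ≤ 2 ^ sf * (lam * (d * φ ^ 2)) ∧
      (∀ s, sf < s → s ≤ s0 → 1 ≤ Q s) ∧
      (∀ s, sf < s → s ≤ s0 → 4 * (6 * (d * φ ^ 2) + (l + 1) / lam) ≤ Q s) ∧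
      (∀ s, sf < s → s ≤ s0 →
        80 * d * 2 ^ s * Real.log (2 * (d * (m + 1)) + 1) ≤ l * lam * Q s) ∧
      d + lmax ≤ m ∧ lmax ≤ d ∧ 1 ≤ kk ∧ 4 * kk ≤ d ∧
      lmax + lam * (6 * (d * φ ^ 2)) < (d / 4) / (1 + 48 * (6 * (d * φ ^ 2) + kk / lam)) ∧
      5 * d * 2 ^ sf * Real.log (2 * (d * (m + 1)) + 1) + m + Real.log d + 3 ≤
        (kk : ℝ) ^ 2 / 2 ∧
      (5 * d * 2 ^ s0 : ℝ) < (8 / 5 : ℝ) ^ b ∧ 1 + Real.log (5 * d * 2 ^ s0) ≤ W ∧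
      (s0 - sf) * (l * b) ≤ lmax ∧
      ∑ s ∈ Finset.Ioc sf s0, 16 * (Q s / 2 ^ s) * W ≤ Real.log 2 ∧
      4 * (m : ℝ) ^ 2 * d ^ 2 ≤ lam * 4 ^ s0 := by
  have h1 : ∀ᶠ x : ℝ in Filter.atTop, 1 + Real.log x ≤ 1 / 2048 * x ^ (1 / 6 : ℝ) := by
    have h2 := (isLittleO_log_rpow_atTop (by norm_num : (0 : ℝ) < 1 / 6)).bound
      (by norm_num : (0 : ℝ) < 1 / 4096)
    have h3 := (tendsto_rpow_atTop (by norm_num : (0 : ℝ) < 1 / 6)).eventually_ge_atTop 4096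
    filter_upwards [h2, h3, Filter.eventually_ge_atTop (1 : ℝ)] with x hx hx3 hx1
    rw [Real.norm_of_nonneg (Real.log_nonneg hx1),
      Real.norm_of_nonneg (Real.rpow_nonneg (by linarith) _)] at hx
    linarith
  have h4 := (tendsto_natCast_atTop_atTop (R := ℝ)).eventually h1
  obtain ⟨d₀, hd₀⟩ := Filter.eventually_atTop.mp h4
  refine ⟨1 / 2048, max d₀ 1, by norm_num, le_max_right _ _, fun d hd => ?_⟩
  have hd1 : 1 ≤ d := (le_max_right _ _).trans hd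
  have hd1R : (1 : ℝ) ≤ d := by exact_mod_cast hd1
  have hlog := hd₀ d ((le_max_left _ _).trans hd)
  have hlog0 := Real.log_nonneg hd1R
  have hX3 : ((d : ℝ) ^ (1 / 3 : ℝ)) ^ 3 = d := by
    rw [← Real.rpow_natCast, ← Real.rpow_mul (by linarith)]
    norm_num
  have hX2 : ((d : ℝ) ^ (1 / 3 : ℝ)) ^ 2 = (d : ℝ) ^ (2 / 3 : ℝ) := by
    rw [← Real.rpow_natCast, ← Real.rpow_mul (by linarith)]
    norm_num
  have hX6 : ((d : ℝ) ^ (1 / 6 : ℝ)) ^ 2 = (d : ℝ) ^ (1 / 3 : ℝ) := by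
    rw [← Real.rpow_natCast, ← Real.rpow_mul (by linarith)]
    norm_num
  have hXY : 4194304 * (1 + Real.log d) ^ 2 ≤ (d : ℝ) ^ (1 / 3 : ℝ) := by
    have h5 := pow_le_pow_left₀ (by linarith : (0 : ℝ) ≤ 1 + Real.log d) hlog 2
    rw [mul_pow, hX6] at h5
    linarith
  have h6 := params_core hX3 (by linarith) hXY rfl
  rw [hX2] at h6
  exact h6

end BMLow
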