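import Pool.Agent.Lib.MP_766f4a_gt.LLa1
import Pool.Agent.Lib.MP_766f4a_gt.LLa2
import Pool.Agent.Lib.MP_766f4a_gt.LLa3

/-!
Module STEP: one move.
-/

set_option autoImplicit false
set_option linter.unusedSectionVars false

namespace BMLow

open Matrix Finset

namespace StepAux

/-! ### pairs -/

theorem pair {α : Type*} [DecidableEq α] (t : ℝ) (h : α → ℝ) :
    ∀ (n : ℕ) (A : Finset α), A.card = n → (∀ a ∈ A, 0 ≤ h a) →
      (∀ a ∈ A, ∀ b ∈ A, a ≠ b → t < h a + h b) →
      ((A.card / 2 : ℕ) : ℝ) * t ≤ ∑ a ∈ A, h a ∧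
        (2 ≤ A.card → ((A.card / 2 : ℕ) : ℝ) * t < ∑ a ∈ A, h a) := by
  intro n
  induction n using Nat.strong_induction_on with
  | _ n ih =>
    intro A hA h0 hp
    by_cases h2 : 2 ≤ A.card
    · obtain ⟨a, ha, b, hb, hab⟩ := Finset.one_lt_card.1 (by omega : 1 < A.card)
      have hb' : b ∈ A.erase a := Finset.mem_erase.2 ⟨hab.symm, hb⟩
      have hB : ((A.erase a).erase b).card = A.card - 2 := by
        rw [Finset.card_erase_of_mem hb', Finset.card_erase_of_mem ha]; omega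
      have hsub : ∀ x ∈ (A.erase a).erase b, x ∈ A := fun x hx =>
        Finset.mem_of_mem_erase (Finset.mem_of_mem_erase hx)
      have ih' := ih _ (by omega) ((A.erase a).erase b) rfl (fun x hx => h0 x (hsub x hx))
        (fun x hx y hy hxy => hp x (hsub x hx) y (hsub y hy) hxy)
      have hs : ∑ x ∈ A, h x = h a + (h b + ∑ x ∈ (A.erase a).erase b, h x) := by
        rw [Finset.add_sum_erase (A.erase a) h hb', Finset.add_sum_erase A h ha]
      have hc : A.card / 2 = ((A.erase a).erase b).card / 2 + 1 := by rw [hB]; omega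
      have h3 := hp a ha b hb hab
      have key : ((A.card / 2 : ℕ) : ℝ) * t < ∑ a ∈ A, h a := by
        rw [hs, hc]
        push_cast
        linarith [ih'.1]
      exact ⟨key.le, fun _ => key⟩
    · have h3 : A.card / 2 = 0 := by omega
      rw [h3]
      simp only [Nat.cast_zero, zero_mul]
      exact ⟨Finset.sum_nonneg h0, fun h => absurd h h2⟩

theorem sum_pair {ι α : Type*} [Fintype ι] [DecidableEq α] (A : ι → Finset α) (h : ι → α → ℝ)
    (t : ℝ) (h0 : ∀ i, ∀ a ∈ A i, 0 ≤ h i a)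
    (hp : ∀ i, ∀ a ∈ A i, ∀ b ∈ A i, a ≠ b → t < h i a + h i b)
    (hpos : 0 < ∑ i, (A i).card / 2) :
    ((∑ i, (A i).card / 2 : ℕ) : ℝ) * t < ∑ i, ∑ a ∈ A i, h i a := by
  rw [Nat.cast_sum, Finset.sum_mul]
  obtain ⟨i, _, hi⟩ : ∃ i ∈ (Finset.univ : Finset ι), (A i).card / 2 ≠ 0 := by
    by_contra hcon
    push Not at hcon
    exact hpos.ne' (Finset.sum_eq_zero hcon)
  refine Finset.sum_lt_sum (fun i _ => (pair t (h i) _ (A i) rfl (h0 i) (hp i)).1)
    ⟨i, Finset.mem_univ i, (pair t (h i) _ (A i) rfl (h0 i) (hp i)).2 (by omega)⟩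

/-! ### the quadratic form -/

variable {d : ℕ}

theorem quad_nonneg {ι : Type*} [Fintype ι] {lam : ℝ} (hlam : 0 < lam) (g : ι → Fin d → ℝ)
    (x : Fin d → ℝ) : 0 ≤ quad lam g x := by
  have h := (Mat_posDef hlam g).inv.posSemidef.dotProduct_mulVec_nonneg x
  simpa [quad] using h

theorem quad_zero {ι : Type*} [Fintype ι] (lam : ℝ) (g : ι → Fin d → ℝ) : quad lam g 0 = 0 := by
  simp [quad]

theorem quad_smul {ι : Type*} [Fintype ι] (lam : ℝ) (g : ι → Fin d → ℝ) (t : ℝ)
    (x : Fin d → ℝ) : quad lam g (t • x) = t ^ 2 * quad lam g x := by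
  unfold quad
  rw [mulVec_smul, dotProduct_smul, smul_dotProduct]
  simp only [smul_eq_mul]
  ring

theorem quad_sub_le {ι : Type*} [Fintype ι] {lam : ℝ} (hlam : 0 < lam) (g : ι → Fin d → ℝ)
    (x y : Fin d → ℝ) : quad lam g (x - y) ≤ 2 * quad lam g x + 2 * quad lam g y := by
  have h := quad_nonneg hlam g (x + y)
  have e1 : quad lam g (x + y) = quad lam g x + (x ⬝ᵥ ((Mat lam g)⁻¹ *ᵥ y) +
      y ⬝ᵥ ((Mat lam g)⁻¹ *ᵥ x)) + quad lam g y := by
    unfold quad
    rw [mulVec_add, dotProduct_add, add_dotProduct, add_dotProduct]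
    ring
  have e2 : quad lam g (x - y) = quad lam g x - (x ⬝ᵥ ((Mat lam g)⁻¹ *ᵥ y) +
      y ⬝ᵥ ((Mat lam g)⁻¹ *ᵥ x)) + quad lam g y := by
    unfold quad
    rw [mulVec_sub, dotProduct_sub, sub_dotProduct, sub_dotProduct]
    ring
  rw [e1] at h
  rw [e2]
  linarith

theorem phi_nonneg {ι : Type*} [Fintype ι] {lam : ℝ} (hlam : 0 < lam) (g : ι → Fin d → ℝ) :
    0 ≤ Phi lam g :=
  (Mat_posDef hlam g).inv.posSemidef.trace_nonneg

theorem Mat_update {ι : Type*} [Fintype ι] [DecidableEq ι] (lam : ℝ) (g : ι → Fin d → ℝ) (a : ι)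
    (x : Fin d → ℝ) :
    Mat lam (Function.update g a x) = Mat lam (Function.update g a 0) + vecMulVec x x := by
  unfold Mat
  rw [add_assoc]
  congr 1
  rw [← Finset.add_sum_erase Finset.univ _ (Finset.mem_univ a),
    ← Finset.add_sum_erase Finset.univ
      (fun i => vecMulVec (Function.update g a 0 i) (Function.update g a 0 i))
      (Finset.mem_univ a)]
  have e : ∑ i ∈ Finset.univ.erase a,
      vecMulVec (Function.update g a x i) (Function.update g a x i) =
      ∑ i ∈ Finset.univ.erase a,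
        vecMulVec (Function.update g a 0 i) (Function.update g a 0 i) := by
    refine Finset.sum_congr rfl fun i hi => ?_
    have hi' := (Finset.mem_erase.1 hi).1
    rw [Function.update_of_ne hi', Function.update_of_ne hi']
  rw [e, Function.update_self, Function.update_self]
  have e0 : vecMulVec (0 : Fin d → ℝ) (0 : Fin d → ℝ) = 0 := by
    ext i j; simp [vecMulVec_apply]
  rw [e0, zero_add, add_comm]

/-- the two-sign lemma for the family -/
theorem two_sign' {ι : Type*} [Fintype ι] [DecidableEq ι] {lam : ℝ} (hlam : 0 < lam)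
    (g : ι → Fin d → ℝ) (a : ι) (w : Fin d → ℝ) :
    Phi lam (Function.update g a (g a + w)) + Phi lam (Function.update g a (g a - w)) ≤
      2 * (Phi lam g + (((Mat lam g)⁻¹ *ᵥ g a) ⬝ᵥ ((Mat lam g)⁻¹ *ᵥ g a)) * quad lam g w +
        (1 / lam) * (w ⬝ᵥ ((Mat lam g)⁻¹ *ᵥ g a)) ^ 2) := by
  have e := Mat_update lam g a (g a)
  rw [Function.update_eq_self] at e
  have h := two_sign hlam (Mat_sub_posSemidef lam (Function.update g a 0)) (g a) w
    ((Mat lam g)⁻¹ *ᵥ g a) (by rw [← e])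
  rw [← e, ← Mat_update, ← Mat_update] at h
  exact h

/-! ### the move -/

section Move

variable {V : Type*} [Fintype V] [DecidableEq V]

/-- the vertices, with the dummy vertex -/
def zz (z : V → Fin d → ℝ) (o : Option V) : Fin d → ℝ := o.elim 0 z

/-- one move -/
def move (k : Fin d → Option V → ℤ) (i : Fin d) (p q : Option V) (τ : ℤ) :
    Fin d → Option V → ℤ :=
  fun i' o => if i' = i then k i o + (if o = p then τ * (k i p).sign else 0) -
    (if o = q then τ * (k i q).sign else 0) else k i' o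

theorem int_aux (n τ : ℤ) (hn : Odd n) (hτ : τ = 1 ∨ τ = -1) : |n + τ * n.sign| = |n| + τ := by
  have hn0 : n ≠ 0 := by rintro rfl; exact absurd hn (by decide)
  rcases lt_or_gt_of_ne hn0 with h | h
  · rw [Int.sign_eq_neg_one_of_neg h, abs_of_neg h, abs_of_nonpos (by omega)]
    ring
  · rw [Int.sign_eq_one_of_pos h, abs_of_pos h, abs_of_nonneg (by omega)]
    ring

theorem int_even (n τ : ℤ) (hn : Odd n) (hτ : τ = 1 ∨ τ = -1) : ¬ Odd (n + τ * n.sign) := by
  rw [Int.not_odd_iff_even]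
  have hn0 : n ≠ 0 := by rintro rfl; exact absurd hn (by decide)
  apply hn.add_odd
  rcases lt_or_gt_of_ne hn0 with h | h
  · rw [Int.sign_eq_neg_one_of_neg h]
    rcases hτ with rfl | rfl <;> decide
  · rw [Int.sign_eq_one_of_pos h]
    rcases hτ with rfl | rfl <;> decide

theorem neg_or {τ : ℤ} (hτ : τ = 1 ∨ τ = -1) : -τ = 1 ∨ -τ = -1 := by omega

theorem move_self (k : Fin d → Option V → ℤ) (i : Fin d) (p q : Option V) (τ : ℤ) (o : Option V) :
    move k i p q τ i o = k i o + (if o = p then τ * (k i p).sign else 0) -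
    (if o = q then τ * (k i q).sign else 0) := by
  unfold move
  rw [if_pos rfl]

theorem move_ne (k : Fin d → Option V → ℤ) (i : Fin d) (p q : Option V) (τ : ℤ) {i' : Fin d}
    (h : i' ≠ i) : move k i p q τ i' = k i' := by
  funext o
  unfold move
  rw [if_neg h]

theorem move_abs (k : Fin d → Option V → ℤ) (i : Fin d) {p q : Option V} (hpq : p ≠ q) {τ : ℤ}
    (hτ : τ = 1 ∨ τ = -1) (hp : Odd (k i p)) (hq : Odd (k i q)) (o : Option V) :
    |move k i p q τ i o| = |k i o| + (if o = p then τ else 0) - (if o = q then τ else 0) := by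
  rw [move_self]
  by_cases h1 : o = p
  · subst h1
    rw [if_pos rfl, if_pos rfl, if_neg hpq, if_neg hpq, sub_zero, sub_zero, int_aux _ _ hp hτ]
  · by_cases h2 : o = q
    · subst h2
      rw [if_neg h1, if_neg h1, if_pos rfl, if_pos rfl, add_zero, add_zero]
      have := int_aux _ _ hq (neg_or hτ)
      rw [neg_mul, ← sub_eq_add_neg] at this
      rw [this]; ring
    · rw [if_neg h1, if_neg h1, if_neg h2, if_neg h2]
      simp

theorem move_state {s : ℕ} {c : Fin d → ℕ} {k : Fin d → Option V → ℤ} (hst : IsState s c k)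
    (i : Fin d) {p q : Option V} (hpq : p ≠ q) {τ : ℤ} (hτ : τ = 1 ∨ τ = -1) (hp : Odd (k i p))
    (hq : Odd (k i q)) : IsState s c (move k i p q τ) := by
  refine ⟨?_, hst.tot⟩
  intro i'
  by_cases h : i' = i
  · subst h
    rw [← hst.row i']
    simp only [move_abs k i' hpq hτ hp hq]
    rw [Finset.sum_sub_distrib, Finset.sum_add_distrib, Finset.sum_ite_eq', Finset.sum_ite_eq',
      if_pos (Finset.mem_univ _), if_pos (Finset.mem_univ _)]
    ring
  · rw [move_ne k i p q τ h, hst.row i']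

theorem move_odd (k : Fin d → Option V → ℤ) (i : Fin d) {p q : Option V} (hpq : p ≠ q) {τ : ℤ}
    (hτ : τ = 1 ∨ τ = -1) (hp : Odd (k i p)) (hq : Odd (k i q)) :
    oddSet (move k i p q τ) = ((oddSet k).erase (i, p)).erase (i, q) := by
  ext ⟨i', o⟩
  simp only [oddSet, Finset.mem_erase, Finset.mem_filter, Finset.mem_univ, true_and, ne_eq,
    Prod.mk.injEq, not_and]
  by_cases h : i' = i
  · subst h
    rw [move_self]
    by_cases h1 : o = p
    · subst h1
      rw [if_pos rfl, if_neg hpq, sub_zero]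
      have := int_even _ _ hp hτ
      constructor
      · intro h; exact absurd h this
      · rintro ⟨_, h, _⟩; exact absurd rfl (h rfl)
    · by_cases h2 : o = q
      · subst h2
        rw [if_neg h1, if_pos rfl, add_zero]
        have := int_even _ _ hq (neg_or hτ)
        rw [neg_mul, ← sub_eq_add_neg] at this
        constructor
        · intro h; exact absurd h this
        · rintro ⟨h, _⟩; exact absurd rfl (h rfl)
      · rw [if_neg h1, if_neg h2, add_zero, sub_zero]
        exact ⟨fun h => ⟨fun _ => h2, fun _ => h1, h⟩, fun h => h.2.2⟩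
  · rw [move_ne k i p q τ h]
    exact ⟨fun h' => ⟨fun e => absurd e h, fun e => absurd e h, h'⟩, fun h => h.2.2⟩

theorem fam_row (z : V → Fin d → ℝ) (s : ℕ) (c : Fin d → ℕ) (k : Fin d → Option V → ℤ)
    (S : Finset V) (i : Fin d) : fam z s c k S (Sum.inl i) =
      (1 / (2 : ℝ) ^ (s + c i)) • ∑ o : Option V, (k i o : ℝ) • zz z o := by
  rw [Fintype.sum_option]
  unfold fam comb coef zz
  simp only [Option.elim_none, Option.elim_some, smul_zero, zero_add]
  rw [Finset.smul_sum]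
  refine Finset.sum_congr rfl fun j _ => ?_
  rw [smul_smul]
  congr 1
  ring

theorem fam_move (z : V → Fin d → ℝ) (s : ℕ) (c : Fin d → ℕ) (k : Fin d → Option V → ℤ)
    (S : Finset V) (i : Fin d) (p q : Option V) (τ : ℤ) :
    fam z s c (move k i p q τ) S = Function.update (fam z s c k S) (Sum.inl i)
      (fam z s c k S (Sum.inl i) + (τ : ℝ) • ((1 / (2 : ℝ) ^ (s + c i)) •
        (((k i p).sign : ℝ) • zz z p - ((k i q).sign : ℝ) • zz z q))) := by
  funext a
  rcases a with i' | v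
  · by_cases h : i' = i
    · subst h
      rw [Function.update_self, fam_row, fam_row]
      have e : ∑ o : Option V, ((move k i' p q τ i' o : ℤ) : ℝ) • zz z o =
          ∑ o : Option V, (k i' o : ℝ) • zz z o +
            (τ : ℝ) • (((k i' p).sign : ℝ) • zz z p - ((k i' q).sign : ℝ) • zz z q) := by
        have e1 : ∀ o : Option V, ((move k i' p q τ i' o : ℤ) : ℝ) • zz z o =
            (k i' o : ℝ) • zz z o + (if o = p then ((τ : ℝ) * ((k i' p).sign : ℝ)) • zz z o else 0) -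
            (if o = q then ((τ : ℝ) * ((k i' q).sign : ℝ)) • zz z o else 0) := by
          intro o
          rw [move_self]
          push_cast
          split_ifs <;> simp [sub_smul, add_smul]
        simp only [e1]
        rw [Finset.sum_sub_distrib, Finset.sum_add_distrib, Finset.sum_ite_eq', Finset.sum_ite_eq',
          if_pos (Finset.mem_univ _), if_pos (Finset.mem_univ _), smul_sub, smul_smul, smul_smul]
        abel
      rw [e, smul_add]
      congr 1
      rw [smul_comm]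
    · rw [Function.update_of_ne (by simpa using h), fam_row, fam_row, move_ne k i p q τ h]
  · rw [Function.update_of_ne (by simp)]
    rfl

end Move

/-! ### counting -/

section Count

variable {V : Type*} [Fintype V] [DecidableEq V]

/-- the odd entries of a row -/
def row (k : Fin d → Option V → ℤ) (i : Fin d) : Finset (Option V) :=
  Finset.univ.filter fun o => Odd (k i o)

theorem row_even {s : ℕ} (hs : 1 ≤ s) {c : Fin d → ℕ} {k : Fin d → Option V → ℤ}
    (hst : IsState s c k) (i : Fin d) : Even (row k i).card := by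
  have h1 : ∑ o, (k i o).natAbs = 4 ^ c i * 2 ^ s := by
    have := hst.row i
    zify
    exact this
  have h2 : row k i = Finset.univ.filter fun o => Odd ((k i o).natAbs) := by
    unfold row
    refine Finset.filter_congr fun o _ => ?_
    rw [Int.natAbs_odd]
  rw [← Nat.not_odd_iff_even, h2, ← Finset.odd_sum_iff_odd_card_odd, h1, Nat.not_odd_iff_even]
  obtain ⟨s', rfl⟩ : ∃ s', s = s' + 1 := ⟨s - 1, by omega⟩
  rw [pow_succ]
  exact ⟨4 ^ c i * 2 ^ s', by ring⟩

theorem row_card_le {s : ℕ} {c : Fin d → ℕ} {k : Fin d → Option V → ℤ}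
    (hst : IsState s c k) (i : Fin d) : ((row k i).card : ℝ) ≤ 4 ^ c i * 2 ^ s := by
  have h1 : ((row k i).card : ℤ) ≤ ∑ o, |k i o| := by
    rw [Finset.card_eq_sum_ones, Nat.cast_sum]
    refine le_trans (Finset.sum_le_sum (g := fun o => |k i o|) ?_)
      (Finset.sum_le_sum_of_subset_of_nonneg (Finset.subset_univ _) fun o _ _ => abs_nonneg _)
    intro o ho
    have hodd : Odd (k i o) := (Finset.mem_filter.1 ho).2
    have hn0 : k i o ≠ 0 := by intro h; rw [h] at hodd; exact absurd hodd (by decide)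
    exact_mod_cast Int.one_le_abs hn0
  rw [hst.row i] at h1
  exact_mod_cast h1

theorem oddSet_card (k : Fin d → Option V → ℤ) : (oddSet k).card = ∑ i, (row k i).card := by
  unfold oddSet row
  rw [Finset.card_filter, Fintype.sum_prod_type]
  refine Finset.sum_congr rfl fun i _ => ?_
  rw [Finset.card_filter]

open Classical in
theorem filter_card (k : Fin d → Option V → ℤ) (P : Option V → Prop) :
    ((oddSet k).filter fun p => P p.2).card = ∑ i, ((row k i).filter P).card := by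
  unfold oddSet row
  rw [Finset.filter_filter, Finset.card_filter, Fintype.sum_prod_type]
  refine Finset.sum_congr rfl fun i _ => ?_
  rw [Finset.filter_filter, Finset.card_filter]

open Classical in
/-- the admissible entries of a row -/
noncomputable def adm (k : Fin d → Option V → ℤ) (E : Finset V) (i : Fin d) :
    Finset (Option V) := (row k i).filter fun o => ¬ ∃ j, o = some j ∧ j ∈ E

open Classical in
theorem adm_card {s : ℕ} (hs : 1 ≤ s) {c : Fin d → ℕ} {k : Fin d → Option V → ℤ}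
    (hst : IsState s c k) (E : Finset V) {N e : ℕ} (hodd : (oddSet k).card = 2 * N)
    (he : ((oddSet k).filter fun p => ∃ j, p.2 = some j ∧ j ∈ E).card = e)
    (hexc : 4 * e ≤ 3 * N) : N ≤ 4 * ∑ i, (adm k E i).card / 2 := by
  have h1 : ∀ i, (row k i).card ≤ 2 * ((adm k E i).card / 2) +
      2 * ((row k i).filter fun o => ∃ j, o = some j ∧ j ∈ E).card := by
    intro i
    have h2 := Finset.card_filter_add_card_filter_not (s := row k i)
      (fun o => ∃ j, o = some j ∧ j ∈ E)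
    have h3 := row_even hs hst i
    have h4 : (adm k E i).card =
        ((row k i).filter fun o => ¬ ∃ j, o = some j ∧ j ∈ E).card := rfl
    rw [h4]
    obtain ⟨r, hr⟩ := h3
    omega
  have h5 : ∑ i, (row k i).card ≤ 2 * ∑ i, (adm k E i).card / 2 +
      2 * ∑ i, ((row k i).filter fun o => ∃ j, o = some j ∧ j ∈ E).card := by
    rw [Finset.mul_sum, Finset.mul_sum, ← Finset.sum_add_distrib]
    exact Finset.sum_le_sum fun i _ => h1 i
  have h6 : e = ∑ i, ((row k i).filter fun o => ∃ j, o = some j ∧ j ∈ E).card := by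
    rw [← he]
    have h7 := filter_card k (fun o => ∃ j, o = some j ∧ j ∈ E)
    convert h7
  rw [← h6, ← oddSet_card, hodd] at h5
  omega

end Count

/-! ### the costs -/

section Cost

variable {V : Type*} [Fintype V] [DecidableEq V]

/-- the cost of an entry -/
noncomputable def cost (z : V → Fin d → ℝ) (lam : ℝ) (s : ℕ) (c : Fin d → ℕ)
    (g : (Fin d ⊕ V) → Fin d → ℝ) (i : Fin d) (o : Option V) : ℝ :=
  (1 / 4 ^ (s + c i)) * (2 * (((Mat lam g)⁻¹ *ᵥ g (Sum.inl i)) ⬝ᵥ
    ((Mat lam g)⁻¹ *ᵥ g (Sum.inl i))) * quad lam g (zz z o) +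
    (2 / lam) * (zz z o ⬝ᵥ ((Mat lam g)⁻¹ *ᵥ g (Sum.inl i))) ^ 2)

theorem dot_self_nonneg' (x : Fin d → ℝ) : 0 ≤ x ⬝ᵥ x := by
  unfold dotProduct
  exact Finset.sum_nonneg fun i _ => mul_self_nonneg _

theorem cost_nonneg (z : V → Fin d → ℝ) {lam : ℝ} (hlam : 0 < lam) (s : ℕ) (c : Fin d → ℕ)
    (g : (Fin d ⊕ V) → Fin d → ℝ) (i : Fin d) (o : Option V) : 0 ≤ cost z lam s c g i o := by
  unfold cost
  have h1 := dot_self_nonneg' ((Mat lam g)⁻¹ *ᵥ g (Sum.inl i))
  have h2 := quad_nonneg hlam g (zz z o)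
  positivity

theorem cost_sum (z : V → Fin d → ℝ) {lam Q Φs : ℝ} (hlam : 0 < lam) (hQ : 0 ≤ Q)
    {s : ℕ} (hm : (Fintype.card V : ℝ) ≤ 2 ^ s * (lam * Φs)) {c : Fin d → ℕ}
    {k : Fin d → Option V → ℤ} (hst : IsState s c k) (g : (Fin d ⊕ V) → Fin d → ℝ) :
    ∑ i, ∑ o ∈ adm k (exc z lam Q g) i, cost z lam s c g i o ≤
      2 * (Q / 2 ^ s) * (Phi lam g + Φs) := by
  classical
  set f : (Fin d ⊕ V) → Fin d → ℝ := fun a => (Mat lam g)⁻¹ *ᵥ g a with hf
  set E := exc z lam Q g with hE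
  have hgood : ∀ j, j ∉ E → quad lam g (z j) ≤ Q := by
    intro j hj
    by_contra hcon
    push Not at hcon
    exact hj (by rw [hE]; unfold exc; simpa using hcon)
  have hq : ∀ i, ∀ o ∈ adm k E i, quad lam g (zz z o) ≤ Q := by
    intro i o ho
    have ho' := (Finset.mem_filter.1 ho).2
    rcases o with _ | j
    · show quad lam g 0 ≤ Q
      rw [quad_zero]; exact hQ
    · exact hgood j fun hj => ho' ⟨j, rfl, hj⟩
  -- first part
  have hA : ∀ i, ∑ o ∈ adm k E i, (1 / 4 ^ (s + c i)) * (2 * (f (Sum.inl i) ⬝ᵥ f (Sum.inl i)) *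
      quad lam g (zz z o)) ≤ 2 * (Q / 2 ^ s) * (f (Sum.inl i) ⬝ᵥ f (Sum.inl i)) := by
    intro i
    have h0 := dot_self_nonneg' (f (Sum.inl i))
    calc ∑ o ∈ adm k E i, (1 / 4 ^ (s + c i)) * (2 * (f (Sum.inl i) ⬝ᵥ f (Sum.inl i)) *
        quad lam g (zz z o)) ≤
        ∑ _o ∈ adm k E i, (1 / 4 ^ (s + c i)) * (2 * (f (Sum.inl i) ⬝ᵥ f (Sum.inl i)) * Q) := by
          refine Finset.sum_le_sum fun o ho => ?_
          have := hq i o ho
          gcongr
      _ = ((adm k E i).card : ℝ) *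
          ((1 / 4 ^ (s + c i)) * (2 * (f (Sum.inl i) ⬝ᵥ f (Sum.inl i)) * Q)) := by
          rw [Finset.sum_const, nsmul_eq_mul]
      _ ≤ (4 ^ c i * 2 ^ s) *
          ((1 / 4 ^ (s + c i)) * (2 * (f (Sum.inl i) ⬝ᵥ f (Sum.inl i)) * Q)) := by
          refine mul_le_mul_of_nonneg_right ?_ (by positivity)
          refine le_trans ?_ (row_card_le hst i)
          exact_mod_cast Finset.card_le_card (Finset.filter_subset _ _)
      _ = 2 * (Q / 2 ^ s) * (f (Sum.inl i) ⬝ᵥ f (Sum.inl i)) := by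
          have e4 : (4 : ℝ) ^ (s + c i) = 2 ^ s * 2 ^ s * 4 ^ c i := by
            rw [pow_add, ← mul_pow]; norm_num
          rw [e4]
          field_simp
  have hA' : ∑ i, f (Sum.inl i) ⬝ᵥ f (Sum.inl i) ≤ Phi lam g := by
    refine le_trans ?_ (sum_dual_sq_le hlam g)
    rw [Fintype.sum_sum_type]
    refine le_add_of_nonneg_right (Finset.sum_nonneg fun v _ => dot_self_nonneg' _)
  -- second part
  have hB : ∀ i, ∑ o ∈ adm k E i, (1 / 4 ^ (s + c i)) * ((2 / lam) *
      (zz z o ⬝ᵥ f (Sum.inl i)) ^ 2) ≤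
      ∑ j, (1 / 4 ^ s) * ((2 / lam) * (if j ∈ E then 0 else (z j ⬝ᵥ f (Sum.inl i)) ^ 2)) := by
    intro i
    have h1 : ∑ j, (1 / 4 ^ s) * ((2 / lam) * (if j ∈ E then 0 else
        (z j ⬝ᵥ f (Sum.inl i)) ^ 2)) = ∑ o : Option V, o.elim (0 : ℝ) (fun j =>
          (1 / 4 ^ s) * ((2 / lam) * (if j ∈ E then 0 else (z j ⬝ᵥ f (Sum.inl i)) ^ 2))) := by
      rw [Fintype.sum_option]
      simp
    rw [h1]
    refine le_trans (Finset.sum_le_sum (g := fun o : Option V => o.elim (0 : ℝ) (fun j =>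
          (1 / 4 ^ s) * ((2 / lam) * (if j ∈ E then 0 else (z j ⬝ᵥ f (Sum.inl i)) ^ 2)))) ?_)
      (Finset.sum_le_sum_of_subset_of_nonneg (Finset.subset_univ _) ?_)
    · intro o ho
      have ho' := (Finset.mem_filter.1 ho).2
      rcases o with _ | j
      · simp [zz]
      · have hj : j ∉ E := fun hj => ho' ⟨j, rfl, hj⟩
        simp only [Option.elim_some, if_neg hj, zz]
        have : (1 : ℝ) / 4 ^ (s + c i) ≤ 1 / 4 ^ s := by
          apply one_div_le_one_div_of_le (by positivity)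
          exact pow_le_pow_right₀ (by norm_num) (by omega)
        gcongr
    · intro o _ _
      rcases o with _ | j
      · simp
      · simp only [Option.elim_some]
        split_ifs
        · simp
        · positivity
  have hB' : ∑ i, ∑ j, (1 / 4 ^ s) * ((2 / lam) * (if j ∈ E then 0 else
      (z j ⬝ᵥ f (Sum.inl i)) ^ 2)) ≤ 2 * (Q / 2 ^ s) * Φs := by
    rw [Finset.sum_comm]
    have h1 : ∀ j, ∑ i, (1 / 4 ^ s) * ((2 / lam) * (if j ∈ E then 0 else
        (z j ⬝ᵥ f (Sum.inl i)) ^ 2)) ≤ (1 / 4 ^ s) * ((2 / lam) * Q) := by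
      intro j
      rw [← Finset.mul_sum, ← Finset.mul_sum]
      refine mul_le_mul_of_nonneg_left (mul_le_mul_of_nonneg_left ?_ (by positivity))
        (by positivity)
      by_cases hj : j ∈ E
      · simp only [if_pos hj, Finset.sum_const_zero]; exact hQ
      · simp only [if_neg hj]
        refine le_trans ?_ (le_trans (sum_sq_dual_le hlam g (z j)) (hgood j hj))
        rw [Fintype.sum_sum_type]
        exact le_add_of_nonneg_right (Finset.sum_nonneg fun v _ => sq_nonneg _)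
    calc ∑ j, ∑ i, (1 / 4 ^ s) * ((2 / lam) * (if j ∈ E then 0 else
        (z j ⬝ᵥ f (Sum.inl i)) ^ 2)) ≤ ∑ _j : V, (1 / 4 ^ s) * ((2 / lam) * Q) :=
          Finset.sum_le_sum fun j _ => h1 j
      _ = (Fintype.card V : ℝ) * ((1 / 4 ^ s) * ((2 / lam) * Q)) := by
          rw [Finset.sum_const, nsmul_eq_mul, Finset.card_univ]
      _ ≤ (2 ^ s * (lam * Φs)) * ((1 / 4 ^ s) * ((2 / lam) * Q)) := by
          exact mul_le_mul_of_nonneg_right hm (by positivity)
      _ = 2 * (Q / 2 ^ s) * Φs := by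
          have e4 : (4 : ℝ) ^ s = 2 ^ s * 2 ^ s := by
            rw [← mul_pow]; norm_num
          rw [e4]
          field_simp
  have hsplit : ∀ i, ∑ o ∈ adm k E i, cost z lam s c g i o =
      ∑ o ∈ adm k E i, (1 / 4 ^ (s + c i)) * (2 * (f (Sum.inl i) ⬝ᵥ f (Sum.inl i)) *
      quad lam g (zz z o)) + ∑ o ∈ adm k E i, (1 / 4 ^ (s + c i)) * ((2 / lam) *
      (zz z o ⬝ᵥ f (Sum.inl i)) ^ 2) := by
    intro i
    rw [← Finset.sum_add_distrib]
    refine Finset.sum_congr rfl fun o _ => ?_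
    unfold cost
    rw [mul_add]
  simp only [hsplit]
  rw [Finset.sum_add_distrib]
  have h1 := Finset.sum_le_sum fun i (_ : i ∈ (Finset.univ : Finset (Fin d))) => hA i
  have h2 := Finset.sum_le_sum fun i (_ : i ∈ (Finset.univ : Finset (Fin d))) => hB i
  rw [← Finset.mul_sum] at h1
  have h3 : 2 * (Q / 2 ^ s) * ∑ i, f (Sum.inl i) ⬝ᵥ f (Sum.inl i) ≤
      2 * (Q / 2 ^ s) * Phi lam g := mul_le_mul_of_nonneg_left hA' (by positivity)
  linarith

theorem cost_pair (z : V → Fin d → ℝ) {lam : ℝ} (hlam : 0 < lam) (s : ℕ) (c : Fin d → ℕ)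
    (g : (Fin d ⊕ V) → Fin d → ℝ) (i : Fin d) (p q : Option V) {α β : ℝ} (hα : α ^ 2 = 1)
    (hβ : β ^ 2 = 1) {w : Fin d → ℝ}
    (hw : w = (1 / (2 : ℝ) ^ (s + c i)) • (α • zz z p - β • zz z q)) :
    (((Mat lam g)⁻¹ *ᵥ g (Sum.inl i)) ⬝ᵥ ((Mat lam g)⁻¹ *ᵥ g (Sum.inl i))) * quad lam g w +
        (1 / lam) * (w ⬝ᵥ ((Mat lam g)⁻¹ *ᵥ g (Sum.inl i))) ^ 2 ≤
      cost z lam s c g i p + cost z lam s c g i q := by
  set f : Fin d → ℝ := (Mat lam g)⁻¹ *ᵥ g (Sum.inl i) with hf
  have h0 := dot_self_nonneg' f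
  have e4 : ((1 : ℝ) / 2 ^ (s + c i)) ^ 2 = 1 / 4 ^ (s + c i) := by
    rw [div_pow, one_pow, ← pow_mul, mul_comm, pow_mul]; norm_num
  have h1 : quad lam g w ≤ (1 / 4 ^ (s + c i)) *
      (2 * quad lam g (zz z p) + 2 * quad lam g (zz z q)) := by
    rw [hw, quad_smul, e4]
    refine mul_le_mul_of_nonneg_left ?_ (by positivity)
    refine le_trans (quad_sub_le hlam g _ _) ?_
    rw [quad_smul, quad_smul, hα, hβ, one_mul, one_mul]
  have h2 : (w ⬝ᵥ f) ^ 2 ≤ (1 / 4 ^ (s + c i)) *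
      (2 * (zz z p ⬝ᵥ f) ^ 2 + 2 * (zz z q ⬝ᵥ f) ^ 2) := by
    rw [hw, smul_dotProduct, smul_eq_mul, mul_pow, e4]
    refine mul_le_mul_of_nonneg_left ?_ (by positivity)
    rw [sub_dotProduct, smul_dotProduct, smul_dotProduct, smul_eq_mul, smul_eq_mul]
    have h3 : 0 ≤ (α * (zz z p ⬝ᵥ f) + β * (zz z q ⬝ᵥ f)) ^ 2 := sq_nonneg _
    have h4 : (α * (zz z p ⬝ᵥ f)) ^ 2 = (zz z p ⬝ᵥ f) ^ 2 := by rw [mul_pow, hα, one_mul]
    have h5 : (β * (zz z q ⬝ᵥ f)) ^ 2 = (zz z q ⬝ᵥ f) ^ 2 := by rw [mul_pow, hβ, one_mul]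
    nlinarith
  have h3 : (f ⬝ᵥ f) * quad lam g w ≤ (f ⬝ᵥ f) * ((1 / 4 ^ (s + c i)) *
      (2 * quad lam g (zz z p) + 2 * quad lam g (zz z q))) := mul_le_mul_of_nonneg_left h1 h0
  have h4 : (1 / lam) * (w ⬝ᵥ f) ^ 2 ≤ (1 / lam) * ((1 / 4 ^ (s + c i)) *
      (2 * (zz z p ⬝ᵥ f) ^ 2 + 2 * (zz z q ⬝ᵥ f) ^ 2)) :=
    mul_le_mul_of_nonneg_left h2 (by positivity)
  refine le_trans (add_le_add h3 h4) (le_of_eq ?_)
  unfold cost
  rw [← hf]
  ring

end Cost

end StepAux

open StepAux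

variable {d : ℕ} {V : Type*} [Fintype V] [DecidableEq V]

/-- The entry cost lemma and the choice of the best pair. -/
theorem step (z : V → Fin d → ℝ) {lam Q Φs : ℝ} (hlam : 0 < lam) (hQ : 0 ≤ Q) (hΦs : 0 < Φs)
    {s : ℕ} (hs : 1 ≤ s) (hm : (Fintype.card V : ℝ) ≤ 2 ^ s * (lam * Φs)) {c : Fin d → ℕ}
    {k : Fin d → Option V → ℤ} {S : Finset V} (hst : IsState s c k) {N : ℕ} (hN : 1 ≤ N)
    (hodd : (oddSet k).card = 2 * N)
    (hexc : 4 * (excOdd z lam Q (fam z s c k S) k).card ≤ 3 * N) :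
    ∃ k' : Fin d → Option V → ℤ, IsState s c k' ∧ oddSet k' ⊆ oddSet k ∧
      (oddSet k').card = 2 * (N - 1) ∧
      Phi lam (fam z s c k' S) + Φs ≤
        (Phi lam (fam z s c k S) + Φs) * (1 + 16 * (Q / 2 ^ s) / N) := by
  classical
  set g := fam z s c k S with hg
  have hN0 : (0 : ℝ) < N := by exact_mod_cast hN
  have hPhi := phi_nonneg hlam g
  set t : ℝ := 8 * (Q / 2 ^ s) * (Phi lam g + Φs) / N with ht
  have hcard : N ≤ 4 * ∑ i, (adm k (exc z lam Q g) i).card / 2 := by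
    refine adm_card hs hst (exc z lam Q g) (e := (excOdd z lam Q g k).card) hodd ?_ hexc
    unfold excOdd
    congr!
  -- a cheap pair
  obtain ⟨i, p, hp, q, hq, hpq, hcost⟩ : ∃ i, ∃ p ∈ adm k (exc z lam Q g) i,
      ∃ q ∈ adm k (exc z lam Q g) i, p ≠ q ∧
        cost z lam s c g i p + cost z lam s c g i q ≤ t := by
    by_contra hcon
    push Not at hcon
    have h1 := sum_pair (fun i => adm k (exc z lam Q g) i) (cost z lam s c g) t
      (fun i a _ => cost_nonneg z hlam s c g i a)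
      (fun i a ha b hb hab => hcon i a ha b hb hab) (by omega)
    have h2 := cost_sum z hlam hQ hm hst g
    have h3 : (N : ℝ) ≤ 4 * ((∑ i, (adm k (exc z lam Q g) i).card / 2 : ℕ) : ℝ) := by
      exact_mod_cast hcard
    have ht0 : 0 ≤ t := by rw [ht]; positivity
    have h4 : (N : ℝ) * t = 8 * (Q / 2 ^ s) * (Phi lam g + Φs) := by
      rw [ht]; field_simp
    have h5 : (N : ℝ) * t ≤ 4 * ((∑ i, (adm k (exc z lam Q g) i).card / 2 : ℕ) : ℝ) * t :=
      mul_le_mul_of_nonneg_right h3 ht0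
    nlinarith
  have hpo : Odd (k i p) := (Finset.mem_filter.1 (Finset.mem_filter.1 hp).1).2
  have hqo : Odd (k i q) := (Finset.mem_filter.1 (Finset.mem_filter.1 hq).1).2
  have hsign : ∀ n : ℤ, Odd n → ((n.sign : ℤ) : ℝ) ^ 2 = 1 := by
    intro n hn
    have hn0 : n ≠ 0 := by rintro rfl; exact absurd hn (by decide)
    rcases lt_or_gt_of_ne hn0 with h | h
    · rw [Int.sign_eq_neg_one_of_neg h]; norm_num
    · rw [Int.sign_eq_one_of_pos h]; norm_num
  set w : Fin d → ℝ := (1 / (2 : ℝ) ^ (s + c i)) •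
    (((k i p).sign : ℝ) • zz z p - ((k i q).sign : ℝ) • zz z q) with hw
  have h1 := cost_pair z hlam s c g i p q (hsign _ hpo) (hsign _ hqo) hw
  have h2 := two_sign' hlam g (Sum.inl i) w
  -- the move
  have key : ∀ τ : ℤ, (τ = 1 ∨ τ = -1) →
      Phi lam (fam z s c (move k i p q τ) S) ≤ Phi lam g + t →
      ∃ k' : Fin d → Option V → ℤ, IsState s c k' ∧ oddSet k' ⊆ oddSet k ∧
      (oddSet k').card = 2 * (N - 1) ∧
      Phi lam (fam z s c k' S) + Φs ≤
        (Phi lam g + Φs) * (1 + 16 * (Q / 2 ^ s) / N) := by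
    intro τ hτ hle
    refine ⟨move k i p q τ, move_state hst i hpq hτ hpo hqo, ?_, ?_, ?_⟩
    · rw [move_odd k i hpq hτ hpo hqo]
      exact fun x hx => Finset.mem_of_mem_erase (Finset.mem_of_mem_erase hx)
    · rw [move_odd k i hpq hτ hpo hqo]
      have m1 : (i, p) ∈ oddSet k := by simp [oddSet, hpo]
      have m2 : (i, q) ∈ (oddSet k).erase (i, p) := by
        rw [Finset.mem_erase]
        refine ⟨?_, by simp [oddSet, hqo]⟩
        intro e
        exact hpq (Prod.mk.inj e).2.symm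
      rw [Finset.card_erase_of_mem m2, Finset.card_erase_of_mem m1, hodd]
      omega
    · have e1 : t = (Phi lam g + Φs) * (8 * (Q / 2 ^ s) / N) := by rw [ht]; ring
      have e2 : (Phi lam g + Φs) * (8 * (Q / 2 ^ s) / N) ≤
          (Phi lam g + Φs) * (16 * (Q / 2 ^ s) / N) := by
        refine mul_le_mul_of_nonneg_left ?_ (by positivity)
        gcongr
        norm_num
      calc Phi lam (fam z s c (move k i p q τ) S) + Φs ≤ (Phi lam g + Φs) + t := by linarith
        _ ≤ (Phi lam g + Φs) + (Phi lam g + Φs) * (16 * (Q / 2 ^ s) / N) := by linarith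
        _ = (Phi lam g + Φs) * (1 + 16 * (Q / 2 ^ s) / N) := by ring
  have e1 : fam z s c (move k i p q 1) S =
      Function.update g (Sum.inl i) (g (Sum.inl i) + w) := by
    rw [fam_move, ← hw, Int.cast_one, one_smul]
  have e2 : fam z s c (move k i p q (-1)) S =
      Function.update g (Sum.inl i) (g (Sum.inl i) - w) := by
    rw [fam_move, ← hw, Int.cast_neg, Int.cast_one, neg_smul, one_smul, ← sub_eq_add_neg]
  by_cases hle : Phi lam (fam z s c (move k i p q 1) S) ≤ Phi lam g + t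
  · exact key 1 (Or.inl rfl) hle
  · refine key (-1) (Or.inr rfl) ?_
    push Not at hle
    rw [e1] at hle
    rw [e2]
    linarith

end BMLow
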