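import Pool.Agent.Lib.MP_766f4a_gt.LLa1
import Pool.Agent.Lib.MP_766f4a_gt.LStep
import Pool.Agent.Lib.MP_766f4a_gt.TBarrier

/-!
Module STAGE: one stage of the rounding procedure.
-/

set_option autoImplicit false

namespace BMLow

open Matrix Finset

namespace Stage

variable {d : ℕ} {V : Type*} [Fintype V] [DecidableEq V]

lemma fam_inl (z : V → Fin d → ℝ) (s : ℕ) (c : Fin d → ℕ) (k : Fin d → Option V → ℤ)
    (S : Finset V) (i : Fin d) :
    fam z s c k S (Sum.inl i) = ∑ j, ((k i (some j) : ℝ) / (2 : ℝ) ^ (s + c i)) • z j := rfl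

lemma fam_inr (z : V → Fin d → ℝ) (s : ℕ) (c : Fin d → ℕ) (k : Fin d → Option V → ℤ)
    (S : Finset V) (v : V) :
    fam z s c k S (Sum.inr v) = if v ∈ S then z v else 0 := by
  have h : fam z s c k S (Sum.inr v) = ∑ j, (if v ∈ S ∧ v = j then (1 : ℝ) else 0) • z j := rfl
  rw [h]
  by_cases hv : v ∈ S
  · simp [hv]
  · simp [hv]

lemma Mat_fam (z : V → Fin d → ℝ) (lam : ℝ) (s : ℕ) (c : Fin d → ℕ)
    (k : Fin d → Option V → ℤ) (S : Finset V) :
    Mat lam (fam z s c k S) = Mat lam (fun i => fam z s c k ∅ (Sum.inl i)) +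
      ∑ v ∈ S, vecMulVec (z v) (z v) := by
  unfold Mat
  rw [Fintype.sum_sum_type, add_assoc]
  congr 1
  congr 1
  rw [← Finset.sum_filter_add_sum_filter_not univ (fun v => v ∈ S)]
  have h1 : ∑ v ∈ univ.filter (fun v => ¬ v ∈ S),
      vecMulVec (fam z s c k S (Sum.inr v)) (fam z s c k S (Sum.inr v)) = 0 := by
    apply Finset.sum_eq_zero
    intro v hv
    rw [Finset.mem_filter] at hv
    rw [fam_inr, if_neg hv.2]
    ext i j
    simp [vecMulVec_apply]
  rw [h1, add_zero]
  have h2 : univ.filter (fun v => v ∈ S) = S := by ext v; simp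
  rw [h2]
  apply Finset.sum_congr rfl
  intro v hv
  rw [fam_inr, if_pos hv]

lemma sum_posSemidef {ι : Type*} (T : Finset ι) (y : ι → Fin d → ℝ) :
    (∑ i ∈ T, vecMulVec (y i) (y i)).PosSemidef := by
  rw [BMTwo.Barrier.posSemidef_iff']
  refine ⟨?_, ?_⟩
  · rw [Matrix.transpose_sum]
    apply Finset.sum_congr rfl
    intro i _
    ext a b
    simp [vecMulVec_apply, mul_comm]
  · intro x
    rw [Matrix.sum_mulVec, dotProduct_sum]
    apply Finset.sum_nonneg
    intro i _
    rw [BMTwo.Barrier.dot_vecMulVec]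
    exact sq_nonneg _

lemma Phi_mono (z : V → Fin d → ℝ) {lam : ℝ} (hlam : 0 < lam) (s : ℕ) (c : Fin d → ℕ)
    (k : Fin d → Option V → ℤ) {S S' : Finset V} (h : S ⊆ S') :
    Phi lam (fam z s c k S') ≤ Phi lam (fam z s c k S) := by
  unfold Phi
  apply inv_trace_anti (Mat_posDef hlam _)
  rw [Mat_fam z lam s c k S, Mat_fam z lam s c k S']
  have h1 : ∑ v ∈ S', vecMulVec (z v) (z v) =
      ∑ v ∈ S' \ S, vecMulVec (z v) (z v) + ∑ v ∈ S, vecMulVec (z v) (z v) :=
    (Finset.sum_sdiff h).symm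
  rw [h1]
  have h2 : ∀ A B C : Matrix (Fin d) (Fin d) ℝ, A + (B + C) - (A + C) = B := by
    intro A B C; abel
  rw [h2]
  exact sum_posSemidef _ _

lemma Phi_nonneg {ι : Type*} [Fintype ι] {lam : ℝ} (hlam : 0 < lam) (g : ι → Fin d → ℝ) :
    0 ≤ Phi lam g := by
  unfold Phi
  exact (Mat_posDef hlam g).inv.posSemidef.trace_nonneg

lemma quad_mem (z : V → Fin d → ℝ) {lam : ℝ} (hlam : 0 < lam) (s : ℕ) (c : Fin d → ℕ)
    (k : Fin d → Option V → ℤ) {S : Finset V} {v : V} (hv : v ∈ S) :
    quad lam (fam z s c k S) (z v) ≤ 1 := by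
  unfold quad
  apply quad_le_one (Mat_posDef hlam _)
  rw [Mat_fam z lam s c k S]
  have h1 : ∑ v ∈ S, vecMulVec (z v) (z v) =
      ∑ w ∈ S.erase v, vecMulVec (z w) (z w) + vecMulVec (z v) (z v) :=
    (Finset.sum_erase_add _ _ hv).symm
  rw [h1, ← add_assoc, add_sub_cancel_right]
  exact (Mat_posDef hlam _).posSemidef.add (sum_posSemidef _ _)

lemma exc_not_mem (z : V → Fin d → ℝ) {lam Q : ℝ} (hlam : 0 < lam) (hQ : 1 ≤ Q) (s : ℕ)
    (c : Fin d → ℕ) (k : Fin d → Option V → ℤ) {S : Finset V} {v : V}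
    (hv : v ∈ exc z lam Q (fam z s c k S)) : v ∉ S := by
  intro h
  have h1 := quad_mem z hlam s c k h
  unfold exc at hv
  rw [Finset.mem_filter] at hv
  linarith [hv.2]

/-- The odd entries of the vertices outside `S`. -/
def out (k : Fin d → Option V → ℤ) (S : Finset V) : Finset (Fin d × Option V) :=
  (oddSet k).filter fun p => ∀ v ∈ S, p.2 ≠ some v

/-- The combinatorial induction. -/
lemma aux (z : V → Fin d → ℝ) {lam Q Φs Φmax : ℝ} (hlam : 0 < lam) (hQ : 1 ≤ Q)
    (hΦs : 0 < Φs) {s : ℕ} (hs : 1 ≤ s) (hm : (Fintype.card V : ℝ) ≤ 2 ^ s * (lam * Φs))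
    {l lmax : ℕ} {c : Fin d → ℕ}
    (hG3 : ∀ (k : Fin d → Option V → ℤ) (S : Finset V), IsState s c k → S.card ≤ lmax →
      Phi lam (fam z s c k S) ≤ Φmax → (exc z lam Q (fam z s c k S)).card ≤ l) :
    ∀ (n N b : ℕ), N + b = n → ∀ (k : Fin d → Option V → ℤ) (S : Finset V), IsState s c k →
      (oddSet k).card = 2 * N → ((out k S).card : ℝ) < (8 / 5 : ℝ) ^ b → S.card + l * b ≤ lmax →
      (Phi lam (fam z s c k S) + Φs) *
        ∏ r ∈ Finset.range N, (1 + 16 * (Q / 2 ^ s) / ((r : ℝ) + 1)) ≤ Φmax →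
      ∃ (k' : Fin d → Option V → ℤ) (S' : Finset V), IsState s c k' ∧ (oddSet k').card = 0 ∧
        S'.card ≤ S.card + l * b ∧
        Phi lam (fam z s c k' S') + Φs ≤ (Phi lam (fam z s c k S) + Φs) *
          ∏ r ∈ Finset.range N, (1 + 16 * (Q / 2 ^ s) / ((r : ℝ) + 1)) := by
  have hQ0 : 0 ≤ Q / 2 ^ s := by positivity
  intro n
  induction n with
  | zero =>
    intro N b hNb k S hst hodd _ _ _
    have hN : N = 0 := by omega
    have hb : b = 0 := by omega
    subst hN
    subst hb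
    exact ⟨k, S, hst, by simpa using hodd, by simp, by simp⟩
  | succ n ih =>
    intro N b hNb k S hst hodd hX hS hΦ
    have hΦ0 : 0 ≤ Phi lam (fam z s c k S) := Phi_nonneg hlam _
    rcases Nat.eq_zero_or_pos N with hN | hN
    · subst hN
      exact ⟨k, S, hst, by simpa using hodd, by simp, by simp⟩
    by_cases hcase : 4 * (excOdd z lam Q (fam z s c k S) k).card ≤ 3 * N
    · -- one move
      obtain ⟨k₁, hst₁, hsub, hcard, hPhi⟩ :=
        step z hlam (by linarith) hΦs hs hm hst hN hodd hcase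
      obtain ⟨M, rfl⟩ : ∃ M, N = M + 1 := ⟨N - 1, by omega⟩
      have hout : out k₁ S ⊆ out k S := by
        intro p hp
        rw [out, Finset.mem_filter] at hp ⊢
        exact ⟨hsub hp.1, hp.2⟩
      have hX₁ : ((out k₁ S).card : ℝ) < (8 / 5 : ℝ) ^ b := by
        refine lt_of_le_of_lt ?_ hX
        exact_mod_cast Finset.card_le_card hout
      have hprod0 : 0 ≤ ∏ r ∈ Finset.range M, (1 + 16 * (Q / 2 ^ s) / ((r : ℝ) + 1)) :=
        Finset.prod_nonneg fun r _ => by positivity
      have hprod : (Phi lam (fam z s c k₁ S) + Φs) *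
          ∏ r ∈ Finset.range M, (1 + 16 * (Q / 2 ^ s) / ((r : ℝ) + 1)) ≤
          (Phi lam (fam z s c k S) + Φs) *
          ∏ r ∈ Finset.range (M + 1), (1 + 16 * (Q / 2 ^ s) / ((r : ℝ) + 1)) := by
        rw [Finset.prod_range_succ]
        push_cast at hPhi
        calc (Phi lam (fam z s c k₁ S) + Φs) *
              ∏ r ∈ Finset.range M, (1 + 16 * (Q / 2 ^ s) / ((r : ℝ) + 1)) ≤
              ((Phi lam (fam z s c k S) + Φs) * (1 + 16 * (Q / 2 ^ s) / ((M : ℝ) + 1))) *
              ∏ r ∈ Finset.range M, (1 + 16 * (Q / 2 ^ s) / ((r : ℝ) + 1)) :=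
              mul_le_mul_of_nonneg_right hPhi hprod0
          _ = _ := by ring
      obtain ⟨k', S', h1, h2, h3, h4⟩ := ih M b (by omega) k₁ S hst₁ (by simpa using hcard) hX₁ hS
        (hprod.trans hΦ)
      exact ⟨k', S', h1, h2, h3, h4.trans hprod⟩
    · -- add the exceptional vertices
      push Not at hcase
      have hsubE : excOdd z lam Q (fam z s c k S) k ⊆ out k S := by
        intro p hp
        rw [excOdd, Finset.mem_filter] at hp
        rw [out, Finset.mem_filter]
        refine ⟨hp.1, ?_⟩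
        obtain ⟨j, hj, hje⟩ := hp.2
        intro v hv hpv
        rw [hj] at hpv
        have : j = v := Option.some.inj hpv
        subst this
        exact exc_not_mem z hlam hQ s c k hje hv
      have houtN : (out k S).card ≤ 2 * N := by
        rw [← hodd]
        exact Finset.card_le_card (Finset.filter_subset _ _)
      have hcardE := Finset.card_le_card hsubE
      obtain ⟨b', rfl⟩ : ∃ b', b = b' + 1 := by
        rcases Nat.eq_zero_or_pos b with hb | hb
        · exfalso
          subst hb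
          rw [pow_zero] at hX
          have : (out k S).card < 1 := by exact_mod_cast hX
          omega
        · exact ⟨b - 1, by omega⟩
      obtain ⟨S₁, hS₁⟩ : ∃ S₁, S₁ = S ∪ exc z lam Q (fam z s c k S) := ⟨_, rfl⟩
      have hout₁ : out k S₁ ⊆ out k S \ excOdd z lam Q (fam z s c k S) k := by
        intro p hp
        rw [out, Finset.mem_filter] at hp
        rw [Finset.mem_sdiff, out, Finset.mem_filter]
        refine ⟨⟨hp.1, fun v hv => hp.2 v (by rw [hS₁]; exact Finset.mem_union_left _ hv)⟩, ?_⟩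
        intro hpe
        rw [excOdd, Finset.mem_filter] at hpe
        obtain ⟨j, hj, hje⟩ := hpe.2
        exact hp.2 j (by rw [hS₁]; exact Finset.mem_union_right _ hje) hj
      have hcard₁ : (out k S₁).card + (excOdd z lam Q (fam z s c k S) k).card ≤
          (out k S).card := by
        have := Finset.card_le_card hout₁
        rw [Finset.card_sdiff_of_subset hsubE] at this
        omega
      have hX₁ : ((out k S₁).card : ℝ) < (8 / 5 : ℝ) ^ b' := by
        have h1 : 8 * (out k S₁).card ≤ 5 * (out k S).card := by omega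
        have h2 : (8 : ℝ) * (out k S₁).card ≤ 5 * (out k S).card := by exact_mod_cast h1
        rw [pow_succ] at hX
        linarith
      have hprod1 : 1 ≤ ∏ r ∈ Finset.range N, (1 + 16 * (Q / 2 ^ s) / ((r : ℝ) + 1)) := by
        calc (1 : ℝ) = ∏ r ∈ Finset.range N, 1 := by simp
          _ ≤ _ := by
            apply Finset.prod_le_prod (fun _ _ => zero_le_one)
            intro r _
            have : 0 ≤ 16 * (Q / 2 ^ s) / ((r : ℝ) + 1) := by positivity
            linarith
      have hPhiS : Phi lam (fam z s c k S) ≤ Φmax := by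
        have : (Phi lam (fam z s c k S) + Φs) * 1 ≤ (Phi lam (fam z s c k S) + Φs) *
          ∏ r ∈ Finset.range N, (1 + 16 * (Q / 2 ^ s) / ((r : ℝ) + 1)) :=
          mul_le_mul_of_nonneg_left hprod1 (by linarith)
        linarith
      have hl : (exc z lam Q (fam z s c k S)).card ≤ l := by
        apply hG3 k S hst _ hPhiS
        omega
      have hcS : S₁.card ≤ S.card + l := by
        rw [hS₁]
        exact (Finset.card_union_le _ _).trans (by omega)
      have hsubS : S ⊆ S₁ := by rw [hS₁]; exact Finset.subset_union_left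
      have hPhi₁ := Phi_mono z hlam s c k hsubS
      have hle : (Phi lam (fam z s c k S₁) + Φs) *
          ∏ r ∈ Finset.range N, (1 + 16 * (Q / 2 ^ s) / ((r : ℝ) + 1)) ≤
          (Phi lam (fam z s c k S) + Φs) *
          ∏ r ∈ Finset.range N, (1 + 16 * (Q / 2 ^ s) / ((r : ℝ) + 1)) :=
        mul_le_mul_of_nonneg_right (by linarith) (by linarith)
      have hlb : l * (b' + 1) = l * b' + l := by ring
      obtain ⟨k', S', h1, h2, h3, h4⟩ := ih N b' (by omega) k S₁ hst hodd hX₁ (by omega)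
        (hle.trans hΦ)
      exact ⟨k', S', h1, h2, by omega, h4.trans hle⟩

/-- The number of odd entries is even. -/
lemma even_odd {s : ℕ} (hs : 1 ≤ s) {c : Fin d → ℕ} {k : Fin d → Option V → ℤ}
    (hst : IsState s c k) : Even (oddSet k).card := by
  have h1 : Even (∑ p : Fin d × Option V, (k p.1 p.2).natAbs) := by
    rw [Fintype.sum_prod_type]
    apply Finset.even_sum
    intro i _
    have h0 := hst.row i
    have h2 : ((∑ j, (k i j).natAbs : ℕ) : ℤ) = 4 ^ c i * 2 ^ s := by
      push_cast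
      rw [← h0]
    have h3 : ∑ j, (k i j).natAbs = 4 ^ c i * 2 ^ s := by exact_mod_cast h2
    simp only
    rw [h3]
    have h4 : Even ((2 : ℕ) ^ s) := (even_two).pow_of_ne_zero (by omega)
    exact h4.mul_left _
  rw [Finset.even_sum_iff_even_card_odd] at h1
  have h3 : (univ.filter fun p : Fin d × Option V => Odd ((k p.1 p.2).natAbs)) = oddSet k := by
    unfold oddSet
    apply Finset.filter_congr
    intro p _
    exact Int.natAbs_odd
  rw [← h3]
  exact h1

/-- The number of odd entries. -/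
lemma card_odd_le {s : ℕ} {c : Fin d → ℕ} {k : Fin d → Option V → ℤ}
    (hst : IsState s c k) : (oddSet k).card ≤ 5 * d * 2 ^ s := by
  have h1 : ((oddSet k).card : ℤ) ≤ ∑ p : Fin d × Option V, |k p.1 p.2| := by
    have h2 : ((oddSet k).card : ℤ) = ∑ p ∈ oddSet k, 1 := by simp
    rw [h2]
    calc (∑ p ∈ oddSet k, (1 : ℤ)) ≤ ∑ p ∈ oddSet k, |k p.1 p.2| := by
          apply Finset.sum_le_sum
          intro p hp
          unfold oddSet at hp
          rw [Finset.mem_filter] at hp
          have : k p.1 p.2 ≠ 0 := by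
            intro h0
            rw [h0] at hp
            exact absurd hp.2 (by decide)
          exact Int.one_le_abs this
      _ ≤ ∑ p : Fin d × Option V, |k p.1 p.2| :=
          Finset.sum_le_sum_of_subset_of_nonneg (Finset.subset_univ _) fun _ _ _ => abs_nonneg _
  have h3 : ∑ p : Fin d × Option V, |k p.1 p.2| = ∑ i, (4 ^ c i * 2 ^ s : ℤ) := by
    rw [Fintype.sum_prod_type]
    exact Finset.sum_congr rfl fun i _ => hst.row i
  rw [h3, ← Finset.sum_mul] at h1
  have h4 : (∑ i, (4 : ℤ) ^ c i) ≤ 5 * d := by exact_mod_cast hst.tot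
  have h5 : ((oddSet k).card : ℤ) ≤ 5 * d * 2 ^ s :=
    h1.trans (mul_le_mul_of_nonneg_right h4 (by positivity))
  exact_mod_cast h5

lemma prod_le_exp {x : ℝ} (hx : 0 ≤ x) (N : ℕ) :
    ∏ r ∈ Finset.range N, (1 + 16 * x / ((r : ℝ) + 1)) ≤
      Real.exp (16 * x * (1 + Real.log N)) := by
  have h1 : ∏ r ∈ Finset.range N, (1 + 16 * x / ((r : ℝ) + 1)) ≤
      ∏ r ∈ Finset.range N, Real.exp (16 * x / ((r : ℝ) + 1)) := by
    apply Finset.prod_le_prod
    · intro r _; positivity
    · intro r _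
      have := Real.add_one_le_exp (16 * x / ((r : ℝ) + 1))
      linarith
  rw [← Real.exp_sum] at h1
  refine h1.trans (Real.exp_le_exp.2 ?_)
  have h2 : ∑ r ∈ Finset.range N, 16 * x / ((r : ℝ) + 1) =
      16 * x * ∑ r ∈ Finset.range N, ((r : ℝ) + 1)⁻¹ := by
    rw [Finset.mul_sum]
    exact Finset.sum_congr rfl fun r _ => by rw [div_eq_mul_inv]
  rw [h2]
  apply mul_le_mul_of_nonneg_left _ (by positivity)
  have h3 := harmonic_le_one_add_log N
  have h4 : ((harmonic N : ℚ) : ℝ) = ∑ r ∈ Finset.range N, ((r : ℝ) + 1)⁻¹ := by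
    unfold harmonic
    push_cast
    rfl
  rw [← h4]
  exact h3

lemma halve (z : V → Fin d → ℝ) {s : ℕ} (hs : 1 ≤ s) {c : Fin d → ℕ}
    {k : Fin d → Option V → ℤ} (S : Finset V) (hst : IsState s c k)
    (hodd : (oddSet k).card = 0) :
    ∃ k' : Fin d → Option V → ℤ, IsState (s - 1) c k' ∧
      fam z (s - 1) c k' S = fam z s c k S := by
  have heven : ∀ i j, k i j = 2 * (k i j / 2) := by
    intro i j
    have h1 : (i, j) ∉ oddSet k := by
      rw [Finset.card_eq_zero] at hodd
      rw [hodd]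
      exact Finset.notMem_empty _
    unfold oddSet at h1
    rw [Finset.mem_filter] at h1
    push Not at h1
    have h2 : ¬ Odd (k i j) := h1 (Finset.mem_univ _)
    rw [Int.not_odd_iff_even] at h2
    exact (Int.mul_ediv_cancel' h2.two_dvd).symm
  obtain ⟨t, rfl⟩ : ∃ t, s = t + 1 := ⟨s - 1, by omega⟩
  refine ⟨fun i j => k i j / 2, ⟨?_, hst.tot⟩, ?_⟩
  · intro i
    have h1 := hst.row i
    have h2 : ∑ j, |k i j| = 2 * ∑ j, |k i j / 2| := by
      rw [Finset.mul_sum]
      apply Finset.sum_congr rfl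
      intro j _
      conv_lhs => rw [heven i j]
      rw [abs_mul]
      norm_num
    rw [h2, pow_succ] at h1
    have h3 : t + 1 - 1 = t := by omega
    rw [h3]
    linarith
  · have h3 : t + 1 - 1 = t := by omega
    rw [h3]
    funext x
    rcases x with i | v
    · rw [fam_inl, fam_inl]
      apply Finset.sum_congr rfl
      intro j _
      congr 1
      have h4 : (k i (some j) : ℝ) = 2 * ((k i (some j) / 2 : ℤ) : ℝ) := by
        exact_mod_cast heven i (some j)
      rw [h4, show t + 1 + c i = (t + c i) + 1 by ring, pow_succ]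
      field_simp
    · rw [fam_inr, fam_inr]

end Stage

open Stage

variable {d : ℕ} {V : Type*} [Fintype V] [DecidableEq V]

theorem stage (z : V → Fin d → ℝ) {lam Q Φs Φmax W : ℝ} (hlam : 0 < lam) (hQ : 1 ≤ Q)
    (hΦs : 0 < Φs) {s : ℕ} (hs : 1 ≤ s) (hm : (Fintype.card V : ℝ) ≤ 2 ^ s * (lam * Φs))
    {l lmax b : ℕ} {c : Fin d → ℕ}
    (hG3 : ∀ (k : Fin d → Option V → ℤ) (S : Finset V), IsState s c k → S.card ≤ lmax →
      Phi lam (fam z s c k S) ≤ Φmax → (exc z lam Q (fam z s c k S)).card ≤ l)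
    (hb : (5 * d * 2 ^ s : ℝ) < (8 / 5 : ℝ) ^ b) (hW : 1 + Real.log (5 * d * 2 ^ s) ≤ W)
    {k : Fin d → Option V → ℤ} {S : Finset V} (hst : IsState s c k)
    (hS : S.card + l * b ≤ lmax)
    (hΦ : (Phi lam (fam z s c k S) + Φs) * Real.exp (16 * (Q / 2 ^ s) * W) ≤ Φmax) :
    ∃ (k' : Fin d → Option V → ℤ) (S' : Finset V), IsState (s - 1) c k' ∧
      S'.card ≤ S.card + l * b ∧
      Phi lam (fam z (s - 1) c k' S') + Φs ≤
        (Phi lam (fam z s c k S) + Φs) * Real.exp (16 * (Q / 2 ^ s) * W) := by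
  obtain ⟨N, hN⟩ := (even_odd hs hst).exists_two_nsmul
  rw [smul_eq_mul] at hN
  have hcard := card_odd_le hst
  have hQ0 : 0 ≤ Q / 2 ^ s := by positivity
  have hΦ0 : 0 ≤ Phi lam (fam z s c k S) := Phi_nonneg hlam _
  have hW1 : 1 ≤ W := by
    refine le_trans ?_ hW
    rcases Nat.eq_zero_or_pos d with hd | hd
    · subst hd; simp
    · have h1 : (1 : ℝ) ≤ 5 * d * 2 ^ s := by
        have h2 : (1 : ℝ) ≤ d := by exact_mod_cast hd
        have h3 : (1 : ℝ) ≤ 2 ^ s := one_le_pow₀ (by norm_num)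
        nlinarith
      have := Real.log_nonneg h1
      linarith
  have hprod : ∏ r ∈ Finset.range N, (1 + 16 * (Q / 2 ^ s) / ((r : ℝ) + 1)) ≤
      Real.exp (16 * (Q / 2 ^ s) * W) := by
    rcases Nat.eq_zero_or_pos N with hN0 | hN0
    · subst hN0
      simp only [Finset.range_zero, Finset.prod_empty]
      exact Real.one_le_exp (by positivity)
    · refine (prod_le_exp hQ0 N).trans (Real.exp_le_exp.2 ?_)
      apply mul_le_mul_of_nonneg_left _ (by positivity)
      refine le_trans ?_ hW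
      have h1 : (N : ℝ) ≤ 5 * d * 2 ^ s := by
        have : N ≤ 5 * d * 2 ^ s := by omega
        exact_mod_cast this
      have h2 : (0 : ℝ) < N := by exact_mod_cast hN0
      have := Real.log_le_log h2 h1
      linarith
  have hX : ((out k S).card : ℝ) < (8 / 5 : ℝ) ^ b := by
    refine lt_of_le_of_lt ?_ hb
    have h1 : (out k S).card ≤ 5 * d * 2 ^ s :=
      (Finset.card_le_card (Finset.filter_subset _ _)).trans hcard
    exact_mod_cast h1
  have hle := mul_le_mul_of_nonneg_left hprod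
    (show 0 ≤ Phi lam (fam z s c k S) + Φs by linarith)
  obtain ⟨k₁, S₁, h1, h2, h3, h4⟩ := aux z hlam hQ hΦs hs hm hG3 (N + b) N b rfl k S hst hN hX hS
    (hle.trans hΦ)
  obtain ⟨k', h5, h6⟩ := halve z hs S₁ h1 h2
  refine ⟨k', S₁, h5, h3, ?_⟩
  rw [h6]
  exact h4.trans hle

end BMLow
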