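import Pool.Agent.Lib.MP_766f4a_gt.Defs

/-!
Module SPEC: spectral form of the determinants and of the quadratic forms (step 2 of the proof).
-/

set_option autoImplicit false

namespace BMCube

open Matrix

/-- `∑ y_i y_iᵀ = A Aᵀ` for the matrix `A` with columns `y_i`. -/
theorem sum_vecMulVec {d : ℕ} (Y : Fin d → Fin d → ℝ) :
    ∑ i, vecMulVec (Y i) (Y i) = (Matrix.of Y)ᵀ * Matrix.of Y := by
  ext a b
  rw [Matrix.sum_apply, Matrix.mul_apply]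
  rfl

theorem gram_eq {d : ℕ} (Y : Fin d → Fin d → ℝ) (L R : Matrix (Fin d) (Fin d) ℝ) (s : Fin d → ℝ)
    (hL' : L * Lᵀ = 1) (hR : Rᵀ * R = 1)
    (hY : (Matrix.of Y)ᵀ = L * diagonal s * Rᵀ) (t : ℝ) :
    t • (1 : Matrix (Fin d) (Fin d) ℝ) + ∑ i, vecMulVec (Y i) (Y i) =
      L * diagonal (fun j => t + s j ^ 2) * Lᵀ := by
  have h1 : Matrix.of Y = R * diagonal s * Lᵀ := by
    have := congrArg Matrix.transpose hY
    rw [Matrix.transpose_transpose, Matrix.transpose_mul, Matrix.transpose_mul,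
      Matrix.transpose_transpose, Matrix.diagonal_transpose, ← Matrix.mul_assoc] at this
    exact this
  rw [sum_vecMulVec, hY, h1]
  have h2 : L * diagonal s * Rᵀ * (R * diagonal s * Lᵀ) =
      L * diagonal (fun j => s j ^ 2) * Lᵀ := by
    calc L * diagonal s * Rᵀ * (R * diagonal s * Lᵀ)
        = L * diagonal s * (Rᵀ * R) * diagonal s * Lᵀ := by simp only [Matrix.mul_assoc]
      _ = L * (diagonal s * diagonal s) * Lᵀ := by
          rw [hR, Matrix.mul_one]; simp only [Matrix.mul_assoc]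
      _ = L * diagonal (fun j => s j ^ 2) * Lᵀ := by
          rw [Matrix.diagonal_mul_diagonal]
          congr 3
          funext j
          ring
  rw [h2]
  have h3 : t • (1 : Matrix (Fin d) (Fin d) ℝ) = L * diagonal (fun _ => t) * Lᵀ := by
    have : diagonal (fun _ : Fin d => t) = t • (1 : Matrix (Fin d) (Fin d) ℝ) := by
      ext i j
      by_cases hij : i = j
      · subst hij; simp
      · simp [hij]
    rw [this, Matrix.mul_smul, Matrix.smul_mul, Matrix.mul_one, hL']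
  rw [h3, ← Matrix.add_mul, ← Matrix.mul_add, Matrix.diagonal_add]

theorem spec_F {d : ℕ} (Y : Fin d → Fin d → ℝ) (L R : Matrix (Fin d) (Fin d) ℝ) (s : Fin d → ℝ)
    (hL : Lᵀ * L = 1) (hL' : L * Lᵀ = 1) (hR : Rᵀ * R = 1) (hR' : R * Rᵀ = 1)
    (hY : (Matrix.of Y)ᵀ = L * diagonal s * Rᵀ) (t : ℝ) :
    F Y t = ∏ j, (t + s j ^ 2) := by
  unfold F
  rw [gram_eq Y L R s hL' hR hY t, Matrix.det_mul, Matrix.det_mul, Matrix.det_diagonal]
  have h : L.det * Lᵀ.det = 1 := by rw [← Matrix.det_mul, hL', Matrix.det_one]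
  calc L.det * (∏ j, (t + s j ^ 2)) * Lᵀ.det = (L.det * Lᵀ.det) * ∏ j, (t + s j ^ 2) := by ring
    _ = ∏ j, (t + s j ^ 2) := by rw [h, one_mul]

theorem posDef_S0 {d : ℕ} (Y : Fin d → Fin d → ℝ) (t : ℝ) (ht : 0 < t) (i : Fin d) :
    (S0 Y t i).PosDef := by
  unfold S0
  refine Matrix.PosDef.add_posSemidef ?_ ?_
  · exact Matrix.PosDef.one.smul ht
  · refine Matrix.posSemidef_sum _ fun j _ => ?_
    have := Matrix.posSemidef_vecMulVec_self_star (Y j)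
    simpa using this

theorem S0_add {d : ℕ} (Y : Fin d → Fin d → ℝ) (t : ℝ) (i : Fin d) :
    S0 Y t i + vecMulVec (Y i) (Y i) =
      t • (1 : Matrix (Fin d) (Fin d) ℝ) + ∑ j, vecMulVec (Y j) (Y j) := by
  unfold S0
  rw [add_assoc]
  congr 1
  rw [add_comm]
  exact Finset.add_sum_erase Finset.univ (fun j => vecMulVec (Y j) (Y j)) (Finset.mem_univ i)

/-- The inverse of `S0 + y yᵀ` in terms of the inverse of `S0`, as an identity between quadratic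
forms. -/
theorem key {d : ℕ} (Y : Fin d → Fin d → ℝ) (L R : Matrix (Fin d) (Fin d) ℝ) (s : Fin d → ℝ)
    (hL : Lᵀ * L = 1) (hL' : L * Lᵀ = 1) (hR : Rᵀ * R = 1)
    (hY : (Matrix.of Y)ᵀ = L * diagonal s * Rᵀ) (t : ℝ) (ht : 0 < t) (i : Fin d)
    (v : Fin d → ℝ) :
    (∑ j, (Lᵀ *ᵥ v) j ^ 2 / (t + s j ^ 2)) * (1 + q Y t i (Y i)) =
      q Y t i v * (1 + q Y t i (Y i)) - (Y i ⬝ᵥ ((S0 Y t i)⁻¹ *ᵥ v)) ^ 2 := by
  have hpd := posDef_S0 Y t ht i
  have hdet : IsUnit (S0 Y t i).det := hpd.det_pos.ne'.isUnit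
  have hinv : (S0 Y t i)⁻¹ * S0 Y t i = 1 := Matrix.nonsing_inv_mul _ hdet
  have hsymm : ((S0 Y t i)⁻¹)ᵀ = (S0 Y t i)⁻¹ := by
    have h1 : (S0 Y t i)ᵀ = S0 Y t i := by
      have := hpd.isHermitian
      unfold Matrix.IsHermitian at this
      rwa [Matrix.conjTranspose_eq_transpose_of_trivial] at this
    rw [Matrix.transpose_nonsing_inv, h1]
  have hpos : ∀ j, 0 < t + s j ^ 2 := fun j => by positivity
  set y := Y i with hy
  set N := (S0 Y t i)⁻¹ with hN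
  set u : Fin d → ℝ := L *ᵥ (fun j => (Lᵀ *ᵥ v) j / (t + s j ^ 2)) with hu
  -- `S u = v`
  have hS : (S0 Y t i + vecMulVec y y) *ᵥ u = v := by
    rw [hy, S0_add, gram_eq Y L R s hL' hR hY t, hu, ← Matrix.mulVec_mulVec,
      ← Matrix.mulVec_mulVec, Matrix.mulVec_mulVec _ Lᵀ L, hL, Matrix.one_mulVec]
    have h1 : (diagonal (fun j => t + s j ^ 2)) *ᵥ (fun j => (Lᵀ *ᵥ v) j / (t + s j ^ 2)) =
        Lᵀ *ᵥ v := by
      funext j
      rw [Matrix.mulVec_diagonal]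
      have := (hpos j).ne'
      field_simp
    rw [h1, Matrix.mulVec_mulVec, hL', Matrix.one_mulVec]
  have h2 : S0 Y t i *ᵥ u + (y ⬝ᵥ u) • y = v := by
    rw [Matrix.add_mulVec] at hS
    rw [← hS]
    congr 1
    funext a
    rw [Matrix.vecMulVec_mulVec]
    simp [mul_comm]
  have h3 : u + (y ⬝ᵥ u) • (N *ᵥ y) = N *ᵥ v := by
    have h4 := congrArg (fun x => N *ᵥ x) h2
    simp only [Matrix.mulVec_add, Matrix.mulVec_smul] at h4
    rw [Matrix.mulVec_mulVec, hinv, Matrix.one_mulVec] at h4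
    exact h4
  have hvz : v ⬝ᵥ (N *ᵥ y) = y ⬝ᵥ (N *ᵥ v) := by
    rw [Matrix.dotProduct_mulVec, dotProduct_comm, ← Matrix.mulVec_transpose, hsymm]
  have h5 : v ⬝ᵥ u + (y ⬝ᵥ u) * (y ⬝ᵥ (N *ᵥ v)) = v ⬝ᵥ (N *ᵥ v) := by
    have h4 := congrArg (fun x => v ⬝ᵥ x) h3
    simp only [dotProduct_add, dotProduct_smul, smul_eq_mul] at h4
    rw [hvz] at h4
    exact h4
  have h6 : (y ⬝ᵥ u) * (1 + y ⬝ᵥ (N *ᵥ y)) = y ⬝ᵥ (N *ᵥ v) := by
    have h4 := congrArg (fun x => y ⬝ᵥ x) h3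
    simp only [dotProduct_add, dotProduct_smul, smul_eq_mul] at h4
    rw [← h4]; ring
  have h7 : v ⬝ᵥ u = ∑ j, (Lᵀ *ᵥ v) j ^ 2 / (t + s j ^ 2) := by
    rw [hu, Matrix.dotProduct_mulVec, ← Matrix.mulVec_transpose]
    unfold dotProduct
    refine Finset.sum_congr rfl fun j _ => ?_
    ring
  have hq1 : q Y t i v = v ⬝ᵥ (N *ᵥ v) := rfl
  have hq2 : q Y t i y = y ⬝ᵥ (N *ᵥ y) := rfl
  rw [← h7, hq1, hq2]
  have h8 : v ⬝ᵥ u = v ⬝ᵥ (N *ᵥ v) - (y ⬝ᵥ u) * (y ⬝ᵥ (N *ᵥ v)) := by linarith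
  rw [h8, sub_mul]
  congr 1
  rw [pow_two]
  calc (y ⬝ᵥ u) * (y ⬝ᵥ (N *ᵥ v)) * (1 + y ⬝ᵥ (N *ᵥ y))
      = ((y ⬝ᵥ u) * (1 + y ⬝ᵥ (N *ᵥ y))) * (y ⬝ᵥ (N *ᵥ v)) := by ring
    _ = _ := by rw [h6]

theorem q_nonneg {d : ℕ} (Y : Fin d → Fin d → ℝ) (t : ℝ) (ht : 0 < t) (i : Fin d)
    (v : Fin d → ℝ) : 0 ≤ q Y t i v := by
  have h := (posDef_S0 Y t ht i).inv.posSemidef.dotProduct_mulVec_nonneg v
  simpa [q] using h

theorem spec_q {d : ℕ} (Y : Fin d → Fin d → ℝ) (L R : Matrix (Fin d) (Fin d) ℝ) (s : Fin d → ℝ)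
    (hL : Lᵀ * L = 1) (hL' : L * Lᵀ = 1) (hR : Rᵀ * R = 1) (hR' : R * Rᵀ = 1)
    (hY : (Matrix.of Y)ᵀ = L * diagonal s * Rᵀ) (t : ℝ) (ht : 0 < t) (i : Fin d)
    (v : Fin d → ℝ) (h : q Y t i v ≤ 4 * q Y t i (Y i)) :
    (∑ j, t / (t + s j ^ 2) * R i j ^ 2) * (∑ j, (Lᵀ *ᵥ v) j ^ 2 / (t + s j ^ 2)) ≤ 4 := by
  have hpos : ∀ j, 0 < t + s j ^ 2 := fun j => by positivity
  have hp := q_nonneg Y t ht i (Y i)
  have k1 := key Y L R s hL hL' hR hY t ht i v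
  have k2 := key Y L R s hL hL' hR hY t ht i (Y i)
  have hq2 : Y i ⬝ᵥ ((S0 Y t i)⁻¹ *ᵥ (Y i)) = q Y t i (Y i) := rfl
  rw [hq2] at k2
  -- coordinates of `y_i`
  have hc : ∀ j, (Lᵀ *ᵥ (Y i)) j = s j * R i j := by
    intro j
    have h1 : Lᵀ * (Matrix.of Y)ᵀ = diagonal s * Rᵀ := by
      rw [hY, ← Matrix.mul_assoc, ← Matrix.mul_assoc, hL, Matrix.one_mul]
    have h2 := congrFun (congrFun h1 j) i
    rw [Matrix.diagonal_mul] at h2
    rw [Matrix.transpose_apply] at h2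
    rw [← h2, Matrix.mul_apply]
    rfl
  have hrow : ∑ j, R i j ^ 2 = 1 := by
    have h2 := congrFun (congrFun hR' i) i
    rw [Matrix.mul_apply, Matrix.one_apply_eq] at h2
    rw [← h2]
    refine Finset.sum_congr rfl fun j _ => ?_
    rw [Matrix.transpose_apply]; ring
  have hsum : ∑ j, t / (t + s j ^ 2) * R i j ^ 2 =
      1 - ∑ j, (Lᵀ *ᵥ (Y i)) j ^ 2 / (t + s j ^ 2) := by
    rw [← hrow, ← Finset.sum_sub_distrib]
    refine Finset.sum_congr rfl fun j _ => ?_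
    rw [hc j]
    have := (hpos j).ne'
    field_simp
    ring
  set p := q Y t i (Y i) with hpdef
  set l := ∑ j, (Lᵀ *ᵥ (Y i)) j ^ 2 / (t + s j ^ 2) with hl
  set lam := ∑ j, (Lᵀ *ᵥ v) j ^ 2 / (t + s j ^ 2) with hlam
  rw [hsum]
  have h1 : (1 - l) * (1 + p) = 1 := by nlinarith
  have h2 : lam * (1 + p) ≤ q Y t i v * (1 + p) := by
    rw [k1]; nlinarith [sq_nonneg (Y i ⬝ᵥ ((S0 Y t i)⁻¹ *ᵥ v))]
  have h3 : lam ≤ q Y t i v := le_of_mul_le_mul_right h2 (by linarith)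
  have h4 : (1 - l) * lam * (1 + p) ≤ 4 * (1 + p) := by
    calc (1 - l) * lam * (1 + p) = ((1 - l) * (1 + p)) * lam := by ring
      _ = lam := by rw [h1, one_mul]
      _ ≤ 4 * (1 + p) := by linarith
  exact le_of_mul_le_mul_right h4 (by linarith)

theorem prod_upper {d : ℕ} (s : Fin d → ℝ) (t : ℝ) (ht : 0 < t) (n : ℕ)
    (h : ∏ j, (t + s j ^ 2) ≤ 2 ^ n * ∏ j, (t / 2 + s j ^ 2)) :
    ∑ j, t / (t + s j ^ 2) ≤ 2 * n := by
  have hpos : ∀ j, 0 < t + s j ^ 2 := fun j => by positivity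
  have h1 : ∏ j, (t / 2 + s j ^ 2) ≤
      Real.exp (-(∑ j, t / (t + s j ^ 2)) / 2) * ∏ j, (t + s j ^ 2) := by
    have h2 : Real.exp (-(∑ j, t / (t + s j ^ 2)) / 2) =
        ∏ j, Real.exp (-(t / (t + s j ^ 2)) / 2) := by
      rw [← Real.exp_sum]
      congr 1
      rw [← Finset.sum_div, Finset.sum_neg_distrib]
    rw [h2, ← Finset.prod_mul_distrib]
    refine Finset.prod_le_prod (fun j _ => by positivity) fun j _ => ?_
    have h3 := Real.add_one_le_exp (-(t / (t + s j ^ 2)) / 2)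
    have h4 : (-(t / (t + s j ^ 2)) / 2 + 1) * (t + s j ^ 2) = t / 2 + s j ^ 2 := by
      have := (hpos j).ne'
      field_simp
      ring
    rw [← h4]
    exact mul_le_mul_of_nonneg_right h3 (hpos j).le
  have hP : 0 < ∏ j, (t + s j ^ 2) := Finset.prod_pos fun j _ => hpos j
  have h5 : 1 ≤ 2 ^ n * Real.exp (-(∑ j, t / (t + s j ^ 2)) / 2) := by
    have h6 : 1 * ∏ j, (t + s j ^ 2) ≤
        (2 ^ n * Real.exp (-(∑ j, t / (t + s j ^ 2)) / 2)) * ∏ j, (t + s j ^ 2) := by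
      rw [one_mul, mul_assoc]
      exact h.trans (mul_le_mul_of_nonneg_left h1 (by positivity))
    exact le_of_mul_le_mul_right h6 hP
  have h7 : (2 : ℝ) ^ n ≤ Real.exp n := by
    have h8 : (2 : ℝ) ≤ Real.exp 1 := by
      have := Real.add_one_le_exp (1 : ℝ)
      linarith
    calc (2 : ℝ) ^ n ≤ (Real.exp 1) ^ n := pow_le_pow_left₀ (by norm_num) h8 n
      _ = Real.exp n := by rw [← Real.exp_nat_mul, mul_one]
  have h9 : 1 ≤ Real.exp (n + -(∑ j, t / (t + s j ^ 2)) / 2) := by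
    rw [Real.exp_add]
    exact h5.trans (mul_le_mul_of_nonneg_right h7 (Real.exp_pos _).le)
  have h10 := Real.one_le_exp_iff.1 h9
  linarith

theorem prod_lower {d : ℕ} (s : Fin d → ℝ) (t : ℝ) (ht : 0 < t) (n : ℕ)
    (h : 2 ^ n * ∏ j, (t + s j ^ 2) ≤ ∏ j, (2 * t + s j ^ 2)) :
    (n : ℝ) ≤ 2 * ∑ j, t / (t + s j ^ 2) := by
  have hpos : ∀ j, 0 < t + s j ^ 2 := fun j => by positivity
  have h1 : ∏ j, (2 * t + s j ^ 2) ≤
      Real.exp (∑ j, t / (t + s j ^ 2)) * ∏ j, (t + s j ^ 2) := by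
    rw [Real.exp_sum, ← Finset.prod_mul_distrib]
    refine Finset.prod_le_prod (fun j _ => by positivity) fun j _ => ?_
    have h3 := Real.add_one_le_exp (t / (t + s j ^ 2))
    have h4 : (t / (t + s j ^ 2) + 1) * (t + s j ^ 2) = 2 * t + s j ^ 2 := by
      have := (hpos j).ne'
      field_simp
      ring
    rw [← h4]
    exact mul_le_mul_of_nonneg_right h3 (hpos j).le
  have hP : 0 < ∏ j, (t + s j ^ 2) := Finset.prod_pos fun j _ => hpos j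
  have h5 : (2 : ℝ) ^ n ≤ Real.exp (∑ j, t / (t + s j ^ 2)) :=
    le_of_mul_le_mul_right (h.trans h1) hP
  have h6 : Real.exp (n * Real.log 2) ≤ Real.exp (∑ j, t / (t + s j ^ 2)) := by
    rw [Real.exp_nat_mul, Real.exp_log (by norm_num)]
    exact h5
  have h7 := Real.exp_le_exp.1 h6
  have h8 := Real.log_two_gt_d9
  have hn : (0 : ℝ) ≤ n := Nat.cast_nonneg n
  nlinarith

end BMCube
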