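import Pool.Agent.Lib.MP_766f4a_gt.Opt
import Pool.Agent.Lib.MP_766f4a_gt.Elim
import Pool.Agent.Lib.MP_766f4a_gt.Spec

/-!
Module MAIN: the main estimate. Every symmetric set N between the Euclidean ball of radius
1 / sqrt d and the unit ball, with the contact property of John, has a basis in which the
l1-norm on N is at most a constant times d ^ (3/4).
-/

set_option autoImplicit false

namespace BMCube

open Matrix Finset

namespace Main

variable {d : ℕ}

lemma sq_sum_eq_dot (v : Fin d → ℝ) : ∑ i, v i ^ 2 = v ⬝ᵥ v := by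
  simp [dotProduct, sq]

/-- orthogonal matrices preserve the sum of squares -/
lemma sum_sq_mulVec {R : Matrix (Fin d) (Fin d) ℝ} (hR : Rᵀ * R = 1) (w : Fin d → ℝ) :
    ∑ i, (R *ᵥ w) i ^ 2 = ∑ i, w i ^ 2 := by
  rw [sq_sum_eq_dot, sq_sum_eq_dot]
  calc (R *ᵥ w) ⬝ᵥ (R *ᵥ w) = w ⬝ᵥ ((Rᵀ * R) *ᵥ w) := by
        rw [← mulVec_mulVec, dotProduct_mulVec w, vecMul_transpose]
    _ = w ⬝ᵥ w := by rw [hR, one_mulVec]

lemma trivial_basis (hd : 0 < d) (N : Set (Fin d → ℝ))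
    (hball : ∀ v ∈ N, v ⬝ᵥ v ≤ 1) (hin : ∀ v, (d : ℝ) * (v ⬝ᵥ v) ≤ 1 → v ∈ N) :
    ∃ g : Fin d → Fin d → ℝ, (∀ i, g i ∈ N) ∧
      ∀ v ∈ N, ∃ α : Fin d → ℝ, v = ∑ i, α i • g i ∧ ∑ i, |α i| ≤ d := by
  have hd' : (0 : ℝ) < d := by exact_mod_cast hd
  have hs : 0 < Real.sqrt d := Real.sqrt_pos.mpr hd'
  refine ⟨fun j => Pi.single j (1 / Real.sqrt d), ?_, ?_⟩
  · intro i
    apply hin
    rw [← sq_sum_eq_dot]
    rw [Finset.sum_eq_single i]
    · simp only [Pi.single_eq_same]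
      rw [div_pow, Real.sq_sqrt hd'.le]
      field_simp
      norm_num
    · intro b _ hb
      simp [Pi.single_eq_of_ne hb]
    · intro h; exact absurd (mem_univ i) h
  · intro v hv
    refine ⟨fun i => Real.sqrt d * v i, ?_, ?_⟩
    · ext j
      simp only [Finset.sum_apply, Pi.smul_apply, smul_eq_mul]
      rw [Finset.sum_eq_single j]
      · simp only [Pi.single_eq_same]
        field_simp
      · intro b _ hb
        simp [Pi.single_eq_of_ne hb.symm]
      · intro h; exact absurd (mem_univ j) h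
    · have h1 : ∑ i, |Real.sqrt d * v i| = Real.sqrt d * ∑ i, |v i| := by
        rw [Finset.mul_sum]
        refine Finset.sum_congr rfl fun i _ => ?_
        rw [abs_mul, abs_of_pos hs]
      rw [h1]
      have h2 : (∑ i, |v i|) ^ 2 ≤ d * 1 := by
        calc (∑ i, |v i|) ^ 2 ≤ (Finset.univ : Finset (Fin d)).card * ∑ i, |v i| ^ 2 :=
              sq_sum_le_card_mul_sum_sq
          _ = d * (v ⬝ᵥ v) := by
              rw [← sq_sum_eq_dot]; simp
          _ ≤ d * 1 := by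
              apply mul_le_mul_of_nonneg_left (hball v hv) hd'.le
      have h3 : ∑ i, |v i| ≤ Real.sqrt d := by
        apply Real.le_sqrt_of_sq_le
        linarith
      calc Real.sqrt d * ∑ i, |v i| ≤ Real.sqrt d * Real.sqrt d := by gcongr
        _ = d := Real.mul_self_sqrt hd'.le

/-- cauchy-schwarz for sums of absolute values over a finset -/
lemma sum_abs_le {ι : Type*} (s : Finset ι) (f : ι → ℝ) :
    ∑ i ∈ s, |f i| ≤ Real.sqrt s.card * Real.sqrt (∑ i ∈ s, f i ^ 2) := by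
  rw [← Real.sqrt_mul (by positivity)]
  apply Real.le_sqrt_of_sq_le
  calc (∑ i ∈ s, |f i|) ^ 2 ≤ s.card * ∑ i ∈ s, |f i| ^ 2 := sq_sum_le_card_mul_sum_sq
    _ = s.card * ∑ i ∈ s, f i ^ 2 := by simp

/-- triangle inequality for the Euclidean norm of functions -/
lemma sqrt_sum_add_le {ι : Type*} (s : Finset ι) (f g : ι → ℝ) :
    Real.sqrt (∑ i ∈ s, (f i + g i) ^ 2) ≤
      Real.sqrt (∑ i ∈ s, f i ^ 2) + Real.sqrt (∑ i ∈ s, g i ^ 2) := by
  have hf : 0 ≤ ∑ i ∈ s, f i ^ 2 := Finset.sum_nonneg fun _ _ => sq_nonneg _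
  have hg : 0 ≤ ∑ i ∈ s, g i ^ 2 := Finset.sum_nonneg fun _ _ => sq_nonneg _
  have hcs : (∑ i ∈ s, f i * g i) ≤ Real.sqrt (∑ i ∈ s, f i ^ 2) * Real.sqrt (∑ i ∈ s, g i ^ 2) := by
    rw [← Real.sqrt_mul hf]
    apply Real.le_sqrt_of_sq_le
    exact Finset.sum_mul_sq_le_sq_mul_sq s f g
  apply Real.sqrt_le_iff.mpr
  constructor
  · positivity
  · calc ∑ i ∈ s, (f i + g i) ^ 2
        = ∑ i ∈ s, f i ^ 2 + 2 * ∑ i ∈ s, f i * g i + ∑ i ∈ s, g i ^ 2 := by
          rw [Finset.mul_sum, ← Finset.sum_add_distrib, ← Finset.sum_add_distrib]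
          refine Finset.sum_congr rfl fun i _ => by ring
      _ ≤ ∑ i ∈ s, f i ^ 2 + 2 * (Real.sqrt (∑ i ∈ s, f i ^ 2) * Real.sqrt (∑ i ∈ s, g i ^ 2))
            + ∑ i ∈ s, g i ^ 2 := by linarith
      _ = (Real.sqrt (∑ i ∈ s, f i ^ 2) + Real.sqrt (∑ i ∈ s, g i ^ 2)) ^ 2 := by
          have h1 := Real.sq_sqrt hf
          have h2 := Real.sq_sqrt hg
          nlinarith

end Main

namespace Main

variable {d : ℕ}

lemma col_sq {R : Matrix (Fin d) (Fin d) ℝ} (hR : Rᵀ * R = 1) (j : Fin d) :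
    ∑ i, R i j ^ 2 = 1 := by
  have h := congrFun (congrFun hR j) j
  simp only [mul_apply, transpose_apply, one_apply_eq] at h
  rw [← h]
  exact Finset.sum_congr rfl fun i _ => by ring

lemma row_sq {R : Matrix (Fin d) (Fin d) ℝ} (hR : R * Rᵀ = 1) (i : Fin d) :
    ∑ j, R i j ^ 2 = 1 := by
  have h := congrFun (congrFun hR i) i
  simp only [mul_apply, transpose_apply, one_apply_eq] at h
  rw [← h]
  exact Finset.sum_congr rfl fun i _ => by ring

/-- the columns of `Y` in terms of the decomposition -/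
lemma y_eq {Y : Fin d → Fin d → ℝ} {L R : Matrix (Fin d) (Fin d) ℝ} {s : Fin d → ℝ}
    (hY : (Matrix.of Y)ᵀ = L * diagonal s * Rᵀ) (i : Fin d) :
    Y i = L *ᵥ (fun j => s j * R i j) := by
  ext a
  have h := congrFun (congrFun hY a) i
  simp only [transpose_apply, of_apply] at h
  rw [h, mul_apply]
  simp only [mul_diagonal, transpose_apply, mulVec, dotProduct]
  exact Finset.sum_congr rfl fun j _ => by ring

lemma sum_s_sq {Y : Fin d → Fin d → ℝ} {L R : Matrix (Fin d) (Fin d) ℝ} {s : Fin d → ℝ}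
    (hL : Lᵀ * L = 1) (hR : Rᵀ * R = 1)
    (hY : (Matrix.of Y)ᵀ = L * diagonal s * Rᵀ) (h1 : ∀ i, Y i ⬝ᵥ Y i ≤ 1) :
    ∑ j, s j ^ 2 ≤ d := by
  have h2 : ∀ i, ∑ j, s j ^ 2 * R i j ^ 2 ≤ 1 := by
    intro i
    have h3 := h1 i
    rw [← sq_sum_eq_dot, y_eq hY i, sum_sq_mulVec hL] at h3
    refine le_trans (le_of_eq ?_) h3
    exact Finset.sum_congr rfl fun j _ => by ring
  calc ∑ j, s j ^ 2 = ∑ j, s j ^ 2 * ∑ i, R i j ^ 2 := by
        refine Finset.sum_congr rfl fun j _ => ?_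
        rw [col_sq hR, mul_one]
    _ = ∑ i, ∑ j, s j ^ 2 * R i j ^ 2 := by
        simp_rw [Finset.mul_sum]
        rw [Finset.sum_comm]
    _ ≤ ∑ i : Fin d, (1 : ℝ) := Finset.sum_le_sum fun i _ => h2 i
    _ = d := by simp

lemma X_mul {R : Matrix (Fin d) (Fin d) ℝ} (hR : Rᵀ * R = 1) (x : Fin d → ℝ) (lam : ℝ)
    (h : ∀ i, (∑ j, x j * R i j ^ 2) * lam ≤ 4) : (∑ j, x j) * lam ≤ 4 * d := by
  calc (∑ j, x j) * lam = (∑ j, x j * ∑ i, R i j ^ 2) * lam := by
        congr 1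
        refine Finset.sum_congr rfl fun j _ => ?_
        rw [col_sq hR, mul_one]
    _ = ∑ i, (∑ j, x j * R i j ^ 2) * lam := by
        simp_rw [Finset.mul_sum]
        rw [Finset.sum_comm, Finset.sum_mul]
    _ ≤ ∑ i : Fin d, (4 : ℝ) := Finset.sum_le_sum fun i _ => h i
    _ = 4 * d := by simp; ring

lemma X_lower (s : Fin d → ℝ) (t : ℝ) (ht : 0 < t) (ht1 : t ≤ 1) (hs : ∑ j, s j ^ 2 ≤ d) :
    (d : ℝ) * t / 2 ≤ ∑ j, t / (t + s j ^ 2) := by
  have h1 : ∀ j, t * ((t + 2 - s j ^ 2) / (1 + t) ^ 2) ≤ t / (t + s j ^ 2) := by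
    intro j
    have hp : 0 < t + s j ^ 2 := by positivity
    rw [div_eq_mul_inv t]
    apply mul_le_mul_of_nonneg_left _ ht.le
    rw [div_le_iff₀ (by positivity), inv_mul_eq_div, le_div_iff₀ hp]
    nlinarith [sq_nonneg (s j ^ 2 - 1)]
  calc (d : ℝ) * t / 2 ≤ t * (d / (1 + t)) := by
        rw [div_le_iff₀ (by norm_num : (0:ℝ) < 2)]
        have h2 : (d : ℝ) ≤ d / (1 + t) * 2 := by
          rw [div_mul_eq_mul_div, le_div_iff₀ (by positivity)]
          have : (0 : ℝ) ≤ d := Nat.cast_nonneg d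
          nlinarith
        nlinarith
    _ ≤ t * ∑ j, ((t + 2 - s j ^ 2) / (1 + t) ^ 2) := by
        apply mul_le_mul_of_nonneg_left _ ht.le
        rw [← Finset.sum_div, Finset.sum_sub_distrib, Finset.sum_const, Finset.card_univ,
          Fintype.card_fin, nsmul_eq_mul, div_le_div_iff₀ (by positivity) (by positivity)]
        have : (0 : ℝ) ≤ d := Nat.cast_nonneg d
        nlinarith
    _ ≤ ∑ j, t / (t + s j ^ 2) := by
        rw [Finset.mul_sum]
        exact Finset.sum_le_sum fun j _ => h1 j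

end Main

namespace Main

variable {d : ℕ}

/-- The representation identity. -/
lemma represent {Y : Fin d → Fin d → ℝ} {L R : Matrix (Fin d) (Fin d) ℝ} {s : Fin d → ℝ}
    (hR : Rᵀ * R = 1)
    (hY : (Matrix.of Y)ᵀ = L * diagonal s * Rᵀ) (J : Finset (Fin d))
    (Z : Matrix (Fin d) (Fin d) ℝ) (ν : Fin d → ℝ) (β x : Fin d → ℝ) (r : ℝ) (hr : r ≠ 0)
    (hs : ∀ j, j ∉ J → s j ≠ 0)
    (hx : x = R *ᵥ (fun j => if j ∈ J then 0 else ν j / s j) + R *ᵥ β)
    (hβ : ∀ j, j ∉ J → β j = 0)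
    (hxJ : ∀ j ∈ J, x j = - ∑ i ∈ Jᶜ, Z j i * x i) :
    L *ᵥ ν = ∑ i, (if i ∈ J then r * (ν i - s i * β i) else 2 * x i) •
      (if i ∈ J then (1 / r) • (fun a => L a i) else
        (1 / 2 : ℝ) • (Y i - ∑ j ∈ J, Z j i • Y j)) := by
  have hYx : (Matrix.of Y)ᵀ *ᵥ x = L *ᵥ (fun j => if j ∈ J then s j * β j else ν j) := by
    have h1 : Rᵀ *ᵥ x = fun j => if j ∈ J then β j else ν j / s j := by
      rw [hx, mulVec_add, mulVec_mulVec, mulVec_mulVec, hR, one_mulVec, one_mulVec]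
      ext j
      by_cases hj : j ∈ J
      · simp [hj]
      · simp [hj, hβ j hj]
    rw [hY, ← mulVec_mulVec, ← mulVec_mulVec, h1]
    congr 1
    ext j
    rw [mulVec_diagonal]
    by_cases hj : j ∈ J
    · simp [hj]
    · simp only [hj, if_false]
      field_simp [hs j hj]
  have hYx2 : (Matrix.of Y)ᵀ *ᵥ x = ∑ i, x i • Y i := by
    ext a
    simp only [mulVec, dotProduct, transpose_apply, of_apply, Finset.sum_apply, Pi.smul_apply,
      smul_eq_mul]
    exact Finset.sum_congr rfl fun i _ => by ring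
  have hsplit : ∑ i, x i • Y i = ∑ i ∈ Jᶜ, x i • (Y i - ∑ j ∈ J, Z j i • Y j) := by
    rw [← Finset.sum_add_sum_compl J (fun i => x i • Y i)]
    have h2 : ∑ j ∈ J, x j • Y j = - ∑ i ∈ Jᶜ, x i • ∑ j ∈ J, Z j i • Y j := by
      have h3 : ∀ j ∈ J, x j • Y j = - ∑ i ∈ Jᶜ, x i • (Z j i • Y j) := by
        intro j hj
        conv_lhs => rw [hxJ j hj]
        rw [neg_smul, Finset.sum_smul]
        congr 1
        refine Finset.sum_congr rfl fun i _ => ?_
        rw [smul_smul, mul_comm]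
      rw [Finset.sum_congr rfl h3, Finset.sum_neg_distrib, Finset.sum_comm]
      congr 1
      refine Finset.sum_congr rfl fun i _ => ?_
      rw [Finset.smul_sum]
    rw [h2]
    simp_rw [smul_sub]
    rw [Finset.sum_sub_distrib]
    abel
  have hL1 : L *ᵥ ν = L *ᵥ (fun j => if j ∈ J then s j * β j else ν j) +
      ∑ j ∈ J, (ν j - s j * β j) • (fun a => L a j) := by
    ext a
    simp only [mulVec, dotProduct, Pi.add_apply, Finset.sum_apply, Pi.smul_apply, smul_eq_mul]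
    rw [← Finset.sum_add_sum_compl J (fun j => L a j * ν j),
      ← Finset.sum_add_sum_compl J (fun j => L a j * (if j ∈ J then s j * β j else ν j))]
    have e1 : ∑ j ∈ J, L a j * (if j ∈ J then s j * β j else ν j) = ∑ j ∈ J, L a j * (s j * β j) :=
      Finset.sum_congr rfl fun j hj => by simp [hj]
    have e2 : ∑ j ∈ Jᶜ, L a j * (if j ∈ J then s j * β j else ν j) = ∑ j ∈ Jᶜ, L a j * ν j :=
      Finset.sum_congr rfl fun j hj => by
        have : j ∉ J := Finset.mem_compl.mp hj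
        simp [this]
    rw [e1, e2]
    have e3 : ∑ j ∈ J, (ν j - s j * β j) * L a j = ∑ j ∈ J, L a j * ν j - ∑ j ∈ J, L a j * (s j * β j) := by
      rw [← Finset.sum_sub_distrib]
      exact Finset.sum_congr rfl fun j _ => by ring
    rw [e3]; ring
  rw [hL1, ← hYx, hYx2, hsplit]
  rw [← Finset.sum_add_sum_compl J (fun i => (if i ∈ J then r * (ν i - s i * β i) else 2 * x i) •
      (if i ∈ J then (1 / r) • (fun a => L a i) else
        (1 / 2 : ℝ) • (Y i - ∑ j ∈ J, Z j i • Y j)))]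
  rw [add_comm]
  congr 1
  · refine Finset.sum_congr rfl fun j hj => ?_
    simp only [hj, if_true]
    rw [smul_smul]
    congr 1
    field_simp
  · refine Finset.sum_congr rfl fun j hj => ?_
    have hj' : j ∉ J := Finset.mem_compl.mp hj
    simp only [hj', if_false]
    rw [smul_smul]
    congr 1
    ring

end Main

namespace Main

variable {d : ℕ}

/-- absolutely convex combinations stay in a symmetric convex set -/
lemma combo_mem {N : Set (Fin d → ℝ)} (hconv : Convex ℝ N) (hsymm : ∀ v ∈ N, -v ∈ N)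
    (Y : Fin d → Fin d → ℝ) (hY : ∀ i, Y i ∈ N) (J : Finset (Fin d)) (z : Fin d → ℝ)
    (hz : ∑ j ∈ J, |z j| ≤ 1) (h0 : (0 : Fin d → ℝ) ∈ N) :
    ∑ j ∈ J, z j • Y j ∈ N := by
  have hz0 : 0 ≤ ∑ j ∈ J, |z j| := Finset.sum_nonneg fun _ _ => abs_nonneg _
  rcases hz0.eq_or_lt with h | h
  · have h1 : ∀ j ∈ J, z j • Y j = 0 := by
      intro j hj
      have := (Finset.sum_eq_zero_iff_of_nonneg (fun j _ => abs_nonneg (z j))).mp h.symm j hj
      rw [abs_eq_zero] at this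
      simp [this]
    rw [Finset.sum_congr rfl h1]
    simpa using h0
  · have h1 : ∑ j ∈ J, z j • Y j =
        (∑ j ∈ J, |z j|) • ∑ j ∈ J, (|z j| / ∑ j ∈ J, |z j|) • ((SignType.sign (z j) : ℝ) • Y j) := by
      rw [Finset.smul_sum]
      refine Finset.sum_congr rfl fun j _ => ?_
      rw [smul_smul, smul_smul]
      congr 1
      rw [mul_div_cancel₀ _ h.ne', mul_comm]
      exact (sign_mul_abs (z j)).symm
    have h2 : ∑ j ∈ J, (|z j| / ∑ j ∈ J, |z j|) • ((SignType.sign (z j) : ℝ) • Y j) ∈ N := by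
      apply hconv.sum_mem
      · intro j _; positivity
      · rw [← Finset.sum_div, div_self h.ne']
      · intro j _
        rcases lt_trichotomy (z j) 0 with hj | hj | hj
        · rw [sign_neg hj]; simpa using hsymm _ (hY j)
        · rw [hj]; simpa using h0
        · rw [sign_pos hj]; simpa using hY j
    rw [h1]
    have h3 := hconv h2 h0 hz0 (sub_nonneg.mpr hz) (by ring)
    simpa using h3

lemma g_mem {N : Set (Fin d → ℝ)} (hconv : Convex ℝ N) (hsymm : ∀ v ∈ N, -v ∈ N)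
    (Y : Fin d → Fin d → ℝ) (hY : ∀ i, Y i ∈ N) (J : Finset (Fin d)) (z : Fin d → ℝ)
    (hz : ∑ j ∈ J, |z j| ≤ 1) (h0 : (0 : Fin d → ℝ) ∈ N) (i : Fin d) :
    (1 / 2 : ℝ) • (Y i - ∑ j ∈ J, z j • Y j) ∈ N := by
  have h1 := combo_mem hconv hsymm Y hY J z hz h0
  have h2 := hconv (hY i) (hsymm _ h1) (by norm_num : (0:ℝ) ≤ 1/2) (by norm_num : (0:ℝ) ≤ 1/2)
    (by norm_num)
  rw [smul_sub, sub_eq_add_neg, ← smul_neg]
  exact h2

/-- Main estimate: everything except the choice of the parameters. -/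
lemma core (hd : 0 < d) (N : Set (Fin d → ℝ)) (hN : IsCompact N) (hconv : Convex ℝ N)
    (hsymm : ∀ v ∈ N, -v ∈ N) (hball : ∀ v ∈ N, v ⬝ᵥ v ≤ 1)
    (hin : ∀ v, (d : ℝ) * (v ⬝ᵥ v) ≤ 1 → v ∈ N) (c : ℕ) (hc0 : 0 < c) (hc1 : (d : ℝ) ≤ c ^ 2)
    (hc2 : (c : ℝ) ^ 2 ≤ 4 * d) (hbig : 4 * (c + 1) < d) :
    ∃ g : Fin d → Fin d → ℝ, (∀ i, g i ∈ N) ∧
      ∀ v ∈ N, ∃ α : Fin d → ℝ, v = ∑ i, α i • g i ∧
        ∑ i, |α i| ≤ 6000 * Real.sqrt (d * c) := by
  have hd' : (0 : ℝ) < d := by exact_mod_cast hd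
  have hc' : (0 : ℝ) < c := by exact_mod_cast hc0
  have h0 : (0 : Fin d → ℝ) ∈ N := hin 0 (by simp)
  obtain ⟨Y, k, hk, hYN, hswap, hup, hlow⟩ := opt N hN ⟨0, h0⟩ c (8 * c)
  obtain ⟨L, R, s, hL, hL', hR, hR', hs0, hY⟩ := exists_svd (Matrix.of Y)ᵀ
  set t : ℝ := (1 / 2) ^ k with ht_def
  have ht : 0 < t := by positivity
  have ht1 : t ≤ 1 := pow_le_one₀ (by norm_num) (by norm_num)
  set x : Fin d → ℝ := fun j => t / (t + s j ^ 2) with hx_def
  have hxpos : ∀ j, 0 < x j := fun j => by positivity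
  have hspec : ∀ i, ∀ v ∈ N, (∑ j, x j * R i j ^ 2) *
      (∑ j, (Lᵀ *ᵥ v) j ^ 2 / (t + s j ^ 2)) ≤ 4 := fun i v hv =>
    spec_q Y L R s hL hL' hR hR' hY t ht i v (hswap i v hv)
  have hsum : ∑ j, s j ^ 2 ≤ d := sum_s_sq hL hR hY (fun i => hball _ (hYN i))
  have hXlow : (d : ℝ) * t / 2 ≤ ∑ j, x j := X_lower s t ht ht1 hsum
  -- upper bound for X when k < 8c
  have hXup : k < 8 * c → ∑ j, x j ≤ 34 * c := by
    intro hk'
    have h1 := hup hk'
    rw [spec_F Y L R s hL hL' hR hR' hY, spec_F Y L R s hL hL' hR hR' hY] at h1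
    have h2 : ((1 : ℝ) / 2) ^ (k + 1) = t / 2 := by rw [pow_succ]; ring
    rw [h2] at h1
    have h3 := prod_upper s t ht (c + 2 * k + 1) h1
    refine h3.trans ?_
    have h4 : c + 2 * k + 1 ≤ 17 * c := by omega
    have h5 : ((c + 2 * k + 1 : ℕ) : ℝ) ≤ ((17 * c : ℕ) : ℝ) := by exact_mod_cast h4
    push_cast at h5 ⊢
    linarith
  -- k is at least one
  have hk1 : 1 ≤ k := by
    by_contra hk0
    have hk0' : k = 0 := by omega
    have h1 := hup (by omega)
    rw [spec_F Y L R s hL hL' hR hR' hY, spec_F Y L R s hL hL' hR hR' hY] at h1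
    have h2 : ((1 : ℝ) / 2) ^ (k + 1) = t / 2 := by rw [pow_succ]; ring
    rw [h2] at h1
    have h3 := prod_upper s t ht (c + 2 * k + 1) h1
    have h4 : t = 1 := by rw [ht_def, hk0']; simp
    rw [h4] at hXlow h3
    have h5 : (d : ℝ) * 1 / 2 ≤ 2 * ((c + 2 * k + 1 : ℕ) : ℝ) := by
      refine hXlow.trans ?_
      simpa [hx_def, h4] using h3
    rw [hk0'] at h5
    push_cast at h5
    have h6 : ((4 * (c + 1) : ℕ) : ℝ) < d := by exact_mod_cast hbig
    push_cast at h6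
    linarith
  have hXc : (c : ℝ) / 2 ≤ ∑ j, x j := by
    have h1 := hlow hk1
    rw [spec_F Y L R s hL hL' hR hR' hY, spec_F Y L R s hL hL' hR hR' hY] at h1
    have h2 : ((1 : ℝ) / 2) ^ (k - 1) = 2 * t := by
      obtain ⟨k', rfl⟩ : ∃ k', k = k' + 1 := ⟨k - 1, by omega⟩
      rw [ht_def, pow_succ, Nat.add_sub_cancel]; ring
    rw [h2] at h1
    have h3 := prod_lower s t ht (c + 2 * k - 1) h1
    have h4 : (c : ℝ) ≤ ((c + 2 * k - 1 : ℕ) : ℝ) := by
      exact_mod_cast (by omega : c ≤ c + 2 * k - 1)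
    linarith
  -- bound for lambda
  have hlam0 : ∀ v : Fin d → ℝ, 0 ≤ ∑ j, (Lᵀ *ᵥ v) j ^ 2 / (t + s j ^ 2) := fun v =>
    Finset.sum_nonneg fun j _ => by positivity
  have hlam : ∀ v ∈ N, ∑ j, (Lᵀ *ᵥ v) j ^ 2 / (t + s j ^ 2) ≤ 8 * c := by
    intro v hv
    have h1 := X_mul hR x _ (fun i => hspec i v hv)
    have h2 := hlam0 v
    have h3 : (c : ℝ) / 2 * (∑ j, (Lᵀ *ᵥ v) j ^ 2 / (t + s j ^ 2)) ≤ 4 * c ^ 2 := by
      calc _ ≤ (∑ j, x j) * (∑ j, (Lᵀ *ᵥ v) j ^ 2 / (t + s j ^ 2)) := by gcongr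
        _ ≤ 4 * d := h1
        _ ≤ 4 * c ^ 2 := by linarith
    nlinarith
  set J : Finset (Fin d) := Finset.univ.filter (fun j => s j ^ 2 ≤ t) with hJ_def
  have hJ : ∀ j, j ∈ J ↔ s j ^ 2 ≤ t := fun j => by simp [hJ_def]
  have hJX : (J.card : ℝ) ≤ 2 * ∑ j, x j := by
    have h1 : ∀ j ∈ J, (1 : ℝ) ≤ 2 * x j := by
      intro j hj
      have := (hJ j).mp hj
      rw [hx_def]
      simp only
      rw [mul_div_assoc', le_div_iff₀ (by positivity)]
      linarith
    calc (J.card : ℝ) = ∑ j ∈ J, (1 : ℝ) := by simp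
      _ ≤ ∑ j ∈ J, 2 * x j := Finset.sum_le_sum h1
      _ ≤ ∑ j, 2 * x j := Finset.sum_le_univ_sum_of_nonneg fun j => by
          have := hxpos j; positivity
      _ = 2 * ∑ j, x j := by rw [Finset.mul_sum]
  -- if J is nonempty then k < 8c
  have hJk : J.Nonempty → k < 8 * c := by
    rintro ⟨j0, hj0⟩
    by_contra hk8
    have hk8' : k = 8 * c := by omega
    have hj0' := (hJ j0).mp hj0
    have hsd : 0 < Real.sqrt d := Real.sqrt_pos.mpr hd'
    set v : Fin d → ℝ := L *ᵥ (Pi.single j0 (1 / Real.sqrt d)) with hv_def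
    have hvv : v ⬝ᵥ v = 1 / d := by
      rw [← sq_sum_eq_dot, hv_def, sum_sq_mulVec hL, Finset.sum_eq_single j0]
      · rw [Pi.single_eq_same, div_pow, Real.sq_sqrt hd'.le, one_pow]
      · intro b _ hb; simp [Pi.single_eq_of_ne hb]
      · intro h; exact absurd (mem_univ j0) h
    have hvN : v ∈ N := hin v (by rw [hvv]; field_simp; norm_num)
    have h1 := hlam v hvN
    have h2 : (Lᵀ *ᵥ v) = Pi.single j0 (1 / Real.sqrt d) := by
      rw [hv_def, mulVec_mulVec, hL, one_mulVec]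
    rw [h2, Finset.sum_eq_single j0] at h1
    · rw [Pi.single_eq_same, div_pow, Real.sq_sqrt hd'.le, one_pow] at h1
      have h3 : 1 / (d : ℝ) / (2 * t) ≤ 1 / (d : ℝ) / (t + s j0 ^ 2) := by
        apply div_le_div_of_nonneg_left (by positivity) (by positivity) (by linarith)
      have h4 : 1 / (d : ℝ) / (2 * t) ≤ 8 * c := h3.trans h1
      rw [div_div, div_le_iff₀ (by positivity)] at h4
      have h5 : (1 : ℝ) / t = 2 ^ (8 * c) := by
        rw [ht_def, hk8']; simp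
      have h6 : (2 : ℝ) ^ (8 * c) ≤ 16 * c * d := by
        rw [← h5, div_le_iff₀ ht]
        calc (1 : ℝ) ≤ 8 * c * (d * (2 * t)) := h4
          _ = 16 * c * d * t := by ring
      have h7 : (c : ℝ) + 1 ≤ 2 ^ c := by
        exact_mod_cast Nat.succ_le_of_lt (Nat.lt_two_pow_self)
      have h8 : (2 : ℝ) ^ (8 * c) = (2 ^ c) ^ 4 * (2 ^ c) ^ 4 := by
        rw [← pow_mul, ← pow_add]; congr 1; ring
      have h9 : (2 : ℝ) ≤ 2 ^ c := by
        calc (2 : ℝ) = 2 ^ 1 := by norm_num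
          _ ≤ 2 ^ c := pow_le_pow_right₀ (by norm_num) hc0
      have h10 : (16 : ℝ) ≤ (2 ^ c) ^ 4 := by
        calc (16 : ℝ) = 2 ^ 4 := by norm_num
          _ ≤ (2 ^ c) ^ 4 := pow_le_pow_left₀ (by norm_num) h9 4
      have h11 : ((c : ℝ) + 1) ^ 4 ≤ (2 ^ c) ^ 4 := pow_le_pow_left₀ (by positivity) h7 4
      have h12 : 16 * ((c : ℝ) + 1) ^ 4 ≤ 16 * c * d := by
        calc 16 * ((c : ℝ) + 1) ^ 4 ≤ (2 ^ c) ^ 4 * (2 ^ c) ^ 4 := by gcongr
          _ = 2 ^ (8 * c) := h8.symm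
          _ ≤ _ := h6
      have h13 : (c : ℝ) * d ≤ c * c ^ 2 := by gcongr
      have hc1' : (1 : ℝ) ≤ c := by exact_mod_cast hc0
      nlinarith [pow_pos hc' 2, pow_pos hc' 3, pow_pos hc' 4, mul_pos hc' hc']
    · intro b _ hb; simp [Pi.single_eq_of_ne hb]
    · intro h; exact absurd (mem_univ j0) h
  have hJcard : (J.card : ℝ) ≤ 68 * c := by
    rcases J.eq_empty_or_nonempty with h | h
    · rw [h]; simp
    · have := hXup (hJk h); linarith

  -- the bound for the rows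
  obtain ⟨i0, _, hi0⟩ := Finset.exists_max_image Finset.univ (fun i => ∑ j ∈ J, R i j ^ 2)
    ⟨⟨0, hd⟩, mem_univ _⟩
  have hi0nn : 0 ≤ ∑ j ∈ J, R i0 j ^ 2 := Finset.sum_nonneg fun _ _ => sq_nonneg _
  set β₀ : ℝ := Real.sqrt (∑ j ∈ J, R i0 j ^ 2) with hβ₀_def
  have hβ₀ : 0 ≤ β₀ := Real.sqrt_nonneg _
  have hβ₀sq : β₀ ^ 2 = ∑ j ∈ J, R i0 j ^ 2 := Real.sq_sqrt hi0nn
  have hβ₀le : β₀ ^ 2 ≤ 2 * ∑ j, x j * R i0 j ^ 2 := by
    rw [hβ₀sq, Finset.mul_sum]
    calc ∑ j ∈ J, R i0 j ^ 2 ≤ ∑ j ∈ J, 2 * (x j * R i0 j ^ 2) := by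
          refine Finset.sum_le_sum fun j hj => ?_
          have h1 : (1 : ℝ) ≤ 2 * x j := by
            have := (hJ j).mp hj
            rw [hx_def]
            simp only
            rw [mul_div_assoc', le_div_iff₀ (by positivity)]
            linarith
          nlinarith [sq_nonneg (R i0 j)]
      _ ≤ ∑ j, 2 * (x j * R i0 j ^ 2) := Finset.sum_le_univ_sum_of_nonneg fun j => by
          have := hxpos j; positivity
  obtain ⟨Z, hZ, hZ2⟩ := elim R hR hR' J β₀ hβ₀ (fun i => by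
    rw [hβ₀sq]; exact hi0 i (mem_univ _))
  have hsd : 0 < Real.sqrt d := Real.sqrt_pos.mpr hd'
  have hsc : 0 < Real.sqrt c := Real.sqrt_pos.mpr hc'
  refine ⟨fun i => if i ∈ J then (1 / Real.sqrt d) • (fun a => L a i) else
    (1 / 2 : ℝ) • (Y i - ∑ j ∈ J, Z j i • Y j), ?_, ?_⟩
  · intro i
    by_cases hi : i ∈ J
    · simp only [hi, if_true]
      apply hin
      have h1 : ((1 / Real.sqrt d) • (fun a => L a i)) ⬝ᵥ ((1 / Real.sqrt d) • (fun a => L a i))
          = 1 / d := by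
        rw [← sq_sum_eq_dot]
        simp only [Pi.smul_apply, smul_eq_mul, mul_pow]
        rw [← Finset.mul_sum, col_sq hL, mul_one, div_pow, Real.sq_sqrt hd'.le, one_pow]
      rw [h1]
      field_simp
      norm_num
    · simp only [hi, if_false]
      exact g_mem hconv hsymm Y hYN J (fun j => Z j i) (hZ i) h0 i
  · intro v hv
    set ν : Fin d → ℝ := Lᵀ *ᵥ v with hν_def
    have hνsq : ∑ j, ν j ^ 2 = v ⬝ᵥ v := by
      rw [hν_def, sum_sq_mulVec (by rw [transpose_transpose]; exact hL'), sq_sum_eq_dot]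
    set w : Fin d → ℝ := fun j => if j ∈ J then 0 else ν j / s j with hw_def
    set lam : ℝ := ∑ j, ν j ^ 2 / (t + s j ^ 2) with hlam_def
    have hlamv : lam ≤ 8 * c := hlam v hv
    have hlamnn : 0 ≤ lam := hlam0 v
    have hb : ∑ i, (R *ᵥ w) i ^ 2 ≤ 2 * lam := by
      rw [sum_sq_mulVec hR, hlam_def, Finset.mul_sum]
      refine Finset.sum_le_sum fun j _ => ?_
      by_cases hj : j ∈ J
      · have h1 : 0 ≤ ν j ^ 2 / (t + s j ^ 2) := by positivity
        simp only [hw_def, hj, if_true]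
        linarith
      · have h1 : t < s j ^ 2 := by
          rw [hJ] at hj; linarith
        simp only [hw_def, hj, if_false]
        rw [div_pow, mul_div_assoc', div_le_div_iff₀ (ht.trans h1) (by positivity)]
        nlinarith [sq_nonneg (ν j)]
    obtain ⟨β, hβJ, hβn, hβe⟩ := hZ2 (R *ᵥ w) (by
      intro j hj
      have h1 : (Rᵀ *ᵥ (R *ᵥ w)) j = w j := by rw [mulVec_mulVec, hR, one_mulVec]
      simp only [mulVec, dotProduct, transpose_apply] at h1 ⊢
      rw [h1]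
      simp [hw_def, hj])
    set nb : ℝ := Real.sqrt (∑ i, (R *ᵥ w) i ^ 2) with hnb_def
    have hnb0 : 0 ≤ nb := Real.sqrt_nonneg _
    have hnbsq : nb ^ 2 = ∑ i, (R *ᵥ w) i ^ 2 :=
      Real.sq_sqrt (Finset.sum_nonneg fun _ _ => sq_nonneg _)
    have hnb : nb ≤ 4 * Real.sqrt c := by
      apply Real.sqrt_le_iff.mpr
      refine ⟨by positivity, ?_⟩
      rw [mul_pow, Real.sq_sqrt hc'.le]
      linarith
    have hβnb : β₀ * nb ≤ 4 := by
      have h1 : (β₀ * nb) ^ 2 ≤ 4 ^ 2 := by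
        rw [mul_pow, hnbsq]
        have h2 := hspec i0 v hv
        have h3 : 0 ≤ ∑ j, x j * R i0 j ^ 2 := Finset.sum_nonneg fun j _ => by
          have := hxpos j; positivity
        calc β₀ ^ 2 * ∑ i, (R *ᵥ w) i ^ 2 ≤ (2 * ∑ j, x j * R i0 j ^ 2) * (2 * lam) := by
              gcongr
          _ = 4 * ((∑ j, x j * R i0 j ^ 2) * lam) := by ring
          _ ≤ 4 * 4 := by gcongr
          _ = 4 ^ 2 := by norm_num
      exact (pow_le_pow_iff_left₀ (by positivity) (by norm_num) two_ne_zero).mp h1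
    have hJsqrt : Real.sqrt J.card ≤ 33 / 4 * Real.sqrt c := by
      apply Real.sqrt_le_iff.mpr
      refine ⟨by positivity, ?_⟩
      rw [mul_pow, Real.sq_sqrt hc'.le]
      norm_num
      linarith
    have hnβ : Real.sqrt (∑ j, β j ^ 2) ≤ 41 * Real.sqrt c := by
      calc Real.sqrt (∑ j, β j ^ 2) ≤ (2 + Real.sqrt J.card * β₀) * nb := hβn
        _ = 2 * nb + Real.sqrt J.card * (β₀ * nb) := by ring
        _ ≤ 2 * (4 * Real.sqrt c) + 33 / 4 * Real.sqrt c * 4 := by gcongr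
        _ = 41 * Real.sqrt c := by ring
    set X : Fin d → ℝ := R *ᵥ w + R *ᵥ β with hX_def
    have hnX : Real.sqrt (∑ i, X i ^ 2) ≤ 45 * Real.sqrt c := by
      calc Real.sqrt (∑ i, X i ^ 2) ≤ nb + Real.sqrt (∑ i, (R *ᵥ β) i ^ 2) :=
            sqrt_sum_add_le Finset.univ (R *ᵥ w) (R *ᵥ β)
        _ = nb + Real.sqrt (∑ j, β j ^ 2) := by rw [sum_sq_mulVec hR]
        _ ≤ 4 * Real.sqrt c + 41 * Real.sqrt c := by gcongr
        _ = 45 * Real.sqrt c := by ring
    have hrep := represent (Y := Y) (L := L) (R := R) (s := s) hR hY J Z ν β X (Real.sqrt d) hsd.ne'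
      (fun j hj hsj => by
        rw [hJ, hsj] at hj
        apply hj
        simpa using ht.le) hX_def hβJ hβe
    have hLν : L *ᵥ ν = v := by rw [hν_def, mulVec_mulVec, hL', one_mulVec]
    rw [hLν] at hrep
    refine ⟨_, hrep, ?_⟩
    rw [← Finset.sum_add_sum_compl J]
    have hS1 : ∑ i ∈ Jᶜ, |if i ∈ J then Real.sqrt d * (ν i - s i * β i) else 2 * X i| ≤
        90 * (Real.sqrt d * Real.sqrt c) := by
      calc _ = ∑ i ∈ Jᶜ, 2 * |X i| := by
            refine Finset.sum_congr rfl fun i hi => ?_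
            have : i ∉ J := Finset.mem_compl.mp hi
            simp only [this, if_false]
            rw [abs_mul, abs_of_pos (by norm_num : (0:ℝ) < 2)]
        _ ≤ ∑ i, 2 * |X i| := Finset.sum_le_univ_sum_of_nonneg fun i => by positivity
        _ = 2 * ∑ i, |X i| := by rw [Finset.mul_sum]
        _ ≤ 2 * (Real.sqrt (Finset.univ : Finset (Fin d)).card * Real.sqrt (∑ i, X i ^ 2)) := by
            gcongr
            exact sum_abs_le Finset.univ X
        _ ≤ 2 * (Real.sqrt d * (45 * Real.sqrt c)) := by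
            rw [Finset.card_univ, Fintype.card_fin]
            gcongr
        _ = 90 * (Real.sqrt d * Real.sqrt c) := by ring
    have hS2 : ∑ i ∈ J, |if i ∈ J then Real.sqrt d * (ν i - s i * β i) else 2 * X i| ≤
        5600 * (Real.sqrt d * Real.sqrt c) := by
      rcases J.eq_empty_or_nonempty with hJe | hJne
      · rw [hJe, Finset.sum_empty]; positivity
      · have hX34 := hXup (hJk hJne)
        have htc : Real.sqrt t * Real.sqrt c ≤ 33 / 2 := by
          rw [← Real.sqrt_mul ht.le]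
          apply Real.sqrt_le_iff.mpr
          refine ⟨by norm_num, ?_⟩
          have h1 : (d : ℝ) * t ≤ 68 * c := by linarith
          have h2 : (d : ℝ) * (t * c) ≤ 68 * c ^ 2 := by nlinarith
          have h3 : (d : ℝ) * (t * c) ≤ 272 * d := by linarith
          have h4 : t * c ≤ 272 := by nlinarith
          norm_num
          linarith
        have h1 : Real.sqrt (∑ i ∈ J, (ν i - s i * β i) ^ 2) ≤ 678 := by
          have h2 : ∑ i ∈ J, (ν i - s i * β i) ^ 2 = ∑ i ∈ J, (ν i + -(s i * β i)) ^ 2 := by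
            refine Finset.sum_congr rfl fun i _ => by ring
          have h3 : Real.sqrt (∑ i ∈ J, ν i ^ 2) ≤ 1 := by
            rw [Real.sqrt_le_one]
            calc ∑ i ∈ J, ν i ^ 2 ≤ ∑ i, ν i ^ 2 :=
                  Finset.sum_le_univ_sum_of_nonneg fun i => sq_nonneg _
              _ ≤ 1 := by rw [hνsq]; exact hball v hv
          have h4 : Real.sqrt (∑ i ∈ J, (-(s i * β i)) ^ 2) ≤ Real.sqrt t * (41 * Real.sqrt c) := by
            calc Real.sqrt (∑ i ∈ J, (-(s i * β i)) ^ 2) ≤ Real.sqrt (t * ∑ i, β i ^ 2) := by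
                  apply Real.sqrt_le_sqrt
                  rw [Finset.mul_sum]
                  calc ∑ i ∈ J, (-(s i * β i)) ^ 2 ≤ ∑ i ∈ J, t * β i ^ 2 := by
                        refine Finset.sum_le_sum fun i hi => ?_
                        have := (hJ i).mp hi
                        nlinarith [sq_nonneg (β i)]
                    _ ≤ ∑ i, t * β i ^ 2 := Finset.sum_le_univ_sum_of_nonneg fun i => by positivity
              _ = Real.sqrt t * Real.sqrt (∑ i, β i ^ 2) := Real.sqrt_mul ht.le _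
              _ ≤ Real.sqrt t * (41 * Real.sqrt c) := by gcongr
          calc Real.sqrt (∑ i ∈ J, (ν i - s i * β i) ^ 2)
              ≤ Real.sqrt (∑ i ∈ J, ν i ^ 2) + Real.sqrt (∑ i ∈ J, (-(s i * β i)) ^ 2) := by
                rw [h2]; exact sqrt_sum_add_le J ν (fun i => -(s i * β i))
            _ ≤ 1 + Real.sqrt t * (41 * Real.sqrt c) := by gcongr
            _ = 1 + 41 * (Real.sqrt t * Real.sqrt c) := by ring
            _ ≤ 678 := by linarith
        calc _ = ∑ i ∈ J, Real.sqrt d * |ν i - s i * β i| := by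
              refine Finset.sum_congr rfl fun i hi => ?_
              simp only [hi, if_true]
              rw [abs_mul, abs_of_pos hsd]
          _ = Real.sqrt d * ∑ i ∈ J, |ν i - s i * β i| := by rw [Finset.mul_sum]
          _ ≤ Real.sqrt d * (Real.sqrt J.card * Real.sqrt (∑ i ∈ J, (ν i - s i * β i) ^ 2)) := by
              gcongr
              exact sum_abs_le J (fun i => ν i - s i * β i)
          _ ≤ Real.sqrt d * (33 / 4 * Real.sqrt c * 678) := by gcongr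
          _ ≤ 5600 * (Real.sqrt d * Real.sqrt c) := by
              nlinarith [mul_pos hsd hsc]
    have hfin : Real.sqrt (d * c) = Real.sqrt d * Real.sqrt c := Real.sqrt_mul hd'.le _
    rw [hfin]
    have := mul_pos hsd hsc
    linarith

end Main

/-- Every symmetric convex body `N` of `ℝ^d` with `B/√d ⊆ N ⊆ B` contains vectors
`g_1, …, g_d` such that every point of `N` is a combination of them with coefficients of
total size at most `A d^(3/4)`. -/
theorem exists_basis : ∃ A : ℝ, 0 < A ∧ ∀ (d : ℕ), 0 < d → ∀ N : Set (Fin d → ℝ),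
    IsCompact N → Convex ℝ N → (∀ v ∈ N, -v ∈ N) → (∀ v ∈ N, v ⬝ᵥ v ≤ 1) →
    (∀ v, (d : ℝ) * (v ⬝ᵥ v) ≤ 1 → v ∈ N) →
    ∃ g : Fin d → Fin d → ℝ, (∀ i, g i ∈ N) ∧
      ∀ v ∈ N, ∃ α : Fin d → ℝ, v = ∑ i, α i • g i ∧
        ∑ i, |α i| ≤ A * (d : ℝ) ^ (3 / 4 : ℝ) := by
  refine ⟨9000, by norm_num, ?_⟩
  intro d hd N hN hconv hsymm hball hin
  have hd' : (0 : ℝ) < d := by exact_mod_cast hd
  have hd1 : (1 : ℝ) ≤ d := by exact_mod_cast hd
  set c : ℕ := ⌈Real.sqrt d⌉₊ with hc_def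
  have hsd1 : 1 ≤ Real.sqrt d := Real.one_le_sqrt.mpr hd1
  have hcge : Real.sqrt d ≤ c := Nat.le_ceil _
  have hcle : (c : ℝ) ≤ 2 * Real.sqrt d := by
    have := Nat.ceil_lt_add_one (Real.sqrt_nonneg (d : ℝ))
    have h2 : (c : ℝ) < Real.sqrt d + 1 := this
    linarith
  have hsq : Real.sqrt d ^ 2 = d := Real.sq_sqrt hd'.le
  have hc0 : 0 < c := by
    have : (0 : ℝ) < c := by linarith
    exact_mod_cast this
  have hpow : (d : ℝ) ^ (3 / 4 : ℝ) = Real.sqrt d * Real.sqrt (Real.sqrt d) := by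
    rw [Real.sqrt_eq_rpow, Real.sqrt_eq_rpow, ← Real.rpow_mul hd'.le, ← Real.rpow_add hd']
    norm_num
  by_cases hbig : 4 * (c + 1) < d
  · obtain ⟨g, hg, hv⟩ := Main.core hd N hN hconv hsymm hball hin c hc0 (by nlinarith)
      (by nlinarith) hbig
    refine ⟨g, hg, fun v hvN => ?_⟩
    obtain ⟨α, h1, h2⟩ := hv v hvN
    refine ⟨α, h1, h2.trans ?_⟩
    have h3 : Real.sqrt (d * c) ≤ 3 / 2 * (Real.sqrt d * Real.sqrt (Real.sqrt d)) := by
      rw [Real.sqrt_mul hd'.le]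
      have h4 : Real.sqrt c ≤ 3 / 2 * Real.sqrt (Real.sqrt d) := by
        apply Real.sqrt_le_iff.mpr
        refine ⟨by positivity, ?_⟩
        rw [mul_pow, Real.sq_sqrt (Real.sqrt_nonneg _)]
        linarith
      calc Real.sqrt d * Real.sqrt c ≤ Real.sqrt d * (3 / 2 * Real.sqrt (Real.sqrt d)) := by gcongr
        _ = _ := by ring
    rw [hpow]
    linarith
  · obtain ⟨g, hg, hv⟩ := Main.trivial_basis hd N hball hin
    refine ⟨g, hg, fun v hvN => ?_⟩
    obtain ⟨α, h1, h2⟩ := hv v hvN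
    refine ⟨α, h1, h2.trans ?_⟩
    have h3 : (d : ℝ) ≤ 4 * (c + 1) := by
      have : d ≤ 4 * (c + 1) := by omega
      exact_mod_cast this
    have h4 : (d : ℝ) ≤ 12 * Real.sqrt d := by linarith
    have h5 : 1 ≤ Real.sqrt (Real.sqrt d) := Real.one_le_sqrt.mpr hsd1
    rw [hpow]
    nlinarith [mul_nonneg (Real.sqrt_nonneg (d:ℝ)) (sub_nonneg.mpr h5)]

end BMCube
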