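import Pool.Agent.Lib.MP_766f4a_gt.Defs

/-!
# MP_766f4a_gt, module OPT: the extremal family (step 1 of the proof)
-/

set_option autoImplicit false

namespace BMCube

open Matrix

namespace Opt

variable {d : ℕ}

/-- the Gram part `∑_{j ≠ i} y_j y_jᵀ` -/
noncomputable def G0 (Y : Fin d → Fin d → ℝ) (i : Fin d) : Matrix (Fin d) (Fin d) ℝ :=
  ∑ j ∈ Finset.univ.erase i, vecMulVec (Y j) (Y j)

lemma vec_psd (a : Fin d → ℝ) : (vecMulVec a a).PosSemidef := by
  have h := posSemidef_vecMulVec_self_star (R := ℝ) a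
  simpa using h

lemma G0_psd (Y : Fin d → Fin d → ℝ) (i : Fin d) : (G0 Y i).PosSemidef :=
  posSemidef_sum _ fun j _ => vec_psd (Y j)

lemma smul_one_pd {t : ℝ} (ht : 0 < t) : (t • (1 : Matrix (Fin d) (Fin d) ℝ)).PosDef :=
  Matrix.PosDef.smul Matrix.PosDef.one ht

lemma S0_pd (Y : Fin d → Fin d → ℝ) {t : ℝ} (ht : 0 < t) (i : Fin d) : (S0 Y t i).PosDef :=
  (smul_one_pd ht).add_posSemidef (G0_psd Y i)

lemma S0_update (Y : Fin d → Fin d → ℝ) (t : ℝ) (i : Fin d) (v : Fin d → ℝ) :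
    S0 (Function.update Y i v) t i = S0 Y t i := by
  unfold S0
  congr 1
  refine Finset.sum_congr rfl fun j hj => ?_
  rw [Function.update_of_ne (Finset.ne_of_mem_erase hj)]

lemma q_update (Y : Fin d → Fin d → ℝ) (t : ℝ) (i : Fin d) (v u : Fin d → ℝ) :
    q (Function.update Y i v) t i u = q Y t i u := by
  unfold q
  rw [S0_update]

/-- (F1) -/
lemma F_eq (Y : Fin d → Fin d → ℝ) {t : ℝ} (ht : 0 < t) (i : Fin d) :
    F Y t = (S0 Y t i).det * (1 + q Y t i (Y i)) := by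
  have hunit : IsUnit (S0 Y t i).det := (S0_pd Y ht i).det_pos.ne'.isUnit
  have h1 : t • (1 : Matrix (Fin d) (Fin d) ℝ) + ∑ j, vecMulVec (Y j) (Y j) =
      S0 Y t i + replicateCol Unit (Y i) * replicateRow Unit (Y i) := by
    unfold S0
    rw [← Finset.add_sum_erase _ _ (Finset.mem_univ i), vecMulVec_eq Unit]
    abel
  unfold F
  rw [h1, det_add_replicateCol_mul_replicateRow hunit]
  congr 1
  rw [det_unique]
  simp only [Matrix.add_apply, Matrix.one_apply_eq, q]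
  congr 1
  rw [Matrix.mul_assoc, Matrix.mul_apply']
  congr 1

/-- quadratic forms of inverses -/
lemma inv_le {A B : Matrix (Fin d) (Fin d) ℝ} (hA : A.PosDef) (hB : B.PosDef)
    (hAB : (B - A).PosSemidef) (u : Fin d → ℝ) :
    u ⬝ᵥ (B⁻¹ *ᵥ u) ≤ u ⬝ᵥ (A⁻¹ *ᵥ u) := by
  have hAu : IsUnit A.det := hA.det_pos.ne'.isUnit
  have hBu : IsUnit B.det := hB.det_pos.ne'.isUnit
  set x := A⁻¹ *ᵥ u with hx
  set y := B⁻¹ *ᵥ u with hy
  have hAx : A *ᵥ x = u := by rw [hx, mulVec_mulVec, mul_nonsing_inv _ hAu, one_mulVec]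
  have hBy : B *ᵥ y = u := by rw [hy, mulVec_mulVec, mul_nonsing_inv _ hBu, one_mulVec]
  have h1 : 0 ≤ (x - y) ⬝ᵥ (A *ᵥ (x - y)) := by
    have := hA.posSemidef.dotProduct_mulVec_nonneg (x - y)
    simpa using this
  have h2 : 0 ≤ y ⬝ᵥ ((B - A) *ᵥ y) := by
    have := hAB.dotProduct_mulVec_nonneg y
    simpa using this
  have hsym : x ⬝ᵥ (A *ᵥ y) = y ⬝ᵥ (A *ᵥ x) := by
    have hAT : Aᵀ = A := by
      have := hA.isHermitian
      rwa [Matrix.IsHermitian, conjTranspose_eq_transpose_of_trivial] at this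
    rw [dotProduct_mulVec, ← mulVec_transpose, hAT, dotProduct_comm]
  rw [mulVec_sub, sub_dotProduct, dotProduct_sub, dotProduct_sub, hAx] at h1
  rw [hAx] at hsym
  rw [sub_mulVec, dotProduct_sub, hBy] at h2
  rw [dotProduct_comm u y, dotProduct_comm u x]
  linarith

lemma q_nonneg (Y : Fin d → Fin d → ℝ) {t : ℝ} (ht : 0 < t) (i : Fin d) (u : Fin d → ℝ) :
    0 ≤ q Y t i u := by
  have := (S0_pd Y ht i).inv.posSemidef.dotProduct_mulVec_nonneg u
  simpa [q] using this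

/-- (F2), first half -/
lemma q_le (Y : Fin d → Fin d → ℝ) {t : ℝ} (ht : 0 < t) (i : Fin d) (u : Fin d → ℝ) :
    q Y t i u ≤ q Y (t / 2) i u := by
  unfold q
  refine inv_le (S0_pd Y (half_pos ht) i) (S0_pd Y ht i) ?_ u
  have : S0 Y t i - S0 Y (t / 2) i = (t / 2) • (1 : Matrix (Fin d) (Fin d) ℝ) := by
    unfold S0
    rw [add_sub_add_right_eq_sub, ← sub_smul]
    congr 1
    ring
  rw [this]
  exact (smul_one_pd (half_pos ht)).posSemidef

/-- (F2), second half -/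
lemma q_le' (Y : Fin d → Fin d → ℝ) {t : ℝ} (ht : 0 < t) (i : Fin d) (u : Fin d → ℝ) :
    q Y (t / 2) i u ≤ 2 * q Y t i u := by
  have hA : ((1 / 2 : ℝ) • S0 Y t i).PosDef := Matrix.PosDef.smul (S0_pd Y ht i) (by norm_num)
  have h := inv_le hA (S0_pd Y (half_pos ht) i) (by
    have : S0 Y (t / 2) i - (1 / 2 : ℝ) • S0 Y t i = (1 / 2 : ℝ) • G0 Y i := by
      unfold S0 G0
      rw [smul_add, smul_smul]
      have : (1 / 2 : ℝ) * t = t / 2 := by ring
      rw [this, add_sub_add_left_eq_sub]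
      nth_rewrite 1 [← one_smul ℝ (∑ j ∈ Finset.univ.erase i, vecMulVec (Y j) (Y j))]
      rw [← sub_smul]
      congr 1
      norm_num
    rw [this]
    exact Matrix.PosSemidef.smul (G0_psd Y i) (by norm_num)) u
  have h2 : ((1 / 2 : ℝ) • S0 Y t i)⁻¹ = (2 : ℝ) • (S0 Y t i)⁻¹ := by
    have hu : IsUnit (S0 Y t i).det := (S0_pd Y ht i).det_pos.ne'.isUnit
    apply inv_eq_right_inv
    rw [smul_mul_smul_comm, mul_nonsing_inv _ hu]
    norm_num
  rw [h2, smul_mulVec, dotProduct_smul, smul_eq_mul] at h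
  exact h

lemma F_pos (Y : Fin d → Fin d → ℝ) {t : ℝ} (ht : 0 < t) : 0 < F Y t :=
  ((smul_one_pd ht).add_posSemidef (posSemidef_sum _ fun j _ => vec_psd (Y j))).det_pos

/-- eigenvalue form of `F` -/
lemma F_prod (Y : Fin d → Fin d → ℝ) : ∃ lam : Fin d → ℝ, (∀ j, 0 ≤ lam j) ∧
    ∀ t, F Y t = ∏ j, (t + lam j) := by
  have hpsd : (∑ i, vecMulVec (Y i) (Y i)).PosSemidef := posSemidef_sum _ fun j _ => vec_psd (Y j)
  refine ⟨hpsd.isHermitian.eigenvalues, fun j => hpsd.eigenvalues_nonneg j, fun t => ?_⟩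
  have h := eval_charpoly (∑ i, vecMulVec (Y i) (Y i)) (-t)
  rw [hpsd.isHermitian.charpoly_eq, Polynomial.eval_prod] at h
  have h2 : (Matrix.scalar (Fin d) (-t) - ∑ i, vecMulVec (Y i) (Y i)) =
      -(t • (1 : Matrix (Fin d) (Fin d) ℝ) + ∑ i, vecMulVec (Y i) (Y i)) := by
    rw [neg_add, sub_eq_add_neg]
    congr 1
    rw [← neg_smul, Matrix.scalar_apply, ← smul_one_eq_diagonal]
  rw [h2, det_neg] at h
  unfold F
  have h3 : (∏ j, (t + hpsd.isHermitian.eigenvalues j)) = (-1) ^ (Fintype.card (Fin d)) *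
      ∏ j, (Polynomial.eval (-t) (Polynomial.X -
        Polynomial.C ((hpsd.isHermitian.eigenvalues j : ℝ)))) := by
    rw [← Finset.card_univ, ← Finset.prod_const, ← Finset.prod_mul_distrib]
    refine Finset.prod_congr rfl fun j _ => ?_
    simp
    ring
  rw [h3]
  have h4 : (∏ j, (Polynomial.eval (-t) (Polynomial.X -
        Polynomial.C ((hpsd.isHermitian.eigenvalues j : ℝ))))) =
      (-1) ^ Fintype.card (Fin d) *
        (t • (1 : Matrix (Fin d) (Fin d) ℝ) + ∑ i, vecMulVec (Y i) (Y i)).det := by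
    simpa using h
  rw [h4, ← mul_assoc, ← mul_pow]
  norm_num

/-- (F3) log-concavity along halving -/
lemma F_log (Y : Fin d → Fin d → ℝ) {t : ℝ} (ht : 0 < t) :
    F Y (t / 2) ^ 2 ≤ F Y t * F Y (t / 2 / 2) := by
  obtain ⟨lam, h0, hF⟩ := F_prod Y
  rw [hF, hF, hF, ← Finset.prod_pow, ← Finset.prod_mul_distrib]
  refine Finset.prod_le_prod (fun j _ => sq_nonneg _) fun j _ => ?_
  have := mul_nonneg ht.le (h0 j)
  nlinarith

/-! ### Ratios -/

/-- `δ k = 2^(-k)` -/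
noncomputable def dl (k : ℕ) : ℝ := (1 / 2) ^ k

lemma dl_pos (k : ℕ) : 0 < dl k := by unfold dl; positivity

lemma dl_succ (k : ℕ) : dl (k + 1) = dl k / 2 := by unfold dl; ring

/-- the ratio `F_k / F_{k+1}` -/
noncomputable def r (Y : Fin d → Fin d → ℝ) (k : ℕ) : ℝ := F Y (dl k) / F Y (dl (k + 1))

lemma r_anti (Y : Fin d → Fin d → ℝ) : Antitone (r Y) := by
  refine antitone_nat_of_succ_le fun k => ?_
  unfold r
  rw [div_le_div_iff₀ (F_pos Y (dl_pos _)) (F_pos Y (dl_pos _))]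
  have := F_log Y (dl_pos k)
  rw [← dl_succ, ← dl_succ] at this
  nlinarith

lemma r_le (Y : Fin d → Fin d → ℝ) (i : Fin d) (k : ℕ) :
    r Y k ≤ (S0 Y (dl k) i).det / (S0 Y (dl (k + 1)) i).det := by
  unfold r
  rw [F_eq Y (dl_pos k) i, F_eq Y (dl_pos (k + 1)) i]
  have h1 := (S0_pd Y (dl_pos k) i).det_pos
  have h2 := (S0_pd Y (dl_pos (k + 1)) i).det_pos
  have h3 := q_le Y (dl_pos k) i (Y i)
  have h4 := q_nonneg Y (dl_pos k) i (Y i)
  have h5 := q_nonneg Y (dl_pos (k + 1)) i (Y i)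
  rw [← dl_succ] at h3
  rw [div_le_div_iff₀ (by positivity) h2]
  have h6 := mul_pos h1 h2
  nlinarith

lemma le_r (Y : Fin d → Fin d → ℝ) (i : Fin d) (k : ℕ) :
    (S0 Y (dl k) i).det / (S0 Y (dl (k + 1)) i).det ≤ 2 * r Y k := by
  unfold r
  rw [F_eq Y (dl_pos k) i, F_eq Y (dl_pos (k + 1)) i]
  have h1 := (S0_pd Y (dl_pos k) i).det_pos
  have h2 := (S0_pd Y (dl_pos (k + 1)) i).det_pos
  have h3 := q_le' Y (dl_pos k) i (Y i)
  have h4 := q_nonneg Y (dl_pos k) i (Y i)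
  have h5 := q_nonneg Y (dl_pos (k + 1)) i (Y i)
  rw [← dl_succ] at h3
  rw [mul_div_assoc', div_le_div_iff₀ h2 (by positivity)]
  have h6 := mul_pos h1 h2
  nlinarith

lemma r_swap (Y : Fin d → Fin d → ℝ) (i : Fin d) (v : Fin d → ℝ) (k : ℕ) :
    r (Function.update Y i v) k ≤ 2 * r Y k := by
  have h1 := r_le (Function.update Y i v) i k
  rw [S0_update, S0_update] at h1
  exact h1.trans (le_r Y i k)

lemma r_swap' (Y : Fin d → Fin d → ℝ) (i : Fin d) (v : Fin d → ℝ) (k : ℕ) :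
    r Y k ≤ 2 * r (Function.update Y i v) k := by
  have h1 := le_r (Function.update Y i v) i k
  rw [S0_update, S0_update] at h1
  exact (r_le Y i k).trans h1

/-- the weighted determinants -/
noncomputable def Phi (c : ℕ) (Y : Fin d → Fin d → ℝ) (k : ℕ) : ℝ :=
  F Y (dl k) * 2 ^ (c * k + k ^ 2)

lemma Phi_up (c : ℕ) (Y : Fin d → Fin d → ℝ) (k : ℕ) (h : Phi c Y k ≤ Phi c Y (k + 1)) :
    F Y (dl k) ≤ 2 ^ (c + 2 * k + 1) * F Y (dl (k + 1)) := by
  unfold Phi at h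
  have h1 : c * (k + 1) + (k + 1) ^ 2 = (c + 2 * k + 1) + (c * k + k ^ 2) := by ring
  rw [h1, pow_add (2 : ℝ) (c + 2 * k + 1), ← mul_assoc] at h
  have h2 := le_of_mul_le_mul_right h (by positivity)
  linarith

lemma Phi_down (c : ℕ) (Y : Fin d → Fin d → ℝ) (k : ℕ) (h : Phi c Y (k + 1) ≤ Phi c Y k) :
    2 ^ (c + 2 * k + 1) * F Y (dl (k + 1)) ≤ F Y (dl k) := by
  unfold Phi at h
  have h1 : c * (k + 1) + (k + 1) ^ 2 = (c + 2 * k + 1) + (c * k + k ^ 2) := by ring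
  rw [h1, pow_add (2 : ℝ) (c + 2 * k + 1), ← mul_assoc] at h
  have h2 := le_of_mul_le_mul_right h (by positivity)
  linarith

lemma r_up (c : ℕ) (Y : Fin d → Fin d → ℝ) (k : ℕ) (h : Phi c Y k ≤ Phi c Y (k + 1)) :
    r Y k ≤ 2 ^ (c + 2 * k + 1) := by
  unfold r
  rw [div_le_iff₀ (F_pos Y (dl_pos _))]
  exact Phi_up c Y k h

lemma r_down (c : ℕ) (Y : Fin d → Fin d → ℝ) (k : ℕ) (h : Phi c Y (k + 1) ≤ Phi c Y k) :
    2 ^ (c + 2 * k + 1) ≤ r Y k := by
  unfold r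
  rw [le_div_iff₀ (F_pos Y (dl_pos _))]
  exact Phi_down c Y k h

/-- indices of the minima of neighbouring families differ by at most one (one direction) -/
lemma index_le (c K : ℕ) (Y Y' : Fin d → Fin d → ℝ) (hYY : ∀ k, r Y' k ≤ 2 * r Y k)
    (k k' : ℕ) (hk' : k' ≤ K) (hmin : ∀ j ≤ K, Phi c Y k ≤ Phi c Y j)
    (hmin' : ∀ j ≤ K, Phi c Y' k' ≤ Phi c Y' j) : k' ≤ k + 1 := by
  by_contra hcon
  push Not at hcon
  obtain ⟨p, rfl⟩ : ∃ p, k' = p + 1 := ⟨k' - 1, by omega⟩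
  have h1 := r_down c Y' p (hmin' p (by omega))
  have h2 := r_up c Y k (hmin (k + 1) (by omega))
  have h3 := hYY p
  have h4 := r_anti Y (show k ≤ p by omega)
  have h5 : (2 : ℝ) ^ (c + 2 * p + 1) ≤ 2 * 2 ^ (c + 2 * k + 1) := by linarith
  rw [← pow_succ'] at h5
  have h6 := (pow_le_pow_iff_right₀ (by norm_num : (1 : ℝ) < 2)).1 h5
  omega

end Opt

open Opt in
/-- MODULE OPT: step 1 of the proof. -/
theorem opt {d : ℕ} (N : Set (Fin d → ℝ)) (hN : IsCompact N) (hne : N.Nonempty) (c K : ℕ) :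
    ∃ (Y : Fin d → Fin d → ℝ) (k : ℕ), k ≤ K ∧ (∀ i, Y i ∈ N) ∧
      (∀ i, ∀ v ∈ N, q Y ((1 / 2) ^ k) i v ≤ 4 * q Y ((1 / 2) ^ k) i (Y i)) ∧
      (k < K → F Y ((1 / 2) ^ k) ≤ 2 ^ (c + 2 * k + 1) * F Y ((1 / 2) ^ (k + 1))) ∧
      (1 ≤ k → 2 ^ (c + 2 * k - 1) * F Y ((1 / 2) ^ k) ≤ F Y ((1 / 2) ^ (k - 1))) := by
  have hne' : (Finset.range (K + 1)).Nonempty := ⟨0, by simp⟩
  -- the functional and its maximiser
  set Psi : (Fin d → Fin d → ℝ) → ℝ := fun Y => (Finset.range (K + 1)).inf' hne' (Phi c Y)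
    with hPsi
  have hcont : Continuous Psi := by
    rw [hPsi]
    refine Continuous.finset_inf'_apply hne' fun k _ => ?_
    unfold Phi F
    refine Continuous.mul ?_ continuous_const
    refine Continuous.matrix_det ?_
    refine continuous_const.add ?_
    refine continuous_finsetSum _ fun i _ => ?_
    refine continuous_matrix fun a b => ?_
    simp only [vecMulVec_apply]
    fun_prop
  obtain ⟨Y, hYN, hYmax⟩ := (isCompact_univ_pi (fun _ : Fin d => hN)).exists_isMaxOn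
    (Set.univ_pi_nonempty_iff.2 fun _ => hne) hcont.continuousOn
  have hYN' : ∀ i, Y i ∈ N := fun i => hYN i (Set.mem_univ i)
  have hminIdx : ∀ Z : Fin d → Fin d → ℝ, ∃ k ≤ K, Psi Z = Phi c Z k ∧
      ∀ j ≤ K, Phi c Z k ≤ Phi c Z j := by
    intro Z
    obtain ⟨k, hk, hkeq⟩ := Finset.exists_mem_eq_inf' hne' (Phi c Z)
    refine ⟨k, by simpa [Nat.lt_succ_iff] using hk, hkeq, fun j hj => ?_⟩
    rw [← hkeq]
    exact Finset.inf'_le _ (by simpa [Nat.lt_succ_iff] using hj)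
  obtain ⟨k, hk, hkeq, hmin⟩ := hminIdx Y
  refine ⟨Y, k, hk, hYN', ?_, ?_, ?_⟩
  · intro i v hv
    change q Y (dl k) i v ≤ 4 * q Y (dl k) i (Y i)
    set Y' := Function.update Y i v with hY'
    obtain ⟨k', hk', hkeq', hmin'⟩ := hminIdx Y'
    have hY'N : Y' ∈ Set.pi Set.univ (fun _ : Fin d => N) := by
      intro j _
      by_cases hji : j = i
      · subst hji
        simp [hY', hv]
      · rw [hY', Function.update_of_ne hji]
        exact hYN' j
    have hle : Psi Y' ≤ Psi Y := hYmax hY'N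
    have h1 : k' ≤ k + 1 := index_le c K Y Y' (r_swap Y i v) k k' hk' hmin hmin'
    have h2 : k ≤ k' + 1 := index_le c K Y' Y (r_swap' Y i v) k' k hk hmin' hmin
    have h3 : Phi c Y' k' ≤ Phi c Y k' := by
      rw [← hkeq']
      exact hle.trans (hkeq.le.trans (hmin k' hk'))
    have h4 : q Y (dl k') i v ≤ q Y (dl k') i (Y i) := by
      unfold Phi at h3
      have h5 := le_of_mul_le_mul_right h3 (by positivity)
      rw [F_eq Y' (dl_pos k') i, F_eq Y (dl_pos k') i, hY', S0_update, q_update,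
        Function.update_self] at h5
      have h6 := le_of_mul_le_mul_left h5 (S0_pd Y (dl_pos k') i).det_pos
      linarith
    have hq0 := q_nonneg Y (dl_pos k) i (Y i)
    rcases (show k' = k ∨ k' = k + 1 ∨ k = k' + 1 by omega) with h | h | h
    · rw [h] at h4
      linarith
    · rw [h, dl_succ] at h4
      have h5 := q_le Y (dl_pos k) i v
      have h6 := q_le' Y (dl_pos k) i (Y i)
      linarith
    · have h5 := q_le' Y (dl_pos k') i v
      have h6 := q_le Y (dl_pos k') i (Y i)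
      rw [← dl_succ, ← h] at h5 h6
      linarith
  · intro hkK
    exact Phi_up c Y k (hmin (k + 1) hkK)
  · intro hk1
    obtain ⟨p, rfl⟩ : ∃ p, k = p + 1 := ⟨k - 1, by omega⟩
    have h := Phi_down c Y p (hmin p (by omega))
    have h2 : c + 2 * (p + 1) - 1 = c + 2 * p + 1 := by omega
    rw [h2, Nat.add_sub_cancel]
    exact h

end BMCube
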