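import Pool.Agent.Lib.MP_766f4a_gt.Main
import Pool.Agent.Lib.MP_766f4a_gt.John

/-!
Module POLAR: polar duality and position of John, giving the sandwich theorem for all symmetric
convex bodies.
-/

set_option autoImplicit false

namespace BMCube

open Matrix Finset

/-- the cube `[-1,1]^d` -/
def cube (d : ℕ) : Set (Fin d → ℝ) := {x | ∀ i, |x i| ≤ 1}

lemma dot_cs {d : ℕ} (x y : Fin d → ℝ) : (x ⬝ᵥ y) ^ 2 ≤ (x ⬝ᵥ x) * (y ⬝ᵥ y) := by
  have := Finset.sum_mul_sq_le_sq_mul_sq Finset.univ x y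
  simpa [dotProduct, sq] using this

lemma clm_eq_dot {d : ℕ} (φ : (Fin d → ℝ) →L[ℝ] ℝ) (x : Fin d → ℝ) :
    φ x = x ⬝ᵥ (fun i => φ (Pi.single i 1)) := by
  conv_lhs => rw [← Finset.univ_sum_single x]
  rw [map_sum]
  simp only [dotProduct]
  refine Finset.sum_congr rfl fun i _ => ?_
  have : Pi.single i (x i) = x i • (Pi.single i (1 : ℝ) : Fin d → ℝ) := by
    rw [← Pi.single_smul]; simp
  rw [this, map_smul, smul_eq_mul]

/-- Polar duality: from a good family in the polar body to a sandwiching parallelepiped. -/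
lemma sandwich_of_john {d : ℕ} (hd : 0 < d) (A : ℝ) (hA : 0 < A)
    (hbasis : ∀ N : Set (Fin d → ℝ),
      IsCompact N → Convex ℝ N → (∀ v ∈ N, -v ∈ N) → (∀ v ∈ N, v ⬝ᵥ v ≤ 1) →
      (∀ v, (d : ℝ) * (v ⬝ᵥ v) ≤ 1 → v ∈ N) →
      ∃ g : Fin d → Fin d → ℝ, (∀ i, g i ∈ N) ∧
        ∀ v ∈ N, ∃ α : Fin d → ℝ, v = ∑ i, α i • g i ∧ ∑ i, |α i| ≤ A)
    (K : Set (Fin d → ℝ)) (hKc : IsCompact K) (hKconv : Convex ℝ K) (hKs : ∀ x ∈ K, -x ∈ K)
    (hK1 : ∀ x, x ⬝ᵥ x ≤ 1 → x ∈ K) (hK2 : ∀ x ∈ K, x ⬝ᵥ x ≤ d) :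
    ∃ f : (Fin d → ℝ) ≃ₗ[ℝ] (Fin d → ℝ), f '' cube d ⊆ K ∧ ∀ x ∈ K, A⁻¹ • x ∈ f '' cube d := by
  set N : Set (Fin d → ℝ) := {y | ∀ x ∈ K, x ⬝ᵥ y ≤ 1} with hN_def
  have hNs : ∀ v ∈ N, -v ∈ N := by
    intro v hv x hx
    have := hv (-x) (hKs x hx)
    rwa [neg_dotProduct, ← dotProduct_neg] at this
  have hNabs : ∀ v ∈ N, ∀ x ∈ K, |x ⬝ᵥ v| ≤ 1 := by
    intro v hv x hx
    rw [abs_le]
    refine ⟨?_, hv x hx⟩
    have := hNs v hv x hx
    rw [dotProduct_neg] at this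
    linarith
  have hNball : ∀ v ∈ N, v ⬝ᵥ v ≤ 1 := by
    intro v hv
    by_cases h0 : v ⬝ᵥ v = 0
    · rw [h0]; norm_num
    · have hnn : 0 ≤ v ⬝ᵥ v := by
        simp only [dotProduct]; exact Finset.sum_nonneg fun i _ => mul_self_nonneg _
      have hpos : 0 < v ⬝ᵥ v := lt_of_le_of_ne hnn (Ne.symm h0)
      set r := Real.sqrt (v ⬝ᵥ v) with hr_def
      have hr : 0 < r := Real.sqrt_pos.mpr hpos
      have hrr : r * r = v ⬝ᵥ v := Real.mul_self_sqrt hnn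
      have h1 : (r⁻¹ • v) ∈ K := by
        apply hK1
        rw [smul_dotProduct, dotProduct_smul, smul_eq_mul, smul_eq_mul, ← hrr]
        field_simp
        exact le_refl _
      have h2 := hv _ h1
      rw [smul_dotProduct, smul_eq_mul, ← hrr] at h2
      have h3 : r ≤ 1 := by
        calc r = r⁻¹ * (r * r) := by field_simp
          _ ≤ 1 := h2
      rw [← hrr]
      nlinarith
  have hNin : ∀ v, (d : ℝ) * (v ⬝ᵥ v) ≤ 1 → v ∈ N := by
    intro v hv x hx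
    have h1 := dot_cs x v
    have h2 := hK2 x hx
    have hnn : 0 ≤ v ⬝ᵥ v := by
      simp only [dotProduct]; exact Finset.sum_nonneg fun i _ => mul_self_nonneg _
    have h3 : (x ⬝ᵥ v) ^ 2 ≤ 1 := by
      calc (x ⬝ᵥ v) ^ 2 ≤ (x ⬝ᵥ x) * (v ⬝ᵥ v) := h1
        _ ≤ d * (v ⬝ᵥ v) := by gcongr
        _ ≤ 1 := hv
    nlinarith
  have hNconv : Convex ℝ N := by
    intro y hy z hz a b ha hb hab x hx
    rw [dotProduct_add, dotProduct_smul, dotProduct_smul, smul_eq_mul, smul_eq_mul]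
    have h1 := hy x hx
    have h2 := hz x hx
    nlinarith
  have hNclosed : IsClosed N := by
    have : N = ⋂ x ∈ K, {y | x ⬝ᵥ y ≤ 1} := by
      ext y; simp [hN_def]
    rw [this]
    refine isClosed_biInter fun x _ => ?_
    exact isClosed_le (by fun_prop) continuous_const
  have hNbdd : Bornology.IsBounded N := by
    rw [isBounded_iff_forall_norm_le]
    refine ⟨1, fun y hy => ?_⟩
    rw [pi_norm_le_iff_of_nonneg (by norm_num)]
    intro i
    have h1 := hNball y hy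
    have h2 : y i * y i ≤ y ⬝ᵥ y := by
      simp only [dotProduct]
      exact Finset.single_le_sum (f := fun i => y i * y i) (fun j _ => mul_self_nonneg _)
        (Finset.mem_univ i)
    rw [Real.norm_eq_abs, abs_le]
    constructor <;> nlinarith
  have hNc : IsCompact N := Metric.isCompact_of_isClosed_isBounded hNclosed hNbdd
  obtain ⟨g, hg, hrep⟩ := hbasis N hNc hNconv hNs hNball hNin
  -- the linear map
  let Φ : (Fin d → ℝ) →ₗ[ℝ] (Fin d → ℝ) :=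
    { toFun := fun x i => x ⬝ᵥ g i
      map_add' := by intro x y; ext i; simp [add_dotProduct]
      map_smul' := by intro a x; ext i; simp [smul_dotProduct] }
  have hΦ : ∀ x i, Φ x i = x ⬝ᵥ g i := fun x i => rfl
  have hcomb : ∀ (x : Fin d → ℝ), ∀ v ∈ N, ∀ B : ℝ, 0 ≤ B → (∀ i, |x ⬝ᵥ g i| ≤ B) →
      x ⬝ᵥ v ≤ A * B := by
    intro x v hv B hB hx
    obtain ⟨α, h1, h2⟩ := hrep v hv
    have h3 : x ⬝ᵥ v = ∑ i, α i * (x ⬝ᵥ g i) := by
      rw [h1, dotProduct_sum]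
      refine Finset.sum_congr rfl fun i _ => ?_
      rw [dotProduct_smul, smul_eq_mul]
    rw [h3]
    calc ∑ i, α i * (x ⬝ᵥ g i) ≤ ∑ i, |α i| * B := by
          refine Finset.sum_le_sum fun i _ => ?_
          calc α i * (x ⬝ᵥ g i) ≤ |α i * (x ⬝ᵥ g i)| := le_abs_self _
            _ = |α i| * |x ⬝ᵥ g i| := abs_mul _ _
            _ ≤ |α i| * B := by gcongr; exact hx i
      _ = (∑ i, |α i|) * B := by rw [Finset.sum_mul]
      _ ≤ A * B := by gcongr
  have hd' : (0 : ℝ) < d := by exact_mod_cast hd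
  have hinj : Function.Injective Φ := by
    rw [← LinearMap.ker_eq_bot, LinearMap.ker_eq_bot']
    intro x hx
    have hxg : ∀ i, |x ⬝ᵥ g i| ≤ 0 := by
      intro i
      rw [← hΦ, hx]; simp
    by_contra hne
    have hnn : 0 ≤ x ⬝ᵥ x := by
      simp only [dotProduct]; exact Finset.sum_nonneg fun i _ => mul_self_nonneg _
    have hpos : 0 < x ⬝ᵥ x := by
      rcases hnn.lt_or_eq with h | h
      · exact h
      · exact absurd (dotProduct_self_eq_zero.mp h.symm) hne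
    -- v = x / (d * (1 + x.x))
    set e : ℝ := (d * (1 + x ⬝ᵥ x))⁻¹ with he_def
    have he : 0 < e := by positivity
    have hv : (e • x) ∈ N := by
      apply hNin
      rw [smul_dotProduct, dotProduct_smul, smul_eq_mul, smul_eq_mul]
      have hd1 : (1 : ℝ) ≤ d := by exact_mod_cast hd
      have h1 : e * d ≤ 1 := by
        rw [he_def, inv_mul_le_iff₀ (by positivity)]
        nlinarith
      have h2 : e * (x ⬝ᵥ x) ≤ 1 := by
        rw [he_def, inv_mul_le_iff₀ (by positivity)]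
        nlinarith
      calc (d : ℝ) * (e * (e * x ⬝ᵥ x)) = (e * d) * (e * x ⬝ᵥ x) := by ring
        _ ≤ 1 * 1 := by gcongr
        _ = 1 := by norm_num
    have h1 := hcomb x _ hv 0 le_rfl hxg
    rw [dotProduct_smul, smul_eq_mul] at h1
    have := mul_pos he hpos
    linarith
  let Ψ : (Fin d → ℝ) ≃ₗ[ℝ] (Fin d → ℝ) := LinearEquiv.ofInjectiveEndo Φ hinj
  have hΨ : ∀ x, Ψ x = Φ x := fun x => rfl
  let f : (Fin d → ℝ) ≃ₗ[ℝ] (Fin d → ℝ) :=
    (LinearEquiv.smulOfNeZero ℝ (Fin d → ℝ) A⁻¹ (inv_ne_zero hA.ne')).trans Ψ.symm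
  have hf : ∀ x, f x = Ψ.symm (A⁻¹ • x) := fun x => rfl
  refine ⟨f, ?_, ?_⟩
  · rintro _ ⟨e, he, rfl⟩
    set x := f e with hx_def
    have hx : ∀ i, |x ⬝ᵥ g i| ≤ A⁻¹ := by
      intro i
      have h1 : Φ x = A⁻¹ • e := by
        rw [← hΨ, hx_def, hf, LinearEquiv.apply_symm_apply]
      rw [← hΦ, h1, Pi.smul_apply, smul_eq_mul, abs_mul, abs_of_pos (inv_pos.mpr hA)]
      calc A⁻¹ * |e i| ≤ A⁻¹ * 1 := by gcongr; exact he i
        _ = A⁻¹ := mul_one _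
    by_contra hxK
    obtain ⟨φ, u, hu1, hu2⟩ := geometric_hahn_banach_closed_point hKconv hKc.isClosed hxK
    have h0K : (0 : Fin d → ℝ) ∈ K := hK1 0 (by simp)
    have hu0 : 0 < u := by simpa using hu1 0 h0K
    set y : Fin d → ℝ := fun i => φ (Pi.single i 1) with hy_def
    have hyN : (u⁻¹ • y) ∈ N := by
      intro k hk
      rw [dotProduct_smul, smul_eq_mul, ← clm_eq_dot, inv_mul_le_iff₀ hu0, mul_one]
      exact (hu1 k hk).le
    have h1 := hcomb x _ hyN A⁻¹ (by positivity) hx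
    rw [mul_inv_cancel₀ hA.ne', dotProduct_smul, smul_eq_mul, ← clm_eq_dot,
      inv_mul_le_iff₀ hu0, mul_one] at h1
    linarith
  · intro x hx
    refine ⟨Ψ x, ?_, ?_⟩
    · intro i
      rw [hΨ, hΦ]
      exact hNabs _ (hg i) x hx
    · rw [hf, map_smul, LinearEquiv.symm_apply_apply]

lemma isCompact_preimage_equiv {d : ℕ} (T : (Fin d → ℝ) ≃ₗ[ℝ] (Fin d → ℝ)) {C : Set (Fin d → ℝ)}
    (hC : IsCompact C) : IsCompact {x | T x ∈ C} := by
  have h1 : {x | T x ∈ C} = T.toContinuousLinearEquiv.toHomeomorph ⁻¹' C := rfl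
  rw [h1]
  exact T.toContinuousLinearEquiv.toHomeomorph.isCompact_preimage.mpr hC

/-- Every symmetric convex body is sandwiched between a parallelepiped and its dilate by
`A d^(3/4)`. -/
theorem exists_sandwich : ∃ A : ℝ, 0 < A ∧ ∀ (d : ℕ), 0 < d → ∀ C : Set (Fin d → ℝ),
    IsCompact C → Convex ℝ C → (interior C).Nonempty → (∀ x ∈ C, -x ∈ C) →
    ∃ f : (Fin d → ℝ) ≃ₗ[ℝ] (Fin d → ℝ), f '' cube d ⊆ C ∧
      ∀ x ∈ C, (A * (d : ℝ) ^ (3 / 4 : ℝ))⁻¹ • x ∈ f '' cube d := by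
  obtain ⟨A, hA, h⟩ := exists_basis
  refine ⟨A, hA, fun d hd C hCc hCconv hCint hCs => ?_⟩
  have hd' : (0 : ℝ) < d := by exact_mod_cast hd
  obtain ⟨T, hT1, hT2⟩ := john hd C hCc hCconv hCs hCint
  obtain ⟨f, hf1, hf2⟩ := sandwich_of_john hd (A * (d : ℝ) ^ (3 / 4 : ℝ)) (by positivity)
    (h d hd) {x | T x ∈ C} (isCompact_preimage_equiv T hCc)
    (fun x hx y hy a b ha hb hab => by
      show T (a • x + b • y) ∈ C
      rw [map_add, map_smul, map_smul]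
      exact hCconv hx hy ha hb hab)
    (fun x hx => by
      show T (-x) ∈ C
      rw [map_neg]; exact hCs _ hx)
    hT1 hT2
  refine ⟨f.trans T, ?_, ?_⟩
  · rintro _ ⟨e, he, rfl⟩
    exact hf1 ⟨e, he, rfl⟩
  · intro x hx
    obtain ⟨e, he, hex⟩ := hf2 (T.symm x) (by show T (T.symm x) ∈ C; simpa using hx)
    refine ⟨e, he, ?_⟩
    show T (f e) = _
    rw [hex, map_smul, LinearEquiv.apply_symm_apply]

end BMCube
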