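import Pool.Agent.Lib.MP_766f4a_gt.Defs

/-! Singular value decomposition of a square real matrix. -/

set_option autoImplicit false

namespace BMCube

open Matrix

theorem exists_svd {n : Type*} [Fintype n] [DecidableEq n] (M : Matrix n n ℝ) :
    ∃ (U V : Matrix n n ℝ) (s : n → ℝ), Uᵀ * U = 1 ∧ U * Uᵀ = 1 ∧ Vᵀ * V = 1 ∧ V * Vᵀ = 1 ∧
      (∀ i, 0 ≤ s i) ∧ M = U * diagonal s * Vᵀ := by
  classical
  have hA : (Mᵀ * M).IsHermitian := by
    have := isHermitian_conjTranspose_mul_self M
    rwa [conjTranspose_eq_transpose_of_trivial] at this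
  have hps : (Mᵀ * M).PosSemidef := by
    have := posSemidef_conjTranspose_mul_self M
    rwa [conjTranspose_eq_transpose_of_trivial] at this
  set v : OrthonormalBasis n ℝ (EuclideanSpace ℝ n) := hA.eigenvectorBasis with hv
  set lam : n → ℝ := hA.eigenvalues with hlam
  have hlam0 : ∀ i, 0 ≤ lam i := fun i => hps.eigenvalues_nonneg i
  set s : n → ℝ := fun i => Real.sqrt (lam i) with hs
  have hs0 : ∀ i, 0 ≤ s i := fun i => Real.sqrt_nonneg _
  have hs2 : ∀ i, s i * s i = lam i := fun i => Real.mul_self_sqrt (hlam0 i)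
  -- inner products of the images
  have hdot : ∀ i j, (v i).ofLp ⬝ᵥ (v j).ofLp = if i = j then 1 else 0 := by
    intro i j
    have := orthonormal_iff_ite.1 v.orthonormal j i
    rw [EuclideanSpace.inner_eq_star_dotProduct] at this
    simp only [star_trivial] at this
    rw [this]
    by_cases h : i = j
    · simp [h]
    · simp [h, Ne.symm h]
  have hev : ∀ j, (Mᵀ * M) *ᵥ (v j).ofLp = lam j • (v j).ofLp := by
    intro j
    exact hA.mulVec_eigenvectorBasis j
  have hMM : ∀ i j, (M *ᵥ (v i).ofLp) ⬝ᵥ (M *ᵥ (v j).ofLp) = if i = j then lam i else 0 := by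
    intro i j
    have h1 : (M *ᵥ (v i).ofLp) ⬝ᵥ (M *ᵥ (v j).ofLp) = (v i).ofLp ⬝ᵥ ((Mᵀ * M) *ᵥ (v j).ofLp) := by
      rw [← mulVec_mulVec, dotProduct_mulVec (v i).ofLp, vecMul_transpose]
    rw [h1, hev, dotProduct_smul, hdot]
    by_cases h : i = j
    · simp [h]
    · simp [h]
  -- left singular vectors
  let w : n → EuclideanSpace ℝ n := fun i => WithLp.toLp 2 ((s i)⁻¹ • (M *ᵥ (v i).ofLp))
  have hw : Orthonormal ℝ (({i | s i ≠ 0} : Set n).domRestrict w) := by
    rw [orthonormal_iff_ite]
    rintro ⟨i, hi⟩ ⟨j, hj⟩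
    simp only [Set.domRestrict_apply, w]
    rw [EuclideanSpace.inner_eq_star_dotProduct]
    simp only [star_trivial, dotProduct_smul, smul_dotProduct, smul_eq_mul]
    rw [hMM]
    have hi' : s i ≠ 0 := hi
    have hj' : s j ≠ 0 := hj
    by_cases h : i = j
    · subst h
      simp only [if_true, ← hs2]
      field_simp
    · have h' : ¬ j = i := fun e => h e.symm
      simp [h, h']
  obtain ⟨u, hu⟩ := hw.exists_orthonormalBasis_extension_of_card_eq (ι := n) (by simp)
  have hdotu : ∀ i j, (u i).ofLp ⬝ᵥ (u j).ofLp = if i = j then 1 else 0 := by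
    intro i j
    have := orthonormal_iff_ite.1 u.orthonormal j i
    rw [EuclideanSpace.inner_eq_star_dotProduct] at this
    simp only [star_trivial] at this
    rw [this]
    by_cases h : i = j
    · simp [h]
    · simp [h, Ne.symm h]
  have hMv : ∀ i, M *ᵥ (v i).ofLp = s i • (u i).ofLp := by
    intro i
    by_cases h : s i = 0
    · rw [h, zero_smul]
      have h1 : (M *ᵥ (v i).ofLp) ⬝ᵥ (M *ᵥ (v i).ofLp) = 0 := by
        rw [hMM, if_pos rfl, ← hs2, h, mul_zero]
      exact dotProduct_self_eq_zero.1 h1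
    · rw [hu i h]
      simp only [w]
      rw [smul_smul, mul_inv_cancel₀ h, one_smul]
  let U : Matrix n n ℝ := Matrix.of fun a i => (u i).ofLp a
  let V : Matrix n n ℝ := Matrix.of fun a i => (v i).ofLp a
  have hUU : Uᵀ * U = 1 := by
    ext i j
    rw [mul_apply]
    simp only [transpose_apply, U, of_apply]
    have := hdotu i j
    rw [dotProduct] at this
    rw [this, one_apply]
  have hVV : Vᵀ * V = 1 := by
    ext i j
    rw [mul_apply]
    simp only [transpose_apply, V, of_apply]
    have := hdot i j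
    rw [dotProduct] at this
    rw [this, one_apply]
  have hVV' : V * Vᵀ = 1 := mul_eq_one_comm.1 hVV
  refine ⟨U, V, s, hUU, mul_eq_one_comm.1 hUU, hVV, hVV', hs0, ?_⟩
  have hMV : M * V = U * diagonal s := by
    ext a i
    rw [mul_diagonal]
    have := congrFun (hMv i) a
    simp only [mulVec, dotProduct, Pi.smul_apply, smul_eq_mul] at this
    rw [mul_apply]
    simp only [V, U, of_apply]
    rw [this, mul_comm]
  calc M = M * (V * Vᵀ) := by rw [hVV', mul_one]
    _ = (M * V) * Vᵀ := by rw [← mul_assoc]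
    _ = U * diagonal s * Vᵀ := by rw [hMV]

end BMCube
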