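import Mathlib

/-!
Shared definition for the bound `d^(2/3)` for the Banach-Mazur distance to the cube.
-/

set_option autoImplicit false

namespace BMTwo

open Matrix

/-- The frame operator `∑ g_i g_iᵀ` of a family of vectors. -/
noncomputable def Sm {ι : Type*} [Fintype ι] {d : ℕ} (G : ι → Fin d → ℝ) :
    Matrix (Fin d) (Fin d) ℝ :=
  ∑ i, vecMulVec (G i) (G i)

end BMTwo
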