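import Pool.Agent.Lib.MP_766f4a_gt.Svd
import Pool.Agent.Lib.MP_766f4a_gt.TDefs

/-! Module ELIM: the elimination step (the version of `Elim.lean` in which only the coordinates in `J`
of the coefficient vector enter the bound). -/

set_option autoImplicit false

namespace BMTwo

open Matrix BMCube

namespace Elim

theorem orth_dot {m n : Type*} [Fintype m] [Fintype n] [DecidableEq n] (Q : Matrix m n ℝ)
    (hQ : Qᵀ * Q = 1) (x : n → ℝ) : (Q *ᵥ x) ⬝ᵥ (Q *ᵥ x) = x ⬝ᵥ x := by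
  rw [dotProduct_mulVec, vecMul_mulVec, hQ, vecMul_one]

theorem dot_self {n : Type*} [Fintype n] (x : n → ℝ) : x ⬝ᵥ x = ∑ i, x i ^ 2 := by
  simp [dotProduct, sq]

end Elim

open Elim

/-- The elimination step. -/
theorem elim {D : ℕ} (J : Finset (Fin D)) (B : Matrix (Fin D) J ℝ) (hB : Bᵀ * B = 1)
    (β₀ : ℝ) (hβ₀ : 0 ≤ β₀) (hb : ∀ i, ∑ j, B i j ^ 2 ≤ β₀ ^ 2) :
    ∃ Z : Matrix (Fin D) (Fin D) ℝ, (∀ i, ∑ j ∈ J, |Z j i| ≤ 1) ∧
      ∀ b : Fin D → ℝ, Bᵀ *ᵥ b = 0 →
        ∃ c : J → ℝ,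
          Real.sqrt (∑ j, c j ^ 2) ≤
            (2 + Real.sqrt J.card * β₀) * Real.sqrt (∑ i ∈ J, b i ^ 2) ∧
          ∀ j ∈ J, (b + B *ᵥ c) j = - ∑ i ∈ Jᶜ, Z j i * (b + B *ᵥ c) i := by
  classical
  obtain ⟨rm, hrm⟩ : ∃ rm : ℝ, rm = Real.sqrt J.card := ⟨_, rfl⟩
  rw [← hrm]
  have hrm0 : 0 ≤ rm := by rw [hrm]; exact Real.sqrt_nonneg _
  -- the parameter kappa
  obtain ⟨κ, hκ⟩ : ∃ κ : ℝ, κ = 1 / (1 + rm * β₀) := ⟨_, rfl⟩
  have hden : 0 < 1 + rm * β₀ := by positivity
  have hκ0 : 0 < κ := by rw [hκ]; positivity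
  have hκ1 : κ ≤ 1 := by
    rw [hκ, div_le_one hden]
    nlinarith [mul_nonneg hrm0 hβ₀]
  have hκ2 : κ * (rm * β₀) ≤ 1 := by
    rw [hκ, div_mul_eq_mul_div, one_mul, div_le_one hden]
    linarith
  -- submatrices
  let M : Matrix J J ℝ := B.submatrix (fun j => (j : Fin D)) id
  let Bσ : Matrix (Fin D) J ℝ := Matrix.of fun i j => if i ∈ J then 0 else B i j
  have hBB : Bᵀ * B = 1 := hB
  -- splitting sums over all indices into J and its complement
  have hsplit : ∀ f : Fin D → ℝ, ∑ i, f i = ∑ i : J, f i + ∑ i, (if i ∈ J then 0 else f i) := by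
    intro f
    rw [Finset.sum_coe_sort J f, ← Finset.sum_filter_add_sum_filter_not Finset.univ (· ∈ J) f]
    congr 1
    · rw [Finset.filter_mem_eq_inter, Finset.univ_inter]
    · rw [Finset.sum_filter]
      apply Finset.sum_congr rfl
      intro i _
      by_cases h : i ∈ J <;> simp [h]
  have hBBσ : Bᵀ * Bσ = 1 - Mᵀ * M := by
    rw [← hBB]
    ext j k
    rw [Matrix.sub_apply, Matrix.mul_apply, Matrix.mul_apply, Matrix.mul_apply]
    simp only [transpose_apply, M, Bσ, submatrix_apply, id, of_apply]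
    rw [hsplit (fun i => B i j * B i k)]
    have : ∀ i : Fin D, B i j * (if i ∈ J then 0 else B i k) =
        if i ∈ J then 0 else B i j * B i k := by
      intro i; by_cases h : i ∈ J <;> simp [h]
    simp only [this]
    ring
  have hBσBσ : Bσᵀ * Bσ = 1 - Mᵀ * M := by
    rw [← hBBσ]
    ext j k
    rw [mul_apply, mul_apply]
    apply Finset.sum_congr rfl
    intro i _
    simp only [transpose_apply, Bσ, of_apply]
    by_cases h : i ∈ J <;> simp [h]
  obtain ⟨U, V, s, hU, hU', hV, hV', hs, hM⟩ := exists_svd M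
  have hMt : Mᵀ = V * diagonal s * Uᵀ := by
    rw [hM, transpose_mul, transpose_mul, transpose_transpose, diagonal_transpose, mul_assoc]
  have hMM : Mᵀ * M = V * diagonal (fun i => s i ^ 2) * Vᵀ := by
    calc Mᵀ * M = V * diagonal s * (Uᵀ * U) * diagonal s * Vᵀ := by
          rw [hMt, hM]; simp only [mul_assoc]
      _ = V * diagonal (fun i => s i ^ 2) * Vᵀ := by
          rw [hU, mul_one, mul_assoc V, diagonal_mul_diagonal]
          simp only [sq]
  have hone : 1 - Mᵀ * M = V * diagonal (fun i => 1 - s i ^ 2) * Vᵀ := by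
    rw [hMM]
    have h1 : (1 : Matrix J J ℝ) = V * diagonal (fun _ => 1) * Vᵀ := by
      rw [diagonal_one, mul_one, hV']
    conv_lhs => rw [h1]
    rw [← sub_mul, ← mul_sub, diagonal_sub]
  -- singular values at most one
  have hs1 : ∀ i, s i ≤ 1 := by
    intro i
    have h1 : (Bσ * V)ᵀ * (Bσ * V) = diagonal (fun i => 1 - s i ^ 2) := by
      calc (Bσ * V)ᵀ * (Bσ * V) = Vᵀ * (Bσᵀ * Bσ) * V := by
            rw [transpose_mul]; simp only [Matrix.mul_assoc]
        _ = (Vᵀ * V) * diagonal (fun i => 1 - s i ^ 2) * (Vᵀ * V) := by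
            rw [hBσBσ, hone]; simp only [Matrix.mul_assoc]
        _ = _ := by rw [hV, one_mul, mul_one]
    have h2 := congrFun (congrFun h1 i) i
    rw [mul_apply, diagonal_apply_eq] at h2
    have h3 : 0 ≤ 1 - s i ^ 2 := by
      rw [← h2]
      apply Finset.sum_nonneg
      intro k _
      rw [transpose_apply]
      exact mul_self_nonneg _
    nlinarith [hs i]
  obtain ⟨e, he⟩ : ∃ e : J → ℝ, ∀ i, e i = s i + κ * (1 - s i ^ 2) := ⟨_, fun _ => rfl⟩
  have heκ : ∀ i, κ ≤ e i := by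
    intro i
    rw [he]
    have h1 : κ * s i ^ 2 ≤ s i := by
      have : s i ^ 2 ≤ s i := by nlinarith [hs i, hs1 i]
      calc κ * s i ^ 2 ≤ 1 * s i ^ 2 := by gcongr
        _ ≤ s i := by linarith
    linarith
  have he0 : ∀ i, 0 < e i := fun i => lt_of_lt_of_le hκ0 (heκ i)
  -- the matrix Z
  let ZJ : Matrix J (Fin D) ℝ := κ • (U * Vᵀ * Bᵀ)
  let Z : Matrix (Fin D) (Fin D) ℝ := Matrix.of fun j i => if h : j ∈ J then ZJ ⟨j, h⟩ i else 0
  refine ⟨Z, ?_, ?_⟩
  · intro i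
    rw [← Finset.sum_coe_sort J (fun j => |Z j i|)]
    have hZ : ∀ j : J, Z j i = κ * ((U * Vᵀ) *ᵥ (fun l : J => B i l)) j := by
      intro j
      simp only [Z, of_apply, dif_pos j.2, ZJ, Matrix.smul_apply, smul_eq_mul]
      congr 1
    have hcol : ((U * Vᵀ) *ᵥ (fun l : J => B i l)) ⬝ᵥ ((U * Vᵀ) *ᵥ (fun l : J => B i l)) ≤
        β₀ ^ 2 := by
      rw [orth_dot]
      · rw [dot_self]
        exact hb i
      · rw [transpose_mul, transpose_transpose]
        calc V * Uᵀ * (U * Vᵀ) = V * (Uᵀ * U) * Vᵀ := by simp only [mul_assoc]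
          _ = 1 := by rw [hU, mul_one, hV']
    obtain ⟨y, hy⟩ : ∃ y : J → ℝ, y = (U * Vᵀ) *ᵥ (fun l : J => B i l) := ⟨_, rfl⟩
    rw [← hy] at hcol
    simp only [← hy] at hZ
    have hcs : (∑ j : J, |y j|) ^ 2 ≤ (rm * β₀) ^ 2 := by
      have h1 := Finset.sum_mul_sq_le_sq_mul_sq (Finset.univ : Finset J) (fun _ => (1 : ℝ))
        (fun j => |y j|)
      simp only [one_mul, one_pow, Finset.sum_const, Finset.card_univ, Fintype.card_coe,
        nsmul_eq_mul, mul_one, sq_abs] at h1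
      rw [dot_self] at hcol
      calc (∑ j : J, |y j|) ^ 2 ≤ J.card * ∑ j : J, y j ^ 2 := h1
        _ ≤ J.card * β₀ ^ 2 := by gcongr
        _ = (rm * β₀) ^ 2 := by
            rw [mul_pow, hrm, Real.sq_sqrt (Nat.cast_nonneg _)]
    have hsum : ∑ j : J, |y j| ≤ rm * β₀ := by
      apply le_of_sq_le_sq hcs (by positivity)
    calc ∑ j : J, |Z j i| = ∑ j : J, κ * |y j| := by
          apply Finset.sum_congr rfl
          intro j _
          rw [hZ j, abs_mul, abs_of_pos hκ0]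
      _ = κ * ∑ j : J, |y j| := by rw [Finset.mul_sum]
      _ ≤ κ * (rm * β₀) := by gcongr
      _ ≤ 1 := hκ2
  · intro b hbJ
    let bJ : J → ℝ := fun j => b j
    let bσ : Fin D → ℝ := fun i => if i ∈ J then 0 else b i
    have hBb : Bᵀ *ᵥ bσ = - (Mᵀ *ᵥ bJ) := by
      ext j
      have h0 : ∑ i, B i j * b i = 0 := congrFun hbJ j
      rw [hsplit (fun i => B i j * b i)] at h0
      simp only [mulVec, dotProduct, transpose_apply, Pi.neg_apply, M, submatrix_apply, id,
        bσ, bJ]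
      have : ∀ i : Fin D, B i j * (if i ∈ J then 0 else b i) =
        if i ∈ J then 0 else B i j * b i := by
        intro i; by_cases h : i ∈ J <;> simp [h]
      simp only [this]
      linarith
    -- the right hand side
    let r : J → ℝ := bJ + ZJ *ᵥ bσ
    have hr : r = U *ᵥ ((fun i => (1 - κ * s i) * (Uᵀ *ᵥ bJ) i)) := by
      have h1 : ZJ *ᵥ bσ = - (κ • ((U * diagonal s * Uᵀ) *ᵥ bJ)) := by
        have h2 : U * diagonal s * Uᵀ = U * Vᵀ * Mᵀ := by
          rw [hMt]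
          calc U * diagonal s * Uᵀ = U * 1 * diagonal s * Uᵀ := by rw [mul_one]
            _ = U * Vᵀ * (V * diagonal s * Uᵀ) := by rw [← hV]; simp only [mul_assoc]
        rw [h2]
        simp only [ZJ]
        rw [smul_mulVec, ← mulVec_mulVec, hBb, ← mulVec_mulVec bJ, mulVec_neg, smul_neg]
      simp only [r]
      rw [h1]
      have h4 : (fun i => (1 - κ * s i) * (Uᵀ *ᵥ bJ) i) =
          Uᵀ *ᵥ bJ - κ • (diagonal s *ᵥ (Uᵀ *ᵥ bJ)) := by
        ext i
        simp only [Pi.sub_apply, Pi.smul_apply, smul_eq_mul, mulVec_diagonal]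
        ring
      rw [h4, mulVec_sub, mulVec_smul, mulVec_mulVec, hU', one_mulVec, mulVec_mulVec,
        mulVec_mulVec, ← sub_eq_add_neg]
    let βJ : J → ℝ := - (V *ᵥ (fun i => (e i)⁻¹ * (Uᵀ *ᵥ r) i))
    have hUr : Uᵀ *ᵥ r = fun i => (1 - κ * s i) * (Uᵀ *ᵥ bJ) i := by
      rw [hr, mulVec_mulVec, hU, one_mulVec]
    refine ⟨βJ, ?_, ?_⟩
    · -- norm bound
      have hβsum : ∑ j, βJ j ^ 2 = βJ ⬝ᵥ βJ := (dot_self βJ).symm
      have h1 : βJ ⬝ᵥ βJ ≤ (κ⁻¹) ^ 2 * (bJ ⬝ᵥ bJ) := by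
        simp only [βJ]
        rw [neg_dotProduct_neg, orth_dot V hV]
        have h2 : bJ ⬝ᵥ bJ = (Uᵀ *ᵥ bJ) ⬝ᵥ (Uᵀ *ᵥ bJ) := by
          rw [orth_dot Uᵀ]
          rw [transpose_transpose]; exact hU'
        rw [h2, dot_self, dot_self, Finset.mul_sum]
        apply Finset.sum_le_sum
        intro i _
        rw [hUr]
        have h5 : |(e i)⁻¹ * (1 - κ * s i)| ≤ κ⁻¹ := by
          rw [abs_mul, abs_of_pos (inv_pos.2 (he0 i))]
          have h6 : |1 - κ * s i| ≤ 1 := by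
            rw [abs_le]
            constructor
            · nlinarith [hs i, hs1 i, mul_nonneg hκ0.le (hs i), mul_le_mul hκ1 (hs1 i) (hs i) zero_le_one]
            · nlinarith [mul_nonneg hκ0.le (hs i)]
          have h7 : (e i)⁻¹ ≤ κ⁻¹ := by
            gcongr
            exact heκ i
          calc (e i)⁻¹ * |1 - κ * s i| ≤ κ⁻¹ * 1 := by
                gcongr
            _ = κ⁻¹ := mul_one _
        have h8 : ((e i)⁻¹ * (1 - κ * s i)) ^ 2 ≤ (κ⁻¹) ^ 2 := by
          rw [← sq_abs]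
          gcongr
        calc ((e i)⁻¹ * ((1 - κ * s i) * (Uᵀ *ᵥ bJ) i)) ^ 2 =
              ((e i)⁻¹ * (1 - κ * s i)) ^ 2 * ((Uᵀ *ᵥ bJ) i) ^ 2 := by ring
          _ ≤ (κ⁻¹) ^ 2 * ((Uᵀ *ᵥ bJ) i) ^ 2 := by gcongr
      have h2 : bJ ⬝ᵥ bJ = ∑ i ∈ J, b i ^ 2 := by
        rw [dot_self, ← Finset.sum_coe_sort J (fun i => b i ^ 2)]
      have hk : κ⁻¹ = 1 + rm * β₀ := by rw [hκ, one_div, inv_inv]
      rw [hβsum]
      calc Real.sqrt (βJ ⬝ᵥ βJ) ≤ Real.sqrt ((κ⁻¹) ^ 2 * ∑ i ∈ J, b i ^ 2) := by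
            apply Real.sqrt_le_sqrt
            rw [← h2]
            exact h1
        _ = κ⁻¹ * Real.sqrt (∑ i ∈ J, b i ^ 2) := by
            rw [Real.sqrt_mul (by positivity), Real.sqrt_sq (by positivity)]
        _ ≤ (2 + rm * β₀) * Real.sqrt (∑ i ∈ J, b i ^ 2) := by
            rw [hk]
            gcongr
            norm_num
    · intro j hj
      -- the key identity
      have hUW : M + ZJ * Bσ = U * diagonal e * Vᵀ := by
        simp only [ZJ]
        rw [Matrix.smul_mul, Matrix.mul_assoc (U * Vᵀ), hBBσ, hone]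
        have h1 : U * Vᵀ * (V * diagonal (fun i => 1 - s i ^ 2) * Vᵀ) =
            U * diagonal (fun i => 1 - s i ^ 2) * Vᵀ := by
          calc _ = U * (Vᵀ * V) * diagonal (fun i => 1 - s i ^ 2) * Vᵀ := by simp only [mul_assoc]
            _ = _ := by rw [hV, mul_one]
        rw [h1, hM]
        have h2 : diagonal e = diagonal s + κ • diagonal (fun i => 1 - s i ^ 2) := by
          rw [← diagonal_smul, diagonal_add]
          congr 1
          ext i
          exact he i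
        rw [h2, mul_add, add_mul, Matrix.mul_smul, Matrix.smul_mul]
      have hkey : (M + ZJ * Bσ) *ᵥ βJ = - r := by
        rw [hUW]
        simp only [βJ]
        rw [mulVec_neg, mulVec_mulVec]
        congr 1
        have h1 : U * diagonal e * Vᵀ * V = U * diagonal e := by
          rw [mul_assoc, hV, mul_one]
        rw [h1, ← mulVec_mulVec]
        have h2 : diagonal e *ᵥ (fun i => (e i)⁻¹ * (Uᵀ *ᵥ r) i) = Uᵀ *ᵥ r := by
          ext i
          rw [mulVec_diagonal, ← mul_assoc, mul_inv_cancel₀ (he0 i).ne', one_mul]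
        rw [h2, mulVec_mulVec, hU', one_mulVec]
      have hcoord := congrFun hkey ⟨j, hj⟩
      have hsum : ∑ i ∈ Jᶜ, Z j i * (b + B *ᵥ βJ) i =
          (ZJ *ᵥ bσ) ⟨j, hj⟩ + ((ZJ * Bσ) *ᵥ βJ) ⟨j, hj⟩ := by
        rw [← mulVec_mulVec]
        simp only [mulVec, dotProduct]
        rw [← Finset.sum_add_distrib]
        rw [← Finset.sum_filter_add_sum_filter_not Finset.univ (· ∈ J)]
        have h0 : ∑ x ∈ Finset.univ.filter (· ∈ J), (ZJ ⟨j, hj⟩ x * bσ x +
            ZJ ⟨j, hj⟩ x * ∑ y, Bσ x y * βJ y) = 0 := by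
          apply Finset.sum_eq_zero
          intro x hx
          have hx' : x ∈ J := (Finset.mem_filter.1 hx).2
          simp [bσ, Bσ, hx']
        rw [h0, zero_add]
        have h1 : Finset.univ.filter (fun x => x ∉ J) = Jᶜ := by
          ext x; simp
        rw [h1]
        apply Finset.sum_congr rfl
        intro x hx
        have hx' : x ∉ J := by simpa using hx
        simp only [Z, of_apply, dif_pos hj, Pi.add_apply, bσ, Bσ, hx', if_false,
          mulVec, dotProduct]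
        ring
      rw [hsum]
      have hM1 : (b + B *ᵥ βJ) j = bJ ⟨j, hj⟩ + (M *ᵥ βJ) ⟨j, hj⟩ := by
        simp [bJ, M, mulVec, dotProduct]
      rw [hM1]
      rw [add_mulVec] at hcoord
      simp only [Pi.add_apply, Pi.neg_apply, r] at hcoord
      linarith

end BMTwo
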