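import Pool.Agent.Lib.MP_766f4a_gt.TDefs

set_option autoImplicit false

namespace BMTwo

open Matrix Finset

namespace Fmax

variable {d : ℕ}

lemma vec_psd (a : Fin d → ℝ) : (vecMulVec a a).PosSemidef := by
  have h := posSemidef_vecMulVec_self_star (R := ℝ) a
  simpa using h

lemma Sm_psd {ι : Type*} [Fintype ι] (G : ι → Fin d → ℝ) : (Sm G).PosSemidef :=
  posSemidef_sum _ fun j _ => vec_psd (G j)

lemma Sm_pd {ι : Type*} [Fintype ι] (G : ι → Fin d → ℝ) (h : 0 < (Sm G).det) :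
    (Sm G).PosDef := by
  rw [(Sm_psd G).posDef_iff_isUnit, isUnit_iff_isUnit_det]
  exact h.ne'.isUnit

/-- rank one update of the determinant -/
lemma det_update (S : Matrix (Fin d) (Fin d) ℝ) (hS : S.det ≠ 0) (c : ℝ) (v : Fin d → ℝ) :
    (S + c • vecMulVec v v).det = S.det * (1 + c * (v ⬝ᵥ (S⁻¹ *ᵥ v))) := by
  have h1 : S + c • vecMulVec v v =
      S + replicateCol Unit (c • v) * replicateRow Unit v := by
    rw [← vecMulVec_eq Unit, smul_vecMulVec]
  rw [h1, det_add_replicateCol_mul_replicateRow hS.isUnit]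
  congr 1
  rw [det_unique]
  simp only [Matrix.add_apply, Matrix.one_apply_eq]
  congr 1
  rw [Matrix.mul_assoc, Matrix.mul_apply']
  have : (fun j => (S⁻¹ * replicateCol Unit (c • v)) j default) = c • (S⁻¹ *ᵥ v) := by
    rw [← mulVec_smul]
    rfl
  show v ⬝ᵥ (fun j => (S⁻¹ * replicateCol Unit (c • v)) j default) = _
  rw [this, dotProduct_smul, smul_eq_mul]

lemma Sm_equiv {ι κ : Type*} [Fintype ι] [Fintype κ] (e : ι ≃ κ) (G : κ → Fin d → ℝ) :
    Sm (fun i => G (e i)) = Sm G := by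
  unfold Sm
  exact Equiv.sum_comp e (fun i => vecMulVec (G i) (G i))

lemma Sm_sum {ι κ : Type*} [Fintype ι] [Fintype κ] (G : ι → Fin d → ℝ) (V : κ → Fin d → ℝ) :
    Sm (Sum.elim G V) = Sm G + Sm V := by
  unfold Sm
  rw [Fintype.sum_sum_type]
  simp

/-- a maximiser -/
lemma exists_max (N : Set (Fin d → ℝ)) (hN : IsCompact N) (hne : N.Nonempty) (m : ℕ) :
    ∃ G : Fin (d + m) → Fin d → ℝ, (∀ i, G i ∈ N) ∧
      ∀ G' : Fin (d + m) → Fin d → ℝ, (∀ i, G' i ∈ N) → (Sm G').det ≤ (Sm G).det := by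
  have hK : IsCompact (Set.pi Set.univ (fun _ : Fin (d + m) => N)) :=
    isCompact_univ_pi fun _ => hN
  obtain ⟨v, hv⟩ := hne
  have hKne : (Set.pi Set.univ (fun _ : Fin (d + m) => N)).Nonempty :=
    ⟨fun _ => v, fun _ _ => hv⟩
  have hcont : Continuous (fun G : Fin (d + m) → Fin d → ℝ => (Sm G).det) := by
    apply Continuous.matrix_det
    unfold Sm
    refine continuous_finsetSum _ fun i _ => ?_
    exact Continuous.matrix_vecMulVec (continuous_apply i) (continuous_apply i)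
  obtain ⟨G, hG, hmax⟩ := hK.exists_isMaxOn hKne hcont.continuousOn
  refine ⟨G, fun i => hG i (Set.mem_univ i), fun G' hG' => hmax (fun i _ => hG' i)⟩

end Fmax

open Fmax in
/-- The maximal volume family. -/
theorem fmax {d : ℕ} (hd : 0 < d) (N : Set (Fin d → ℝ)) (hN : IsCompact N)
    (hspan : ∃ g : Fin d → Fin d → ℝ, (∀ i, g i ∈ N) ∧ 0 < (Sm g).det)
    (ρ : ℝ) (hρ : 0 < ρ) (hρ2 : ρ ≤ 1 / 2) :
    ∃ (n : ℕ) (G : Fin (d + n) → Fin d → ℝ), (n : ℝ) ≤ 2 * ρ * d ∧ (∀ i, G i ∈ N) ∧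
      0 < (Sm G).det ∧
      (∀ v ∈ N, v ⬝ᵥ ((Sm G)⁻¹ *ᵥ v) ≤ 1 / ρ) ∧
      (0 < n → ∀ i, 1 - G i ⬝ᵥ ((Sm G)⁻¹ *ᵥ G i) ≤ ρ) ∧
      (∀ (k : ℕ) (V : Fin k → Fin d → ℝ), (∀ j, V j ∈ N) →
        (Sm G + Sm V).det ≤ (Sm G).det * ∏ j ∈ Finset.range k, (1 + (d : ℝ) / (j + 1))) := by
  classical
  obtain ⟨g₀, hg₀, hg₀det⟩ := hspan
  have hne : N.Nonempty := ⟨g₀ ⟨0, hd⟩, hg₀ _⟩
  choose M hMN hMmax using fun m => exists_max N hN hne m
  set F : ℕ → ℝ := fun m => (Sm (M m)).det with hF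
  have hdR : (0 : ℝ) < d := by exact_mod_cast hd
  -- comparison for arbitrary index types
  have le_F : ∀ (ι : Type) [Fintype ι] (m : ℕ) (G : ι → Fin d → ℝ), Fintype.card ι = d + m →
      (∀ i, G i ∈ N) → (Sm G).det ≤ F m := by
    intro ι _ m G hcard hG
    have e : Fin (d + m) ≃ ι := (Fintype.equivFinOfCardEq hcard).symm
    rw [← Sm_equiv e G]
    exact hMmax m _ fun i => hG _
  have hF0 : 0 < F 0 := lt_of_lt_of_le hg₀det (le_F (Fin d) 0 g₀ (by simp) hg₀)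
  -- adding a family
  have add_le : ∀ (m k : ℕ) (G : Fin (d + m) → Fin d → ℝ) (V : Fin k → Fin d → ℝ),
      (∀ i, G i ∈ N) → (∀ j, V j ∈ N) → (Sm G + Sm V).det ≤ F (m + k) := by
    intro m k G V hG hV
    rw [← Sm_sum]
    refine le_F (Fin (d + m) ⊕ Fin k) (m + k) _ (by simp [Nat.add_assoc]) ?_
    rintro (i | j)
    · exact hG i
    · exact hV j
  have Sm_single : ∀ v : Fin d → ℝ, Sm (fun _ : Fin 1 => v) = vecMulVec v v := by
    intro v
    unfold Sm
    simp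
  have add_one : ∀ (m : ℕ) (G : Fin (d + m) → Fin d → ℝ) (v : Fin d → ℝ),
      (∀ i, G i ∈ N) → v ∈ N → 0 < (Sm G).det →
      (Sm G).det * (1 + v ⬝ᵥ ((Sm G)⁻¹ *ᵥ v)) ≤ F (m + 1) := by
    intro m G v hG hv hdet
    have h := add_le m 1 G (fun _ => v) hG (fun _ => hv)
    have h2 := det_update (Sm G) hdet.ne' 1 v
    rw [one_smul, one_mul] at h2
    rw [Sm_single, h2] at h
    exact h
  have q_nonneg : ∀ (m : ℕ) (G : Fin (d + m) → Fin d → ℝ) (v : Fin d → ℝ), 0 < (Sm G).det →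
      0 ≤ v ⬝ᵥ ((Sm G)⁻¹ *ᵥ v) := by
    intro m G v hdet
    have := (Sm_pd G hdet).inv.posSemidef.dotProduct_mulVec_nonneg v
    simpa using this
  have hFpos : ∀ m, 0 < F m := by
    intro m
    induction m with
    | zero => exact hF0
    | succ m ih =>
      have h := add_one m (M m) (g₀ ⟨0, hd⟩) (hMN m) (hg₀ _) ih
      have h2 := q_nonneg m (M m) (g₀ ⟨0, hd⟩) ih
      have h3 : F m * 1 ≤ F m * (1 + g₀ ⟨0, hd⟩ ⬝ᵥ ((Sm (M m))⁻¹ *ᵥ g₀ ⟨0, hd⟩)) :=
        mul_le_mul_of_nonneg_left (by linarith) ih.le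
      have h4 : F m = (Sm (M m)).det := rfl
      rw [← h4] at h
      linarith
  -- removing a vector
  have remove : ∀ (m : ℕ) (G : Fin (d + (m + 1)) → Fin d → ℝ) (i : Fin (d + (m + 1))),
      (∀ i, G i ∈ N) → 0 < (Sm G).det →
      (Sm G).det * (1 - G i ⬝ᵥ ((Sm G)⁻¹ *ᵥ G i)) ≤ F m := by
    intro m G i hG hdet
    have h2 := det_update (Sm G) hdet.ne' (-1) (G i)
    have h3 : Sm G + (-1 : ℝ) • vecMulVec (G i) (G i) =
        Sm (fun j : {j : Fin (d + (m + 1)) // j ≠ i} => G j) := by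
      unfold Sm
      rw [← Finset.add_sum_erase _ _ (Finset.mem_univ i), neg_one_smul]
      have : (∑ j : {j : Fin (d + (m + 1)) // j ≠ i}, vecMulVec (G j) (G j)) =
          ∑ j ∈ Finset.univ.erase i, vecMulVec (G j) (G j) := by
        refine (Finset.sum_subtype (Finset.univ.erase i) (by simp)
          (fun j => vecMulVec (G j) (G j))).symm
      rw [this]
      abel
    have h4 := le_F {j : Fin (d + (m + 1)) // j ≠ i} m (fun j => G j)
      (by simp [Fintype.card_subtype_compl]) (fun j => hG _)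
    rw [← h3, h2] at h4
    have h5 : (1 : ℝ) + -1 * (G i ⬝ᵥ ((Sm G)⁻¹ *ᵥ G i)) = 1 - G i ⬝ᵥ ((Sm G)⁻¹ *ᵥ G i) := by
      ring
    rw [h5] at h4
    exact h4
  -- the sum of the leverages
  have lev : ∀ (m : ℕ) (G : Fin (d + m) → Fin d → ℝ), 0 < (Sm G).det →
      ∑ i, G i ⬝ᵥ ((Sm G)⁻¹ *ᵥ G i) = d := by
    intro m G hdet
    have h1 : ∀ i, G i ⬝ᵥ ((Sm G)⁻¹ *ᵥ G i) = ((Sm G)⁻¹ * vecMulVec (G i) (G i)).trace := by
      intro i
      rw [mul_vecMulVec, trace_vecMulVec, dotProduct_comm]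
    simp_rw [h1]
    rw [← trace_sum, ← Finset.mul_sum]
    have : (∑ i, vecMulVec (G i) (G i)) = Sm G := rfl
    rw [this, nonsing_inv_mul _ hdet.ne'.isUnit, trace_one]
    simp
  -- the ratio bound
  have ratio : ∀ m, F (m + 1) ≤ F m * (1 + (d : ℝ) / (m + 1)) := by
    intro m
    have hm1 : (0 : ℝ) < (m : ℝ) + 1 := by positivity
    have hpos := hFpos (m + 1)
    set G := M (m + 1) with hG
    have hdet : 0 < (Sm G).det := hpos
    have hsum := lev (m + 1) G hdet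
    have hex : ∃ i, ((m : ℝ) + 1) / (d + (m + 1)) ≤ 1 - G i ⬝ᵥ ((Sm G)⁻¹ *ᵥ G i) := by
      by_contra hcon
      push Not at hcon
      have hlt : ∑ i : Fin (d + (m + 1)), (1 - G i ⬝ᵥ ((Sm G)⁻¹ *ᵥ G i)) <
          ∑ i : Fin (d + (m + 1)), ((m : ℝ) + 1) / (d + (m + 1)) := by
        refine Finset.sum_lt_sum_of_nonempty ⟨⟨0, by omega⟩, Finset.mem_univ _⟩ fun i _ => hcon i
      rw [Finset.sum_sub_distrib, hsum] at hlt
      simp only [Finset.sum_const, Finset.card_univ, Fintype.card_fin, nsmul_eq_mul,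
        mul_one] at hlt
      push_cast at hlt
      rw [mul_div_cancel₀ _ (by positivity)] at hlt
      linarith
    obtain ⟨i, hi⟩ := hex
    have h := remove m G i (hMN (m + 1)) hdet
    have h2 : F (m + 1) * (((m : ℝ) + 1) / (d + (m + 1))) ≤ F m :=
      le_trans (mul_le_mul_of_nonneg_left hi hpos.le) h
    have h3 : F (m + 1) = F (m + 1) * (((m : ℝ) + 1) / (d + (m + 1))) *
        (1 + (d : ℝ) / (m + 1)) := by
      field_simp
      ring
    rw [h3]
    exact mul_le_mul_of_nonneg_right h2 (by positivity)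
  -- the choice of n
  have hex : ∃ m, F (m + 1) ≤ F m / ρ ∧ (m : ℝ) ≤ 2 * ρ * d := by
    refine ⟨⌊2 * ρ * d⌋₊, ?_, Nat.floor_le (by positivity)⟩
    have h1 : 2 * ρ * d < (⌊2 * ρ * d⌋₊ : ℝ) + 1 := Nat.lt_floor_add_one _
    have h2 : (d : ℝ) / ((⌊2 * ρ * d⌋₊ : ℝ) + 1) ≤ 1 / (2 * ρ) := by
      rw [div_le_div_iff₀ (by positivity) (by positivity)]
      nlinarith
    have h3 : (1 : ℝ) + 1 / (2 * ρ) ≤ 1 / ρ := by
      have : (1 : ℝ) / ρ = 1 / (2 * ρ) + 1 / (2 * ρ) := by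
        field_simp
        norm_num
      rw [this]
      have : (1 : ℝ) ≤ 1 / (2 * ρ) := by
        rw [le_div_iff₀ (by positivity)]
        linarith
      linarith
    calc F (⌊2 * ρ * d⌋₊ + 1) ≤ F ⌊2 * ρ * d⌋₊ * (1 + (d : ℝ) / (⌊2 * ρ * d⌋₊ + 1)) := ratio _
      _ ≤ F ⌊2 * ρ * d⌋₊ * (1 / ρ) :=
          mul_le_mul_of_nonneg_left (by linarith) (hFpos _).le
      _ = F ⌊2 * ρ * d⌋₊ / ρ := by ring
  have hex' : ∃ m, F (m + 1) ≤ F m / ρ := ⟨hex.choose, hex.choose_spec.1⟩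
  set n := Nat.find hex' with hn
  have hn1 : F (n + 1) ≤ F n / ρ := Nat.find_spec hex'
  have hnle : (n : ℝ) ≤ 2 * ρ * d := by
    obtain ⟨m, hm1, hm2⟩ := hex
    have : n ≤ m := Nat.find_min' hex' hm1
    exact le_trans (by exact_mod_cast this) hm2
  have hdet : 0 < (Sm (M n)).det := hFpos n
  refine ⟨n, M n, hnle, hMN n, hdet, ?_, ?_, ?_⟩
  · intro v hv
    have h := add_one n (M n) v (hMN n) hv hdet
    have h2 : (Sm (M n)).det * (1 + v ⬝ᵥ ((Sm (M n))⁻¹ *ᵥ v)) ≤ (Sm (M n)).det * (1 / ρ) := by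
      refine h.trans (hn1.trans (le_of_eq ?_))
      show (Sm (M n)).det / ρ = _
      ring
    have h3 := le_of_mul_le_mul_left h2 hdet
    linarith
  · intro hnpos i
    obtain ⟨m, hm⟩ : ∃ m, n = m + 1 := ⟨n - 1, by omega⟩
    have hmin : ¬ F (m + 1) ≤ F m / ρ := Nat.find_min hex' (by omega)
    push Not at hmin
    clear_value n
    subst hm
    have h := remove m (M (m + 1)) i (hMN (m + 1)) hdet
    have h2 : F m < F (m + 1) * ρ := by
      rwa [div_lt_iff₀ hρ] at hmin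
    have h3 : (Sm (M (m + 1))).det * (1 - M (m + 1) i ⬝ᵥ ((Sm (M (m + 1)))⁻¹ *ᵥ M (m + 1) i)) ≤
        (Sm (M (m + 1))).det * ρ := h.trans h2.le
    exact le_of_mul_le_mul_left h3 hdet
  · intro k V hV
    refine (add_le n k (M n) V (hMN n) hV).trans ?_
    have key : ∀ k, F (n + k) ≤ F n * ∏ j ∈ Finset.range k, (1 + (d : ℝ) / (j + 1)) := by
      intro k
      induction k with
      | zero => simp
      | succ k ih =>
        rw [Finset.prod_range_succ, ← mul_assoc]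
        calc F (n + (k + 1)) ≤ F (n + k) * (1 + (d : ℝ) / ((n + k : ℕ) + 1)) := ratio (n + k)
          _ ≤ F (n + k) * (1 + (d : ℝ) / (k + 1)) := by
              refine mul_le_mul_of_nonneg_left ?_ (hFpos _).le
              push_cast
              have : (d : ℝ) / (n + k + 1) ≤ d / (k + 1) := by
                apply div_le_div_of_nonneg_left hdR.le (by positivity)
                have : (0 : ℝ) ≤ n := Nat.cast_nonneg n
                linarith
              linarith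
          _ ≤ _ := by
              refine mul_le_mul_of_nonneg_right ih ?_
              positivity
    exact key k

end BMTwo
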