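import Pool.Agent.Lib.MP_766f4a_gt.TDefs

/-! Module KER: an orthonormal basis of the relations of a family of vectors. -/

set_option autoImplicit false

namespace BMTwo

open Matrix Finset

namespace Ker

/-- The columns of an orthonormal basis of the range of an orthogonal projection. -/
theorem proj_frame {ι J : Type*} [Fintype ι] [DecidableEq ι] [Fintype J] [DecidableEq J]
    (P : Matrix ι ι ℝ) (hPT : Pᵀ = P) (hPP : P * P = P) (htr : P.trace = Fintype.card J) :
    ∃ B : Matrix ι J ℝ, Bᵀ * B = 1 ∧ B * Bᵀ = P := by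
  classical
  have hA : P.IsHermitian := by
    rw [Matrix.IsHermitian, conjTranspose_eq_transpose_of_trivial]
    exact hPT
  obtain ⟨v, hv⟩ : ∃ v : OrthonormalBasis ι ℝ (EuclideanSpace ℝ ι), v = hA.eigenvectorBasis :=
    ⟨_, rfl⟩
  obtain ⟨lam, hlam⟩ : ∃ lam : ι → ℝ, lam = hA.eigenvalues := ⟨_, rfl⟩
  have hdot : ∀ i j, (v i).ofLp ⬝ᵥ (v j).ofLp = if i = j then 1 else 0 := by
    intro i j
    have := orthonormal_iff_ite.1 v.orthonormal j i
    rw [EuclideanSpace.inner_eq_star_dotProduct] at this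
    simp only [star_trivial] at this
    rw [this]
    by_cases h : i = j
    · simp [h]
    · simp [h, Ne.symm h]
  have hev : ∀ j, P *ᵥ (v j).ofLp = lam j • (v j).ofLp := by
    intro j
    rw [hv, hlam]
    exact hA.mulVec_eigenvectorBasis j
  have hlam01 : ∀ j, lam j = 0 ∨ lam j = 1 := by
    intro j
    have h1 : P *ᵥ (P *ᵥ (v j).ofLp) = P *ᵥ (v j).ofLp := by rw [mulVec_mulVec, hPP]
    rw [hev, mulVec_smul, hev, smul_smul] at h1
    have h2 := congrArg (fun x => (v j).ofLp ⬝ᵥ x) h1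
    simp only [dotProduct_smul, smul_eq_mul, hdot, if_true, mul_one] at h2
    rcases eq_or_ne (lam j) 0 with h | h
    · exact Or.inl h
    · exact Or.inr (mul_right_cancel₀ h (by rw [one_mul]; exact h2))
  have htrace : P.trace = ∑ j, lam j := by
    rw [hlam]
    simpa using hA.trace_eq_sum_eigenvalues
  have hcard : Fintype.card {i // lam i = 1} = Fintype.card J := by
    have h1 : ∑ j, lam j = (Fintype.card {i // lam i = 1} : ℝ) := by
      rw [Fintype.card_subtype, Finset.card_filter]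
      push_cast
      refine Finset.sum_congr rfl fun j _ => ?_
      rcases hlam01 j with h | h
      · rw [h]; simp
      · rw [h]; simp
    have h2 : (Fintype.card {i // lam i = 1} : ℝ) = (Fintype.card J : ℝ) := by
      rw [← h1, ← htrace, htr]
    exact_mod_cast h2
  let e : J ≃ {i // lam i = 1} := Fintype.equivOfCardEq hcard.symm
  let V : Matrix ι ι ℝ := Matrix.of fun a i => (v i).ofLp a
  have hVV : Vᵀ * V = 1 := by
    ext i j
    rw [mul_apply]
    simp only [transpose_apply, V, of_apply]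
    have := hdot i j
    rw [dotProduct] at this
    rw [this, one_apply]
  have hVV' : V * Vᵀ = 1 := mul_eq_one_comm.1 hVV
  have hPV : P * V = V * diagonal lam := by
    ext a i
    rw [mul_diagonal]
    have := congrFun (hev i) a
    simp only [mulVec, dotProduct, Pi.smul_apply, smul_eq_mul] at this
    rw [mul_apply]
    simp only [V, of_apply]
    rw [this, mul_comm]
  have hP : P = V * diagonal lam * Vᵀ := by
    calc P = P * (V * Vᵀ) := by rw [hVV', mul_one]
      _ = (P * V) * Vᵀ := by rw [← mul_assoc]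
      _ = V * diagonal lam * Vᵀ := by rw [hPV]
  refine ⟨Matrix.of fun a j => (v (e j)).ofLp a, ?_, ?_⟩
  · ext i j
    rw [mul_apply]
    simp only [transpose_apply, of_apply]
    have := hdot (e i) (e j)
    rw [dotProduct] at this
    rw [this, one_apply]
    by_cases h : i = j
    · simp [h]
    · have h' : ¬ (((e i : {i // lam i = 1}) : ι) = ((e j : {i // lam i = 1}) : ι)) := fun h' =>
        h (e.injective (Subtype.ext h'))
      rw [if_neg h', if_neg h]
  · ext a b
    rw [hP, mul_apply, mul_apply]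
    simp only [transpose_apply, of_apply, mul_diagonal, V]
    have h1 : ∑ j : J, (v (e j)).ofLp a * (v (e j)).ofLp b =
        ∑ i : {i // lam i = 1}, (v i).ofLp a * (v i).ofLp b :=
      Equiv.sum_comp e (fun i : {i // lam i = 1} => (v i).ofLp a * (v i).ofLp b)
    rw [h1]
    have h2 : ∑ i : {i // lam i = 1}, (v i).ofLp a * (v i).ofLp b =
        ∑ i ∈ Finset.univ.filter (fun i => lam i = 1), (v i).ofLp a * (v i).ofLp b :=
      (Finset.sum_subtype (Finset.univ.filter (fun i => lam i = 1)) (by simp)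
        (fun i => (v i).ofLp a * (v i).ofLp b)).symm
    rw [h2, Finset.sum_filter]
    refine Finset.sum_congr rfl fun i _ => ?_
    rcases hlam01 i with h | h
    · rw [h]; simp
    · rw [h]; simp

end Ker

/-- An orthonormal basis of the relations of the family `G`, indexed by `J`. -/
theorem ker_frame {d n : ℕ} (G : Fin (d + n) → Fin d → ℝ) (hS : 0 < (Sm G).det)
    (J : Finset (Fin (d + n))) (hJ : J.card = n) :
    ∃ B : Matrix (Fin (d + n)) J ℝ, Bᵀ * B = 1 ∧ (∀ j, ∑ i, B i j • G i = 0) ∧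
      ∀ i, ∑ j, B i j ^ 2 = 1 - G i ⬝ᵥ ((Sm G)⁻¹ *ᵥ G i) := by
  obtain ⟨Γ, hΓ⟩ : ∃ Γ : Matrix (Fin d) (Fin (d + n)) ℝ, Γ = (Matrix.of G)ᵀ := ⟨_, rfl⟩
  have hΓa : ∀ a i, Γ a i = G i a := fun a i => by rw [hΓ]; rfl
  have hSΓ : Sm G = Γ * Γᵀ := by
    ext a b
    rw [Sm, Matrix.sum_apply, mul_apply]
    refine Finset.sum_congr rfl fun i _ => ?_
    rw [vecMulVec_apply, transpose_apply, hΓa, hΓa]
  have hSu : IsUnit (Sm G).det := hS.ne'.isUnit
  have hST : (Sm G)ᵀ = Sm G := by rw [hSΓ, transpose_mul, transpose_transpose]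
  have hSiT : ((Sm G)⁻¹)ᵀ = (Sm G)⁻¹ := by rw [transpose_nonsing_inv, hST]
  have hΓΓ : Γ * Γᵀ * (Sm G)⁻¹ = 1 := by rw [← hSΓ]; exact mul_nonsing_inv _ hSu
  obtain ⟨L, hL⟩ : ∃ L : Matrix (Fin (d + n)) (Fin (d + n)) ℝ, L = Γᵀ * (Sm G)⁻¹ * Γ := ⟨_, rfl⟩
  have hLT : Lᵀ = L := by
    rw [hL, transpose_mul, transpose_mul, transpose_transpose, hSiT, Matrix.mul_assoc]
  have hLL : L * L = L := by
    calc L * L = Γᵀ * (Sm G)⁻¹ * (Γ * Γᵀ * (Sm G)⁻¹) * Γ := by
          rw [hL]; simp only [Matrix.mul_assoc]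
      _ = L := by rw [hΓΓ, Matrix.mul_one, hL]
  have hΓL : Γ * L = Γ := by
    calc Γ * L = (Γ * Γᵀ * (Sm G)⁻¹) * Γ := by rw [hL]; simp only [Matrix.mul_assoc]
      _ = Γ := by rw [hΓΓ, Matrix.one_mul]
  have htrL : L.trace = d := by
    rw [hL, trace_mul_comm, ← Matrix.mul_assoc, hΓΓ, trace_one, Fintype.card_fin]
  obtain ⟨B, hB1, hB2⟩ := Ker.proj_frame (J := J) (1 - L)
    (by rw [transpose_sub, transpose_one, hLT])
    (by rw [Matrix.sub_mul, Matrix.mul_sub, Matrix.mul_sub, hLL]; simp)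
    (by
      rw [trace_sub, trace_one, htrL, Fintype.card_fin, Fintype.card_coe, hJ]
      push_cast
      ring)
  refine ⟨B, hB1, ?_, ?_⟩
  · intro j
    have h1 : Γ * B = 0 := by
      have h2 : B = (1 - L) * B := by
        rw [← hB2, Matrix.mul_assoc, hB1, Matrix.mul_one]
      rw [h2, ← Matrix.mul_assoc, Matrix.mul_sub, Matrix.mul_one, hΓL, sub_self, Matrix.zero_mul]
    ext a
    have h3 := congrFun (congrFun h1 a) j
    rw [mul_apply] at h3
    rw [Finset.sum_apply]
    simp only [Pi.smul_apply, smul_eq_mul, Pi.zero_apply]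
    rw [Matrix.zero_apply] at h3
    rw [← h3]
    refine Finset.sum_congr rfl fun i _ => ?_
    rw [hΓa, mul_comm]
  · intro i
    have h1 := congrFun (congrFun hB2 i) i
    rw [mul_apply] at h1
    simp only [transpose_apply] at h1
    have h2 : L i i = G i ⬝ᵥ ((Sm G)⁻¹ *ᵥ G i) := by
      rw [hL, Matrix.mul_assoc, mul_apply]
      simp only [transpose_apply, hΓa]
      rw [dotProduct]
      refine Finset.sum_congr rfl fun a _ => ?_
      congr 1
      rw [mul_apply, mulVec, dotProduct]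
      refine Finset.sum_congr rfl fun b _ => ?_
      rw [hΓa]
    rw [← h2]
    rw [Matrix.sub_apply, one_apply_eq] at h1
    rw [← h1]
    exact Finset.sum_congr rfl fun j _ => by rw [sq]

end BMTwo
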