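import Pool.Agent.Lib.MP_766f4a_gt.TDefs

/-!
# MP_766f4a_gt, module GREEDY: greedy approximation of a compact set by subspaces
-/

set_option autoImplicit false

namespace BMTwo

open Matrix Finset

namespace Greedy

variable {D : ℕ}

lemma det_add_rank_one (A : Matrix (Fin D) (Fin D) ℝ) (hA : IsUnit A.det) (u : Fin D → ℝ) :
    (A + vecMulVec u u).det = A.det * (1 + u ⬝ᵥ (A⁻¹ *ᵥ u)) := by
  have h := Matrix.det_add_replicateCol_mul_replicateRow (ι := Unit) hA u u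
  have h2 : replicateCol Unit u * replicateRow Unit u = vecMulVec u u :=
    (Matrix.vecMulVec_eq Unit u u).symm
  rw [h2] at h
  rw [h, Matrix.det_unique (1 + _)]
  congr 1
  simp only [Matrix.add_apply, Matrix.one_apply_eq]
  congr 1
  rw [Matrix.mul_assoc, Matrix.mul_apply_eq_vecMul]
  simp [Matrix.mul_apply, dotProduct, Matrix.mulVec, Matrix.vecMul]

lemma vec_psd (a : Fin D → ℝ) : (vecMulVec a a).PosSemidef := by
  simpa using Matrix.posSemidef_vecMulVec_self_star a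

/-- The matrix `1 + ∑_{j<k} b_j b_jᵀ`. -/
noncomputable def Wm (b : ℕ → Fin D → ℝ) (k : ℕ) : Matrix (Fin D) (Fin D) ℝ :=
  1 + ∑ j ∈ range k, vecMulVec (b j) (b j)

lemma Wm_succ (b : ℕ → Fin D → ℝ) (k : ℕ) :
    Wm b (k + 1) = Wm b k + vecMulVec (b k) (b k) := by
  simp [Wm, sum_range_succ, add_assoc]

lemma Wm_pd (b : ℕ → Fin D → ℝ) (k : ℕ) : (Wm b k).PosDef := by
  induction k with
  | zero => simpa [Wm] using (Matrix.PosDef.one : (1 : Matrix (Fin D) (Fin D) ℝ).PosDef)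
  | succ k ih =>
    rw [Wm_succ]
    exact ih.add_posSemidef (vec_psd _)

lemma vmv_mulVec (u v w : Fin D → ℝ) : vecMulVec u v *ᵥ w = (v ⬝ᵥ w) • u := by
  ext i
  simp [Matrix.mulVec, dotProduct, vecMulVec_apply, Finset.mul_sum, mul_comm,
    mul_left_comm]

lemma Wm_mulVec (b : ℕ → Fin D → ℝ) (k : ℕ) (w : Fin D → ℝ) :
    Wm b k *ᵥ w = w + ∑ j ∈ range k, (b j ⬝ᵥ w) • b j := by
  rw [Wm, Matrix.add_mulVec, Matrix.one_mulVec, Matrix.sum_mulVec]
  simp only [vmv_mulVec]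

lemma dot_nonneg (x : Fin D → ℝ) : 0 ≤ x ⬝ᵥ x :=
  Finset.sum_nonneg fun _ _ => mul_self_nonneg _

lemma symm_dot {P : Matrix (Fin D) (Fin D) ℝ} (hPt : Pᵀ = P) (x y : Fin D → ℝ) :
    (P *ᵥ x) ⬝ᵥ y = x ⬝ᵥ (P *ᵥ y) := by
  rw [Matrix.dotProduct_mulVec, ← Matrix.mulVec_transpose, hPt]

lemma proj_sq {P : Matrix (Fin D) (Fin D) ℝ} (hPt : Pᵀ = P) (hP : P * P = P) (x : Fin D → ℝ) :
    (x - P *ᵥ x) ⬝ᵥ (x - P *ᵥ x) = x ⬝ᵥ x - (P *ᵥ x) ⬝ᵥ (P *ᵥ x) := by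
  have h1 : (P *ᵥ x) ⬝ᵥ (P *ᵥ x) = x ⬝ᵥ (P *ᵥ x) := by
    rw [symm_dot hPt, Matrix.mulVec_mulVec, hP]
  have h2 : (P *ᵥ x) ⬝ᵥ x = x ⬝ᵥ (P *ᵥ x) := symm_dot hPt x x
  rw [sub_dotProduct, dotProduct_sub, dotProduct_sub, h1, h2]
  ring

lemma proj_sq_le {P : Matrix (Fin D) (Fin D) ℝ} (hPt : Pᵀ = P) (hP : P * P = P)
    (x : Fin D → ℝ) : (x - P *ᵥ x) ⬝ᵥ (x - P *ᵥ x) ≤ x ⬝ᵥ x := by
  rw [proj_sq hPt hP]
  linarith [dot_nonneg (P *ᵥ x)]

lemma proj_mono {P Q : Matrix (Fin D) (Fin D) ℝ} (hQt : Qᵀ = Q) (hQ : Q * Q = Q)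
    (hQP : Q * P = P) (x : Fin D → ℝ) :
    (x - Q *ᵥ x) ⬝ᵥ (x - Q *ᵥ x) ≤ (x - P *ᵥ x) ⬝ᵥ (x - P *ᵥ x) := by
  have h : x - Q *ᵥ x = (x - P *ᵥ x) - Q *ᵥ (x - P *ᵥ x) := by
    rw [Matrix.mulVec_sub, Matrix.mulVec_mulVec, hQP]
    abel
  rw [h]
  exact proj_sq_le hQt hQ _

lemma Wm_lower (b : ℕ → Fin D → ℝ) (k : ℕ) (P : Matrix (Fin D) (Fin D) ℝ) (hPt : Pᵀ = P)
    (hP : P * P = P) (hPb : ∀ j < k, P *ᵥ b j = b j) (v : Fin D → ℝ) :
    (v - P *ᵥ v) ⬝ᵥ (v - P *ᵥ v) ≤ v ⬝ᵥ ((Wm b k)⁻¹ *ᵥ v) := by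
  obtain ⟨w, hw⟩ : ∃ w, w = (Wm b k)⁻¹ *ᵥ v := ⟨_, rfl⟩
  have hunit : IsUnit (Wm b k).det := (Wm_pd b k).det_pos.ne'.isUnit
  have hv : v = w + ∑ j ∈ range k, (b j ⬝ᵥ w) • b j := by
    rw [← Wm_mulVec, hw, Matrix.mulVec_mulVec, Matrix.mul_nonsing_inv _ hunit,
      Matrix.one_mulVec]
  rw [← hw]
  have hPs : P *ᵥ (∑ j ∈ range k, (b j ⬝ᵥ w) • b j) = ∑ j ∈ range k, (b j ⬝ᵥ w) • b j := by
    rw [Matrix.mulVec_sum]
    refine Finset.sum_congr rfl fun j hj => ?_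
    rw [Matrix.mulVec_smul, hPb j (Finset.mem_range.1 hj)]
  have h1 : v - P *ᵥ v = w - P *ᵥ w := by
    rw [hv, Matrix.mulVec_add, hPs]
    abel
  have h2 : v ⬝ᵥ w = w ⬝ᵥ w + ∑ j ∈ range k, (b j ⬝ᵥ w) ^ 2 := by
    conv_lhs => rw [hv]
    rw [add_dotProduct, sum_dotProduct]
    congr 1
    refine Finset.sum_congr rfl fun j _ => ?_
    rw [smul_dotProduct, smul_eq_mul, sq]
  rw [h1, h2]
  have h3 := proj_sq_le hPt hP w
  have h4 : 0 ≤ ∑ j ∈ range k, (b j ⬝ᵥ w) ^ 2 := Finset.sum_nonneg fun j _ => sq_nonneg _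
  linarith

/-- Adding the direction of `p` to a projection. -/
noncomputable def stepM (Q : Matrix (Fin D) (Fin D) ℝ) (p : Fin D → ℝ) :
    Matrix (Fin D) (Fin D) ℝ :=
  Q + ((p - Q *ᵥ p) ⬝ᵥ (p - Q *ᵥ p))⁻¹ • vecMulVec (p - Q *ᵥ p) (p - Q *ᵥ p)

lemma dot_eq_zero {x : Fin D → ℝ} (h : x ⬝ᵥ x = 0) : x = 0 :=
  dotProduct_self_eq_zero.1 h

lemma stepM_props {Q : Matrix (Fin D) (Fin D) ℝ} (hQt : Qᵀ = Q) (hQ : Q * Q = Q)
    (p : Fin D → ℝ) :
    (stepM Q p)ᵀ = stepM Q p ∧ stepM Q p * stepM Q p = stepM Q p ∧ stepM Q p * Q = Q ∧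
      (stepM Q p).trace ≤ Q.trace + 1 ∧ stepM Q p *ᵥ p = p := by
  obtain ⟨e, he⟩ : ∃ e, e = p - Q *ᵥ p := ⟨_, rfl⟩
  have hQe : Q *ᵥ e = 0 := by
    rw [he, Matrix.mulVec_sub, Matrix.mulVec_mulVec, hQ, sub_self]
  have heQ : e ᵥ* Q = 0 := by
    rw [← Matrix.mulVec_transpose, hQt, hQe]
  have hs : stepM Q p = Q + (e ⬝ᵥ e)⁻¹ • vecMulVec e e := by rw [he]; rfl
  have hQv : Q * vecMulVec e e = 0 := by
    rw [Matrix.mul_vecMulVec, hQe]; ext i j; simp [vecMulVec_apply]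
  have hvQ : vecMulVec e e * Q = 0 := by
    rw [Matrix.vecMulVec_mul, heQ]; ext i j; simp [vecMulVec_apply]
  have hvv : vecMulVec e e * vecMulVec e e = (e ⬝ᵥ e) • vecMulVec e e := by
    rw [Matrix.vecMulVec_mul_vecMulVec]
    ext i j
    simp [vecMulVec_apply]
    try ring
  have hc : (e ⬝ᵥ e)⁻¹ * ((e ⬝ᵥ e)⁻¹ * (e ⬝ᵥ e)) = (e ⬝ᵥ e)⁻¹ := by
    by_cases h0 : e ⬝ᵥ e = 0
    · simp [h0]
    · rw [inv_mul_cancel₀ h0, mul_one]
  have hsQ : stepM Q p * Q = Q := by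
    rw [hs, Matrix.add_mul, hQ, Matrix.smul_mul, hvQ, smul_zero, add_zero]
  refine ⟨?_, ?_, hsQ, ?_, ?_⟩
  · rw [hs, Matrix.transpose_add, hQt, Matrix.transpose_smul]
    congr 2
    ext i j
    simp [vecMulVec_apply, mul_comm]
  · conv_lhs => rw [hs]
    rw [Matrix.add_mul, Matrix.mul_add, Matrix.mul_add, hQ, Matrix.mul_smul, hQv, Matrix.smul_mul,
      hvQ, Matrix.smul_mul, Matrix.mul_smul, hvv, smul_zero, smul_smul, smul_smul,
      mul_assoc, hc, hs]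
    abel
  · rw [hs, Matrix.trace_add, Matrix.trace_smul, Matrix.trace_vecMulVec, smul_eq_mul]
    by_cases h0 : e ⬝ᵥ e = 0
    · simp [h0]
    · rw [inv_mul_cancel₀ h0]
  · have hep : e ⬝ᵥ p = e ⬝ᵥ e := by
      have h1 : p = e + Q *ᵥ p := by rw [he]; abel
      conv_lhs => rw [h1]
      rw [dotProduct_add, ← symm_dot hQt, hQe, zero_dotProduct, add_zero]
    rw [hs, Matrix.add_mulVec, Matrix.smul_mulVec, vmv_mulVec, hep, smul_smul]
    by_cases h0 : e ⬝ᵥ e = 0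
    · have h1 : e = 0 := dot_eq_zero h0
      have h2 : p - Q *ᵥ p = 0 := by rw [← he, h1]
      rw [h1]
      simp only [smul_zero, add_zero]
      exact (sub_eq_zero.1 h2).symm
    · rw [inv_mul_cancel₀ h0, one_smul, he]
      abel

/-- A point of `K` at maximal distance from the range of `Q`. -/
lemma exists_pick (K : Set (Fin D → ℝ)) (hK : IsCompact K) (hne : K.Nonempty)
    (Q : Matrix (Fin D) (Fin D) ℝ) :
    ∃ p ∈ K, ∀ b ∈ K, (b - Q *ᵥ b) ⬝ᵥ (b - Q *ᵥ b) ≤ (p - Q *ᵥ p) ⬝ᵥ (p - Q *ᵥ p) := by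
  have hcont : Continuous fun b : Fin D → ℝ => (b - Q *ᵥ b) ⬝ᵥ (b - Q *ᵥ b) := by
    have h1 : Continuous fun b : Fin D → ℝ => b - Q *ᵥ b :=
      continuous_id.sub (Continuous.matrix_mulVec continuous_const continuous_id)
    exact Continuous.dotProduct h1 h1
  obtain ⟨p, hp, hmax⟩ := hK.exists_isMaxOn hne hcont.continuousOn
  exact ⟨p, hp, fun b hb => hmax hb⟩

/-- The final numerical estimate. -/
lemma num (d m : ℕ) (hm : 0 < m) (ν : ℝ) (hν : 0 ≤ ν)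
    (h : (1 + ν) ^ m ≤ ∏ j ∈ Finset.range m, (1 + (d : ℝ) / (j + 1))) :
    ν ≤ 3 * (d + m) / m := by
  have hm' : (0 : ℝ) < m := by exact_mod_cast hm
  have hfac : ∀ k : ℕ, k ≤ m →
      (∏ j ∈ Finset.range k, (1 + (d : ℝ) / (j + 1))) * (k.factorial : ℝ) ≤ ((d : ℝ) + m) ^ k := by
    intro k hk
    induction k with
    | zero => simp
    | succ k ih =>
      have ih' := ih (by omega)
      rw [Finset.prod_range_succ, Nat.factorial_succ, pow_succ]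
      have h1 : (1 + (d : ℝ) / (k + 1)) * ((k : ℝ) + 1) = d + (k + 1) := by
        field_simp
        ring
      have h2 : (d : ℝ) + (k + 1) ≤ d + m := by
        have : ((k + 1 : ℕ) : ℝ) ≤ m := by exact_mod_cast hk
        push_cast at this
        linarith
      have h3 : (∏ j ∈ Finset.range k, (1 + (d : ℝ) / (j + 1))) * (1 + (d : ℝ) / (k + 1)) *
          (((k + 1) * k.factorial : ℕ) : ℝ) =
          ((∏ j ∈ Finset.range k, (1 + (d : ℝ) / (j + 1))) * (k.factorial : ℝ)) *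
            (d + (k + 1)) := by
        rw [← h1]
        push_cast
        ring
      rw [h3]
      exact mul_le_mul ih' h2 (by positivity) (by positivity)
  have h1 := hfac m le_rfl
  have h2 : (m : ℝ) ^ m ≤ 3 ^ m * (m.factorial : ℝ) := by
    have h3 := Real.pow_div_factorial_le_exp (m : ℝ) (by positivity) m
    have h4 : Real.exp (m : ℝ) ≤ 3 ^ m := by
      rw [← mul_one (m : ℝ), Real.exp_nat_mul]
      exact pow_le_pow_left₀ (Real.exp_pos _).le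
        (le_of_lt (lt_trans Real.exp_one_lt_d9 (by norm_num))) _
    have h5 : (0 : ℝ) < m.factorial := by exact_mod_cast m.factorial_pos
    rw [div_le_iff₀ h5] at h3
    exact h3.trans (mul_le_mul_of_nonneg_right h4 h5.le)
  have h5 : (0 : ℝ) < m.factorial := by exact_mod_cast m.factorial_pos
  have h6 : ((1 + ν) * m) ^ m ≤ (3 * ((d : ℝ) + m)) ^ m := by
    rw [mul_pow, mul_pow]
    calc (1 + ν) ^ m * (m : ℝ) ^ m ≤ (1 + ν) ^ m * (3 ^ m * (m.factorial : ℝ)) :=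
          mul_le_mul_of_nonneg_left h2 (by positivity)
      _ = 3 ^ m * ((1 + ν) ^ m * (m.factorial : ℝ)) := by ring
      _ ≤ 3 ^ m * ((∏ j ∈ Finset.range m, (1 + (d : ℝ) / (j + 1))) * (m.factorial : ℝ)) := by
          gcongr
      _ ≤ 3 ^ m * ((d : ℝ) + m) ^ m := by gcongr
  have h7 : (1 + ν) * m ≤ 3 * ((d : ℝ) + m) :=
    le_of_pow_le_pow_left₀ (by omega) (by positivity) h6
  rw [le_div_iff₀ hm']
  nlinarith

end Greedy

open Greedy

/-- Greedy approximation of the compact set `K` by subspaces; `P k` is the matrix of the orthogonal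
projection onto a subspace of dimension at most `k`. -/
theorem greedy {D d : ℕ} (K : Set (Fin D → ℝ)) (hK : IsCompact K) (hne : K.Nonempty)
    (hdet : ∀ (k : ℕ) (b : Fin k → Fin D → ℝ), (∀ j, b j ∈ K) →
      ((1 : Matrix (Fin D) (Fin D) ℝ) + Sm b).det ≤
        ∏ j ∈ Finset.range k, (1 + (d : ℝ) / (j + 1))) :
    ∃ P : ℕ → Matrix (Fin D) (Fin D) ℝ, (∀ k, (P k)ᵀ = P k) ∧ (∀ k, P k * P k = P k) ∧
      (∀ j k, j ≤ k → P k * P j = P j) ∧ (∀ k, (P k).trace ≤ k) ∧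
      ∀ k : ℕ, ∀ b ∈ K, (b - P k *ᵥ b) ⬝ᵥ (b - P k *ᵥ b) ≤ 3 * (d + k + 1) / (k + 1) := by
  choose pick hpick hmax using exists_pick K hK hne
  let P : ℕ → Matrix (Fin D) (Fin D) ℝ := fun k => Nat.rec 0 (fun _ Q => stepM Q (pick Q)) k
  have hP0 : P 0 = 0 := rfl
  have hPs : ∀ k, P (k + 1) = stepM (P k) (pick (P k)) := fun k => rfl
  have hbase : ∀ k, (P k)ᵀ = P k ∧ P k * P k = P k := by
    intro k
    induction k with
    | zero => rw [hP0]; simp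
    | succ k ih =>
      obtain ⟨h1, h2, -⟩ := stepM_props ih.1 ih.2 (pick (P k))
      rw [hPs]
      exact ⟨h1, h2⟩
  have hstep : ∀ k, P (k + 1) * P k = P k := by
    intro k
    obtain ⟨-, -, h3, -⟩ := stepM_props (hbase k).1 (hbase k).2 (pick (P k))
    rw [hPs]
    exact h3
  have hmul : ∀ j k, j ≤ k → P k * P j = P j := by
    intro j k hjk
    induction k, hjk using Nat.le_induction with
    | base => exact (hbase j).2
    | succ k _ ih =>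
      calc P (k + 1) * P j = P (k + 1) * (P k * P j) := by rw [ih]
        _ = (P (k + 1) * P k) * P j := by rw [Matrix.mul_assoc]
        _ = P j := by rw [hstep, ih]
  have htr : ∀ k : ℕ, (P k).trace ≤ k := by
    intro k
    induction k with
    | zero => rw [hP0]; simp
    | succ k ih =>
      obtain ⟨-, -, -, h4, -⟩ := stepM_props (hbase k).1 (hbase k).2 (pick (P k))
      rw [hPs]
      push_cast
      linarith
  refine ⟨P, fun k => (hbase k).1, fun k => (hbase k).2, hmul, htr, ?_⟩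
  intro k b hb
  have hb1 : ∀ j, P (j + 1) *ᵥ pick (P j) = pick (P j) := by
    intro j
    obtain ⟨-, -, -, -, h5⟩ := stepM_props (hbase j).1 (hbase j).2 (pick (P j))
    rw [hPs]
    exact h5
  have hb2 : ∀ k, ∀ j < k, P k *ᵥ pick (P j) = pick (P j) := by
    intro k j hj
    rw [← hb1 j, Matrix.mulVec_mulVec, hmul (j + 1) k hj]
  obtain ⟨ν, hν⟩ : ∃ ν : ℕ → ℝ, ν = fun k =>
    (pick (P k) - P k *ᵥ pick (P k)) ⬝ᵥ (pick (P k) - P k *ᵥ pick (P k)) := ⟨_, rfl⟩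
  have hν0 : ∀ j, 0 ≤ ν j := by
    intro j
    rw [hν]
    exact dot_nonneg _
  have hνmax : ∀ j, ∀ b ∈ K, (b - P j *ᵥ b) ⬝ᵥ (b - P j *ᵥ b) ≤ ν j := by
    intro j b hb
    rw [hν]
    exact hmax (P j) b hb
  have hνanti : ∀ i j, i ≤ j → ν j ≤ ν i := by
    intro i j hij
    have h1 := proj_mono (hbase j).1 (hbase j).2 (hmul i j hij) (pick (P j))
    have h2 := hνmax i (pick (P j)) (hpick (P j))
    have h3 : ν j = (pick (P j) - P j *ᵥ pick (P j)) ⬝ᵥ (pick (P j) - P j *ᵥ pick (P j)) := by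
      rw [hν]
    rw [h3]
    exact h1.trans h2
  have hdetW : ∀ k, ∏ j ∈ Finset.range k, (1 + ν j) ≤ (Wm (fun j => pick (P j)) k).det := by
    intro k
    induction k with
    | zero => simp [Wm]
    | succ k ih =>
      have hpd := Wm_pd (fun j => pick (P j)) k
      rw [Finset.prod_range_succ, Wm_succ,
        det_add_rank_one _ hpd.det_pos.ne'.isUnit]
      have h1 := Wm_lower (fun j => pick (P j)) k (P k) (hbase k).1 (hbase k).2 (hb2 k)
        (pick (P k))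
      have h2 : ν k = (pick (P k) - P k *ᵥ pick (P k)) ⬝ᵥ (pick (P k) - P k *ᵥ pick (P k)) := by
        rw [hν]
      rw [← h2] at h1
      exact mul_le_mul ih (by linarith) (by linarith [hν0 k]) hpd.det_pos.le
  have hW : (Wm (fun j => pick (P j)) (k + 1)).det ≤
      ∏ j ∈ Finset.range (k + 1), (1 + (d : ℝ) / (j + 1)) := by
    have h1 := hdet (k + 1) (fun j => pick (P j)) (fun j => hpick _)
    have h2 : (1 : Matrix (Fin D) (Fin D) ℝ) + Sm (fun j : Fin (k + 1) => pick (P j)) =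
        Wm (fun j => pick (P j)) (k + 1) := by
      rw [Sm, Wm]
      congr 1
      exact Fin.sum_univ_eq_sum_range (fun j => vecMulVec (pick (P j)) (pick (P j))) (k + 1)
    rw [← h2]
    exact h1
  have hpow : (1 + ν k) ^ (k + 1) ≤ ∏ j ∈ Finset.range (k + 1), (1 + (d : ℝ) / (j + 1)) := by
    refine le_trans ?_ ((hdetW (k + 1)).trans hW)
    calc (1 + ν k) ^ (k + 1) = ∏ _j ∈ Finset.range (k + 1), (1 + ν k) := by simp
      _ ≤ ∏ j ∈ Finset.range (k + 1), (1 + ν j) := by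
          refine Finset.prod_le_prod (fun j _ => by linarith [hν0 k]) fun j hj => ?_
          have := hνanti j k (by have := Finset.mem_range.1 hj; omega)
          linarith
  have hfin := num d (k + 1) (by omega) (ν k) (hν0 k) hpow
  have h1 := hνmax k b hb
  push_cast at hfin
  have h2 : 3 * ((d : ℝ) + (k + 1)) / (k + 1) = 3 * (d + k + 1) / (k + 1) := by ring
  rw [h2] at hfin
  exact h1.trans hfin

end BMTwo
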