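import Pool.Agent.Lib.MP_766f4a_gt.TDefs

/-!
The ellipsoid containing `K` (module OPER).
-/

set_option autoImplicit false

namespace BMTwo

open Matrix Finset

namespace OperAux

lemma psd_of_proj {D : ℕ} (P : Matrix (Fin D) (Fin D) ℝ) (hs : Pᵀ = P) (hi : P * P = P) :
    P.PosSemidef := by
  have h : P = P * Pᴴ := by
    rw [conjTranspose_eq_transpose_of_trivial, hs, hi]
  rw [h]
  exact posSemidef_self_mul_conjTranspose P

lemma psd_one_sub {D : ℕ} (P : Matrix (Fin D) (Fin D) ℝ) (hs : Pᵀ = P) (hi : P * P = P) :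
    (1 - P).PosSemidef := by
  apply psd_of_proj
  · rw [transpose_sub, transpose_one, hs]
  · rw [Matrix.sub_mul, Matrix.mul_sub, Matrix.mul_sub, hi]; simp

lemma psd_smul {D : ℕ} (P : Matrix (Fin D) (Fin D) ℝ) (hP : P.PosSemidef) (c : ℝ) (hc : 0 ≤ c) :
    (c • P).PosSemidef := hP.smul hc

lemma dot_swap {D : ℕ} (P : Matrix (Fin D) (Fin D) ℝ) (hs : Pᵀ = P)
    (x e : Fin D → ℝ) : (P *ᵥ x) ⬝ᵥ e = x ⬝ᵥ (P *ᵥ e) := by
  rw [dotProduct_mulVec]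
  congr 1
  rw [← mulVec_transpose, hs]

lemma dot_proj {D : ℕ} (P : Matrix (Fin D) (Fin D) ℝ) (hs : Pᵀ = P) (hi : P * P = P)
    (e : Fin D → ℝ) : (P *ᵥ e) ⬝ᵥ (P *ᵥ e) = e ⬝ᵥ (P *ᵥ e) := by
  rw [dot_swap P hs, mulVec_mulVec, hi]

lemma cs {D : ℕ} (x y : Fin D → ℝ) : (x ⬝ᵥ y) ^ 2 ≤ (x ⬝ᵥ x) * (y ⬝ᵥ y) := by
  have := Finset.sum_mul_sq_le_sq_mul_sq Finset.univ x y
  simpa [dotProduct, sq] using this

lemma dot_self_nonneg {D : ℕ} (x : Fin D → ℝ) : 0 ≤ x ⬝ᵥ x := by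
  unfold dotProduct
  exact Finset.sum_nonneg fun i _ => mul_self_nonneg _

lemma resid_le {D : ℕ} (P : Matrix (Fin D) (Fin D) ℝ) (hs : Pᵀ = P) (hi : P * P = P)
    (b : Fin D → ℝ) : (b - P *ᵥ b) ⬝ᵥ (b - P *ᵥ b) ≤ b ⬝ᵥ b := by
  have h1 := dot_proj P hs hi b
  have h2 := dot_self_nonneg (P *ᵥ b)
  have h3 : (P *ᵥ b) ⬝ᵥ b = b ⬝ᵥ (P *ᵥ b) := dotProduct_comm _ _
  rw [sub_dotProduct, dotProduct_sub, dotProduct_sub]
  linarith

lemma tele {D : ℕ} (P : ℕ → Matrix (Fin D) (Fin D) ℝ)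
    (hm : ∀ j k, j ≤ k → P k * P j = P j) (b : Fin D → ℝ) (J : ℕ) :
    b = P 1 *ᵥ b + ∑ i ∈ range J, P (2 ^ (i + 1)) *ᵥ (b - P (2 ^ i) *ᵥ b)
      + (b - P (2 ^ J) *ᵥ b) := by
  induction J with
  | zero => simp
  | succ J ih =>
    have h1 : P (2 ^ (J + 1)) *ᵥ (b - P (2 ^ J) *ᵥ b)
        = P (2 ^ (J + 1)) *ᵥ b - P (2 ^ J) *ᵥ b := by
      rw [mulVec_sub, mulVec_mulVec, hm _ _ (Nat.pow_le_pow_right (by norm_num) (Nat.le_succ J))]
    rw [sum_range_succ, h1]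
    conv_lhs => rw [ih]
    abel

lemma sq_sum3 (J : ℕ) (a c : ℝ) (g : ℕ → ℝ) :
    (a + ∑ i ∈ range J, g i + c) ^ 2 ≤ (J + 2) * (a ^ 2 + ∑ i ∈ range J, g i ^ 2 + c ^ 2) := by
  have h := sq_sum_le_card_mul_sum_sq (s := (Finset.univ : Finset (Option (Option (Fin J)))))
    (f := fun o => match o with
      | none => a
      | some none => c
      | some (some i) => g i)
  rw [Fintype.sum_option, Fintype.sum_option, Fintype.sum_option, Fintype.sum_option] at h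
  simp only [Finset.card_univ, Fintype.card_option, Fintype.card_fin] at h
  rw [Finset.sum_range, Finset.sum_range]
  push_cast at h
  calc (a + ∑ i : Fin J, g i + c) ^ 2 = (a + (c + ∑ i : Fin J, g i)) ^ 2 := by ring
    _ ≤ _ := h
    _ = _ := by ring

lemma log_bound (d : ℕ) (hd : 0 < d) : (Nat.log 2 d : ℝ) ≤ 3 / 2 * Real.log d := by
  have h1 : (2 : ℝ) ^ (Nat.log 2 d) ≤ d := by
    have := Nat.pow_log_le_self 2 hd.ne'
    exact_mod_cast this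
  have h2 : (Nat.log 2 d : ℝ) * Real.log 2 ≤ Real.log d := by
    rw [← Real.log_pow]
    exact Real.log_le_log (by positivity) h1
  have h3 : (2 / 3 : ℝ) < Real.log 2 := by
    have := Real.log_two_gt_d9
    linarith
  have h4 : (0 : ℝ) ≤ Nat.log 2 d := Nat.cast_nonneg _
  nlinarith

end OperAux

open OperAux

/-- The ellipsoid containing `K`. -/
theorem oper : ∃ C₀ : ℝ, 0 < C₀ ∧ ∀ (D d : ℕ), 0 < d → D ≤ 2 * d → ∀ (K : Set (Fin D → ℝ))
    (P : ℕ → Matrix (Fin D) (Fin D) ℝ), (∀ k, (P k)ᵀ = P k) → (∀ k, P k * P k = P k) →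
      (∀ j k, j ≤ k → P k * P j = P j) → (∀ k, (P k).trace ≤ k) →
      (∀ k : ℕ, ∀ b ∈ K, (b - P k *ᵥ b) ⬝ᵥ (b - P k *ᵥ b) ≤ 3 * (d + k + 1) / (k + 1)) →
    ∀ ρ : ℝ, 0 < ρ → ρ ≤ 1 / 2 → 1 ≤ ρ * d → (∀ b ∈ K, b ⬝ᵥ b ≤ 1 / ρ) →
    ∃ A : Matrix (Fin D) (Fin D) ℝ, A.PosSemidef ∧
      ((C₀ * (1 + Real.log d) / ρ) • (1 : Matrix (Fin D) (Fin D) ℝ) - A).PosSemidef ∧
      A.trace ≤ C₀ * (1 + Real.log d) * d ∧
      ∀ b ∈ K, ∀ e : Fin D → ℝ, (b ⬝ᵥ e) ^ 2 ≤ C₀ * (1 + Real.log d) * (e ⬝ᵥ (A *ᵥ e)) := by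
  refine ⟨20, by norm_num, ?_⟩
  intro D d hd hD K P hs hi hm htr hres ρ hρ hρ2 hρd hK
  set J := Nat.log 2 d with hJ
  have hlog : (J : ℝ) ≤ 3 / 2 * Real.log d := log_bound d hd
  have hJ0 : (0 : ℝ) ≤ J := Nat.cast_nonneg _
  have hlogd : 0 ≤ Real.log d := Real.log_natCast_nonneg d
  have hd1 : (1 : ℝ) ≤ d := by exact_mod_cast hd
  have hpowJ : (2 : ℝ) ^ J ≤ d := by
    have := Nat.pow_log_le_self 2 hd.ne'
    exact_mod_cast this
  have hpowJ1 : (d : ℝ) < 2 ^ (J + 1) := by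
    have := Nat.lt_pow_succ_log_self (b := 2) (by norm_num) d
    exact_mod_cast this
  let m : ℕ → ℝ := fun i => min (1 / ρ) (3 * (d + 2 ^ i + 1) / (2 ^ i + 1))
  have hm0 : ∀ i, 0 ≤ m i := fun i => by
    apply le_min
    · positivity
    · positivity
  have hm1 : ∀ i, m i ≤ 1 / ρ := fun i => min_le_left _ _
  have hm2 : ∀ i, m i ≤ 3 * (d + 2 ^ i + 1) / (2 ^ i + 1) := fun i => min_le_right _ _
  have hρinv : 0 < 1 / ρ := by positivity
  have hρd' : 1 / ρ ≤ d := by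
    rw [div_le_iff₀ hρ]; linarith [mul_comm ρ (d : ℝ)]
  have hρ3 : 2 ≤ 1 / ρ := by
    rw [le_div_iff₀ hρ]; linarith
  refine ⟨(1 / ρ) • P 1 + ∑ i ∈ range J, m i • P (2 ^ (i + 1)) + (9 : ℝ) • 1, ?_, ?_, ?_, ?_⟩
  · refine Matrix.PosSemidef.add (Matrix.PosSemidef.add ?_ ?_) ?_
    · exact psd_smul _ (psd_of_proj _ (hs 1) (hi 1)) _ hρinv.le
    · apply Matrix.posSemidef_sum
      intro i _
      exact psd_smul _ (psd_of_proj _ (hs _) (hi _)) _ (hm0 i)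
    · exact psd_smul _ Matrix.PosSemidef.one _ (by norm_num)
  · have hsum : ∑ i ∈ range J, m i ≤ J * (1 / ρ) := by
      calc ∑ i ∈ range J, m i ≤ ∑ _i ∈ range J, 1 / ρ := Finset.sum_le_sum fun i _ => hm1 i
        _ = J * (1 / ρ) := by simp
    have hrem : 0 ≤ 20 * (1 + Real.log d) / ρ - (1 / ρ + ∑ i ∈ range J, m i + 9) := by
      have : 20 * (1 + Real.log d) / ρ = 20 * (1 + Real.log d) * (1 / ρ) := by ring
      rw [this]
      nlinarith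
    have heq : (20 * (1 + Real.log d) / ρ) • (1 : Matrix (Fin D) (Fin D) ℝ)
        - ((1 / ρ) • P 1 + ∑ i ∈ range J, m i • P (2 ^ (i + 1)) + (9 : ℝ) • 1)
        = (1 / ρ) • (1 - P 1) + ∑ i ∈ range J, m i • (1 - P (2 ^ (i + 1)))
          + (20 * (1 + Real.log d) / ρ - (1 / ρ + ∑ i ∈ range J, m i + 9)) •
            (1 : Matrix (Fin D) (Fin D) ℝ) := by
      simp only [smul_sub, Finset.sum_sub_distrib, sub_smul, add_smul, Finset.sum_smul]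
      abel
    rw [heq]
    refine Matrix.PosSemidef.add (Matrix.PosSemidef.add ?_ ?_) ?_
    · exact psd_smul _ (psd_one_sub _ (hs 1) (hi 1)) _ hρinv.le
    · apply Matrix.posSemidef_sum
      intro i _
      exact psd_smul _ (psd_one_sub _ (hs _) (hi _)) _ (hm0 i)
    · exact psd_smul _ Matrix.PosSemidef.one _ hrem
  · have hterm : ∀ i ∈ range J, m i * (P (2 ^ (i + 1))).trace ≤ 12 * d := by
      intro i hiJ
      have hiJ' : i < J := Finset.mem_range.mp hiJ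
      have h1 : (P (2 ^ (i + 1))).trace ≤ (2 : ℝ) ^ (i + 1) := by
        have := htr (2 ^ (i + 1)); push_cast at this; exact this
      have hpow : (2 : ℝ) ^ (i + 1) ≤ d := by
        refine le_trans ?_ hpowJ
        exact pow_le_pow_right₀ (by norm_num) hiJ'
      have hp : (0 : ℝ) < 2 ^ i := by positivity
      have hp1 : (1 : ℝ) ≤ 2 ^ i := one_le_pow₀ (by norm_num)
      have hps : (2 : ℝ) ^ (i + 1) = 2 * 2 ^ i := by ring
      calc m i * (P (2 ^ (i + 1))).trace ≤ m i * (2 : ℝ) ^ (i + 1) :=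
            mul_le_mul_of_nonneg_left h1 (hm0 i)
        _ ≤ 3 * (d + 2 ^ i + 1) / (2 ^ i + 1) * (2 : ℝ) ^ (i + 1) :=
            mul_le_mul_of_nonneg_right (hm2 i) (by positivity)
        _ ≤ 12 * d := by
            rw [div_mul_eq_mul_div, div_le_iff₀ (by positivity)]
            rw [hps] at hpow ⊢
            nlinarith
    have h9 : ((9 : ℝ) • (1 : Matrix (Fin D) (Fin D) ℝ)).trace ≤ 18 * d := by
      rw [trace_smul, trace_one, Fintype.card_fin, smul_eq_mul]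
      have : (D : ℝ) ≤ 2 * d := by exact_mod_cast hD
      linarith
    have h1 : ((1 / ρ) • P 1).trace ≤ d := by
      rw [trace_smul, smul_eq_mul]
      have := htr 1
      push_cast at this
      nlinarith
    rw [trace_add, trace_add, trace_sum]
    have h2 : ∑ i ∈ range J, (m i • P (2 ^ (i + 1))).trace ≤ J * (12 * d) := by
      calc ∑ i ∈ range J, (m i • P (2 ^ (i + 1))).trace
          ≤ ∑ _i ∈ range J, 12 * (d : ℝ) := by
            apply Finset.sum_le_sum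
            intro i hi'
            rw [trace_smul, smul_eq_mul]
            exact hterm i hi'
        _ = J * (12 * d) := by simp
    have h3 : (J : ℝ) * (12 * d) ≤ 3 / 2 * Real.log d * (12 * d) :=
      mul_le_mul_of_nonneg_right hlog (by positivity)
    nlinarith
  · intro b hb e
    have hbb := hK b hb
    have htele : b ⬝ᵥ e = b ⬝ᵥ (P 1 *ᵥ e)
        + ∑ i ∈ range J, (b - P (2 ^ i) *ᵥ b) ⬝ᵥ (P (2 ^ (i + 1)) *ᵥ e)
        + (b - P (2 ^ J) *ᵥ b) ⬝ᵥ e := by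
      conv_lhs => rw [tele P hm b J]
      rw [add_dotProduct, add_dotProduct, sum_dotProduct, dot_swap _ (hs 1)]
      congr 2
      apply Finset.sum_congr rfl
      intro i _
      rw [dot_swap _ (hs _)]
    rw [htele]
    have hJ2 : (J : ℝ) + 2 ≤ 20 * (1 + Real.log d) := by linarith
    have hA : e ⬝ᵥ (((1 / ρ) • P 1 + ∑ i ∈ range J, m i • P (2 ^ (i + 1)) + (9 : ℝ) • 1) *ᵥ e)
        = (1 / ρ) * (e ⬝ᵥ (P 1 *ᵥ e)) + ∑ i ∈ range J, m i * (e ⬝ᵥ (P (2 ^ (i + 1)) *ᵥ e))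
          + 9 * (e ⬝ᵥ e) := by
      rw [add_mulVec, add_mulVec, dotProduct_add, dotProduct_add, sum_mulVec, dotProduct_sum]
      simp [smul_mulVec, dotProduct_smul]
    rw [hA]
    have hb0 := dot_self_nonneg b
    have t1 : (b ⬝ᵥ (P 1 *ᵥ e)) ^ 2 ≤ (1 / ρ) * (e ⬝ᵥ (P 1 *ᵥ e)) := by
      refine (cs _ _).trans ?_
      rw [dot_proj _ (hs 1) (hi 1)]
      apply mul_le_mul_of_nonneg_right hbb
      rw [← dot_proj _ (hs 1) (hi 1)]
      exact dot_self_nonneg _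
    have t2 : ∀ i ∈ range J, ((b - P (2 ^ i) *ᵥ b) ⬝ᵥ (P (2 ^ (i + 1)) *ᵥ e)) ^ 2
        ≤ m i * (e ⬝ᵥ (P (2 ^ (i + 1)) *ᵥ e)) := by
      intro i _
      refine (cs _ _).trans ?_
      rw [dot_proj _ (hs _) (hi _)]
      apply mul_le_mul_of_nonneg_right
      · apply le_min
        · exact (resid_le _ (hs _) (hi _) b).trans hbb
        · have := hres (2 ^ i) b hb
          push_cast at this
          exact this
      · rw [← dot_proj _ (hs _) (hi _)]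
        exact dot_self_nonneg _
    have t3 : ((b - P (2 ^ J) *ᵥ b) ⬝ᵥ e) ^ 2 ≤ 9 * (e ⬝ᵥ e) := by
      refine (cs _ _).trans ?_
      apply mul_le_mul_of_nonneg_right _ (dot_self_nonneg e)
      have := hres (2 ^ J) b hb
      push_cast at this
      refine this.trans ?_
      rw [div_le_iff₀ (by positivity)]
      have : (2 : ℝ) ^ (J + 1) = 2 * 2 ^ J := by ring
      rw [this] at hpowJ1
      linarith
    have hT : (b ⬝ᵥ (P 1 *ᵥ e)) ^ 2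
        + ∑ i ∈ range J, ((b - P (2 ^ i) *ᵥ b) ⬝ᵥ (P (2 ^ (i + 1)) *ᵥ e)) ^ 2
        + ((b - P (2 ^ J) *ᵥ b) ⬝ᵥ e) ^ 2
        ≤ (1 / ρ) * (e ⬝ᵥ (P 1 *ᵥ e)) + ∑ i ∈ range J, m i * (e ⬝ᵥ (P (2 ^ (i + 1)) *ᵥ e))
          + 9 * (e ⬝ᵥ e) := add_le_add (add_le_add t1 (Finset.sum_le_sum t2)) t3
    have hT0 : 0 ≤ (b ⬝ᵥ (P 1 *ᵥ e)) ^ 2
        + ∑ i ∈ range J, ((b - P (2 ^ i) *ᵥ b) ⬝ᵥ (P (2 ^ (i + 1)) *ᵥ e)) ^ 2
        + ((b - P (2 ^ J) *ᵥ b) ⬝ᵥ e) ^ 2 := by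
      have : 0 ≤ ∑ i ∈ range J, ((b - P (2 ^ i) *ᵥ b) ⬝ᵥ (P (2 ^ (i + 1)) *ᵥ e)) ^ 2 :=
        Finset.sum_nonneg fun i _ => sq_nonneg _
      positivity
    refine (sq_sum3 J _ _ _).trans ?_
    exact mul_le_mul hJ2 hT hT0 (by linarith)

end BMTwo
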