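import Pool.Agent.Lib.MP_766f4a_gt.TBarPsd
import Pool.Agent.Lib.MP_766f4a_gt.TGreedy
import Pool.Agent.Lib.MP_766f4a_gt.TOper

/-!
Module SELECT: the choice of the coordinates to be eliminated.
-/

set_option autoImplicit false

namespace BMTwo

open Matrix Finset

/-- The choice of the coordinates to be eliminated. -/
theorem select : ∃ C₁ : ℝ, 0 < C₁ ∧ ∀ (d n : ℕ), 0 < d → ∀ (K : Set (Fin (d + n) → ℝ)),
    IsCompact K → K.Nonempty →
    (∀ (k : ℕ) (b : Fin k → Fin (d + n) → ℝ), (∀ j, b j ∈ K) →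
      ((1 : Matrix (Fin (d + n)) (Fin (d + n)) ℝ) + Sm b).det ≤
        ∏ j ∈ Finset.range k, (1 + (d : ℝ) / (j + 1))) →
    ∀ ρ : ℝ, 0 < ρ → ρ ≤ 1 / 2 → 1 ≤ ρ * d → (n : ℝ) ≤ 2 * ρ * d → (∀ b ∈ K, b ⬝ᵥ b ≤ 1 / ρ) →
    ∃ τ : Finset (Fin (d + n)), τ.card = n ∧
      ∀ b ∈ K, ∑ i ∈ τ, b i ^ 2 ≤ C₁ * (1 + Real.log d) ^ 2 := by
  obtain ⟨C₀, hC₀, hoper⟩ := oper
  refine ⟨12 * C₀ ^ 2, by positivity, ?_⟩
  intro d n hd K hK hne hdet ρ hρ hρ2 hρd hn hb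
  have hd' : (0 : ℝ) < d := by exact_mod_cast hd
  have hd1 : (1 : ℝ) ≤ d := by exact_mod_cast hd
  have hnd : (n : ℝ) ≤ d := by nlinarith
  have hnd' : n ≤ d := by exact_mod_cast hnd
  obtain ⟨P, hPT, hPP, hPj, hPt, hPb⟩ := greedy K hK hne hdet
  obtain ⟨A, hA, hle, htr, hAb⟩ := hoper (d + n) d hd (by omega) K P hPT hPP hPj hPt hPb ρ hρ hρ2
    hρd hb
  set L : ℝ := 1 + Real.log d with hL_def
  have hL : 1 ≤ L := by
    have := Real.log_nonneg hd1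
    linarith
  have hL0 : 0 < L := by linarith
  obtain ⟨τ, hτ, hτA⟩ := barrier_psd A hA (C₀ * L / ρ) (C₀ * L * d) (by positivity) (by positivity)
    hle htr n (by rw [Fintype.card_fin]; omega)
  refine ⟨τ, hτ, fun b hbK => ?_⟩
  set s : ℝ := ∑ i ∈ τ, b i ^ 2 with hs_def
  have hs0 : 0 ≤ s := Finset.sum_nonneg fun _ _ => sq_nonneg _
  set e : Fin (d + n) → ℝ := fun i => if i ∈ τ then b i else 0 with he_def
  have hbe : b ⬝ᵥ e = s := by
    rw [hs_def, dotProduct, ← Finset.sum_filter_add_sum_filter_not Finset.univ (fun i => i ∈ τ)]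
    rw [Finset.sum_eq_zero (s := Finset.univ.filter fun i => ¬ i ∈ τ), add_zero]
    · rw [Finset.filter_mem_eq_inter, Finset.univ_inter]
      refine Finset.sum_congr rfl fun i hi => ?_
      simp [he_def, hi, sq]
    · intro i hi
      have : i ∉ τ := by simpa using hi
      simp [he_def, this]
  have hee : e ⬝ᵥ e = s := by
    rw [← hbe, dotProduct, dotProduct]
    refine Finset.sum_congr rfl fun i _ => ?_
    by_cases hi : i ∈ τ <;> simp [he_def, hi]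
  have h1 := hAb b hbK e
  have h2 := hτA e (fun i hi => by simp [he_def, hi])
  rw [hbe] at h1
  rw [hee, Fintype.card_fin] at h2
  have hz : (4 * (C₀ * L * d) + 4 * (C₀ * L / ρ) * n) / ((d + n : ℕ) : ℝ) ≤ 12 * C₀ * L := by
    have hn2 : (n : ℝ) / ρ ≤ 2 * d := by
      rw [div_le_iff₀ hρ]; linarith
    have hn0 : (0 : ℝ) ≤ n := Nat.cast_nonneg n
    rw [div_le_iff₀ (by push_cast; positivity)]
    have h3 : 4 * (C₀ * L / ρ) * n = 4 * (C₀ * L) * (n / ρ) := by ring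
    rw [h3]
    push_cast
    have hCL : 0 < C₀ * L := by positivity
    nlinarith [mul_le_mul_of_nonneg_left hn2 hCL.le, mul_nonneg hCL.le hn0]
  have h4 : s ^ 2 ≤ 12 * C₀ ^ 2 * L ^ 2 * s := by
    calc s ^ 2 ≤ C₀ * L * (e ⬝ᵥ (A *ᵥ e)) := h1
      _ ≤ C₀ * L * ((4 * (C₀ * L * d) + 4 * (C₀ * L / ρ) * n) / ((d + n : ℕ) : ℝ) * s) := by
          gcongr
      _ ≤ C₀ * L * (12 * C₀ * L * s) := by gcongr
      _ = 12 * C₀ ^ 2 * L ^ 2 * s := by ring
  rcases hs0.eq_or_lt with h | h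
  · rw [← h]; positivity
  · have h5 : s * s ≤ (12 * C₀ ^ 2 * L ^ 2) * s := by rw [← sq]; exact h4
    exact le_of_mul_le_mul_right h5 h

end BMTwo
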