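import Pool.Agent.Lib.MP_766f4a_gt.Polar
import Pool.Agent.Lib.MP_766f4a_gt.TFmax
import Pool.Agent.Lib.MP_766f4a_gt.TSelect
import Pool.Agent.Lib.MP_766f4a_gt.TElim
import Pool.Agent.Lib.MP_766f4a_gt.TKer

/-!
Module ASSEMBLE: the basis of a body in the position of John.
-/

set_option autoImplicit false

namespace BMTwo

open Matrix Finset

namespace Assemble

theorem Sm_eq {ι : Type*} [Fintype ι] {d : ℕ} (G : ι → Fin d → ℝ) :
    Sm G = (Matrix.of G)ᵀ * Matrix.of G := by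
  ext a b
  simp only [Sm, Matrix.sum_apply, vecMulVec_apply, Matrix.mul_apply, Matrix.transpose_apply,
    Matrix.of_apply]

theorem Sm_transpose {ι : Type*} [Fintype ι] {d : ℕ} (G : ι → Fin d → ℝ) :
    (Sm G)ᵀ = Sm G := by
  rw [Sm_eq, transpose_mul, transpose_transpose]

/-- `∑ x_i G_i` as a matrix product -/
theorem sum_smul_eq {ι : Type*} [Fintype ι] {d : ℕ} (G : ι → Fin d → ℝ) (x : ι → ℝ) :
    ∑ i, x i • G i = (Matrix.of G)ᵀ *ᵥ x := by
  ext a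
  simp only [Finset.sum_apply, Pi.smul_apply, smul_eq_mul, mulVec, dotProduct, transpose_apply,
    of_apply]
  exact Finset.sum_congr rfl fun i _ => by ring

/-- the coefficient vector of `v` -/
noncomputable def co {D d : ℕ} (G : Fin D → Fin d → ℝ) (v : Fin d → ℝ) : Fin D → ℝ :=
  Matrix.of G *ᵥ ((Sm G)⁻¹ *ᵥ v)

theorem co_rep {D d : ℕ} (G : Fin D → Fin d → ℝ) (hS : 0 < (Sm G).det) (v : Fin d → ℝ) :
    (Matrix.of G)ᵀ *ᵥ co G v = v := by
  rw [co, mulVec_mulVec, ← Sm_eq, mulVec_mulVec, mul_nonsing_inv _ hS.ne'.isUnit, one_mulVec]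

theorem co_dot {D d : ℕ} (G : Fin D → Fin d → ℝ) (hS : 0 < (Sm G).det) (v : Fin d → ℝ) :
    co G v ⬝ᵥ co G v = v ⬝ᵥ ((Sm G)⁻¹ *ᵥ v) := by
  conv_lhs => rw [co]
  rw [dotProduct_comm, dotProduct_mulVec, ← mulVec_transpose, ← co, co_rep G hS]

theorem co_ker {D d : ℕ} (G : Fin D → Fin d → ℝ) {J : Type*} [Fintype J]
    (B : Matrix (Fin D) J ℝ) (hB : ∀ j, ∑ i, B i j • G i = 0) (v : Fin d → ℝ) :
    Bᵀ *ᵥ co G v = 0 := by
  have h1 : (Matrix.of G)ᵀ * B = 0 := by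
    ext a j
    have := congrFun (hB j) a
    simp only [Finset.sum_apply, Pi.smul_apply, smul_eq_mul, Pi.zero_apply] at this
    rw [Matrix.mul_apply, Matrix.zero_apply, ← this]
    exact Finset.sum_congr rfl fun i _ => by simp [mul_comm]
  have h2 : Bᵀ * Matrix.of G = 0 := by
    have := congrArg Matrix.transpose h1
    simpa using this
  rw [co, mulVec_mulVec, h2, zero_mulVec]

/-- determinants of the coefficient vectors -/
theorem co_det {D d k : ℕ} (G : Fin D → Fin d → ℝ) (hS : 0 < (Sm G).det)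
    (V : Fin k → Fin d → ℝ) :
    (Sm G).det * ((1 : Matrix (Fin D) (Fin D) ℝ) + Sm (fun j => co G (V j))).det =
      (Sm G + Sm V).det := by
  have hu : IsUnit (Sm G).det := hS.ne'.isUnit
  have hSi : ((Sm G)⁻¹)ᵀ = (Sm G)⁻¹ := by rw [transpose_nonsing_inv, Sm_transpose]
  have h1 : Matrix.of (fun j => co G (V j)) = Matrix.of V * (Sm G)⁻¹ * (Matrix.of G)ᵀ := by
    ext j i
    rw [of_apply, co, mulVec_mulVec]
    have : (Matrix.of V * (Sm G)⁻¹ * (Matrix.of G)ᵀ) j i =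
        ((Matrix.of G * (Sm G)⁻¹ * (Matrix.of V)ᵀ)) i j := by
      rw [← transpose_apply (Matrix.of G * (Sm G)⁻¹ * (Matrix.of V)ᵀ), transpose_mul, transpose_mul,
        transpose_transpose, hSi, Matrix.mul_assoc]
    rw [this, Matrix.mul_apply]
    rfl
  have h2 : Sm (fun j => co G (V j)) =
      Matrix.of G * ((Sm G)⁻¹ * (Matrix.of V)ᵀ * Matrix.of V * (Sm G)⁻¹ * (Matrix.of G)ᵀ) := by
    rw [Sm_eq, h1, transpose_mul, transpose_mul, transpose_transpose, hSi]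
    simp only [Matrix.mul_assoc]
  have h3 : (Sm G)⁻¹ * (Matrix.of V)ᵀ * Matrix.of V * (Sm G)⁻¹ * (Matrix.of G)ᵀ * Matrix.of G =
      (Sm G)⁻¹ * Sm V := by
    rw [Matrix.mul_assoc _ (Matrix.of G)ᵀ, ← Sm_eq G, Matrix.mul_assoc _ (Sm G)⁻¹,
      nonsing_inv_mul _ hu, Matrix.mul_one, Matrix.mul_assoc, ← Sm_eq V]
  rw [h2, det_one_add_mul_comm, h3, ← det_mul, Matrix.mul_add, Matrix.mul_one, ← Matrix.mul_assoc,
    mul_nonsing_inv _ hu, Matrix.one_mul]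

/-- absolutely convex combinations stay in a symmetric convex set -/
lemma combo_mem {d : ℕ} {ι : Type*} {N : Set (Fin d → ℝ)} (hconv : Convex ℝ N)
    (hsymm : ∀ v ∈ N, -v ∈ N)
    (Y : ι → Fin d → ℝ) (hY : ∀ i, Y i ∈ N) (J : Finset ι) (z : ι → ℝ)
    (hz : ∑ j ∈ J, |z j| ≤ 1) (h0 : (0 : Fin d → ℝ) ∈ N) :
    ∑ j ∈ J, z j • Y j ∈ N := by
  have hz0 : 0 ≤ ∑ j ∈ J, |z j| := Finset.sum_nonneg fun _ _ => abs_nonneg _
  rcases hz0.eq_or_lt with h | h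
  · have h1 : ∀ j ∈ J, z j • Y j = 0 := by
      intro j hj
      have := (Finset.sum_eq_zero_iff_of_nonneg (fun j _ => abs_nonneg (z j))).mp h.symm j hj
      rw [abs_eq_zero] at this
      simp [this]
    rw [Finset.sum_congr rfl h1]
    simpa using h0
  · have h1 : ∑ j ∈ J, z j • Y j =
        (∑ j ∈ J, |z j|) • ∑ j ∈ J, (|z j| / ∑ j ∈ J, |z j|) • ((SignType.sign (z j) : ℝ) • Y j) := by
      rw [Finset.smul_sum]
      refine Finset.sum_congr rfl fun j _ => ?_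
      rw [smul_smul, smul_smul]
      congr 1
      rw [mul_div_cancel₀ _ h.ne', mul_comm]
      exact (sign_mul_abs (z j)).symm
    have h2 : ∑ j ∈ J, (|z j| / ∑ j ∈ J, |z j|) • ((SignType.sign (z j) : ℝ) • Y j) ∈ N := by
      apply hconv.sum_mem
      · intro j _; positivity
      · rw [← Finset.sum_div, div_self h.ne']
      · intro j _
        rcases lt_trichotomy (z j) 0 with hj | hj | hj
        · rw [sign_neg hj]; simpa using hsymm _ (hY j)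
        · rw [hj]; simpa using h0
        · rw [sign_pos hj]; simpa using hY j
    rw [h1]
    have h3 := hconv h2 h0 hz0 (sub_nonneg.mpr hz) (by ring)
    simpa using h3

lemma g_mem {d : ℕ} {ι : Type*} {N : Set (Fin d → ℝ)} (hconv : Convex ℝ N)
    (hsymm : ∀ v ∈ N, -v ∈ N)
    (Y : ι → Fin d → ℝ) (hY : ∀ i, Y i ∈ N) (J : Finset ι) (z : ι → ℝ)
    (hz : ∑ j ∈ J, |z j| ≤ 1) (h0 : (0 : Fin d → ℝ) ∈ N) (i : ι) :
    (1 / 2 : ℝ) • (Y i - ∑ j ∈ J, z j • Y j) ∈ N := by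
  have h1 := combo_mem hconv hsymm Y hY J z hz h0
  have h2 := hconv (hY i) (hsymm _ h1) (by norm_num : (0:ℝ) ≤ 1/2) (by norm_num : (0:ℝ) ≤ 1/2)
    (by norm_num)
  rw [smul_sub, sub_eq_add_neg, ← smul_neg]
  exact h2

/-- the elimination in the representation -/
lemma split {D d : ℕ} (G : Fin D → Fin d → ℝ) (J : Finset (Fin D))
    (Z : Matrix (Fin D) (Fin D) ℝ) (x : Fin D → ℝ)
    (hx : ∀ j ∈ J, x j = - ∑ i ∈ Jᶜ, Z j i * x i) :
    ∑ i, x i • G i = ∑ i ∈ Jᶜ, (2 * x i) • ((1 / 2 : ℝ) • (G i - ∑ j ∈ J, Z j i • G j)) := by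
  rw [← Finset.sum_add_sum_compl J (fun i => x i • G i)]
  have h2 : ∑ j ∈ J, x j • G j = - ∑ i ∈ Jᶜ, x i • ∑ j ∈ J, Z j i • G j := by
    have h3 : ∀ j ∈ J, x j • G j = - ∑ i ∈ Jᶜ, x i • (Z j i • G j) := by
      intro j hj
      conv_lhs => rw [hx j hj]
      rw [neg_smul, Finset.sum_smul]
      congr 1
      refine Finset.sum_congr rfl fun i _ => ?_
      rw [smul_smul, mul_comm]
    rw [Finset.sum_congr rfl h3, Finset.sum_neg_distrib, Finset.sum_comm]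
    congr 1
    refine Finset.sum_congr rfl fun i _ => ?_
    rw [Finset.smul_sum]
  rw [h2]
  have h4 : ∀ i ∈ Jᶜ, (2 * x i) • ((1 / 2 : ℝ) • (G i - ∑ j ∈ J, Z j i • G j)) =
      x i • G i - x i • ∑ j ∈ J, Z j i • G j := by
    intro i _
    rw [smul_smul, ← smul_sub]
    congr 1
    ring
  rw [Finset.sum_congr rfl h4, Finset.sum_sub_distrib]
  abel

lemma hspan_of_ball {d : ℕ} (hd : 0 < d) (N : Set (Fin d → ℝ))
    (hin : ∀ v, (d : ℝ) * (v ⬝ᵥ v) ≤ 1 → v ∈ N) :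
    ∃ g : Fin d → Fin d → ℝ, (∀ i, g i ∈ N) ∧ 0 < (Sm g).det := by
  have hd' : (0 : ℝ) < d := by exact_mod_cast hd
  refine ⟨fun j => Pi.single j (1 / Real.sqrt d), ?_, ?_⟩
  · intro i
    apply hin
    simp only [dotProduct_single, Pi.single_eq_same]
    rw [← sq, div_pow, Real.sq_sqrt hd'.le]
    field_simp
    norm_num
  · have h1 : Matrix.of (fun j : Fin d => (Pi.single j (1 / Real.sqrt d) : Fin d → ℝ)) =
        (1 / Real.sqrt d) • (1 : Matrix (Fin d) (Fin d) ℝ) := by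
      ext i j
      rw [of_apply, Matrix.smul_apply, Matrix.one_apply, smul_eq_mul]
      by_cases h : i = j
      · subst h; simp
      · simp [h]
    rw [Sm_eq, h1, det_mul, det_transpose, det_smul, det_one, mul_one]
    have : 0 < Real.sqrt d := Real.sqrt_pos.mpr hd'
    positivity

/-- triangle inequality for the Euclidean norm of functions -/
lemma sqrt_sum_add_le {ι : Type*} (s : Finset ι) (f g : ι → ℝ) :
    Real.sqrt (∑ i ∈ s, (f i + g i) ^ 2) ≤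
      Real.sqrt (∑ i ∈ s, f i ^ 2) + Real.sqrt (∑ i ∈ s, g i ^ 2) :=
  BMCube.Main.sqrt_sum_add_le s f g

/-- everything except the choice of `ρ` -/
theorem core (C₁ : ℝ) (hC₁ : 0 < C₁)
    (hsel : ∀ (d n : ℕ), 0 < d → ∀ (K : Set (Fin (d + n) → ℝ)),
      IsCompact K → K.Nonempty →
      (∀ (k : ℕ) (b : Fin k → Fin (d + n) → ℝ), (∀ j, b j ∈ K) →
        ((1 : Matrix (Fin (d + n)) (Fin (d + n)) ℝ) + Sm b).det ≤
          ∏ j ∈ Finset.range k, (1 + (d : ℝ) / (j + 1))) →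
      ∀ ρ : ℝ, 0 < ρ → ρ ≤ 1 / 2 → 1 ≤ ρ * d → (n : ℝ) ≤ 2 * ρ * d → (∀ b ∈ K, b ⬝ᵥ b ≤ 1 / ρ) →
      ∃ τ : Finset (Fin (d + n)), τ.card = n ∧
        ∀ b ∈ K, ∑ i ∈ τ, b i ^ 2 ≤ C₁ * (1 + Real.log d) ^ 2)
    {d : ℕ} (hd : 0 < d) (N : Set (Fin d → ℝ)) (hN : IsCompact N) (hconv : Convex ℝ N)
    (hsymm : ∀ v ∈ N, -v ∈ N)
    (hin : ∀ v, (d : ℝ) * (v ⬝ᵥ v) ≤ 1 → v ∈ N)
    (ρ : ℝ) (hρ : 0 < ρ) (hρ2 : ρ ≤ 1 / 2) (hρd : 1 ≤ ρ * d) :
    ∃ g : Fin d → Fin d → ℝ, (∀ i, g i ∈ N) ∧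
      ∀ v ∈ N, ∃ α : Fin d → ℝ, v = ∑ i, α i • g i ∧
        ∑ i, |α i| ≤ 2 * Real.sqrt d * (Real.sqrt (1 / ρ) +
          (2 + Real.sqrt (2 * ρ * d) * Real.sqrt ρ) * (Real.sqrt C₁ * (1 + Real.log d))) := by
  classical
  have hd' : (0 : ℝ) < d := by exact_mod_cast hd
  have hd1 : (1 : ℝ) ≤ d := by exact_mod_cast hd
  have h0 : (0 : Fin d → ℝ) ∈ N := hin 0 (by simp)
  obtain ⟨n, G, hn, hGN, hS, hSv, hrow, hdet⟩ :=
    fmax hd N hN (hspan_of_ball hd N hin) ρ hρ hρ2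
  have hcont : Continuous (co G) := by
    unfold co
    exact (Continuous.matrix_mulVec continuous_const
      (Continuous.matrix_mulVec continuous_const continuous_id))
  set K : Set (Fin (d + n) → ℝ) := co G '' N with hK_def
  have hK : IsCompact K := hN.image hcont
  have hKne : K.Nonempty := ⟨co G 0, 0, h0, rfl⟩
  have hKdet : ∀ (k : ℕ) (b : Fin k → Fin (d + n) → ℝ), (∀ j, b j ∈ K) →
      ((1 : Matrix (Fin (d + n)) (Fin (d + n)) ℝ) + Sm b).det ≤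
        ∏ j ∈ Finset.range k, (1 + (d : ℝ) / (j + 1)) := by
    intro k b hb
    choose V hV hVb using hb
    have hb' : b = fun j => co G (V j) := by
      funext j; exact (hVb j).symm
    rw [hb']
    have h1 := co_det G hS V
    have h2 := hdet k V hV
    rw [← h1] at h2
    exact le_of_mul_le_mul_left h2 hS
  have hKb : ∀ b ∈ K, b ⬝ᵥ b ≤ 1 / ρ := by
    rintro b ⟨v, hv, rfl⟩
    rw [co_dot G hS]
    exact hSv v hv
  obtain ⟨τ, hτ, hτK⟩ := hsel d n hd K hK hKne hKdet ρ hρ hρ2 hρd hn hKb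
  obtain ⟨B, hBB, hBG, hBrow⟩ := ker_frame G hS τ hτ
  obtain ⟨Z, hZ, hZ2⟩ := elim τ B hBB (Real.sqrt ρ) (Real.sqrt_nonneg _) (fun i => by
    rw [Real.sq_sqrt hρ.le]
    rcases Nat.eq_zero_or_pos n with h | h
    · have hτe : τ = ∅ := by
        rw [← Finset.card_eq_zero, hτ, h]
      have : IsEmpty τ := by rw [hτe]; exact Finset.isEmpty_coe_sort.mpr rfl
      rw [Finset.univ_eq_empty, Finset.sum_empty]
      exact hρ.le
    · rw [hBrow i]
      exact hrow h i)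
  have hcard : (τᶜ).card = d := by
    rw [Finset.card_compl, Fintype.card_fin, hτ]
    omega
  let ε : Fin d ≃ {i // i ∈ τᶜ} := (Fin.castOrderIso hcard.symm).toEquiv.trans (τᶜ).equivFin.symm
  have hsumε : ∀ {M : Type} [AddCommMonoid M] (f : Fin (d + n) → M),
      ∑ k : Fin d, f (ε k) = ∑ i ∈ τᶜ, f i := by
    intro M _ f
    rw [← Finset.sum_coe_sort τᶜ f]
    exact Equiv.sum_comp ε (fun i : {i // i ∈ τᶜ} => f i)
  refine ⟨fun k => (1 / 2 : ℝ) • (G (ε k) - ∑ j ∈ τ, Z j (ε k) • G j), fun k =>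
    g_mem hconv hsymm G hGN τ (fun j => Z j (ε k)) (hZ _) h0 _, ?_⟩
  intro v hv
  obtain ⟨c, hc1, hc2⟩ := hZ2 (co G v) (co_ker G B hBG v)
  set x : Fin (d + n) → ℝ := co G v + B *ᵥ c with hx_def
  have hxv : ∑ i, x i • G i = v := by
    rw [sum_smul_eq, hx_def, mulVec_add, co_rep G hS, mulVec_mulVec]
    have h1 : (Matrix.of G)ᵀ * B = 0 := by
      ext a j
      have := congrFun (hBG j) a
      simp only [Finset.sum_apply, Pi.smul_apply, smul_eq_mul, Pi.zero_apply] at this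
      rw [Matrix.mul_apply, Matrix.zero_apply, ← this]
      exact Finset.sum_congr rfl fun i _ => by simp [mul_comm]
    rw [h1, zero_mulVec, add_zero]
  refine ⟨fun k => 2 * x (ε k), ?_, ?_⟩
  · rw [hsumε (fun i => (2 * x i) • ((1 / 2 : ℝ) • (G i - ∑ j ∈ τ, Z j i • G j))),
      ← split G τ Z x hc2, hxv]
  · rw [hsumε (fun i => |2 * x i|)]
    have h1 : ∑ i ∈ τᶜ, |2 * x i| = 2 * ∑ i ∈ τᶜ, |x i| := by
      rw [Finset.mul_sum]
      refine Finset.sum_congr rfl fun i _ => ?_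
      rw [abs_mul, abs_of_pos (by norm_num : (0:ℝ) < 2)]
    have h2 : ∑ i ∈ τᶜ, |x i| ≤ Real.sqrt d * Real.sqrt (∑ i ∈ τᶜ, x i ^ 2) := by
      have := BMCube.Main.sum_abs_le τᶜ x
      rwa [hcard] at this
    have h3 : Real.sqrt (∑ i ∈ τᶜ, x i ^ 2) ≤ Real.sqrt (∑ i, x i ^ 2) := by
      apply Real.sqrt_le_sqrt
      exact Finset.sum_le_univ_sum_of_nonneg fun i => sq_nonneg _
    have h4 : Real.sqrt (∑ i, x i ^ 2) ≤ Real.sqrt (∑ i, co G v i ^ 2) +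
        Real.sqrt (∑ i, (B *ᵥ c) i ^ 2) := sqrt_sum_add_le Finset.univ (co G v) (B *ᵥ c)
    have h5 : ∑ i, co G v i ^ 2 ≤ 1 / ρ := by
      have := hKb (co G v) ⟨v, hv, rfl⟩
      have e : ∑ i, co G v i ^ 2 = co G v ⬝ᵥ co G v := by simp [dotProduct, sq]
      rw [e]; exact this
    have h6 : ∑ i, (B *ᵥ c) i ^ 2 = ∑ j, c j ^ 2 := by
      have e : ∑ i, (B *ᵥ c) i ^ 2 = (B *ᵥ c) ⬝ᵥ (B *ᵥ c) := by simp [dotProduct, sq]
      have e2 : ∑ j, c j ^ 2 = c ⬝ᵥ c := by simp [dotProduct, sq]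
      rw [e, e2, dotProduct_mulVec, vecMul_mulVec, hBB, vecMul_one]
    have h7 : Real.sqrt (∑ i ∈ τ, co G v i ^ 2) ≤ Real.sqrt C₁ * (1 + Real.log d) := by
      have hL : 0 ≤ 1 + Real.log d := by
        have := Real.log_nonneg hd1
        linarith
      apply Real.sqrt_le_iff.mpr
      refine ⟨mul_nonneg (Real.sqrt_nonneg _) hL, ?_⟩
      rw [mul_pow, Real.sq_sqrt hC₁.le]
      exact hτK _ ⟨v, hv, rfl⟩
    have h8 : Real.sqrt (τ.card : ℝ) ≤ Real.sqrt (2 * ρ * d) := by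
      apply Real.sqrt_le_sqrt
      rw [hτ]; exact hn
    have h9 : Real.sqrt (∑ j, c j ^ 2) ≤
        (2 + Real.sqrt (2 * ρ * d) * Real.sqrt ρ) * (Real.sqrt C₁ * (1 + Real.log d)) := by
      refine hc1.trans ?_
      gcongr
    calc ∑ i ∈ τᶜ, |2 * x i| = 2 * ∑ i ∈ τᶜ, |x i| := h1
      _ ≤ 2 * (Real.sqrt d * (Real.sqrt (1 / ρ) +
          (2 + Real.sqrt (2 * ρ * d) * Real.sqrt ρ) * (Real.sqrt C₁ * (1 + Real.log d)))) := by
          have h10 : Real.sqrt (∑ i, co G v i ^ 2) ≤ Real.sqrt (1 / ρ) := Real.sqrt_le_sqrt h5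
          rw [h6] at h4
          have h11 : Real.sqrt (∑ i ∈ τᶜ, x i ^ 2) ≤ Real.sqrt (1 / ρ) +
              (2 + Real.sqrt (2 * ρ * d) * Real.sqrt ρ) * (Real.sqrt C₁ * (1 + Real.log d)) := by
            linarith
          have h12 : Real.sqrt d * Real.sqrt (∑ i ∈ τᶜ, x i ^ 2) ≤ Real.sqrt d *
              (Real.sqrt (1 / ρ) +
              (2 + Real.sqrt (2 * ρ * d) * Real.sqrt ρ) * (Real.sqrt C₁ * (1 + Real.log d))) :=
            mul_le_mul_of_nonneg_left h11 (Real.sqrt_nonneg _)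
          linarith
      _ = _ := by ring

end Assemble

/-- Every body `N` in the position of John has a basis in which the l1-norm is at most
`A d^(2/3) (1 + log d)` on `N`. -/
theorem exists_basis : ∃ A : ℝ, 0 < A ∧ ∀ d : ℕ, 0 < d → ∀ N : Set (Fin d → ℝ),
    IsCompact N → Convex ℝ N → (∀ v ∈ N, -v ∈ N) → (∀ v ∈ N, v ⬝ᵥ v ≤ 1) →
    (∀ v, (d : ℝ) * (v ⬝ᵥ v) ≤ 1 → v ∈ N) →
    ∃ g : Fin d → Fin d → ℝ, (∀ i, g i ∈ N) ∧
      ∀ v ∈ N, ∃ α : Fin d → ℝ, v = ∑ i, α i • g i ∧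
        ∑ i, |α i| ≤ A * ((d : ℝ) ^ (2 / 3 : ℝ) * (1 + Real.log d)) := by
  obtain ⟨C₁, hC₁, hsel⟩ := select
  refine ⟨8 + 8 * Real.sqrt C₁, by positivity, ?_⟩
  intro d hd N hN hconv hsymm hball hin
  have hd' : (0 : ℝ) < d := by exact_mod_cast hd
  have hd1 : (1 : ℝ) ≤ d := by exact_mod_cast hd
  have hL : 0 ≤ Real.log d := Real.log_nonneg hd1
  set q : ℝ := (d : ℝ) ^ (1 / 6 : ℝ) with hq_def
  have hq1 : 1 ≤ q := Real.one_le_rpow hd1 (by norm_num)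
  have hq0 : 0 < q := by linarith
  have hq6 : q ^ 6 = d := by
    rw [hq_def, ← Real.rpow_natCast, ← Real.rpow_mul hd'.le]
    norm_num
  have hq4 : (d : ℝ) ^ (2 / 3 : ℝ) = q ^ 4 := by
    rw [hq_def, ← Real.rpow_natCast, ← Real.rpow_mul hd'.le]
    norm_num
  have hq3 : Real.sqrt d = q ^ 3 := by
    rw [← hq6]
    rw [show q ^ 6 = (q ^ 3) ^ 2 by ring]
    exact Real.sqrt_sq (by positivity)
  have hsC := Real.sqrt_nonneg C₁
  rw [hq4]
  by_cases hbig : 8 ≤ d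
  · have hd8 : (8 : ℝ) ≤ q ^ 6 := by rw [hq6]; exact_mod_cast hbig
    have hq2 : 2 ≤ q ^ 2 := by
      by_contra h
      push Not at h
      have : (q ^ 2) ^ 3 < 2 ^ 3 := pow_lt_pow_left₀ h (by positivity) (by norm_num)
      nlinarith
    obtain ⟨g, hg, hv⟩ := Assemble.core C₁ hC₁ hsel hd N hN hconv hsymm hin (1 / (2 * q ^ 2))
      (by positivity) (by
        rw [div_le_div_iff₀ (by positivity) (by norm_num)]
        nlinarith) (by
        rw [← hq6, div_mul_eq_mul_div, le_div_iff₀ (by positivity)]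
        nlinarith [pow_pos hq0 4, pow_pos hq0 2, mul_le_mul hq2 hq2 (by norm_num) (by positivity)])
    refine ⟨g, hg, fun v hvN => ?_⟩
    obtain ⟨α, h1, h2⟩ := hv v hvN
    refine ⟨α, h1, h2.trans ?_⟩
    have e1 : Real.sqrt (1 / (1 / (2 * q ^ 2))) ≤ 3 / 2 * q := by
      rw [one_div_one_div]
      apply Real.sqrt_le_iff.mpr
      refine ⟨by positivity, ?_⟩
      nlinarith [pow_pos hq0 2]
    have e2 : Real.sqrt (2 * (1 / (2 * q ^ 2)) * d) * Real.sqrt (1 / (2 * q ^ 2)) ≤ q := by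
      rw [← Real.sqrt_mul (by positivity), ← hq6]
      apply Real.sqrt_le_iff.mpr
      refine ⟨hq0.le, ?_⟩
      have : 2 * (1 / (2 * q ^ 2)) * q ^ 6 * (1 / (2 * q ^ 2)) = q ^ 2 / 2 := by
        field_simp
      rw [this]
      nlinarith [pow_pos hq0 2]
    rw [hq3]
    have hX : 0 ≤ Real.sqrt C₁ * (1 + Real.log d) := by positivity
    calc 2 * q ^ 3 * (Real.sqrt (1 / (1 / (2 * q ^ 2))) +
          (2 + Real.sqrt (2 * (1 / (2 * q ^ 2)) * d) * Real.sqrt (1 / (2 * q ^ 2))) *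
            (Real.sqrt C₁ * (1 + Real.log d)))
        ≤ 2 * q ^ 3 * (3 / 2 * q + (2 + q) * (Real.sqrt C₁ * (1 + Real.log d))) := by
          gcongr
      _ ≤ 2 * q ^ 3 * (3 / 2 * q + (3 * q) * (Real.sqrt C₁ * (1 + Real.log d))) := by
          gcongr
          linarith
      _ = q ^ 4 * (3 + 6 * Real.sqrt C₁ * (1 + Real.log d)) := by ring
      _ ≤ q ^ 4 * ((8 + 8 * Real.sqrt C₁) * (1 + Real.log d)) := by
          gcongr
          nlinarith
      _ = (8 + 8 * Real.sqrt C₁) * (q ^ 4 * (1 + Real.log d)) := by ring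
  · obtain ⟨g, hg, hv⟩ := BMCube.Main.trivial_basis hd N hball hin
    refine ⟨g, hg, fun v hvN => ?_⟩
    obtain ⟨α, h1, h2⟩ := hv v hvN
    refine ⟨α, h1, h2.trans ?_⟩
    have h3 : (d : ℝ) ≤ 8 := by
      push Not at hbig
      exact_mod_cast hbig.le
    have h4 : 1 ≤ q ^ 4 := one_le_pow₀ hq1
    have h5 : 1 ≤ q ^ 4 * (1 + Real.log d) := by nlinarith
    nlinarith

end BMTwo
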