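import Pool.Agent.Lib.MP_766f4a_gt.TDefs
import Pool.Agent.Lib.MP_766f4a_gt.TBarrier

set_option autoImplicit false

namespace BMTwo

open Matrix Finset

namespace BarPsd

open scoped MatrixOrder ComplexOrder in
theorem exists_root {ι : Type*} [Fintype ι] [DecidableEq ι] (A : Matrix ι ι ℝ)
    (hA : A.PosSemidef) : ∃ C : Matrix ι ι ℝ, A = Cᵀ * C := by
  obtain ⟨B, hB⟩ := CStarAlgebra.nonneg_iff_eq_star_mul_self.mp hA.nonneg
  refine ⟨B, ?_⟩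
  rw [hB, Matrix.star_eq_conjTranspose, Matrix.conjTranspose_eq_transpose_of_trivial]

theorem sum_vecMulVec {ι : Type*} [Fintype ι] (C : Matrix ι ι ℝ) :
    ∑ i, vecMulVec (fun k => C k i) (fun k => C k i) = C * Cᵀ := by
  ext a b
  rw [Matrix.sum_apply, Matrix.mul_apply]
  refine Finset.sum_congr rfl fun i _ => ?_
  rw [vecMulVec_apply, transpose_apply]

/-- nonnegativity of the quadratic form -/
theorem quad {ι : Type*} [Fintype ι] {M : Matrix ι ι ℝ} (hM : M.PosSemidef)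
    (x : ι → ℝ) : 0 ≤ x ⬝ᵥ (M *ᵥ x) := by
  have h := hM.dotProduct_mulVec_nonneg x
  rwa [star_trivial] at h

theorem quad_sub {ι : Type*} [Fintype ι] [DecidableEq ι] {M : Matrix ι ι ℝ} {a : ℝ}
    (h : (a • (1 : Matrix ι ι ℝ) - M).PosSemidef) (x : ι → ℝ) :
    x ⬝ᵥ (M *ᵥ x) ≤ a * (x ⬝ᵥ x) := by
  have h1 := quad h x
  rw [Matrix.sub_mulVec, dotProduct_sub, Matrix.smul_mulVec, Matrix.one_mulVec,
    dotProduct_smul, smul_eq_mul] at h1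
  linarith

theorem of_quad {ι : Type*} [Fintype ι] [DecidableEq ι] {M : Matrix ι ι ℝ} {a : ℝ}
    (hM : Mᵀ = M) (h : ∀ x : ι → ℝ, x ⬝ᵥ (M *ᵥ x) ≤ a * (x ⬝ᵥ x)) :
    (a • (1 : Matrix ι ι ℝ) - M).PosSemidef := by
  refine Matrix.PosSemidef.of_dotProduct_mulVec_nonneg ?_ fun x => ?_
  · rw [Matrix.IsHermitian, Matrix.conjTranspose_eq_transpose_of_trivial, transpose_sub,
      transpose_smul, transpose_one, hM]
  · rw [star_trivial, Matrix.sub_mulVec, dotProduct_sub, Matrix.smul_mulVec, Matrix.one_mulVec,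
      dotProduct_smul, smul_eq_mul]
    linarith [h x]

end BarPsd

/-- A positive semidefinite matrix has a large principal submatrix of small norm. -/
theorem barrier_psd {ι : Type*} [Fintype ι] [DecidableEq ι] (A : Matrix ι ι ℝ)
    (hA : A.PosSemidef) (a t : ℝ) (ha : 0 < a) (ht : 0 < t)
    (hle : (a • (1 : Matrix ι ι ℝ) - A).PosSemidef) (htr : A.trace ≤ t) (n : ℕ)
    (hn : 2 * n ≤ Fintype.card ι) :
    ∃ τ : Finset ι, τ.card = n ∧ ∀ x : ι → ℝ, (∀ i, i ∉ τ → x i = 0) →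
      x ⬝ᵥ (A *ᵥ x) ≤ ((4 * t + 4 * a * n) / Fintype.card ι) * (x ⬝ᵥ x) := by
  obtain ⟨C, rfl⟩ := BarPsd.exists_root A hA
  have hq : ∀ x : ι → ℝ, x ⬝ᵥ ((Cᵀ * C) *ᵥ x) = (C *ᵥ x) ⬝ᵥ (C *ᵥ x) := by
    intro x
    rw [← Matrix.mulVec_mulVec, Matrix.dotProduct_mulVec, Matrix.vecMul_transpose]
  have hq' : ∀ y : ι → ℝ, y ⬝ᵥ ((C * Cᵀ) *ᵥ y) = (Cᵀ *ᵥ y) ⬝ᵥ (Cᵀ *ᵥ y) := by
    intro y
    rw [← Matrix.mulVec_mulVec, Matrix.dotProduct_mulVec]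
    congr 1
    rw [Matrix.mulVec_transpose]
  have hCC : (a • (1 : Matrix ι ι ℝ) -
      ∑ i, vecMulVec (fun k => C k i) (fun k => C k i)).PosSemidef := by
    rw [BarPsd.sum_vecMulVec]
    refine BarPsd.of_quad (by rw [transpose_mul, transpose_transpose]) fun y => ?_
    rw [hq']
    set w := Cᵀ *ᵥ y with hw
    -- `|w|^4 = <y, C w>^2 ≤ |y|^2 |C w|^2 ≤ |y|^2 a |w|^2`
    have h1 : w ⬝ᵥ w = y ⬝ᵥ (C *ᵥ w) := by
      rw [hw, Matrix.dotProduct_mulVec y C, ← Matrix.mulVec_transpose]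
    have h2 : (C *ᵥ w) ⬝ᵥ (C *ᵥ w) ≤ a * (w ⬝ᵥ w) := by
      rw [← hq]
      exact BarPsd.quad_sub hle w
    have h3 : (y ⬝ᵥ (C *ᵥ w)) ^ 2 ≤ (y ⬝ᵥ y) * ((C *ᵥ w) ⬝ᵥ (C *ᵥ w)) := by
      have := Finset.sum_mul_sq_le_sq_mul_sq Finset.univ y (C *ᵥ w)
      simp only [dotProduct, ← pow_two]
      exact this
    have hy : 0 ≤ y ⬝ᵥ y := by
      rw [dotProduct]
      exact Finset.sum_nonneg fun i _ => mul_self_nonneg _
    have hw0 : 0 ≤ w ⬝ᵥ w := by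
      rw [dotProduct]
      exact Finset.sum_nonneg fun i _ => mul_self_nonneg _
    rcases hw0.eq_or_lt with h0 | h0
    · rw [← h0]
      positivity
    · have h4 : (w ⬝ᵥ w) * (w ⬝ᵥ w) ≤ (a * (y ⬝ᵥ y)) * (w ⬝ᵥ w) := by
        calc (w ⬝ᵥ w) * (w ⬝ᵥ w) = (y ⬝ᵥ (C *ᵥ w)) ^ 2 := by rw [← h1, pow_two]
          _ ≤ (y ⬝ᵥ y) * ((C *ᵥ w) ⬝ᵥ (C *ᵥ w)) := h3
          _ ≤ (y ⬝ᵥ y) * (a * (w ⬝ᵥ w)) := mul_le_mul_of_nonneg_left h2 hy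
          _ = (a * (y ⬝ᵥ y)) * (w ⬝ᵥ w) := by ring
      exact le_of_mul_le_mul_right h4 h0
  have htr' : ∑ i, (fun k => C k i) ⬝ᵥ (fun k => C k i) ≤ t := by
    refine le_trans (le_of_eq ?_) htr
    rw [Matrix.trace]
    refine Finset.sum_congr rfl fun i _ => ?_
    rw [Matrix.diag_apply, Matrix.mul_apply, dotProduct]
    rfl
  obtain ⟨τ, hτ, hz⟩ := barrier (fun i k => C k i) a t ha ht hCC htr' n hn
  refine ⟨τ, hτ, fun x hx => ?_⟩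
  set z : ℝ := (4 * t + 4 * a * n) / Fintype.card ι with hzdef
  have hz0 : 0 ≤ z := by
    rw [hzdef]
    positivity
  rw [hq]
  set y := C *ᵥ x with hy
  have hyy : 0 ≤ y ⬝ᵥ y := by
    rw [dotProduct]
    exact Finset.sum_nonneg fun i _ => mul_self_nonneg _
  have hxx : 0 ≤ x ⬝ᵥ x := by
    rw [dotProduct]
    exact Finset.sum_nonneg fun i _ => mul_self_nonneg _
  -- `|y|^2 = ∑_τ x_i <u_i, y>`
  have h1 : y ⬝ᵥ y = ∑ i ∈ τ, x i * ((fun k => C k i) ⬝ᵥ y) := by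
    have e1 : y ⬝ᵥ y = ∑ i, x i * ((fun k => C k i) ⬝ᵥ y) := by
      have e2 : y ⬝ᵥ y = x ⬝ᵥ (Cᵀ *ᵥ y) := by
        conv_lhs => rw [hy]
        rw [Matrix.dotProduct_mulVec x Cᵀ, Matrix.vecMul_transpose]
      rw [e2, dotProduct]
      refine Finset.sum_congr rfl fun i _ => ?_
      congr 1
    rw [e1]
    refine (Finset.sum_subset (Finset.subset_univ τ) fun i _ hi => ?_).symm
    rw [hx i hi, zero_mul]
  have h2 : ∑ i ∈ τ, ((fun k => C k i) ⬝ᵥ y) ^ 2 ≤ z * (y ⬝ᵥ y) := by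
    refine le_trans (le_of_eq ?_) (BarPsd.quad_sub hz y)
    rw [Matrix.sum_mulVec, dotProduct_sum]
    refine Finset.sum_congr rfl fun i _ => ?_
    rw [Matrix.vecMulVec_mulVec, dotProduct_smul, MulOpposite.smul_eq_mul_unop, MulOpposite.unop_op,
      pow_two, dotProduct_comm y]
  have h3 : (∑ i ∈ τ, x i * ((fun k => C k i) ⬝ᵥ y)) ^ 2 ≤
      (∑ i ∈ τ, x i ^ 2) * ∑ i ∈ τ, ((fun k => C k i) ⬝ᵥ y) ^ 2 :=
    Finset.sum_mul_sq_le_sq_mul_sq _ _ _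
  have h4 : ∑ i ∈ τ, x i ^ 2 ≤ x ⬝ᵥ x := by
    rw [dotProduct]
    calc ∑ i ∈ τ, x i ^ 2 ≤ ∑ i, x i ^ 2 :=
          Finset.sum_le_sum_of_subset_of_nonneg (Finset.subset_univ τ) fun i _ _ => sq_nonneg _
      _ = ∑ i, x i * x i := Finset.sum_congr rfl fun i _ => pow_two _
  rcases hyy.eq_or_lt with h0 | h0
  · rw [← h0]
    positivity
  · have h5 : (y ⬝ᵥ y) * (y ⬝ᵥ y) ≤ (z * (x ⬝ᵥ x)) * (y ⬝ᵥ y) := by
      calc (y ⬝ᵥ y) * (y ⬝ᵥ y) = (∑ i ∈ τ, x i * ((fun k => C k i) ⬝ᵥ y)) ^ 2 := by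
            rw [← h1, pow_two]
        _ ≤ (∑ i ∈ τ, x i ^ 2) * ∑ i ∈ τ, ((fun k => C k i) ⬝ᵥ y) ^ 2 := h3
        _ ≤ (x ⬝ᵥ x) * (z * (y ⬝ᵥ y)) := by
            apply mul_le_mul h4 h2 _ hxx
            exact Finset.sum_nonneg fun i _ => sq_nonneg _
        _ = (z * (x ⬝ᵥ x)) * (y ⬝ᵥ y) := by ring
    exact le_of_mul_le_mul_right h5 h0

end BMTwo
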