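import Pool.Agent.Lib.MP_766f4a_gt.TAssemble
import Pool.Agent.Lib.MP_766f4a_gt.Polar

/-!
Module SANDWICH: from the good family in the position of John to the sandwich theorem for all
symmetric convex bodies, with the factor `A d^(2/3) (1 + log d)`.
-/

set_option autoImplicit false

namespace BMTwo

open Matrix Finset BMCube

/-- Every symmetric convex body is sandwiched between a parallelepiped and its dilate by
`A d^(2/3) (1 + log d)`. -/
theorem exists_sandwich : ∃ A : ℝ, 0 < A ∧ ∀ (d : ℕ), 0 < d → ∀ C : Set (Fin d → ℝ),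
    IsCompact C → Convex ℝ C → (interior C).Nonempty → (∀ x ∈ C, -x ∈ C) →
    ∃ f : (Fin d → ℝ) ≃ₗ[ℝ] (Fin d → ℝ), f '' BMCube.cube d ⊆ C ∧
      ∀ x ∈ C, (A * ((d : ℝ) ^ (2 / 3 : ℝ) * (1 + Real.log d)))⁻¹ • x ∈ f '' BMCube.cube d := by
  obtain ⟨A, hA, h⟩ := BMTwo.exists_basis
  refine ⟨A, hA, fun d hd C hCc hCconv hCint hCs => ?_⟩
  have hd' : (0 : ℝ) < d := by exact_mod_cast hd
  have hlog : 0 ≤ Real.log d := Real.log_nonneg (by exact_mod_cast hd)
  obtain ⟨T, hT1, hT2⟩ := john hd C hCc hCconv hCs hCint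
  obtain ⟨f, hf1, hf2⟩ := sandwich_of_john hd
    (A * ((d : ℝ) ^ (2 / 3 : ℝ) * (1 + Real.log d))) (by positivity)
    (h d hd) {x | T x ∈ C} (isCompact_preimage_equiv T hCc)
    (fun x hx y hy a b ha hb hab => by
      show T (a • x + b • y) ∈ C
      rw [map_add, map_smul, map_smul]
      exact hCconv hx hy ha hb hab)
    (fun x hx => by
      show T (-x) ∈ C
      rw [map_neg]; exact hCs _ hx)
    hT1 hT2
  refine ⟨f.trans T, ?_, ?_⟩
  · rintro _ ⟨e, he, rfl⟩
    exact hf1 ⟨e, he, rfl⟩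
  · intro x hx
    obtain ⟨e, he, hex⟩ := hf2 (T.symm x) (by show T (T.symm x) ∈ C; simpa using hx)
    refine ⟨e, he, ?_⟩
    show T (f e) = _
    rw [hex, map_smul, LinearEquiv.apply_symm_apply]

end BMTwo
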